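import Mathlib
import Pool.Agent.Helper390.CovarioA

set_option autoImplicit false
set_option linter.unusedSectionVars false

namespace Pool.Agent.Helper390.Covario

open MeasureTheory FourierTransform ProbabilityTheory
open scoped RealInnerProductSpace ENNReal Convolution

variable {E : Type*} [NormedAddCommGroup E] [InnerProductSpace ℝ E] [FiniteDimensional ℝ E]
  [MeasurableSpace E] [BorelSpace E]

/-- Exponentially weighted indicator function. -/
noncomputable def ef (D : Set E) (s : E) : E → ℂ :=
  D.indicator fun x => ((Real.exp ⟪s, x⟫ : ℝ) : ℂ)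

/-- Laplace transform of the indicator of `D`. -/
noncomputable def lap (D : Set E) (s : E) : ℝ := ∫ x in D, Real.exp ⟪s, x⟫

/-- The reflected set. -/
def refl (D : Set E) : Set E := {x | -x ∈ D}

theorem mem_refl {D : Set E} {x : E} : x ∈ refl D ↔ -x ∈ D := Iff.rfl

theorem isCompact_refl {D : Set E} (hD : IsCompact D) : IsCompact (refl D) := by
  have : refl D = (fun x => -x) '' D := by
    ext x
    simp [refl]
  rw [this]
  exact hD.image continuous_neg

theorem integrableOn_exp {D : Set E} (hD : IsCompact D) (s : E) :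
    IntegrableOn (fun x => Real.exp ⟪s, x⟫) D := by
  apply ContinuousOn.integrableOn_compact hD
  fun_prop

theorem integrable_ef {D : Set E} (hD : IsCompact D) (s : E) : Integrable (ef D s) := by
  unfold ef
  rw [integrable_indicator_iff hD.measurableSet]
  exact (integrableOn_exp hD s).ofReal

theorem norm_ef_sq (D : Set E) (s : E) (x : E) :
    ‖ef D s x‖ ^ 2 = D.indicator (fun x => Real.exp ⟪(2 : ℝ) • s, x⟫) x := by
  unfold ef
  by_cases hx : x ∈ D
  · rw [Set.indicator_of_mem hx, Set.indicator_of_mem hx, Complex.norm_real, Real.norm_eq_abs,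
      abs_of_pos (Real.exp_pos _), ← Real.exp_nat_mul, inner_smul_left]
    simp
  · rw [Set.indicator_of_notMem hx, Set.indicator_of_notMem hx]
    simp

theorem memLp_ef {D : Set E} (hD : IsCompact D) (s : E) : MemLp (ef D s) 2 := by
  rw [memLp_two_iff_integrable_sq_norm (integrable_ef hD s).aestronglyMeasurable]
  simp_rw [norm_ef_sq]
  rw [integrable_indicator_iff hD.measurableSet]
  exact integrableOn_exp hD _

theorem integral_norm_ef_sq {D : Set E} (hD : IsCompact D) (s : E) :
    ∫ x, ‖ef D s x‖ ^ 2 = lap D ((2 : ℝ) • s) := by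
  simp_rw [norm_ef_sq]
  rw [integral_indicator hD.measurableSet]
  rfl

theorem fourier_ef_zero {D : Set E} (hD : IsCompact D) (s : E) :
    𝓕 (ef D s) 0 = (lap D s : ℂ) := by
  rw [Real.fourier_eq]
  simp only [inner_zero_right, neg_zero, AddChar.map_zero_eq_one, one_smul]
  unfold ef lap
  rw [integral_indicator hD.measurableSet, integral_complex_ofReal]

theorem lap_refl (D : Set E) (s : E) : lap (refl D) s = lap D (-s) := by
  unfold lap
  have hmp : MeasurePreserving (fun x : E => -x) volume volume :=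
    Measure.measurePreserving_neg volume
  have := hmp.setIntegral_preimage_emb (Homeomorph.neg E).measurableEmbedding
    (fun x => Real.exp ⟪-s, x⟫) D
  rw [← this]
  simp only [inner_neg_left, inner_neg_right, neg_neg]
  rfl

/-- The weighted covariogram as a convolution. -/
theorem conv_ef {D : Set E} (hD : IsCompact D) (s : E) (z : E) :
    (ef D s ⋆[ContinuousLinearMap.mul ℂ ℂ] ef (refl D) s) z =
      ((Real.exp ⟪s, z⟫ * (volume (D ∩ ((fun y => y + z) '' D))).toReal : ℝ) : ℂ) := by
  have hm : MeasurableSet (D ∩ ((fun y => y + z) '' D)) :=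
    hD.measurableSet.inter (hD.image (continuous_id.add continuous_const)).measurableSet
  have hpt : ∀ t, ef D s t * ef (refl D) s (z - t) =
      (D ∩ ((fun y => y + z) '' D)).indicator (fun _ => ((Real.exp ⟪s, z⟫ : ℝ) : ℂ)) t := by
    intro t
    unfold ef
    by_cases h1 : t ∈ D
    · by_cases h2 : t ∈ (fun y => y + z) '' D
      · have h3 : z - t ∈ refl D := by
          obtain ⟨y, hy, rfl⟩ := h2
          rw [mem_refl]
          simpa using hy
        have h4 : t ∈ D ∩ (fun y => y + z) '' D := ⟨h1, h2⟩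
        rw [Set.indicator_of_mem h1, Set.indicator_of_mem h3, Set.indicator_of_mem h4,
          ← Complex.ofReal_mul, ← Real.exp_add, inner_sub_right]
        congr 2
        ring
      · have h3 : z - t ∉ refl D := by
          intro h
          apply h2
          exact ⟨-(z - t), h, by simp⟩
        have h4 : t ∉ D ∩ (fun y => y + z) '' D := fun h => h2 h.2
        rw [Set.indicator_of_notMem h3, Set.indicator_of_notMem h4, mul_zero]
    · have h4 : t ∉ D ∩ (fun y => y + z) '' D := fun h => h1 h.1
      rw [Set.indicator_of_notMem h1, Set.indicator_of_notMem h4, zero_mul]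
  rw [MeasureTheory.convolution_def]
  simp only [ContinuousLinearMap.mul_apply']
  simp_rw [hpt]
  rw [integral_indicator hm, setIntegral_const]
  simp only [Complex.real_smul, Complex.ofReal_mul, Measure.real]
  ring

theorem fourier_ef_mul {C D : Set E} (hC : IsCompact C) (hD : IsCompact D)
    (hcov : ∀ x : E, volume (D ∩ ((fun y => y + x) '' D)) = volume (C ∩ ((fun y => y + x) '' C)))
    (s ξ : E) :
    𝓕 (ef D s) ξ * 𝓕 (ef (refl D) s) ξ = 𝓕 (ef C s) ξ * 𝓕 (ef (refl C) s) ξ := by
  rw [← Real.fourier_mul_convolution_eq (integrable_ef hD s) (integrable_ef (isCompact_refl hD) s),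
    ← Real.fourier_mul_convolution_eq (integrable_ef hC s) (integrable_ef (isCompact_refl hC) s)]
  have : (ef D s ⋆[ContinuousLinearMap.mul ℂ ℂ] ef (refl D) s) =
      (ef C s ⋆[ContinuousLinearMap.mul ℂ ℂ] ef (refl C) s) := by
    ext z
    rw [conv_ef hD, conv_ef hC, hcov]
  rw [this]

theorem lap_mul {C D : Set E} (hC : IsCompact C) (hD : IsCompact D)
    (hcov : ∀ x : E, volume (D ∩ ((fun y => y + x) '' D)) = volume (C ∩ ((fun y => y + x) '' C)))
    (s : E) : lap D s * lap D (-s) = lap C s * lap C (-s) := by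
  have := fourier_ef_mul hC hD hcov s 0
  rw [fourier_ef_zero hD, fourier_ef_zero hC, fourier_ef_zero (isCompact_refl hD),
    fourier_ef_zero (isCompact_refl hC), lap_refl, lap_refl] at this
  exact_mod_cast this

/-- For a centrally symmetric set the reflected function is a translate. -/
theorem ef_refl_symm {C : Set E} {c : E} (hc : ∀ x ∈ C, (2 : ℝ) • c - x ∈ C) (s : E) :
    ef (refl C) s = (Real.exp (-⟪s, (2 : ℝ) • c⟫) : ℂ) •
      (ef C s ∘ fun v => v + (2 : ℝ) • c) := by
  ext x
  simp only [Pi.smul_apply, Function.comp_apply, smul_eq_mul]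
  unfold ef
  by_cases h : -x ∈ C
  · have h2 : x + (2 : ℝ) • c ∈ C := by
      have := hc _ h
      rwa [sub_neg_eq_add, add_comm] at this
    have h1 : x ∈ refl C := h
    rw [Set.indicator_of_mem h1, Set.indicator_of_mem h2, inner_add_right, Real.exp_add]
    push_cast
    rw [mul_comm, mul_assoc, ← Complex.exp_add]
    simp
  · have h2 : x + (2 : ℝ) • c ∉ C := by
      intro h'
      apply h
      have := hc _ h'
      rwa [show (2 : ℝ) • c - (x + (2 : ℝ) • c) = -x by abel] at this
    have h1 : x ∉ refl C := h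
    rw [Set.indicator_of_notMem h1, Set.indicator_of_notMem h2, mul_zero]

theorem norm_fourier_refl {C : Set E} {c : E} (hc : ∀ x ∈ C, (2 : ℝ) • c - x ∈ C) (s ξ : E) :
    ‖𝓕 (ef (refl C) s) ξ‖ = Real.exp (-⟪s, (2 : ℝ) • c⟫) * ‖𝓕 (ef C s) ξ‖ := by
  rw [ef_refl_symm hc]
  have h1 := congrFun (VectorFourier.fourierIntegral_comp_add_right Real.fourierChar
    (volume : Measure E) (innerₗ E) (ef C s) ((2 : ℝ) • c)) ξ
  have h2 : 𝓕 ((Real.exp (-⟪s, (2 : ℝ) • c⟫) : ℂ) • (ef C s ∘ fun v => v + (2 : ℝ) • c)) ξ =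
      (Real.exp (-⟪s, (2 : ℝ) • c⟫) : ℂ) • 𝓕 (ef C s ∘ fun v => v + (2 : ℝ) • c) ξ := by
    rw [Real.fourier_eq, Real.fourier_eq, ← integral_smul]
    refine integral_congr_ae (Filter.Eventually.of_forall fun x => ?_)
    simp only [Pi.smul_apply]
    rw [smul_comm]
  rw [h2, norm_smul]
  have h3 : 𝓕 (ef C s ∘ fun v => v + (2 : ℝ) • c) ξ = Real.fourierChar (innerₗ E ((2 : ℝ) • c) ξ) •
      𝓕 (ef C s) ξ := h1
  rw [h3, Circle.norm_smul, Complex.norm_real, Real.norm_eq_abs, abs_of_pos (Real.exp_pos _)]

end Pool.Agent.Helper390.Covario
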