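import Mathlib
import Pool.Agent.Helper390.CovarioB

set_option autoImplicit false
set_option linter.unusedSectionVars false

namespace Pool.Agent.Helper390.Covario

open MeasureTheory FourierTransform ProbabilityTheory
open scoped RealInnerProductSpace ENNReal

variable {E : Type*} [NormedAddCommGroup E] [InnerProductSpace ℝ E] [FiniteDimensional ℝ E]
  [MeasurableSpace E] [BorelSpace E]

theorem lap_pos {D : Set E} (hD : IsCompact D) (hv : (volume : Measure E) D ≠ 0) (s : E) :
    0 < lap D s := by
  unfold lap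
  rw [setIntegral_pos_iff_support_of_nonneg_ae]
  · have : Function.support (fun x : E => Real.exp ⟪s, x⟫) ∩ D = D := by
      ext x
      simp [Function.mem_support, (Real.exp_pos _).ne']
    rw [this]
    exact pos_iff_ne_zero.2 hv
  · exact Filter.Eventually.of_forall fun x => (Real.exp_pos _).le
  · exact integrableOn_exp hD s

/-- The key functional equation. -/
theorem key_eq {C D : Set E} (hC : IsCompact C) (hD : IsCompact D) {c : E}
    (hc : ∀ x ∈ C, (2 : ℝ) • c - x ∈ C)
    (hcov : ∀ x : E, volume (D ∩ ((fun y => y + x) '' D)) = volume (C ∩ ((fun y => y + x) '' C)))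
    (s : E) :
    lap D (-((2 : ℝ) • s)) * lap D s ^ 2 = lap D ((2 : ℝ) • s) * lap D (-s) ^ 2 := by
  have hDr := isCompact_refl hD
  have hCr := isCompact_refl hC
  obtain ⟨ma, pa⟩ := plancherel (integrable_ef hD s) (memLp_ef hD s)
  obtain ⟨mb, pb⟩ := plancherel (integrable_ef hDr s) (memLp_ef hDr s)
  obtain ⟨mc, pc⟩ := plancherel (integrable_ef hC s) (memLp_ef hC s)
  rw [integral_norm_ef_sq hD] at pa
  rw [integral_norm_ef_sq hDr, lap_refl] at pb
  rw [integral_norm_ef_sq hC] at pc
  have hnn : ∀ (K : Set E) (u : E), 0 ≤ lap K u := fun K u =>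
    integral_nonneg fun x => (Real.exp_pos _).le
  have hcont : ∀ {K : Set E}, IsCompact K → Continuous fun ξ => ‖𝓕 (ef K s) ξ‖ := by
    intro K hK
    have : Continuous (𝓕 (ef K s)) :=
      VectorFourier.fourierIntegral_continuous Real.continuous_fourierChar continuous_inner
        (integrable_ef hK s)
    exact this.norm
  have hprod : ∀ ξ, ‖𝓕 (ef D s) ξ‖ * ‖𝓕 (ef (refl D) s) ξ‖ =
      Real.exp (-⟪s, (2 : ℝ) • c⟫) * ‖𝓕 (ef C s) ξ‖ ^ 2 := by
    intro ξ
    rw [← norm_mul, fourier_ef_mul hC hD hcov, norm_mul, norm_fourier_refl hc]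
    ring
  have hreflC : ∀ u : E, lap C (-u) = Real.exp (-⟪u, (2 : ℝ) • c⟫) * lap C u := by
    intro u
    have := norm_fourier_refl hc u 0
    rw [fourier_ef_zero hCr, fourier_ef_zero hC, lap_refl, Complex.norm_real, Complex.norm_real,
      Real.norm_eq_abs, Real.norm_eq_abs, abs_of_nonneg (hnn _ _), abs_of_nonneg (hnn _ _)] at this
    exact this
  have hAB : √(lap D ((2 : ℝ) • s)) * √(lap D (-((2 : ℝ) • s))) =
      Real.exp (-⟪s, (2 : ℝ) • c⟫) * lap C ((2 : ℝ) • s) := by
    rw [← Real.sqrt_mul (hnn _ _), lap_mul hC hD hcov, hreflC]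
    rw [show lap C ((2 : ℝ) • s) * (Real.exp (-⟪(2 : ℝ) • s, (2 : ℝ) • c⟫) * lap C ((2 : ℝ) • s)) =
      (Real.exp (-⟪s, (2 : ℝ) • c⟫) * lap C ((2 : ℝ) • s)) ^ 2 by
        rw [inner_smul_left, mul_pow, ← Real.exp_nat_mul]
        simp only [conj_trivial]
        push_cast
        ring_nf]
    exact Real.sqrt_sq (mul_nonneg (Real.exp_pos _).le (hnn _ _))
  have h0 := cs_equality (hcont hD) (hcont hDr)
    ((memLp_two_iff_integrable_sq_norm ma.1).1 ma) ((memLp_two_iff_integrable_sq_norm mb.1).1 mb)
    (A := √(lap D ((2 : ℝ) • s))) (B := √(lap D (-((2 : ℝ) • s))))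
    (by simp_rw [hprod]; exact ((memLp_two_iff_integrable_sq_norm mc.1).1 mc).const_mul _)
    (by rw [pa, Real.sq_sqrt (hnn _ _)]) (by rw [pb, Real.sq_sqrt (hnn _ _)])
    (by simp_rw [hprod]; rw [integral_const_mul, pc, hAB]) 0
  rw [fourier_ef_zero hD, fourier_ef_zero hDr, lap_refl, Complex.norm_real, Complex.norm_real,
    Real.norm_eq_abs, Real.norm_eq_abs, abs_of_nonneg (hnn _ _), abs_of_nonneg (hnn _ _)] at h0
  have h1 := congrArg (fun r => r ^ 2) h0
  simp only [mul_pow] at h1
  rw [Real.sq_sqrt (hnn _ _), Real.sq_sqrt (hnn _ _)] at h1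
  exact h1

theorem mgf_eq_lap (D : Set E) (s : E) (t : ℝ) :
    mgf (fun x => ⟪s, x⟫) ((volume : Measure E).restrict D) t = lap D (t • s) := by
  unfold mgf lap
  simp only [inner_smul_left, conj_trivial]

theorem integrableExpSet_univ {D : Set E} (hD : IsCompact D) (s : E) :
    integrableExpSet (fun x => ⟪s, x⟫) ((volume : Measure E).restrict D) = Set.univ := by
  ext t
  simp only [integrableExpSet, Set.mem_ofPred_eq, Set.mem_univ, iff_true]
  have := integrableOn_exp hD (t • s)
  simp only [inner_smul_left, conj_trivial] at this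
  exact this

/-- The ratio of the two Laplace transforms is an exponential. -/
theorem log_ratio {C D : Set E} (hC : IsCompact C) (hD : IsCompact D) {c : E}
    (hv : (volume : Measure E) D ≠ 0)
    (hc : ∀ x ∈ C, (2 : ℝ) • c - x ∈ C)
    (hcov : ∀ x : E, volume (D ∩ ((fun y => y + x) '' D)) = volume (C ∩ ((fun y => y + x) '' C))) :
    ∃ m : E, ∀ s : E, Real.log (lap D s) - Real.log (lap D (-s)) = 2 * ⟪s, m⟫ := by
  refine ⟨(lap D 0)⁻¹ • ∫ x in D, x, fun s => ?_⟩
  set X : E → ℝ := fun x => ⟪s, x⟫ with hX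
  have hder : ∀ t : ℝ, HasDerivAt (fun t : ℝ => lap D (t • s))
      (∫ x in D, ⟪s, x⟫ * Real.exp (t * ⟪s, x⟫)) t := by
    intro t
    have := hasDerivAt_mgf (X := X) (μ := (volume : Measure E).restrict D) (t := t)
      (by rw [integrableExpSet_univ hD]; simp)
    have h2 : mgf X ((volume : Measure E).restrict D) = fun t : ℝ => lap D (t • s) := by
      ext t; exact mgf_eq_lap D s t
    rw [h2] at this
    exact this
  have hd0 : HasDerivAt (fun t : ℝ => lap D (t • s)) (∫ x in D, ⟪s, x⟫) 0 := by
    have := hder 0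
    simpa using this
  have hd1 : HasDerivAt (fun t : ℝ => lap D ((-t) • s)) (-(∫ x in D, ⟪s, x⟫)) 0 := by
    have h := HasDerivAt.scomp (h := fun t : ℝ => -t) (h' := -1) (g₁ := fun t : ℝ => lap D (t • s))
      (0 : ℝ) (by simpa using hd0) (hasDerivAt_neg (0 : ℝ))
    simpa [Function.comp_def] using h
  have hpos := lap_pos hD hv
  have hl0 := hd0.log (by simpa using (hpos _).ne')
  have hl1 := hd1.log (by simpa using (hpos _).ne')
  have hl := hl0.sub hl1
  have h2 : ∀ t : ℝ, Real.log (lap D ((2 * t) • s)) - Real.log (lap D ((-(2 * t)) • s)) =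
      2 * (Real.log (lap D (t • s)) - Real.log (lap D ((-t) • s))) := by
    intro t
    have hk := key_eq hC hD hc hcov (t • s)
    have hk' := congrArg Real.log hk
    rw [Real.log_mul (hpos _).ne' (pow_ne_zero _ (hpos _).ne'), Real.log_pow,
      Real.log_mul (hpos _).ne' (pow_ne_zero _ (hpos _).ne'), Real.log_pow, smul_smul] at hk'
    rw [neg_smul, neg_smul]
    push_cast at hk'
    linarith
  have := doubling (φ := fun t : ℝ => Real.log (lap D (t • s)) - Real.log (lap D ((-t) • s))) h2 hl
  simp only [one_smul, zero_smul, neg_zero, neg_smul] at this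
  rw [this, inner_smul_right]
  have hint : ∫ x in D, ⟪s, x⟫ = ⟪s, ∫ x in D, x⟫ := by
    rw [integral_inner]
    exact ContinuousOn.integrableOn_compact hD continuousOn_id
  rw [hint]
  field_simp
  ring

/-- Equality of all Laplace transforms forces equality of the restricted measures. -/
theorem restrict_eq_of_lap {C D : Set E} (hC : IsCompact C) (hD : IsCompact D)
    (hCv : (volume : Measure E) C ≠ 0) (hDv : (volume : Measure E) D ≠ 0)
    (h : ∀ s : E, lap D s = lap C s) :
    (volume : Measure E).restrict D = (volume : Measure E).restrict C := by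
  have : IsFiniteMeasure ((volume : Measure E).restrict D) :=
    ⟨by rw [Measure.restrict_apply_univ]; exact hD.measure_lt_top⟩
  have : IsFiniteMeasure ((volume : Measure E).restrict C) :=
    ⟨by rw [Measure.restrict_apply_univ]; exact hC.measure_lt_top⟩
  apply Measure.ext_of_charFun
  ext s
  have hm : mgf (fun x => ⟪s, x⟫) ((volume : Measure E).restrict D) =
      mgf (fun x => ⟪s, x⟫) ((volume : Measure E).restrict C) := by
    ext t
    rw [mgf_eq_lap, mgf_eq_lap, h]
  have h0 : (volume : Measure E).restrict D = 0 ↔ (volume : Measure E).restrict C = 0 := by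
    rw [Measure.restrict_eq_zero, Measure.restrict_eq_zero]
    exact ⟨fun h => absurd h hDv, fun h => absurd h hCv⟩
  have heq := eqOn_complexMGF_of_mgf' hm h0 (x := Complex.I)
    (by simp only [Set.mem_ofPred_eq]; rw [integrableExpSet_univ hD]; simp)
  rw [charFun_apply, charFun_apply]
  unfold complexMGF at heq
  simp only [real_inner_comm s, mul_comm _ Complex.I] at heq ⊢
  exact heq

end Pool.Agent.Helper390.Covario
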