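import Mathlib

set_option linter.unusedVariables false
set_option linter.unusedSectionVars false

section CubeA
open MeasureTheory Set
open scoped ENNReal

namespace Pool.Agent.Helper390.CubeSection

/-- The uniform probability measure on `[-1,1]`. -/
noncomputable def nu : Measure ℝ := (2⁻¹ : ℝ≥0∞) • volume.restrict (Icc (-1) 1)

instance : IsProbabilityMeasure nu := ⟨by
  simp only [nu, Measure.smul_apply, MeasurableSet.univ, Measure.restrict_apply, univ_inter,
    Real.volume_Icc, smul_eq_mul]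
  rw [show (1 - -1 : ℝ) = 2 by norm_num]
  simp [ENNReal.ofReal_ofNat, ENNReal.inv_mul_cancel]⟩

/-- The uniform probability measure on the cube `[-1,1]^m`. -/
noncomputable def PP (m : ℕ) : Measure (Fin m → ℝ) := Measure.pi (fun _ => nu)

instance (m : ℕ) : IsProbabilityMeasure (PP m) := by unfold PP; infer_instance

/-- Probability that `|s + ∑ a_k X_k| ≤ r` for independent uniform `X_k`. -/
noncomputable def N {m : ℕ} (a : Fin m → ℝ) (s r : ℝ) : ℝ :=
  (PP m).real {z | |s + ∑ k, a k * z k| ≤ r}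

lemma meas_lin {m : ℕ} (a : Fin m → ℝ) : Measurable (fun z : Fin m → ℝ => ∑ k, a k * z k) := by
  fun_prop

lemma integral_nu (f : ℝ → ℝ) : ∫ y, f y ∂nu = (1/2) * ∫ y in (-1:ℝ)..1, f y := by
  rw [nu, integral_smul_measure, intervalIntegral.integral_of_le (by norm_num),
    integral_Icc_eq_integral_Ioc]
  simp

lemma N_nonneg {m : ℕ} (a : Fin m → ℝ) (s r : ℝ) : 0 ≤ N a s r := measureReal_nonneg

lemma N_le_one {m : ℕ} (a : Fin m → ℝ) (s r : ℝ) : N a s r ≤ 1 := measureReal_le_one

lemma measurableSet_N {m : ℕ} (a : Fin m → ℝ) (s r : ℝ) :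
    MeasurableSet {z : Fin m → ℝ | |s + ∑ k, a k * z k| ≤ r} :=
  measurableSet_le (by fun_prop) measurable_const

/-- joint measurability of N in s -/
lemma measurable_N {m : ℕ} (a : Fin m → ℝ) (r : ℝ) : Measurable (fun s => N a s r) := by
  unfold N Measure.real
  apply Measurable.ennreal_toReal
  apply measurable_measure_prodMk_left (ν := PP m)
    (s := {p : ℝ × (Fin m → ℝ) | |p.1 + ∑ k, a k * p.2 k| ≤ r})
  exact measurableSet_le (by fun_prop) measurable_const

/-- Fubini: integrating out coordinate `i`. -/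
lemma lintegral_PP_succ {m : ℕ} (i : Fin (m+1)) (f : (Fin (m+1) → ℝ) → ℝ≥0∞) (hf : Measurable f) :
    ∫⁻ x, f x ∂(PP (m+1)) = ∫⁻ y, ∫⁻ z, f (i.insertNth y z) ∂(PP m) ∂nu := by
  have h := measurePreserving_piFinSuccAbove (fun _ : Fin (m+1) => nu) i
  have h2 := (h.symm _).lintegral_comp (f := f) hf
  rw [PP, ← h2, lintegral_prod]
  · rfl
  · apply Measurable.aemeasurable
    exact hf.comp (MeasurableEquiv.measurable _)

lemma sum_insertNth {m : ℕ} (i : Fin (m+1)) (a : Fin (m+1) → ℝ) (y : ℝ) (z : Fin m → ℝ) :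
    ∑ k, a k * (i.insertNth y z : Fin (m+1) → ℝ) k = a i * y + ∑ k, a (i.succAbove k) * z k := by
  rw [Fin.sum_univ_succAbove _ i]
  simp

/-- Law of `∑ a_k X_k` conditioned on coordinate `i`. -/
lemma lintegral_lin_succ {m : ℕ} (i : Fin (m+1)) (a : Fin (m+1) → ℝ) (φ : ℝ → ℝ≥0∞)
    (hφ : Measurable φ) :
    ∫⁻ x, φ (∑ k, a k * x k) ∂(PP (m+1)) =
      ∫⁻ y, ∫⁻ z, φ (a i * y + ∑ k, a (i.succAbove k) * z k) ∂(PP m) ∂nu := by
  have h := lintegral_PP_succ i (fun x => φ (∑ k, a k * x k)) (hφ.comp (meas_lin a))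
  rw [h]
  simp_rw [sum_insertNth]

lemma N_eq_toReal {m : ℕ} (a : Fin m → ℝ) (s r : ℝ) :
    N a s r = ((PP m) {z | |s + ∑ k, a k * z k| ≤ r}).toReal := rfl

lemma N_succ {m : ℕ} (i : Fin (m+1)) (a : Fin (m+1) → ℝ) (s r : ℝ) :
    N a s r = ∫ y, N (fun k => a (i.succAbove k)) (s + a i * y) r ∂nu := by
  rw [N_eq_toReal]
  have h1 : (PP (m+1)) {z | |s + ∑ k, a k * z k| ≤ r} =
      ∫⁻ y, (PP m) {z | |(s + a i * y) + ∑ k, a (i.succAbove k) * z k| ≤ r} ∂nu := by
    rw [← lintegral_indicator_one (measurableSet_N a s r)]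
    have := lintegral_PP_succ i (({z | |s + ∑ k, a k * z k| ≤ r} : Set (Fin (m+1) → ℝ)).indicator 1)
      (measurable_one.indicator (measurableSet_N a s r))
    rw [this]
    congr 1
    ext y
    rw [← lintegral_indicator_one (measurableSet_N _ _ r)]
    congr 1
    ext z
    simp only [indicator, Set.mem_ofPred_eq, sum_insertNth, Pi.one_apply, add_assoc]
  rw [h1, ← integral_toReal]
  · rfl
  · apply Measurable.aemeasurable
    have := (measurable_N (fun k => a (i.succAbove k)) r)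
    apply measurable_measure_prodMk_left (ν := PP m)
      (s := {p : ℝ × (Fin m → ℝ) | |(s + a i * p.1) + ∑ k, a (i.succAbove k) * p.2 k| ≤ r})
    exact measurableSet_le (by fun_prop) measurable_const
  · exact ae_of_all _ fun y => measure_lt_top _ _

lemma intInt_N {m : ℕ} (a : Fin m → ℝ) (r : ℝ) (c d : ℝ) :
    IntervalIntegrable (fun s => N a s r) volume c d := by
  apply intervalIntegrable_iff.2
  apply Measure.integrableOn_of_bounded (M := 1)
  · simp
  · exact (measurable_N a r).aestronglyMeasurable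
  · exact ae_of_all _ fun x => by
      rw [Real.norm_eq_abs, abs_of_nonneg (N_nonneg _ _ _)]
      exact N_le_one _ _ _

/-- Averaging over a symmetric interval preserves being even and antitone in `|s|`. -/
lemma avg_anti (h : ℝ → ℝ) (hi : ∀ c d, IntervalIntegrable h volume c d)
    (ha : ∀ s s', |s| ≤ |s'| → h s' ≤ h s) (u : ℝ) (s s' : ℝ) (hs : |s| ≤ |s'|) :
    ∫ y in (-1:ℝ)..1, h (s' + u * y) ≤ ∫ y in (-1:ℝ)..1, h (s + u * y) := by
  have he : ∀ s, h (-s) = h s := fun s =>
    le_antisymm (ha _ _ (by simp)) (ha _ _ (by simp))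
  rcases eq_or_ne u 0 with rfl | hu
  · simp only [zero_mul, add_zero, intervalIntegral.integral_const, smul_eq_mul]
    have := ha s s' hs
    nlinarith
  -- reflection in u
  have hneg : ∀ s, ∫ y in (-1:ℝ)..1, h (s + u * y) = ∫ y in (-1:ℝ)..1, h (s + |u| * y) := by
    intro s
    rcases abs_cases u with ⟨h1, _⟩ | ⟨h1, _⟩
    · rw [h1]
    · rw [h1]
      have := intervalIntegral.integral_comp_neg (a := (-1:ℝ)) (b := 1) (fun y => h (s + -u * y))
      simp only [neg_neg] at this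
      rw [← this]
      congr 1
      ext y
      ring_nf
  rw [hneg, hneg]
  set v := |u| with hv
  have hvpos : 0 < v := abs_pos.2 hu
  have hform : ∀ s, ∫ y in (-1:ℝ)..1, h (s + v * y) = v⁻¹ * ∫ x in (s - v)..(s + v), h x := by
    intro s
    have := intervalIntegral.integral_comp_add_mul (a := (-1:ℝ)) (b := 1) h hvpos.ne' s
    rw [this, smul_eq_mul]
    congr 2 <;> ring
  have hsymm : ∀ s, ∫ y in (-1:ℝ)..1, h (s + v * y) = ∫ y in (-1:ℝ)..1, h (|s| + v * y) := by
    intro s
    rcases abs_cases s with ⟨h1, _⟩ | ⟨h1, _⟩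
    · rw [h1]
    · rw [h1]
      have := intervalIntegral.integral_comp_neg (a := (-1:ℝ)) (b := 1) (fun y => h (-s + v * y))
      simp only [neg_neg] at this
      rw [← this]
      congr 1
      ext y
      rw [← he]
      ring_nf
  rw [hsymm s, hsymm s', hform, hform]
  set p := |s| with hp
  set q := |s'| with hq
  have hp0 : 0 ≤ p := abs_nonneg _
  apply mul_le_mul_of_nonneg_left _ (inv_nonneg.2 hvpos.le)
  rw [← sub_nonneg, intervalIntegral.integral_interval_sub_interval_comm (hi _ _) (hi _ _) (hi _ _)]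
  have e1 : ∫ x in (p - v)..(q - v), h x = ∫ x in (0:ℝ)..(q - p), h (p - v + x) := by
    rw [intervalIntegral.integral_comp_add_left]; congr 1 <;> ring
  have e2 : ∫ x in (p + v)..(q + v), h x = ∫ x in (0:ℝ)..(q - p), h (p + v + x) := by
    rw [intervalIntegral.integral_comp_add_left]; congr 1 <;> ring
  rw [e1, e2, sub_nonneg]
  apply intervalIntegral.integral_mono_on (by linarith)
  · have := (hi (p + v) (q + v)).comp_add_left (p + v)
    convert this using 1 <;> ring
  · have := (hi (p - v) (q - v)).comp_add_left (p - v)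
    convert this using 1 <;> ring
  · intro x hx
    apply ha
    rw [abs_le]
    constructor
    · rw [abs_of_nonneg (by linarith [hx.1])]; linarith [hx.1]
    · rw [abs_of_nonneg (by linarith [hx.1])]; linarith [hx.1]

lemma N_anti {m : ℕ} : ∀ (a : Fin m → ℝ) (r s s' : ℝ), |s| ≤ |s'| → N a s' r ≤ N a s r := by
  induction m with
  | zero =>
    intro a r s s' h
    unfold N
    refine measureReal_mono ?_ (measure_ne_top _ _)
    intro z hz
    simp only [Finset.univ_eq_empty, Finset.sum_empty, add_zero, Set.mem_ofPred_eq] at hz ⊢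
    linarith
  | succ m ih =>
    intro a r s s' h
    rw [N_succ 0, N_succ 0, integral_nu, integral_nu]
    apply mul_le_mul_of_nonneg_left _ (by norm_num)
    exact avg_anti (fun s => N (fun k => a (Fin.succAbove 0 k)) s r) (intInt_N _ _)
      (fun s s' h => ih _ _ _ _ h) (a 0) s s' h

lemma N_even {m : ℕ} (a : Fin m → ℝ) (s r : ℝ) : N a (-s) r = N a s r :=
  le_antisymm (N_anti _ _ _ _ (by simp)) (N_anti _ _ _ _ (by simp))

lemma N_abs {m : ℕ} (a : Fin m → ℝ) (s r : ℝ) : N a |s| r = N a s r :=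
  le_antisymm (N_anti _ _ _ _ (by simp)) (N_anti _ _ _ _ (by simp))

end Pool.Agent.Helper390.CubeSection
end CubeA

section CubeB
open MeasureTheory Set
open scoped ENNReal

namespace Pool.Agent.Helper390.CubeSection

lemma lintegral_nu (f : ℝ → ℝ≥0∞) : ∫⁻ y, f y ∂nu = 2⁻¹ * ∫⁻ y in Icc (-1:ℝ) 1, f y := by
  rw [nu, lintegral_smul_measure, smul_eq_mul]

/-- affine change of variables -/
lemma lintegral_nu_affine (b c : ℝ) (hb : b ≠ 0) (φ : ℝ → ℝ≥0∞) (hφ : Measurable φ) :
    ∫⁻ y, φ (b * y + c) ∂nu =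
      ENNReal.ofReal (1 / (2 * |b|)) * ∫⁻ s, φ s * ({s | |s - c| ≤ |b|} : Set ℝ).indicator 1 s := by
  have hbpos : 0 < |b| := abs_pos.2 hb
  set F : ℝ → ℝ≥0∞ := fun s => φ s * ({s | |s - c| ≤ |b|} : Set ℝ).indicator 1 s with hF
  have hms : MeasurableSet {s : ℝ | |s - c| ≤ |b|} :=
    measurableSet_le (by fun_prop) measurable_const
  have hFm : Measurable F := hφ.mul (measurable_one.indicator hms)
  rw [lintegral_nu, ← lintegral_indicator measurableSet_Icc]
  have h1 : ∀ y, (Icc (-1:ℝ) 1).indicator (fun y => φ (b * y + c)) y = F (b * y + c) := by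
    intro y
    simp only [hF]
    by_cases hy : y ∈ Icc (-1:ℝ) 1
    · have : b * y + c ∈ {s : ℝ | |s - c| ≤ |b|} := by
        simp only [Set.mem_ofPred_eq, add_sub_cancel_right, abs_mul]
        have : |y| ≤ 1 := abs_le.2 ⟨hy.1, hy.2⟩
        nlinarith
      rw [indicator_of_mem hy, indicator_of_mem this]; simp
    · have : b * y + c ∉ {s : ℝ | |s - c| ≤ |b|} := by
        simp only [Set.mem_ofPred_eq, add_sub_cancel_right, abs_mul, not_le]
        have : 1 < |y| := by
          by_contra hcon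
          exact hy ⟨(abs_le.1 (not_lt.1 hcon)).1, (abs_le.1 (not_lt.1 hcon)).2⟩
        nlinarith
      rw [indicator_of_notMem hy, indicator_of_notMem this]; simp
  simp_rw [h1]
  have h2 : ∫⁻ y, F (b * y + c) = ENNReal.ofReal |b⁻¹| * ∫⁻ y, F y := by
    have e1 : ∫⁻ y, F (b * y + c) = ∫⁻ y, (fun s => F (s + c)) y ∂(Measure.map (b * ·) volume) := by
      rw [lintegral_map]
      · exact hFm.comp (measurable_add_const c)
      · exact measurable_const_mul b
    rw [e1, Real.map_volume_mul_left hb, lintegral_smul_measure, smul_eq_mul,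
      lintegral_add_right_eq_self F c]
  rw [h2, ← mul_assoc]
  congr 1
  rw [show (2:ℝ≥0∞)⁻¹ = ENNReal.ofReal (1/2) by
    rw [one_div, ENNReal.ofReal_inv_of_pos (by norm_num)]; simp, ← ENNReal.ofReal_mul (by norm_num)]
  congr 1
  rw [abs_inv]
  field_simp

/-- density of `∑ a_k X_k` obtained by integrating out coordinate `i` -/
noncomputable def dens {m : ℕ} (i : Fin (m+1)) (a : Fin (m+1) → ℝ) (s : ℝ) : ℝ :=
  N (fun k => a (i.succAbove k)) s |a i| / (2 * |a i|)

lemma dens_nonneg {m : ℕ} (i : Fin (m+1)) (a : Fin (m+1) → ℝ) (s : ℝ) : 0 ≤ dens i a s := by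
  unfold dens
  have := N_nonneg (fun k => a (i.succAbove k)) s |a i|
  positivity

lemma dens_anti {m : ℕ} (i : Fin (m+1)) (a : Fin (m+1) → ℝ) (s s' : ℝ) (h : |s| ≤ |s'|) :
    dens i a s' ≤ dens i a s := by
  unfold dens
  have := N_anti (fun k => a (i.succAbove k)) |a i| s s' h
  gcongr

lemma measurable_dens {m : ℕ} (i : Fin (m+1)) (a : Fin (m+1) → ℝ) : Measurable (dens i a) := by
  unfold dens
  exact (measurable_N _ _).div_const _

lemma lintegral_law {m : ℕ} (i : Fin (m+1)) (a : Fin (m+1) → ℝ) (hai : a i ≠ 0) (φ : ℝ → ℝ≥0∞)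
    (hφ : Measurable φ) :
    ∫⁻ x, φ (∑ k, a k * x k) ∂(PP (m+1)) = ∫⁻ s, φ s * ENNReal.ofReal (dens i a s) := by
  have hpos : 0 < |a i| := abs_pos.2 hai
  rw [lintegral_lin_succ i a φ hφ, lintegral_lintegral_swap]
  · simp_rw [lintegral_nu_affine (a i) _ hai φ hφ]
    rw [lintegral_const_mul']
    · rw [lintegral_lintegral_swap]
      · rw [← lintegral_const_mul']
        · congr 1
          ext s
          rw [lintegral_const_mul]
          · rw [← mul_assoc, mul_comm (ENNReal.ofReal _) (φ s), mul_assoc]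
            congr 1
            have e : ∀ z : Fin m → ℝ,
                ({s | |s - ∑ k, a (i.succAbove k) * z k| ≤ |a i|} : Set ℝ).indicator
                  (1 : ℝ → ℝ≥0∞) s =
                ({z | |(-s) + ∑ k, a (i.succAbove k) * z k| ≤ |a i|} : Set (Fin m → ℝ)).indicator
                  1 z := by
              intro z
              simp only [indicator, Set.mem_ofPred_eq, Pi.one_apply]
              congr 1
              rw [← abs_neg, neg_sub, sub_eq_neg_add]
            simp_rw [e]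
            rw [lintegral_indicator_one (measurableSet_N _ _ _)]
            rw [← ENNReal.ofReal_toReal (measure_ne_top (PP m) _), ← N_eq_toReal, N_even,
              ← ENNReal.ofReal_mul (by positivity)]
            congr 1
            unfold dens
            ring
          · apply measurable_one.indicator (s := {z : Fin m → ℝ | |s - ∑ k, a (i.succAbove k) * z k| ≤ |a i|})
            exact measurableSet_le (by fun_prop) measurable_const
        · exact ENNReal.ofReal_ne_top
      · apply Measurable.aemeasurable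
        apply Measurable.mul
        · exact hφ.comp measurable_snd
        · apply measurable_one.indicator (s := {p : (Fin m → ℝ) × ℝ | |p.2 - ∑ k, a (i.succAbove k) * p.1 k| ≤ |a i|})
          exact measurableSet_le (by fun_prop) measurable_const
    · exact ENNReal.ofReal_ne_top
  · apply Measurable.aemeasurable
    apply hφ.comp
    fun_prop

end Pool.Agent.Helper390.CubeSection
end CubeB

section CubeC
open MeasureTheory Set
open scoped ENNReal

namespace Pool.Agent.Helper390.CubeSection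

lemma integrable_nu_of_continuous (f : ℝ → ℝ) (hf : Continuous f) : Integrable f nu := by
  unfold nu
  apply Integrable.smul_measure _ (by simp)
  exact (hf.continuousOn.integrableOn_compact isCompact_Icc)

lemma lintegral_nu_sq (b c : ℝ) :
    ∫⁻ y, ENNReal.ofReal ((b * y + c) ^ 2) ∂nu = ENNReal.ofReal (c ^ 2 + b ^ 2 / 3) := by
  rw [← ofReal_integral_eq_lintegral_ofReal]
  · congr 1
    rw [integral_nu]
    have e : ∫ y in (-1:ℝ)..1, (b * y + c) ^ 2 =
        (b ^ 2 * 1 ^ 3 / 3 + b * c * 1 ^ 2 + c ^ 2 * 1) -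
        (b ^ 2 * (-1) ^ 3 / 3 + b * c * (-1) ^ 2 + c ^ 2 * (-1)) := by
      apply intervalIntegral.integral_eq_sub_of_hasDerivAt
        (f := fun y => b ^ 2 * y ^ 3 / 3 + b * c * y ^ 2 + c ^ 2 * y)
      · intro y _
        have h1 := ((((hasDerivAt_pow 3 y).const_mul (b ^ 2)).div_const 3).add
          ((hasDerivAt_pow 2 y).const_mul (b * c))).add ((hasDerivAt_id y).const_mul (c ^ 2))
        convert h1 using 1
        · ext y
          simp only [Pi.add_apply, id]
        · norm_num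
          ring
      · exact Continuous.intervalIntegrable (by fun_prop) _ _
    rw [e]
    ring
  · exact integrable_nu_of_continuous _ (by fun_prop)
  · exact ae_of_all _ fun y => sq_nonneg _

lemma second_moment {m : ℕ} : ∀ (a : Fin m → ℝ),
    ∫⁻ x, ENNReal.ofReal ((∑ k, a k * x k) ^ 2) ∂(PP m) = ENNReal.ofReal ((∑ k, a k ^ 2) / 3) := by
  induction m with
  | zero => intro a; simp
  | succ m ih =>
    intro a
    have h := lintegral_lin_succ 0 a (fun s => ENNReal.ofReal (s ^ 2)) (by fun_prop)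
    rw [h, lintegral_lintegral_swap]
    · simp_rw [lintegral_nu_sq]
      have : ∀ z : Fin m → ℝ, ENNReal.ofReal ((∑ k, a (Fin.succAbove 0 k) * z k) ^ 2 + a 0 ^ 2 / 3)
          = ENNReal.ofReal ((∑ k, a (Fin.succAbove 0 k) * z k) ^ 2) + ENNReal.ofReal (a 0 ^ 2 / 3) := by
        intro z
        rw [ENNReal.ofReal_add (sq_nonneg _) (by positivity)]
      simp_rw [this]
      rw [lintegral_add_right _ measurable_const, ih (fun k => a (Fin.succAbove 0 k)),
        lintegral_const, measure_univ, mul_one, ← ENNReal.ofReal_add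
        (div_nonneg (Finset.sum_nonneg fun _ _ => sq_nonneg _) (by norm_num)) (by positivity)]
      congr 1
      rw [Fin.sum_univ_succAbove _ 0]
      ring
    · apply Measurable.aemeasurable
      fun_prop

/-- Lipschitz bound for `N` in the offset variable -/
lemma N_lip {m : ℕ} (i : Fin (m+1)) (a : Fin (m+1) → ℝ) (hai : a i ≠ 0) (r s s' : ℝ) :
    |N a s r - N a s' r| ≤ |s - s'| / |a i| := by
  have hpos : 0 < |a i| := abs_pos.2 hai
  set h : ℝ → ℝ := fun s => N (fun k => a (i.succAbove k)) s r with hh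
  have hi : ∀ c d, IntervalIntegrable h volume c d := intInt_N _ _
  have hform : ∀ s, N a s r = (1/2) * ((a i)⁻¹ * ∫ x in (s - a i)..(s + a i), h x) := by
    intro s
    rw [N_succ i, integral_nu]
    have := intervalIntegral.integral_comp_add_mul (a := (-1:ℝ)) (b := 1) h hai s
    rw [this, smul_eq_mul]
    congr 3 <;> ring
  rw [hform, hform, ← mul_sub, ← mul_sub,
    intervalIntegral.integral_interval_sub_interval_comm (hi _ _) (hi _ _) (hi _ _)]
  rw [abs_mul, abs_mul, abs_inv]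
  have b1 : |∫ x in (s - a i)..(s' - a i), h x| ≤ 1 * |(s' - a i) - (s - a i)| := by
    rw [← Real.norm_eq_abs]
    apply intervalIntegral.norm_integral_le_of_norm_le_const
    intro x _
    rw [Real.norm_eq_abs, abs_of_nonneg (N_nonneg _ _ _)]
    exact N_le_one _ _ _
  have b2 : |∫ x in (s + a i)..(s' + a i), h x| ≤ 1 * |(s' + a i) - (s + a i)| := by
    rw [← Real.norm_eq_abs]
    apply intervalIntegral.norm_integral_le_of_norm_le_const
    intro x _
    rw [Real.norm_eq_abs, abs_of_nonneg (N_nonneg _ _ _)]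
    exact N_le_one _ _ _
  have b3 : |(∫ x in (s - a i)..(s' - a i), h x) - ∫ x in (s + a i)..(s' + a i), h x| ≤
      2 * |s - s'| := by
    calc _ ≤ _ := abs_sub _ _
      _ ≤ 1 * |(s' - a i) - (s - a i)| + 1 * |(s' + a i) - (s + a i)| := add_le_add b1 b2
      _ = 2 * |s - s'| := by
        rw [show (s' - a i) - (s - a i) = -(s - s') by ring,
          show (s' + a i) - (s + a i) = -(s - s') by ring, abs_neg]
        ring
  calc |(1/2:ℝ)| * (|a i|⁻¹ * |(∫ x in (s - a i)..(s' - a i), h x) - ∫ x in (s + a i)..(s' + a i), h x|)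
      ≤ (1/2) * (|a i|⁻¹ * (2 * |s - s'|)) := by
        rw [abs_of_nonneg (by norm_num : (0:ℝ) ≤ 1/2)]
        gcongr
    _ = |s - s'| / |a i| := by field_simp

lemma continuous_N {m : ℕ} (i : Fin (m+1)) (a : Fin (m+1) → ℝ) (hai : a i ≠ 0) (r : ℝ) :
    Continuous (fun s => N a s r) := by
  have hpos : 0 < |a i| := abs_pos.2 hai
  apply LipschitzWith.continuous (K := Real.toNNReal (|a i|⁻¹))
  apply LipschitzWith.of_dist_le_mul
  intro s s'
  rw [Real.dist_eq, Real.dist_eq, Real.coe_toNNReal _ (by positivity)]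
  refine (N_lip i a hai r s s').trans (le_of_eq ?_)
  ring

end Pool.Agent.Helper390.CubeSection
end CubeC

section CubeD
open MeasureTheory Set
open scoped ENNReal

namespace Pool.Agent.Helper390.CubeSection

lemma integral_tent (R : ℝ) (hR : 0 ≤ R) : ∫ s : ℝ, max (R ^ 2 - s ^ 2) 0 = 4 * R ^ 3 / 3 := by
  have h1 : (fun s : ℝ => max (R ^ 2 - s ^ 2) 0) = (Icc (-R) R).indicator (fun s => R ^ 2 - s ^ 2) := by
    ext s
    by_cases hs : s ∈ Icc (-R) R
    · rw [indicator_of_mem hs, max_eq_left]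
      have := abs_le.2 ⟨hs.1, hs.2⟩
      have h2 : s ^ 2 ≤ R ^ 2 := sq_le_sq' hs.1 hs.2
      linarith
    · rw [indicator_of_notMem hs, max_eq_right]
      have : R ≤ |s| := by
        by_contra hcon
        exact hs ⟨(abs_le.1 (not_le.1 hcon).le).1, (abs_le.1 (not_le.1 hcon).le).2⟩
      have h2 : R ^ 2 ≤ s ^ 2 := by
        rw [← sq_abs s]; exact pow_le_pow_left₀ hR this 2
      linarith
  rw [h1, integral_indicator measurableSet_Icc, integral_Icc_eq_integral_Ioc,
    ← intervalIntegral.integral_of_le (by linarith)]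
  have e : ∫ y in (-R)..R, (R ^ 2 - y ^ 2) =
      (R ^ 2 * R - R ^ 3 / 3) - (R ^ 2 * (-R) - (-R) ^ 3 / 3) := by
    apply intervalIntegral.integral_eq_sub_of_hasDerivAt
      (f := fun y => R ^ 2 * y - y ^ 3 / 3)
    · intro y _
      have h1 := ((hasDerivAt_id y).const_mul (R ^ 2)).sub ((hasDerivAt_pow 3 y).div_const 3)
      convert h1 using 1
      · ext y
        simp
      · norm_num
    · exact Continuous.intervalIntegrable (by fun_prop) _ _
  rw [e]; ring

lemma integrable_tent (R : ℝ) : Integrable (fun s : ℝ => max (R ^ 2 - s ^ 2) 0) := by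
  apply Continuous.integrable_of_hasCompactSupport
  · fun_prop
  · apply HasCompactSupport.intro (K := Icc (-|R|) |R|) isCompact_Icc
    intro s hs
    apply max_eq_right
    have : |R| ≤ |s| := by
      by_contra hcon
      exact hs ⟨(abs_le.1 (not_le.1 hcon).le).1, (abs_le.1 (not_le.1 hcon).le).2⟩
    have h2 : R ^ 2 ≤ s ^ 2 := by
      rw [← sq_abs s, ← sq_abs R]; exact pow_le_pow_left₀ (abs_nonneg _) this 2
    linarith

section bathtub

variable (q : ℝ → ℝ) (hq0 : ∀ s, 0 ≤ q s) (hanti : ∀ s s', |s| ≤ |s'| → q s' ≤ q s)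
  (hmeas : Measurable q) (hint : Integrable q) (hint2 : Integrable (fun s => s ^ 2 * q s))

include hanti in
lemma min_eq (c : ℝ) (hc : 0 ≤ c) (s : ℝ) :
    min (q s) (q c) = q s - (Icc (-c) c).indicator q s + (Icc (-c) c).indicator (fun _ => q c) s := by
  by_cases hs : s ∈ Icc (-c) c
  · rw [indicator_of_mem hs, indicator_of_mem hs, min_eq_right]
    · ring
    · apply hanti
      rw [abs_of_nonneg hc]
      exact abs_le.2 ⟨hs.1, hs.2⟩
  · rw [indicator_of_notMem hs, indicator_of_notMem hs, min_eq_left]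
    · ring
    · apply hanti
      rw [abs_of_nonneg hc]
      by_contra hcon
      exact hs ⟨(abs_le.1 (not_le.1 hcon).le).1, (abs_le.1 (not_le.1 hcon).le).2⟩

include hq0 in
lemma tub_nonneg (c R s : ℝ) :
    0 ≤ s ^ 2 * q s - R ^ 2 * min (q s) (q c) + q c * max (R ^ 2 - s ^ 2) 0 := by
  have h1 := hq0 s
  have h2 := hq0 c
  rcases le_total (s ^ 2) (R ^ 2) with h | h
  · rw [max_eq_left (by linarith)]
    have h3 : min (q s) (q c) ≤ q c := min_le_right _ _
    have h4 : min (q s) (q c) ≤ q s := min_le_left _ _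
    nlinarith [sq_nonneg s]
  · rw [max_eq_right (by linarith)]
    have h4 : min (q s) (q c) ≤ q s := min_le_left _ _
    have h5 : 0 ≤ min (q s) (q c) := le_min h1 h2
    nlinarith [sq_nonneg s, sq_nonneg R]

include hint hanti in
lemma integrable_min (c : ℝ) (hc : 0 ≤ c) : Integrable (fun s => min (q s) (q c)) := by
  have : (fun s => min (q s) (q c)) = fun s => q s - (Icc (-c) c).indicator q s
      + (Icc (-c) c).indicator (fun _ => q c) s := by
    ext s; exact min_eq q hanti c hc s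
  rw [this]
  apply Integrable.add
  · exact hint.sub (hint.indicator measurableSet_Icc)
  · apply IntegrableOn.integrable_indicator _ measurableSet_Icc
    exact integrableOn_const (by simp)

include hint hanti in
lemma integral_min (c : ℝ) (hc : 0 ≤ c) :
    ∫ s, min (q s) (q c) = (∫ s, q s) - (∫ s in Icc (-c) c, q s) + 2 * c * q c := by
  have : (fun s => min (q s) (q c)) = fun s => q s - (Icc (-c) c).indicator q s
      + (Icc (-c) c).indicator (fun _ => q c) s := by
    ext s; exact min_eq q hanti c hc s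
  rw [this, integral_add, integral_sub hint (hint.indicator measurableSet_Icc),
    integral_indicator measurableSet_Icc, integral_indicator measurableSet_Icc]
  · simp only [integral_const, MeasurableSet.univ, measureReal_restrict_apply, univ_inter,
      Real.volume_real_Icc, smul_eq_mul]
    rw [max_eq_left (by linarith)]
    ring
  · exact hint.sub (hint.indicator measurableSet_Icc)
  · apply IntegrableOn.integrable_indicator _ measurableSet_Icc
    exact integrableOn_const (by simp)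

include hanti hint hint2 in
lemma tub_integral (c R : ℝ) (hc : 0 ≤ c) (hR : 0 ≤ R) :
    ∫ s, (s ^ 2 * q s - R ^ 2 * min (q s) (q c) + q c * max (R ^ 2 - s ^ 2) 0) =
    (∫ s, s ^ 2 * q s) - R ^ 2 * ((∫ s, q s) - (∫ s in Icc (-c) c, q s) + 2 * c * q c)
      + q c * (4 * R ^ 3 / 3) := by
  have i1 := integrable_min q hanti hint c hc
  rw [integral_add, integral_sub hint2, integral_const_mul, integral_const_mul,
    integral_min q hanti hint c hc, integral_tent R hR]
  · exact i1.const_mul _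
  · exact hint2.sub (i1.const_mul _)
  · exact (integrable_tent R).const_mul _

include hq0 hanti hint hint2 in
lemma bathtub (c R : ℝ) (hc : 0 ≤ c) (hR : 0 ≤ R) :
    R ^ 2 * ((∫ s, q s) - (∫ s in Icc (-c) c, q s) + 2 * c * q c) ≤
      (∫ s, s ^ 2 * q s) + q c * (4 * R ^ 3 / 3) := by
  have h := tub_integral q hanti hint hint2 c R hc hR
  have h2 : 0 ≤ ∫ s, (s ^ 2 * q s - R ^ 2 * min (q s) (q c) + q c * max (R ^ 2 - s ^ 2) 0) :=
    integral_nonneg (fun s => tub_nonneg q hq0 c R s)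
  linarith

include hq0 hanti hint hint2 in
lemma bathtub_strict (hcont : Continuous q) (c R : ℝ) (hc : 0 ≤ c) (hR : 0 < R) (hM : 0 < q c) :
    R ^ 2 * ((∫ s, q s) - (∫ s in Icc (-c) c, q s) + 2 * c * q c) <
      (∫ s, s ^ 2 * q s) + q c * (4 * R ^ 3 / 3) := by
  have h := tub_integral q hanti hint hint2 c R hc hR.le
  set g : ℝ → ℝ := fun s => s ^ 2 * q s - R ^ 2 * min (q s) (q c) + q c * max (R ^ 2 - s ^ 2) 0
    with hg
  have hgn : ∀ s, 0 ≤ g s := fun s => tub_nonneg q hq0 c R s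
  have hgc : Continuous g := by fun_prop
  have hgi : Integrable g := by
    apply Integrable.add
    · exact hint2.sub ((integrable_min q hanti hint c hc).const_mul _)
    · exact (integrable_tent R).const_mul _
  have hpos : 0 < ∫ s, g s := by
    apply lt_of_le_of_ne (integral_nonneg hgn)
    intro h0
    have hae : g =ᵐ[volume] 0 := (integral_eq_zero_iff_of_nonneg hgn hgi).1 h0.symm
    have hall : g = 0 := (hgc.ae_eq_iff_eq volume continuous_const).1 hae
    -- for s < R near R : min = q c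
    have hin : ∀ s, 0 ≤ s → s < R → min (q s) (q c) = q c := by
      intro s hs0 hsR
      have h1 : g s = 0 := congrFun hall s
      simp only [hg] at h1
      have hsq : s ^ 2 < R ^ 2 := by nlinarith
      rw [max_eq_left (by linarith)] at h1
      have h3 : min (q s) (q c) ≤ q c := min_le_right _ _
      have h4 : min (q s) (q c) ≤ q s := min_le_left _ _
      by_contra hne
      have h5 : min (q s) (q c) < q c := lt_of_le_of_ne h3 hne
      nlinarith [sq_nonneg s]
    have hout : ∀ s, R < s → min (q s) (q c) = 0 := by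
      intro s hs
      have h1 : g s = 0 := congrFun hall s
      simp only [hg] at h1
      have hsq : R ^ 2 < s ^ 2 := by nlinarith
      rw [max_eq_right (by linarith)] at h1
      have h4 : min (q s) (q c) ≤ q s := min_le_left _ _
      have h5 : 0 ≤ min (q s) (q c) := le_min (hq0 s) hM.le
      by_contra hne
      have h6 : 0 < min (q s) (q c) := lt_of_le_of_ne h5 (Ne.symm hne)
      nlinarith [sq_nonneg R]
    -- continuity at R
    have hmc : Continuous (fun s => min (q s) (q c)) := by fun_prop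
    have hl : Filter.Tendsto (fun s => min (q s) (q c)) (nhdsWithin R (Iio R)) (nhds (q c)) := by
      apply tendsto_const_nhds.congr'
      have : ∀ᶠ s in nhdsWithin R (Iio R), 0 ≤ s ∧ s < R := by
        filter_upwards [Ioo_mem_nhdsLT hR] with s hs
        exact ⟨hs.1.le, hs.2⟩
      filter_upwards [this] with s hs
      exact (hin s hs.1 hs.2).symm
    have hr : Filter.Tendsto (fun s => min (q s) (q c)) (nhdsWithin R (Ioi R)) (nhds 0) := by
      apply tendsto_const_nhds.congr'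
      filter_upwards [self_mem_nhdsWithin] with s hs
      exact (hout s hs).symm
    have e1 := tendsto_nhds_unique hl (hmc.continuousAt.mono_left nhdsWithin_le_nhds)
    have e2 := tendsto_nhds_unique hr (hmc.continuousAt.mono_left nhdsWithin_le_nhds)
    linarith
  linarith

end bathtub

end Pool.Agent.Helper390.CubeSection
end CubeD

section CubeE
open MeasureTheory Set
open scoped ENNReal

namespace Pool.Agent.Helper390.CubeSection

variable {m : ℕ} (i : Fin (m+1)) (a : Fin (m+1) → ℝ) (hai : a i ≠ 0)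

include hai in
lemma integrable_dens : Integrable (dens i a) ∧ ∫ s, dens i a s = 1 := by
  have h := lintegral_law i a hai (fun _ => 1) measurable_const
  simp only [lintegral_const, measure_univ, mul_one, one_mul] at h
  have hi : Integrable (dens i a) := by
    refine ⟨(measurable_dens i a).aestronglyMeasurable, ?_⟩
    rw [hasFiniteIntegral_iff_ofReal (ae_of_all _ fun s => dens_nonneg i a s), ← h]
    exact ENNReal.one_lt_top
  refine ⟨hi, ?_⟩
  rw [integral_eq_lintegral_of_nonneg_ae (ae_of_all _ fun s => dens_nonneg i a s)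
    hi.aestronglyMeasurable, ← h]
  simp

include hai in
lemma integrable_sq_dens : Integrable (fun s => s ^ 2 * dens i a s) ∧
    ∫ s, s ^ 2 * dens i a s = (∑ k, a k ^ 2) / 3 := by
  have h := lintegral_law i a hai (fun s => ENNReal.ofReal (s ^ 2)) (by fun_prop)
  rw [second_moment] at h
  simp_rw [← ENNReal.ofReal_mul (sq_nonneg _)] at h
  have hn : ∀ s, 0 ≤ s ^ 2 * dens i a s := fun s => mul_nonneg (sq_nonneg _) (dens_nonneg i a s)
  have hi : Integrable (fun s => s ^ 2 * dens i a s) := by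
    refine ⟨((measurable_id.pow_const 2).mul (measurable_dens i a)).aestronglyMeasurable, ?_⟩
    rw [hasFiniteIntegral_iff_ofReal (ae_of_all _ hn), ← h]
    exact ENNReal.ofReal_lt_top
  refine ⟨hi, ?_⟩
  rw [integral_eq_lintegral_of_nonneg_ae (ae_of_all _ hn) hi.aestronglyMeasurable, ← h,
    ENNReal.toReal_ofReal]
  exact div_nonneg (Finset.sum_nonneg fun _ _ => sq_nonneg _) (by norm_num)

include hai in
lemma prob_law (A : Set ℝ) (hA : MeasurableSet A) :
    (PP (m+1)).real {z | ∑ k, a k * z k ∈ A} = ∫ s in A, dens i a s := by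
  have h := lintegral_law i a hai (A.indicator 1) (measurable_one.indicator hA)
  have e1 : ∀ x : Fin (m+1) → ℝ, A.indicator (1 : ℝ → ℝ≥0∞) (∑ k, a k * x k) =
      ({z | ∑ k, a k * z k ∈ A} : Set (Fin (m+1) → ℝ)).indicator 1 x := by
    intro x; rfl
  simp_rw [e1] at h
  have hms : MeasurableSet {z : Fin (m+1) → ℝ | ∑ k, a k * z k ∈ A} := (meas_lin a) hA
  rw [lintegral_indicator_one hms] at h
  rw [Measure.real, h, integral_eq_lintegral_of_nonneg_ae (ae_of_all _ fun s => dens_nonneg i a s)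
    (measurable_dens i a).aestronglyMeasurable, ← lintegral_indicator hA]
  congr 2
  ext s
  by_cases hs : s ∈ A <;> simp [hs]

include hai in
lemma N_eq_integral_dens (c : ℝ) : N a 0 c = ∫ s in Icc (-c) c, dens i a s := by
  rw [← prob_law i a hai _ measurableSet_Icc]
  unfold N
  congr 1
  ext z
  simp only [zero_add, Set.mem_ofPred_eq, mem_Icc, abs_le]

include hai in
/-- The key moment inequality. -/
lemma star (c R : ℝ) (hc : 0 ≤ c) (hR : 0 ≤ R) :
    3 * R ^ 2 * (1 - N a 0 c + 2 * c * dens i a c) ≤ (∑ k, a k ^ 2) + 4 * dens i a c * R ^ 3 := by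
  have h := bathtub (dens i a) (dens_nonneg i a) (dens_anti i a) (integrable_dens i a hai).1
    (integrable_sq_dens i a hai).1 c R hc hR
  rw [(integrable_dens i a hai).2, (integrable_sq_dens i a hai).2, ← N_eq_integral_dens i a hai] at h
  linarith

lemma continuous_dens {m : ℕ} (i : Fin (m+2)) (a : Fin (m+2) → ℝ) (j : Fin (m+1))
    (haj : a (i.succAbove j) ≠ 0) : Continuous (dens i a) := by
  unfold dens
  exact (continuous_N j (fun k => a (i.succAbove k)) haj _).div_const _

lemma star_strict {m : ℕ} (i : Fin (m+2)) (a : Fin (m+2) → ℝ) (hai : a i ≠ 0) (j : Fin (m+1))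
    (haj : a (i.succAbove j) ≠ 0) (c R : ℝ) (hc : 0 ≤ c) (hR : 0 < R) (hM : 0 < dens i a c) :
    3 * R ^ 2 * (1 - N a 0 c + 2 * c * dens i a c) < (∑ k, a k ^ 2) + 4 * dens i a c * R ^ 3 := by
  have h := bathtub_strict (dens i a) (dens_nonneg i a) (dens_anti i a) (integrable_dens i a hai).1
    (integrable_sq_dens i a hai).1 (continuous_dens i a j haj) c R hc hR hM
  rw [(integrable_dens i a hai).2, (integrable_sq_dens i a hai).2, ← N_eq_integral_dens i a hai] at h
  linarith

/-- The cube probability in terms of Lebesgue measure. -/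
lemma PP_eq (m : ℕ) : PP m = ((2:ℝ≥0∞)⁻¹ ^ m) • volume.restrict (univ.pi fun _ : Fin m => Icc (-1:ℝ) 1) := by
  symm
  unfold PP
  have : IsFiniteMeasure nu := inferInstance
  symm
  apply Measure.pi_eq
  intro s hs
  rw [Measure.smul_apply, Measure.restrict_apply (MeasurableSet.univ_pi hs), ← pi_inter_distrib,
    volume_pi_pi, smul_eq_mul]
  simp only [nu, Measure.smul_apply, smul_eq_mul]
  rw [Finset.prod_mul_distrib, Finset.prod_const, Finset.card_univ, Fintype.card_fin]
  congr 1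
  apply Finset.prod_congr rfl
  intro k _
  rw [Measure.restrict_apply (hs k)]

end Pool.Agent.Helper390.CubeSection
end CubeE

section CubeF
open MeasureTheory Set
open scoped ENNReal Pointwise

namespace Pool.Agent.Helper390.CubeSection

lemma mem_cube_iff {m : ℕ} (x : Fin m → ℝ) :
    x ∈ (univ.pi fun _ : Fin m => Icc (-1:ℝ) 1) ↔ ∀ k, |x k| ≤ 1 := by
  rw [mem_univ_pi]
  exact forall_congr' fun k => by rw [mem_Icc, abs_le]

lemma ms_and {α : Type*} [MeasurableSpace α] {p q : α → Prop} (hp : MeasurableSet {x | p x})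
    (hq : MeasurableSet {x | q x}) : MeasurableSet {x | p x ∧ q x} := by
  have : {x | p x ∧ q x} = {x | p x} ∩ {x | q x} := by ext; simp
  rw [this]; exact hp.inter hq

lemma ms_forall {m : ℕ} {α : Type*} [MeasurableSpace α] {p : Fin m → α → Prop}
    (hp : ∀ k, MeasurableSet {x | p k x}) : MeasurableSet {x | ∀ k, p k x} := by
  have : {x | ∀ k, p k x} = ⋂ k, {x | p k x} := by ext; simp
  rw [this]; exact MeasurableSet.iInter hp

lemma scaleP {m : ℕ} (a : Fin m → ℝ) (c l : ℝ) (hl0 : 0 < l) (hl1 : l ≤ 1) :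
    (PP m).real {x | (∀ k, |x k| ≤ l) ∧ |0 + ∑ k, a k * x k| ≤ l * c} = l ^ m * N a 0 c := by
  have hm1 : MeasurableSet {x : Fin m → ℝ | (∀ k, |x k| ≤ l) ∧ |0 + ∑ k, a k * x k| ≤ l * c} := by
    apply ms_and
    · exact ms_forall fun k => measurableSet_le (by fun_prop) measurable_const
    · exact measurableSet_le (by fun_prop) measurable_const
  unfold N Measure.real
  rw [PP_eq, Measure.smul_apply, Measure.smul_apply, Measure.restrict_apply hm1,
    Measure.restrict_apply (measurableSet_N a 0 c)]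
  have hset : {x : Fin m → ℝ | (∀ k, |x k| ≤ l) ∧ |0 + ∑ k, a k * x k| ≤ l * c} ∩
      (univ.pi fun _ : Fin m => Icc (-1:ℝ) 1) =
      l • ({x : Fin m → ℝ | |0 + ∑ k, a k * x k| ≤ c} ∩ (univ.pi fun _ : Fin m => Icc (-1:ℝ) 1)) := by
    ext x
    rw [mem_smul_set_iff_inv_smul_mem₀ hl0.ne', mem_inter_iff, mem_inter_iff, mem_cube_iff,
      mem_cube_iff]
    simp only [Set.mem_ofPred_eq, Pi.smul_apply, smul_eq_mul, abs_mul, abs_inv, zero_add]
    rw [abs_of_pos hl0]
    have e1 : ∑ k, a k * (l⁻¹ * x k) = l⁻¹ * ∑ k, a k * x k := by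
      rw [Finset.mul_sum]; apply Finset.sum_congr rfl; intro k _; ring
    rw [e1, abs_mul, abs_inv, abs_of_pos hl0]
    have e2 : ∀ t d : ℝ, l⁻¹ * t ≤ d ↔ t ≤ l * d := by
      intro t d; rw [inv_mul_le_iff₀ hl0]
    simp only [e2, mul_one]
    constructor
    · rintro ⟨⟨h1, h2⟩, h3⟩
      exact ⟨h2, h1⟩
    · rintro ⟨h2, h1⟩
      exact ⟨⟨h1, h2⟩, fun k => (h1 k).trans hl1⟩
  rw [hset, Measure.addHaar_smul]
  simp only [Module.finrank_fin_fun, smul_eq_mul, ENNReal.toReal_mul]
  rw [abs_of_nonneg (by positivity), ENNReal.toReal_ofReal (by positivity)]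
  ring

lemma tailP {m : ℕ} (a : Fin (m+1) → ℝ) (i : Fin (m+1)) (c l : ℝ) (hl0 : 0 ≤ l) (hl1 : l ≤ 1) :
    (PP (m+1)).real {x | |0 + ∑ k, a k * x k| ≤ c ∧ l < |x i|} ≤
      (1 - l) * N (fun k => a (i.succAbove k)) (l * a i) c := by
  have hm1 : MeasurableSet {x : Fin (m+1) → ℝ | |0 + ∑ k, a k * x k| ≤ c ∧ l < |x i|} := by
    apply ms_and
    · exact measurableSet_le (by fun_prop) measurable_const
    · exact measurableSet_lt measurable_const (by fun_prop)
  have hml : MeasurableSet {y : ℝ | l < |y|} := measurableSet_lt measurable_const (by fun_prop)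
  have h := lintegral_PP_succ i
    ({x : Fin (m+1) → ℝ | |0 + ∑ k, a k * x k| ≤ c ∧ l < |x i|}.indicator 1)
    (measurable_one.indicator hm1)
  rw [lintegral_indicator_one hm1] at h
  have hnu : nu {y : ℝ | l < |y|} ≤ ENNReal.ofReal (1 - l) := by
    unfold nu
    rw [Measure.smul_apply, Measure.restrict_apply hml]
    have hsub : {y : ℝ | l < |y|} ∩ Icc (-1) 1 ⊆ Icc (-1) (-l) ∪ Icc l 1 := by
      rintro y ⟨h1, h2⟩
      rcases abs_cases y with ⟨h3, _⟩ | ⟨h3, _⟩
      · right
        simp only [Set.mem_ofPred_eq, h3] at h1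
        exact ⟨h1.le, h2.2⟩
      · left
        simp only [Set.mem_ofPred_eq, h3] at h1
        exact ⟨h2.1, by linarith⟩
    calc (2:ℝ≥0∞)⁻¹ • volume ({y : ℝ | l < |y|} ∩ Icc (-1) 1)
        ≤ (2:ℝ≥0∞)⁻¹ • (volume (Icc (-1:ℝ) (-l)) + volume (Icc l 1)) := by
          gcongr
          exact (measure_mono hsub).trans (measure_union_le _ _)
      _ = ENNReal.ofReal (1 - l) := by
          rw [Real.volume_Icc, Real.volume_Icc, ← ENNReal.ofReal_add (by linarith) (by linarith),
            smul_eq_mul, show (2:ℝ≥0∞)⁻¹ = ENNReal.ofReal (1/2) by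
              rw [one_div, ENNReal.ofReal_inv_of_pos (by norm_num)]; simp,
            ← ENNReal.ofReal_mul (by norm_num)]
          congr 1; ring
  have hle : (PP (m+1)) {x | |0 + ∑ k, a k * x k| ≤ c ∧ l < |x i|} ≤
      ENNReal.ofReal (1 - l) * ENNReal.ofReal (N (fun k => a (i.succAbove k)) (l * a i) c) := by
    rw [h]
    calc ∫⁻ y, ∫⁻ z, ({x : Fin (m+1) → ℝ | |0 + ∑ k, a k * x k| ≤ c ∧ l < |x i|}.indicator 1)
            (i.insertNth y z : Fin (m+1) → ℝ) ∂(PP m) ∂nu
        ≤ ∫⁻ y, ({y : ℝ | l < |y|}.indicator 1 y) *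
            ENNReal.ofReal (N (fun k => a (i.succAbove k)) (l * a i) c) ∂nu := by
          apply lintegral_mono
          intro y
          dsimp only
          by_cases hy : l < |y|
          · rw [indicator_of_mem (show y ∈ {y : ℝ | l < |y|} from hy)]
            simp only [Pi.one_apply, one_mul]
            calc ∫⁻ z, ({x : Fin (m+1) → ℝ | |0 + ∑ k, a k * x k| ≤ c ∧ l < |x i|}.indicator 1)
                  (i.insertNth y z : Fin (m+1) → ℝ) ∂(PP m)
                ≤ ∫⁻ z, ({z : Fin m → ℝ | |a i * y + ∑ k, a (i.succAbove k) * z k| ≤ c}.indicator 1)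
                  z ∂(PP m) := by
                  apply lintegral_mono
                  intro z
                  apply indicator_le_indicator_of_subset (f := fun _ : (Fin m → ℝ) => (1:ℝ≥0∞))
                    (s := {z : Fin m → ℝ | |0 + ∑ k, a k * (i.insertNth y z : Fin (m+1) → ℝ) k| ≤ c
                      ∧ l < |(i.insertNth y z : Fin (m+1) → ℝ) i|}) _ (fun _ => zero_le) z
                  intro z hz
                  simp only [Set.mem_ofPred_eq, sum_insertNth, zero_add] at hz ⊢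
                  exact hz.1
              _ = ENNReal.ofReal (N (fun k => a (i.succAbove k)) (a i * y) c) := by
                  rw [lintegral_indicator_one (measurableSet_N _ _ _), N_eq_toReal,
                    ENNReal.ofReal_toReal (measure_ne_top _ _)]
              _ ≤ _ := by
                  apply ENNReal.ofReal_le_ofReal
                  apply N_anti
                  rw [abs_mul, abs_mul, abs_of_nonneg hl0, mul_comm]
                  gcongr
          · have : ∀ z : Fin m → ℝ, ({x : Fin (m+1) → ℝ | |0 + ∑ k, a k * x k| ≤ c ∧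
                l < |x i|}.indicator (1 : (Fin (m+1) → ℝ) → ℝ≥0∞))
                (i.insertNth y z : Fin (m+1) → ℝ) = 0 := by
              intro z
              apply indicator_of_notMem
              simp only [Set.mem_ofPred_eq, Fin.insertNth_apply_same, not_and]
              exact fun _ => hy
            simp_rw [this]
            simp
      _ ≤ _ := by
          rw [lintegral_mul_const _ (measurable_one.indicator hml), lintegral_indicator_one hml]
          gcongr
  rw [Measure.real]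
  have := ENNReal.toReal_mono (by finiteness) hle
  rwa [ENNReal.toReal_mul, ENNReal.toReal_ofReal (by linarith),
    ENNReal.toReal_ofReal (N_nonneg _ _ _)] at this

end Pool.Agent.Helper390.CubeSection
end CubeF

section CubeG
open MeasureTheory Set
open scoped ENNReal Pointwise

namespace Pool.Agent.Helper390.CubeSection

lemma shellP {m : ℕ} (i : Fin (m+1)) (a : Fin (m+1) → ℝ) (hai : a i ≠ 0) (c l : ℝ) (hc : 0 ≤ c)
    (hl0 : 0 ≤ l) (hl1 : l ≤ 1) :
    (PP (m+1)).real {x | |0 + ∑ k, a k * x k| ≤ c ∧ l * c < |0 + ∑ k, a k * x k|} ≤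
      2 * (1 - l) * c * dens i a (l * c) := by
  have hlc : l * c ≤ c := by nlinarith
  have h := prob_law i a hai (Icc (-c) (-(l * c)) ∪ Icc (l * c) c)
    (measurableSet_Icc.union measurableSet_Icc)
  calc (PP (m+1)).real {x | |0 + ∑ k, a k * x k| ≤ c ∧ l * c < |0 + ∑ k, a k * x k|}
      ≤ (PP (m+1)).real {z | ∑ k, a k * z k ∈ (Icc (-c) (-(l * c)) ∪ Icc (l * c) c)} := by
        refine measureReal_mono ?_ (measure_ne_top _ _)
        intro x hx
        simp only [Set.mem_ofPred_eq, zero_add] at hx ⊢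
        obtain ⟨h1, h2⟩ := hx
        rcases abs_cases (∑ k, a k * x k) with ⟨h3, _⟩ | ⟨h3, _⟩
        · right
          rw [h3] at h1 h2
          exact ⟨h2.le, h1⟩
        · left
          rw [h3] at h1 h2
          exact ⟨by linarith, by linarith⟩
    _ = ∫ s in (Icc (-c) (-(l * c)) ∪ Icc (l * c) c), dens i a s := h
    _ ≤ ∫ s in (Icc (-c) (-(l * c)) ∪ Icc (l * c) c), dens i a (l * c) := by
        apply setIntegral_mono_on
        · exact (integrable_dens i a hai).1.integrableOn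
        · refine integrableOn_const ?_ (by simp)
          refine ((measure_mono (t := Icc (-c) c) ?_).trans_lt (by simp)).ne
          intro s hs
          have : 0 ≤ l * c := by positivity
          rcases hs with hs | hs
          · exact ⟨hs.1, by linarith [hs.2]⟩
          · exact ⟨by linarith [hs.1], hs.2⟩
        · exact measurableSet_Icc.union measurableSet_Icc
        · intro s hs
          apply dens_anti
          have : 0 ≤ l * c := by positivity
          rw [abs_of_nonneg this]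
          rcases hs with hs | hs
          · rw [abs_of_nonpos (by linarith [hs.2])]; linarith [hs.2]
          · rw [abs_of_nonneg (by linarith [hs.1])]; exact hs.1
    _ = (volume.real (Icc (-c) (-(l * c)) ∪ Icc (l * c) c)) * dens i a (l * c) := by
        rw [setIntegral_const, smul_eq_mul]
    _ ≤ (2 * (1 - l) * c) * dens i a (l * c) := by
        apply mul_le_mul_of_nonneg_right _ (dens_nonneg _ _ _)
        refine (measureReal_union_le _ _).trans ?_
        rw [Real.volume_real_Icc, Real.volume_real_Icc, max_eq_left (by linarith),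
          max_eq_left (by linarith)]
        linarith

lemma cone_aux {m : ℕ} (i : Fin (m+1)) (a : Fin (m+1) → ℝ) (hai : a i ≠ 0) (c l : ℝ) (hc : 0 ≤ c)
    (hl0 : 0 < l) (hl1 : l ≤ 1) :
    N a 0 c ≤ l ^ (m+1) * N a 0 c +
      ∑ k, (1 - l) * N (fun j => a (k.succAbove j)) (l * a k) c +
      2 * (1 - l) * c * dens i a (l * c) := by
  have h1 := scaleP a c l hl0 hl1
  have h2 := fun k => tailP a k c l hl0.le hl1
  have h3 := shellP i a hai c l hc hl0.le hl1
  have hsub : {x : Fin (m+1) → ℝ | |0 + ∑ k, a k * x k| ≤ c} ⊆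
      ({x | (∀ k, |x k| ≤ l) ∧ |0 + ∑ k, a k * x k| ≤ l * c} ∪
      (⋃ k, {x | |0 + ∑ k, a k * x k| ≤ c ∧ l < |x k|})) ∪
      {x | |0 + ∑ k, a k * x k| ≤ c ∧ l * c < |0 + ∑ k, a k * x k|} := by
    intro x hx
    by_cases hA : l * c < |0 + ∑ k, a k * x k|
    · right; exact ⟨hx, hA⟩
    · left
      by_cases hB : ∀ k, |x k| ≤ l
      · left; exact ⟨hB, not_lt.1 hA⟩
      · right
        push Not at hB
        obtain ⟨k, hk⟩ := hB
        exact mem_iUnion.2 ⟨k, hx, hk⟩
  calc N a 0 c ≤ _ := measureReal_mono hsub (measure_ne_top _ _)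
    _ ≤ _ := measureReal_union_le _ _
    _ ≤ ((PP (m+1)).real {x | (∀ k, |x k| ≤ l) ∧ |0 + ∑ k, a k * x k| ≤ l * c} +
        (PP (m+1)).real (⋃ k, {x | |0 + ∑ k, a k * x k| ≤ c ∧ l < |x k|})) +
        (PP (m+1)).real {x | |0 + ∑ k, a k * x k| ≤ c ∧ l * c < |0 + ∑ k, a k * x k|} := by
        gcongr
        exact measureReal_union_le _ _
    _ ≤ _ := by
        rw [h1]
        gcongr
        refine (measureReal_iUnion_fintype_le _).trans ?_
        exact Finset.sum_le_sum fun k _ => h2 k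

/-- Cone-volume inequality. -/
lemma cone {m : ℕ} (i : Fin (m+2)) (a : Fin (m+2) → ℝ) (hai : a i ≠ 0)
    (hnd : ∀ k : Fin (m+2), ∃ j : Fin (m+1), a (k.succAbove j) ≠ 0) (c : ℝ) (hc : 0 ≤ c) :
    ((m + 2 : ℕ) : ℝ) * N a 0 c ≤
      ∑ k, N (fun j => a (k.succAbove j)) (a k) c + 2 * c * dens i a c := by
  have hcN : ∀ k : Fin (m+2), Continuous (fun s => N (fun j => a (k.succAbove j)) s c) := by
    intro k
    obtain ⟨j, hj⟩ := hnd k
    exact continuous_N j _ hj c
  have hcD : Continuous (dens i a) := by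
    obtain ⟨j, hj⟩ := hnd i
    exact continuous_dens i a j hj
  have hF : Continuous (fun l : ℝ => (∑ j ∈ Finset.range (m+2), l ^ j) * N a 0 c) := by fun_prop
  have hG : Continuous (fun l : ℝ => ∑ k, N (fun j => a (k.succAbove j)) (l * a k) c +
      2 * c * dens i a (l * c)) := by
    apply Continuous.add
    · apply continuous_finsetSum
      intro k _
      exact (hcN k).comp (by fun_prop)
    · exact continuous_const.mul (hcD.comp (by fun_prop))
  have hle : ∀ᶠ l in nhdsWithin (1:ℝ) (Iio 1), (∑ j ∈ Finset.range (m+2), l ^ j) * N a 0 c ≤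
      ∑ k, N (fun j => a (k.succAbove j)) (l * a k) c + 2 * c * dens i a (l * c) := by
    filter_upwards [Ioo_mem_nhdsLT (zero_lt_one : (0:ℝ) < 1)] with l hl
    have h := cone_aux i a hai c l hc hl.1 hl.2.le
    have hgeom : (∑ j ∈ Finset.range (m+2), l ^ j) * (1 - l) = 1 - l ^ (m+2) := by
      have := geom_sum_mul_neg l (m+2)
      exact this
    have hpos : 0 < 1 - l := by linarith [hl.2]
    rw [← Finset.mul_sum] at h
    have h' : (1 - l) * ((∑ j ∈ Finset.range (m+2), l ^ j) * N a 0 c) ≤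
        (1 - l) * (∑ k, N (fun j => a (k.succAbove j)) (l * a k) c + 2 * c * dens i a (l * c)) := by
      calc (1 - l) * ((∑ j ∈ Finset.range (m+2), l ^ j) * N a 0 c)
          = (1 - l ^ (m+2)) * N a 0 c := by rw [← hgeom]; ring
        _ ≤ _ := by linarith
    exact le_of_mul_le_mul_left h' hpos
  have t1 := (hF.tendsto 1).mono_left (nhdsWithin_le_nhds (s := Iio (1:ℝ)))
  have t2 := (hG.tendsto 1).mono_left (nhdsWithin_le_nhds (s := Iio (1:ℝ)))
  have := le_of_tendsto_of_tendsto t1 t2 hle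
  simpa using this

end Pool.Agent.Helper390.CubeSection
end CubeG

section CubeH
open Finset

namespace Pool.Agent.Helper390.CubeSection

/-- lower bounds for `∑ sqrt (1 - a_k^2)` -/
lemma W_bound {M : ℕ} (a : Fin M → ℝ) (c z : ℝ) (hc : 0 ≤ c) (hz : 0 ≤ z) (hcz : c ^ 2 + z ^ 2 = 1)
    (ha : ∀ k, |a k| ≤ c) (hs : ∑ k, a k ^ 2 = z ^ 2) :
    (∀ k, z ≤ √(1 - a k ^ 2)) ∧ (∀ k, √(1 - a k ^ 2) ≤ 1) ∧
    (M : ℝ) - z ^ 2 / (1 + z) ≤ ∑ k, √(1 - a k ^ 2) ∧
    (M : ℝ) - (1 - c) ≤ ∑ k, √(1 - a k ^ 2) := by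
  have h1 : ∀ k, a k ^ 2 ≤ c ^ 2 := fun k => by
    rw [← sq_abs (a k)]; exact pow_le_pow_left₀ (abs_nonneg _) (ha k) 2
  have h2 : ∀ k, a k ^ 2 ≤ z ^ 2 := fun k => by
    rw [← hs]; exact single_le_sum (f := fun k => a k ^ 2) (fun _ _ => sq_nonneg _) (mem_univ k)
  have hwz : ∀ k, z ≤ √(1 - a k ^ 2) := fun k => Real.le_sqrt_of_sq_le (by linarith [h1 k])
  have hwc : ∀ k, c ≤ √(1 - a k ^ 2) := fun k => Real.le_sqrt_of_sq_le (by linarith [h2 k])
  have hw1 : ∀ k, √(1 - a k ^ 2) ≤ 1 := fun k =>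
    Real.sqrt_le_iff.2 ⟨by norm_num, by linarith [sq_nonneg (a k)]⟩
  have key : ∀ (v : ℝ), 0 ≤ v → (∀ k, v ≤ √(1 - a k ^ 2)) → ∀ k, 1 - a k ^ 2 / (1 + v) ≤ √(1 - a k ^ 2) := by
    intro v hv hvw k
    have hsq : √(1 - a k ^ 2) ^ 2 = 1 - a k ^ 2 := Real.sq_sqrt (by nlinarith [h1 k])
    have h3 := hvw k
    have h4 := hw1 k
    rw [sub_le_iff_le_add, ← sub_le_iff_le_add', le_div_iff₀ (by linarith)]
    nlinarith
  refine ⟨hwz, hw1, ?_, ?_⟩
  · calc (M : ℝ) - z ^ 2 / (1 + z) = ∑ k : Fin M, (1 - a k ^ 2 / (1 + z)) := by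
          rw [sum_sub_distrib, ← sum_div, hs]; simp
      _ ≤ _ := sum_le_sum fun k _ => key z hz hwz k
  · calc (M : ℝ) - (1 - c) = ∑ k : Fin M, (1 - a k ^ 2 / (1 + c)) := by
          rw [sum_sub_distrib, ← sum_div, hs]
          have : z ^ 2 / (1 + c) = 1 - c := by
            rw [div_eq_iff (by linarith)]; linarith
          rw [this]; simp
      _ ≤ _ := sum_le_sum fun k _ => key c hc hwc k

/-- `F ≥ 1` -/
lemma F_ge_one (c z F G : ℝ) (hc : 0 < c) (hcz : c ^ 2 + z ^ 2 = 1)
    (hx0 : G ≤ F) (hx1 : c * F ≤ 1) (hG : 0 ≤ G)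
    (hstar : 3 * (1 - c * F + c * G) ≤ z ^ 2 + 2 * G) : 1 ≤ F := by
  by_contra hF
  push Not at hF
  -- 2 G ≥ 3 - 3 c F + 3 c G - 1 + c^2
  rcases le_or_gt c (2/3) with h | h
  · nlinarith [mul_nonneg hc.le (sub_nonneg.2 hx0), mul_nonneg (sub_nonneg.2 h) (sub_nonneg.2 hx0)]
  · have h2 : c * (F - G) ≤ 1 := by nlinarith
    -- F = x / c + G,  x = c (F - G) ≤ 1
    have hc1 : c ≤ 1 := by nlinarith [sq_nonneg z]
    nlinarith [mul_nonneg (sub_nonneg.2 hc1) (sub_nonneg.2 hc1), mul_nonneg hc.le hG,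
      mul_nonneg (sub_nonneg.2 h.le) (sub_nonneg.2 h2), mul_pos hc hc]

lemma stepD_poly (c : ℝ) (h1 : 1/2 ≤ c ^ 2) (h2 : c < 1) (hc : 0 < c) (z : ℝ) (hz : 0 ≤ z)
    (hcz : c ^ 2 + z ^ 2 = 1) :
    2 * (1 + c) * (2 + c) ^ 3 < 27 * c ^ 2 * (1 + c + z) ^ 2 := by
  have hc7 : 7/10 < c := by nlinarith
  have hzl : 24/10 * (1 - c) ≤ z := by
    apply le_of_sq_le_sq _ hz |> fun h => h
    nlinarith
  have h3 : 0 < 34/10 - 14/10 * c := by linarith
  have h4 : 34/10 - 14/10 * c ≤ 1 + c + z := by linarith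
  have h5 : (34/10 - 14/10 * c) ^ 2 ≤ (1 + c + z) ^ 2 := by
    apply pow_le_pow_left₀ h3.le h4
  have h6 : 2 * (1 + c) * (2 + c) ^ 3 < 27 * c ^ 2 * (34/10 - 14/10 * c) ^ 2 := by
    have : 27 * c ^ 2 * (34/10 - 14/10 * c) ^ 2 - 2 * (1 + c) * (2 + c) ^ 3 =
      (1 - c) * (-(5092/100) * c ^ 3 + 22012/100 * c ^ 2 - 56 * c - 16) := by ring
    have h7 : 0 < -(5092/100) * c ^ 3 + 22012/100 * c ^ 2 - 56 * c - 16 := by
      nlinarith [mul_pos hc hc, mul_pos (sub_pos.2 hc7) hc, mul_pos (mul_pos hc hc) (sub_pos.2 h2)]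
    have h8 : 0 < (1 - c) * (-(5092/100) * c ^ 3 + 22012/100 * c ^ 2 - 56 * c - 16) :=
      mul_pos (by linarith) h7
    linarith
  have h9 : 27 * c ^ 2 * (34/10 - 14/10 * c) ^ 2 ≤ 27 * c ^ 2 * (1 + c + z) ^ 2 := by
    gcongr
  linarith

lemma stepB_poly (c z : ℝ) (h1 : c ^ 2 ≤ 34/100) (hc : 0 < c) (hz : 0 ≤ z)
    (hcz : c ^ 2 + z ^ 2 = 1) : z ^ 2 / (1 + z) ≤ 3 * (1 - 3/2 * c) := by
  have hc2 : c ≤ 5832/10000 := by nlinarith
  have hz2 : 8124/10000 ≤ z := by nlinarith
  have hz3 : z ≤ 1 := by nlinarith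
  rw [div_le_iff₀ (by linarith)]
  have h3 : z ^ 2 = 1 - c ^ 2 := by linarith
  rw [h3]
  nlinarith [mul_nonneg (sub_nonneg.2 hc2) (sub_nonneg.2 hz2), mul_nonneg (sub_nonneg.2 hc2) hc.le]

lemma stepC_poly (c z : ℝ) (h1 : 34/100 ≤ c ^ 2) (h2 : c ^ 2 ≤ 1/2) (hc : 0 < c) (hz : 0 ≤ z)
    (hcz : c ^ 2 + z ^ 2 = 1) :
    3 * 2 * (14/10) ^ 3 * c ^ 3 * (1 + z) ≤ (2 + 3 * z) * (3 * (14/10) ^ 2 * c ^ 2 - z ^ 2) := by
  have hz1 : z ≤ 8125/10000 := by nlinarith
  have hz2 : 7071/10000 ≤ z := by nlinarith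
  have hc2 : c ^ 2 = 1 - z ^ 2 := by linarith
  have hc3 : c ^ 3 = c ^ 2 * c := by ring
  rw [hc3, hc2]
  rcases le_total z (775/1000) with h | h
  · have htan : c ≤ (73 - 55 * z) / 48 := by
      nlinarith [sq_nonneg (73 * c - 48), sq_nonneg (73 * z - 55)]
    have hm : (1 - z ^ 2) * c * (1 + z) ≤ (1 - z ^ 2) * ((73 - 55 * z) / 48) * (1 + z) := by
      have : 0 ≤ 1 - z ^ 2 := by nlinarith
      gcongr
    have : 3 * 2 * (14/10) ^ 3 * ((1 - z ^ 2) * ((73 - 55 * z) / 48) * (1 + z)) ≤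
        (2 + 3 * z) * (3 * (14/10) ^ 2 * (1 - z ^ 2) - z ^ 2) := by
      nlinarith [mul_nonneg (sub_nonneg.2 hz2) (sub_nonneg.2 h),
        mul_nonneg (mul_nonneg (sub_nonneg.2 hz2) (sub_nonneg.2 h)) hz,
        mul_nonneg (mul_nonneg (sub_nonneg.2 hz2) (sub_nonneg.2 h)) (mul_nonneg hz hz)]
    nlinarith
  · have htan : c ≤ (5 - 4 * z) / 3 := by
      nlinarith [sq_nonneg (5 * c - 3), sq_nonneg (5 * z - 4)]
    have hm : (1 - z ^ 2) * c * (1 + z) ≤ (1 - z ^ 2) * ((5 - 4 * z) / 3) * (1 + z) := by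
      have : 0 ≤ 1 - z ^ 2 := by nlinarith
      gcongr
    have : 3 * 2 * (14/10) ^ 3 * ((1 - z ^ 2) * ((5 - 4 * z) / 3) * (1 + z)) ≤
        (2 + 3 * z) * (3 * (14/10) ^ 2 * (1 - z ^ 2) - z ^ 2) := by
      nlinarith [mul_nonneg (sub_nonneg.2 h) (sub_nonneg.2 hz1),
        mul_nonneg (mul_nonneg (sub_nonneg.2 h) (sub_nonneg.2 hz1)) hz,
        mul_nonneg (mul_nonneg (sub_nonneg.2 h) (sub_nonneg.2 hz1)) (mul_nonneg hz hz)]
    nlinarith

lemma keyC (c z F G : ℝ) (ht : 34/100 ≤ c ^ 2) (ht2 : c ^ 2 ≤ 1/2) (hc : 0 < c) (hz : 0 ≤ z)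
    (hcz : c ^ 2 + z ^ 2 = 1) (hx0 : G ≤ F)
    (hst : 3 * (14/10 * c) ^ 2 * (1 - c * F + c * G) < z ^ 2 + 2 * G * (14/10 * c) ^ 3) :
    3 < (3 - z ^ 2 / (1 + z)) * F - (1 - z) * G := by
  set δ := z ^ 2 / (1 + z) with hδ
  have hz1 : z < 1 := by nlinarith
  have hδ0 : 0 ≤ δ := by positivity
  have hδz : δ * (1 + z) = z ^ 2 := by rw [hδ]; field_simp
  have hδ1 : δ < 1 := by rw [hδ, div_lt_one (by linarith)]; nlinarith
  have hC := stepC_poly c z ht ht2 hc hz hcz
  set x := c * (F - G) with hxdef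
  have hxn : 0 ≤ x := mul_nonneg hc.le (by linarith)
  have hst' : 3 * (14/10) ^ 2 * c ^ 2 * (1 - x) < z ^ 2 + 2 * G * (14/10) ^ 3 * c ^ 3 := by
    rw [hxdef]
    calc 3 * (14/10) ^ 2 * c ^ 2 * (1 - c * (F - G))
        = 3 * (14/10 * c) ^ 2 * (1 - c * F + c * G) := by ring
      _ < _ := hst
      _ = _ := by ring
  have hz2 : z ≤ 8125/10000 := by nlinarith
  have hF : F = G + x / c := by rw [hxdef]; field_simp; ring
  have hcoef : 3 * (2 - δ + z) ≤ 2 * (14/10) * (3 - δ) := by
    have hδ2 : (1 + z) * (3 * (2 - δ + z)) ≤ (1 + z) * (2 * (14/10) * (3 - δ)) := by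
      calc (1 + z) * (3 * (2 - δ + z)) = 6 + 9 * z + 3 * (z ^ 2 - δ * (1 + z)) := by ring
        _ = 6 + 9 * z := by rw [hδz]; ring
        _ ≤ 2 * (14/10) * (3 + 3 * z - z ^ 2) := by nlinarith
        _ = 2 * (14/10) * (3 + 3 * z - z ^ 2) + 2 * (14/10) * (z ^ 2 - δ * (1 + z)) := by
          rw [hδz]; ring
        _ = _ := by ring
    exact le_of_mul_le_mul_left hδ2 (by linarith)
  have hP : 0 < 2 * (14/10:ℝ) ^ 3 * c ^ 3 := by positivity
  have e1 : (2 - δ + z) * (3 * (14/10) ^ 2 * c ^ 2 * (1 - x) - z ^ 2) <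
      (2 - δ + z) * (2 * (14/10) ^ 3 * c ^ 3 * G) := by
    apply mul_lt_mul_of_pos_left _ (by linarith)
    linarith
  have e2 : 3 * (2 * (14/10) ^ 3 * c ^ 3) ≤ (2 - δ + z) * (3 * (14/10) ^ 2 * c ^ 2 - z ^ 2) := by
    have hA : (2 - δ + z) * (1 + z) = 2 + 3 * z := by
      calc (2 - δ + z) * (1 + z) = 2 + 3 * z + (z ^ 2 - δ * (1 + z)) := by ring
        _ = 2 + 3 * z := by rw [hδz]; ring
    have hB : (1 + z) * (3 * (2 * (14/10) ^ 3 * c ^ 3)) ≤
        (1 + z) * ((2 - δ + z) * (3 * (14/10) ^ 2 * c ^ 2 - z ^ 2)) := by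
      calc (1 + z) * (3 * (2 * (14/10) ^ 3 * c ^ 3))
          = 3 * 2 * (14/10) ^ 3 * c ^ 3 * (1 + z) := by ring
        _ ≤ _ := hC
        _ = ((2 - δ + z) * (1 + z)) * (3 * (14/10) ^ 2 * c ^ 2 - z ^ 2) := by rw [hA]
        _ = _ := by ring
    exact le_of_mul_le_mul_left hB (by linarith)
  have e3 : (2 - δ + z) * (3 * (14/10) ^ 2 * c ^ 2 * x) ≤
      (3 - δ) * (2 * (14/10) ^ 3 * c ^ 2) * x := by
    have : (14/10:ℝ) ^ 2 * c ^ 2 * x * (3 * (2 - δ + z)) ≤
        (14/10) ^ 2 * c ^ 2 * x * (2 * (14/10) * (3 - δ)) :=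
      mul_le_mul_of_nonneg_left hcoef (by positivity)
    linarith
  have e4 : (3 - δ) * F - (1 - z) * G = (3 - δ) * (x / c) + (2 - δ + z) * G := by
    rw [hF]; ring
  have e5 : 2 * (14/10:ℝ) ^ 3 * c ^ 3 * ((3 - δ) * (x / c)) =
      (3 - δ) * (2 * (14/10) ^ 3 * c ^ 2) * x := by
    field_simp
  rw [e4]
  have e6 : (2 * (14/10:ℝ) ^ 3 * c ^ 3) * 3 < (2 * (14/10) ^ 3 * c ^ 3) *
      ((3 - δ) * (x / c) + (2 - δ + z) * G) := by
    rw [mul_add, e5]
    linarith
  exact lt_of_mul_lt_mul_left e6 hP.le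

lemma keyD (c z F G : ℝ) (ht2 : 1/2 ≤ c ^ 2) (hc1 : c < 1) (hc : 0 < c) (hz : 0 ≤ z)
    (hcz : c ^ 2 + z ^ 2 = 1)
    (hstar : ∀ R, 0 < R → 3 * R ^ 2 * (1 - c * F + c * G) < z ^ 2 + 2 * G * R ^ 3) :
    3 < (2 + c) * F - (1 - z) * G := by
  have hD := stepD_poly c ht2 hc1 hc z hz hcz
  set R := 3 * c * (1 + c + z) / (2 * (2 + c)) with hR
  have hRpos : 0 < R := by positivity
  have hR1 : 2 * R * (2 + c) = 3 * c * (1 + c + z) := by rw [hR]; field_simp
  have hR2 : (1 + c) * (2 + c) < 6 * R ^ 2 := by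
    have : 4 * (2 + c) ^ 2 * ((1 + c) * (2 + c)) < 4 * (2 + c) ^ 2 * (6 * R ^ 2) := by
      calc 4 * (2 + c) ^ 2 * ((1 + c) * (2 + c)) = 2 * (2 * (1 + c) * (2 + c) ^ 3) := by ring
        _ < 2 * (27 * c ^ 2 * (1 + c + z) ^ 2) := by linarith
        _ = 6 * (3 * c * (1 + c + z)) ^ 2 := by ring
        _ = 6 * (2 * R * (2 + c)) ^ 2 := by rw [hR1]
        _ = _ := by ring
    exact lt_of_mul_lt_mul_left this (by positivity)
  have hst := hstar R hRpos
  have hP : 0 < 3 * R ^ 2 * c := by positivity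
  have e1 : (2 + c) * (3 * R ^ 2 * (1 - c * F + c * G)) < (2 + c) * (z ^ 2 + 2 * G * R ^ 3) :=
    mul_lt_mul_of_pos_left hst (by linarith)
  have e2 : (2 + c) * (2 * G * R ^ 3) = 3 * R ^ 2 * c * ((1 + c + z) * G) := by
    calc (2 + c) * (2 * G * R ^ 3) = G * R ^ 2 * (2 * R * (2 + c)) := by ring
      _ = _ := by rw [hR1]; ring
  have e3 : z ^ 2 = (1 - c) * (1 + c) := by linarith
  have e4 : (1 - c) * ((1 + c) * (2 + c)) < (1 - c) * (6 * R ^ 2) :=
    mul_lt_mul_of_pos_left hR2 (by linarith)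
  have e5 : 3 * R ^ 2 * c * 3 < 3 * R ^ 2 * c * ((2 + c) * F - (1 - z) * G) := by
    have e6 : (2 + c) * (z ^ 2 + 2 * G * R ^ 3) =
        (1 - c) * ((1 + c) * (2 + c)) + 3 * R ^ 2 * c * ((1 + c + z) * G) := by
      rw [mul_add, e2, e3]; ring
    rw [e6] at e1
    linarith
  exact lt_of_mul_lt_mul_left e5 hP.le

lemma stepB {m : ℕ} (hm : 1 ≤ m) (a : Fin (m+2) → ℝ) (c z F G : ℝ) (D : Fin (m+2) → ℝ)
    (hc : 0 < c) (hz : 0 ≤ z) (hcz : c ^ 2 + z ^ 2 = 1)
    (hDs : ∑ k, D k ≤ G) (hDG : ∀ k, D k ≤ G) (hx0 : G ≤ F)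
    (hst : 3 * z ^ 2 * (1 - c * F + c * G) < z ^ 2 + 2 * G * z ^ 3)
    (ht : c ^ 2 ≤ 34/100) (hwz : ∀ k, z ≤ √(1 - a k ^ 2))
    (hW1 : ((m:ℝ) + 2) - z ^ 2 / (1 + z) ≤ ∑ k, √(1 - a k ^ 2)) :
    (m : ℝ) + 2 < z * G + (F * (∑ k, √(1 - a k ^ 2)) - ∑ k, √(1 - a k ^ 2) * D k) := by
  set W := ∑ k, √(1 - a k ^ 2) with hWdef
  have hm' : (1:ℝ) ≤ m := by exact_mod_cast hm
  have hzpos : 0 < z := by nlinarith
  have h1 : 0 ≤ ∑ k, (√(1 - a k ^ 2) - z) * (G - D k) :=
    sum_nonneg fun k _ => mul_nonneg (by linarith [hwz k]) (by linarith [hDG k])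
  have h2 : ∑ k, (√(1 - a k ^ 2) - z) * (G - D k) =
      G * W - (∑ k, √(1 - a k ^ 2) * D k) - (m + 2) * z * G + z * ∑ k, D k := by
    rw [hWdef, mul_sum, mul_sum]
    rw [show ((m:ℝ) + 2) * z * G = ∑ k : Fin (m+2), z * G by simp; ring]
    rw [← sum_sub_distrib, ← sum_sub_distrib, ← sum_add_distrib]
    apply sum_congr rfl; intro k _; ring
  have hB := stepB_poly c z ht hc hz hcz
  have hx : 1 - 3/2 * (c * (F - G)) < z * G := by
    have h3 : z ^ 2 * (3 * (1 - c * F + c * G)) < z ^ 2 * (1 + 2 * G * z) := by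
      calc z ^ 2 * (3 * (1 - c * F + c * G)) = 3 * z ^ 2 * (1 - c * F + c * G) := by ring
        _ < _ := hst
        _ = _ := by ring
    have h4 := lt_of_mul_lt_mul_left h3 (by positivity)
    linarith
  have hWlow : 3/2 * c * (m + 2) ≤ W := by
    have h5 : 0 ≤ 1 - 3/2 * c := by
      have : 0 ≤ z ^ 2 / (1 + z) := by positivity
      linarith
    have : (3:ℝ) * (1 - 3/2 * c) ≤ (m + 2) * (1 - 3/2 * c) := by
      apply mul_le_mul_of_nonneg_right _ h5
      linarith
    linarith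
  have hxn : 0 ≤ F - G := by linarith
  have h6 : 3/2 * c * (m + 2) * (F - G) ≤ W * (F - G) := mul_le_mul_of_nonneg_right hWlow hxn
  have h7 : ((m:ℝ) + 2) * (1 - 3/2 * (c * (F - G))) < (m + 2) * (z * G) := by
    apply mul_lt_mul_of_pos_left hx (by positivity)
  have h8 : z * ∑ k, D k ≤ z * G := mul_le_mul_of_nonneg_left hDs hz
  linarith

/-- The final inequality in dimension `n = m + 3 ≥ 4`. -/
theorem main_ineq {m : ℕ} (hm : 1 ≤ m) (a : Fin (m+2) → ℝ) (c z F G : ℝ) (D : Fin (m+2) → ℝ)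
    (hc : 0 < c) (hc1 : c < 1) (hz : 0 ≤ z) (hcz : c ^ 2 + z ^ 2 = 1) (ha : ∀ k, |a k| ≤ c)
    (hs : ∑ k, a k ^ 2 = z ^ 2) (hD0 : ∀ k, 0 ≤ D k) (hDs : ∑ k, D k ≤ G) (hx0 : G ≤ F)
    (hx1 : c * F ≤ 1) (hG : 0 < G)
    (hstar : ∀ R, 0 < R → 3 * R ^ 2 * (1 - c * F + c * G) < z ^ 2 + 2 * G * R ^ 3) :
    (m : ℝ) + 2 < z * G + ∑ k, √(1 - a k ^ 2) * (F - D k) := by
  obtain ⟨hwz, hw1, hW1, hW2⟩ := W_bound a c z hc.le hz hcz ha hs
  push_cast at hW1 hW2
  have hm' : (1:ℝ) ≤ m := by exact_mod_cast hm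
  have hzpos : 0 < z := by nlinarith
  have hsplit : ∑ k, √(1 - a k ^ 2) * (F - D k) =
      F * (∑ k, √(1 - a k ^ 2)) - ∑ k, √(1 - a k ^ 2) * D k := by
    rw [mul_sum, ← sum_sub_distrib]
    apply sum_congr rfl; intro k _; ring
  rw [hsplit]
  rcases le_total (c ^ 2) (34/100) with ht | ht
  · have hDG : ∀ k, D k ≤ G := fun k =>
      (single_le_sum (f := D) (fun _ _ => hD0 _) (mem_univ k)).trans hDs
    exact stepB hm a c z F G D hc hz hcz hDs hDG hx0 (hstar z hzpos) ht hwz hW1
  · have hF1 : 1 ≤ F := by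
      apply F_ge_one c z F G hc hcz hx0 hx1 hG.le
      have := hstar 1 one_pos
      linarith
    have h1 : ∑ k, √(1 - a k ^ 2) * D k ≤ G := by
      refine le_trans (sum_le_sum fun k _ => ?_) hDs
      have := mul_le_mul_of_nonneg_right (hw1 k) (hD0 k)
      linarith
    have hm1 : ((m:ℝ) - 1) * 1 ≤ (m - 1) * F := mul_le_mul_of_nonneg_left hF1 (by linarith)
    rcases le_total (c ^ 2) (1/2) with ht2 | ht2
    · have key := keyC c z F G ht ht2 hc hz hcz hx0 (hstar (14/10 * c) (by positivity))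
      have hFW := mul_le_mul_of_nonneg_left hW1 (by linarith : (0:ℝ) ≤ F)
      linarith
    · have key := keyD c z F G ht2 hc1 hc hz hcz hstar
      have hFW := mul_le_mul_of_nonneg_left hW2 (by linarith : (0:ℝ) ≤ F)
      linarith

end Pool.Agent.Helper390.CubeSection
end CubeH

section CubeI
open Finset

namespace Pool.Agent.Helper390.CubeSection

lemma sqrt_pair (a b d : ℝ) (h : a ^ 2 + b ^ 2 + d ^ 2 = 1) :
    1 + a ≤ √(1 - b ^ 2) + √(1 - d ^ 2) := by
  have hb : 0 ≤ 1 - b ^ 2 := by nlinarith [sq_nonneg a, sq_nonneg d]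
  have hd : 0 ≤ 1 - d ^ 2 := by nlinarith [sq_nonneg a, sq_nonneg b]
  have h1 := Real.sq_sqrt hb
  have h2 := Real.sq_sqrt hd
  have h3 := Real.sqrt_nonneg (1 - b ^ 2)
  have h4 := Real.sqrt_nonneg (1 - d ^ 2)
  have h5 : a ≤ √(1 - b ^ 2) * √(1 - d ^ 2) := by
    apply le_of_sq_le_sq _ (by positivity)
    rw [mul_pow, h1, h2]
    nlinarith [mul_nonneg (sq_nonneg b) (sq_nonneg d)]
  apply le_of_sq_le_sq _ (by positivity)
  nlinarith

lemma ravi (e1 e2 e3 : ℝ) (h1 : 0 < e1) (h2 : 0 < e2) (h3 : 3 * e1 * e3 ≤ e2 ^ 2)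
    (h4 : 3 * e2 ≤ e1 ^ 2) (h5 : e1 ^ 2 = 2 + e2) : (e1 * e2 + e3) / 2 < e2 := by
  have he1le : e1 ≤ 17321/10000 := by
    have : e1 ^ 2 ≤ 3 := by linarith
    nlinarith
  have h6 : 0 < 3 * e1 * (2 - e1) - e2 := by nlinarith
  have h7 : 0 < e2 * (3 * e1 * (2 - e1) - e2) := mul_pos h2 h6
  have h8 : 0 < (3 * e1) * (2 * e2 - e1 * e2 - e3) := by linarith
  have h9 := (mul_pos_iff_of_pos_left (by positivity : 0 < 3 * e1)).1 h8
  linarith

lemma ravi_main (c p q : ℝ) (hc : 0 < c) (hp : 0 < p) (hq : 0 < q)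
    (h : c ^ 2 + p ^ 2 + q ^ 2 = 1) (hpc : p ≤ c) (hqc : q ≤ c) (hnd : c < p + q) :
    2 * (4 * p * q * c) < (c ^ 2 - (p - q) ^ 2) * (1 + c) +
      (p ^ 2 - (c - q) ^ 2) * (1 + p) + (q ^ 2 - (c - p) ^ 2) * (1 + q) := by
  obtain ⟨X, hX⟩ : ∃ X, X = p + q - c := ⟨_, rfl⟩
  obtain ⟨Y, hY⟩ : ∃ Y, Y = c + p - q := ⟨_, rfl⟩
  obtain ⟨Z, hZ⟩ : ∃ Z, Z = c + q - p := ⟨_, rfl⟩
  have hX0 : 0 < X := by rw [hX]; linarith
  have hY0 : 0 < Y := by rw [hY]; linarith
  have hZ0 : 0 < Z := by rw [hZ]; linarith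
  have ep : p = (X + Y) / 2 := by rw [hX, hY]; ring
  have eq : q = (X + Z) / 2 := by rw [hX, hZ]; ring
  have ec : c = (Y + Z) / 2 := by rw [hY, hZ]; ring
  have hnorm : (X + Y + Z) ^ 2 = 2 + (X * Y + Y * Z + Z * X) := by
    rw [ep, eq, ec] at h; linarith
  have h3 : 3 * (X + Y + Z) * (X * Y * Z) ≤ (X * Y + Y * Z + Z * X) ^ 2 := by
    nlinarith [sq_nonneg (X * Y - Y * Z), sq_nonneg (Y * Z - Z * X), sq_nonneg (Z * X - X * Y)]
  have h1 : 3 * (X * Y + Y * Z + Z * X) ≤ (X + Y + Z) ^ 2 := by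
    nlinarith [sq_nonneg (X - Y), sq_nonneg (Y - Z), sq_nonneg (Z - X)]
  have hr := ravi (X + Y + Z) (X * Y + Y * Z + Z * X) (X * Y * Z) (by positivity) (by positivity)
    h3 h1 hnorm
  have goal' : (c ^ 2 - (p - q) ^ 2) * (1 + c) + (p ^ 2 - (c - q) ^ 2) * (1 + p) +
      (q ^ 2 - (c - p) ^ 2) * (1 + q) - 2 * (4 * p * q * c) = (X * Y + Y * Z + Z * X) -
      ((X + Y + Z) * (X * Y + Y * Z + Z * X) + X * Y * Z) / 2 := by
    rw [ep, eq, ec]; ring
  linarith

/-- The inequality in dimension three. -/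
lemma ineq3 (c p q : ℝ) (hc : 0 < c) (hp : 0 < p) (hq : 0 < q) (h : c ^ 2 + p ^ 2 + q ^ 2 = 1)
    (hpc : p ≤ c) (hqc : q ≤ c) (hnd : c < p + q) :
    2 < √(1 - c ^ 2) * ((p + q - c) / (2 * p * q)) + √(1 - p ^ 2) * ((q + c - p) / (2 * q * c)) +
      √(1 - q ^ 2) * ((p + c - q) / (2 * p * c)) := by
  have hcp := sqrt_pair c p q h
  have hpp := sqrt_pair p q c (by linarith)
  have hqp := sqrt_pair q c p (by linarith)
  set wc := √(1 - c ^ 2)
  set wp := √(1 - p ^ 2)
  set wq := √(1 - q ^ 2)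
  have hpos : 0 < 4 * p * q * c := by positivity
  -- D's times 4pqc
  have hDc : 0 ≤ c * (c ^ 2 - (p - q) ^ 2) := by
    have : c ^ 2 - (p - q) ^ 2 = (c - p + q) * (c + p - q) := by ring
    rw [this]
    have h1 : 0 ≤ c - p + q := by linarith
    have h2 : 0 ≤ c + p - q := by linarith
    positivity
  have hDp : 0 ≤ p * (p ^ 2 - (c - q) ^ 2) := by
    have : p ^ 2 - (c - q) ^ 2 = (p - c + q) * (p + c - q) := by ring
    rw [this]
    have h1 : 0 ≤ p - c + q := by linarith
    have h2 : 0 ≤ p + c - q := by linarith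
    positivity
  have hDq : 0 ≤ q * (q ^ 2 - (c - p) ^ 2) := by
    have : q ^ 2 - (c - p) ^ 2 = (q - c + p) * (q + c - p) := by ring
    rw [this]
    have h1 : 0 ≤ q - c + p := by linarith
    have h2 : 0 ≤ q + c - p := by linarith
    positivity
  have hT : wc * ((p + q - c) / (2 * p * q)) + wp * ((q + c - p) / (2 * q * c)) +
      wq * ((p + c - q) / (2 * p * c)) =
      ((c ^ 2 - (p - q) ^ 2) * (wp + wq) + (p ^ 2 - (c - q) ^ 2) * (wq + wc) +
        (q ^ 2 - (c - p) ^ 2) * (wc + wp)) / (4 * p * q * c) := by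
    field_simp
    ring
  rw [hT, lt_div_iff₀ hpos]
  have hDc' : 0 ≤ (c ^ 2 - (p - q) ^ 2) := nonneg_of_mul_nonneg_right hDc hc
  have hDp' : 0 ≤ (p ^ 2 - (c - q) ^ 2) := nonneg_of_mul_nonneg_right hDp hp
  have hDq' : 0 ≤ (q ^ 2 - (c - p) ^ 2) := nonneg_of_mul_nonneg_right hDq hq
  have hlow : (c ^ 2 - (p - q) ^ 2) * (1 + c) + (p ^ 2 - (c - q) ^ 2) * (1 + p) +
      (q ^ 2 - (c - p) ^ 2) * (1 + q) ≤ (c ^ 2 - (p - q) ^ 2) * (wp + wq) +
      (p ^ 2 - (c - q) ^ 2) * (wq + wc) + (q ^ 2 - (c - p) ^ 2) * (wc + wp) := by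
    gcongr
  refine lt_of_lt_of_le ?_ hlow
  have hmain : 2 * (4 * p * q * c) < (c ^ 2 - (p - q) ^ 2) * (1 + c) +
      (p ^ 2 - (c - q) ^ 2) * (1 + p) + (q ^ 2 - (c - p) ^ 2) * (1 + q) :=
    ravi_main c p q hc hp hq h hpc hqc hnd
  linarith

end Pool.Agent.Helper390.CubeSection
end CubeI

section CubeJ
open MeasureTheory Set
open scoped ENNReal

namespace Pool.Agent.Helper390.CubeSection

section facet

variable {ι : Type*} [Fintype ι] [DecidableEq ι] {M : ℕ}

/-- The linear parametrisation of a facet direction space. -/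
noncomputable def Lmap (f : Fin M → ι) (q : ι) (v : Fin M → ℝ) :
    EuclideanSpace ℝ (Fin M) →ₗ[ℝ] EuclideanSpace ℝ ι where
  toFun z := ∑ l, z l • (EuclideanSpace.single (f l) (1:ℝ) + v l • EuclideanSpace.single q (1:ℝ))
  map_add' x y := by
    simp only [PiLp.add_apply, add_smul, Finset.sum_add_distrib]
  map_smul' c x := by
    simp only [PiLp.smul_apply, smul_eq_mul, mul_smul, Finset.smul_sum, RingHom.id_apply]

lemma Lmap_apply (f : Fin M → ι) (q : ι) (v : Fin M → ℝ) (z : EuclideanSpace ℝ (Fin M)) :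
    Lmap f q v z = ∑ l, z l • (EuclideanSpace.single (f l) (1:ℝ) + v l • EuclideanSpace.single q (1:ℝ)) :=
  rfl

lemma Lmap_coord (f : Fin M → ι) (q : ι) (v : Fin M → ℝ) (z : EuclideanSpace ℝ (Fin M)) (i : ι) :
    Lmap f q v z i = ∑ l, z l * ((if i = f l then 1 else 0) + v l * (if i = q then 1 else 0)) := by
  rw [Lmap_apply]
  simp only [WithLp.ofLp_sum, Finset.sum_apply, PiLp.smul_apply, PiLp.add_apply,
    PiLp.single_apply, smul_eq_mul]

lemma normDet_Lmap (f : Fin M → ι) (hf : Function.Injective f) (q : ι) (hq : ∀ l, f l ≠ q)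
    (v : Fin M → ℝ) : (Lmap f q v).normDet = √(1 + ∑ l, v l ^ 2) := by
  have h := (Lmap f q v).normDet_sq_eq_det_gram (EuclideanSpace.basisFun (Fin M) ℝ)
  have hLe : ∀ l, Lmap f q v (EuclideanSpace.basisFun (Fin M) ℝ l) =
      EuclideanSpace.single (f l) (1:ℝ) + v l • EuclideanSpace.single q (1:ℝ) := by
    intro l
    rw [Lmap_apply, Finset.sum_eq_single l]
    · simp
    · intro b _ hb
      simp [hb]
    · simp
  have hgram : Matrix.gram ℝ (fun l => Lmap f q v (EuclideanSpace.basisFun (Fin M) ℝ l)) =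
      1 + Matrix.replicateCol Unit v * Matrix.replicateRow Unit v := by
    ext i j
    rw [Matrix.gram_apply, hLe, hLe, Matrix.add_apply, Matrix.one_apply]
    simp only [inner_add_left, inner_add_right, inner_smul_left, inner_smul_right,
      EuclideanSpace.inner_single_left, PiLp.single_apply, Matrix.mul_apply,
      Matrix.replicateCol_apply, Matrix.replicateRow_apply]
    simp [hf.eq_iff, hq i, (hq j).symm, mul_comm]
  rw [hgram, Matrix.det_one_add_replicateCol_mul_replicateRow] at h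
  have h2 : (Lmap f q v).normDet ^ 2 = 1 + ∑ l, v l ^ 2 := by
    rw [show (Lmap f q v).normDet ^ 2 = (((Lmap f q v).normDet ^ 2 : ℝ) : ℝ) from rfl]
    refine h.trans ?_
    simp [dotProduct, sq]
  rw [← h2, Real.sqrt_sq (LinearMap.normDet_nonneg _)]

lemma facet_measure (f : Fin M → ι) (hf : Function.Injective f) (p q : ι) (hpq : p ≠ q)
    (hp : ∀ l, f l ≠ p) (hq : ∀ l, f l ≠ q) (hcov : ∀ i, i = p ∨ i = q ∨ ∃ l, i = f l)
    (hsum : ∀ g : ι → ℝ, ∑ i, g i = g p + (g q + ∑ l, g (f l)))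
    (u : EuclideanSpace ℝ ι) (huq : u q ≠ 0) (σ : ℝ) (A : Set (Fin M → ℝ)) :
    μHE[M] {x : EuclideanSpace ℝ ι | x p = σ ∧ inner ℝ x u = 0 ∧ (fun l => x (f l)) ∈ A} =
      ENNReal.ofReal (√(1 + ∑ l, (u (f l) / u q) ^ 2)) * volume A := by
  set v : Fin M → ℝ := fun l => -(u (f l) / u q) with hv
  set x0 : EuclideanSpace ℝ ι :=
    σ • EuclideanSpace.single p (1:ℝ) + (-(σ * u p / u q)) • EuclideanSpace.single q (1:ℝ) with hx0
  have hx0c : ∀ i, x0 i = σ * (if i = p then 1 else 0) +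
      (-(σ * u p / u q)) * (if i = q then 1 else 0) := by
    intro i
    simp only [hx0, PiLp.add_apply, PiLp.smul_apply, PiLp.single_apply, smul_eq_mul]
  have hinner : ∀ x : EuclideanSpace ℝ ι, inner ℝ x u = x p * u p + (x q * u q + ∑ l, x (f l) * u (f l)) := by
    intro x
    rw [PiLp.inner_apply]
    have := hsum (fun i => x i * u i)
    rw [← this]
    apply Finset.sum_congr rfl
    intro i _
    simp [mul_comm]
  have hset : {x : EuclideanSpace ℝ ι | x p = σ ∧ inner ℝ x u = 0 ∧ (fun l => x (f l)) ∈ A} =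
      (fun y => x0 + y) '' (Lmap f q v '' {z : EuclideanSpace ℝ (Fin M) | z.ofLp ∈ A}) := by
    ext x
    constructor
    · rintro ⟨h1, h2, h3⟩
      refine ⟨Lmap f q v (WithLp.toLp 2 (fun l => x (f l))), ⟨_, h3, rfl⟩, ?_⟩
      ext i
      rw [PiLp.add_apply, hx0c, Lmap_coord]
      rcases hcov i with rfl | rfl | ⟨l, rfl⟩
      · simp only [if_true, if_neg hpq, mul_one, mul_zero, add_zero]
        rw [Finset.sum_eq_zero, add_zero, h1]
        intro l _
        rw [if_neg (fun h => hp l h.symm), mul_zero]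
      · simp only [if_true, if_neg hpq.symm, mul_one, mul_zero, zero_add]
        have e : ∀ l, (x (f l)) * ((if i = f l then (1:ℝ) else 0) + v l) = x (f l) * v l := by
          intro l
          rw [if_neg (fun h => hq l h.symm), zero_add]
        simp only [e]
        rw [hinner, h1] at h2
        have e2 : ∑ l, x (f l) * v l = -((∑ l, x (f l) * u (f l)) / u i) := by
          rw [Finset.sum_div, ← Finset.sum_neg_distrib]
          apply Finset.sum_congr rfl; intro l _; simp only [hv]; ring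
        rw [e2]
        generalize ∑ l, x (f l) * u (f l) = S at h2 ⊢
        field_simp
        linarith
      · simp only [if_neg (hp l), if_neg (hq l), mul_zero, add_zero, zero_add]
        rw [Finset.sum_eq_single l]
        · simp
        · intro b _ hb
          rw [if_neg (fun h => hb (hf h).symm), mul_zero]
        · simp
    · rintro ⟨y, ⟨z, hz, rfl⟩, rfl⟩
      have hxp : (x0 + Lmap f q v z) p = σ := by
        rw [PiLp.add_apply, hx0c, Lmap_coord]
        simp only [if_true, if_neg hpq, mul_one, mul_zero, add_zero]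
        rw [Finset.sum_eq_zero, add_zero]
        intro l _
        rw [if_neg (fun h => hp l h.symm), mul_zero]
      have hxf : ∀ l, (x0 + Lmap f q v z) (f l) = z l := by
        intro l
        rw [PiLp.add_apply, hx0c, Lmap_coord]
        simp only [if_neg (hp l), if_neg (hq l), mul_zero, add_zero, zero_add]
        rw [Finset.sum_eq_single l]
        · simp
        · intro b _ hb
          rw [if_neg (fun h => hb (hf h).symm), mul_zero]
        · simp
      have hxq : (x0 + Lmap f q v z) q = -(σ * u p / u q) + ∑ l, z l * v l := by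
        rw [PiLp.add_apply, hx0c, Lmap_coord]
        simp only [if_true, if_neg hpq.symm, mul_one, mul_zero, zero_add]
        congr 1
        apply Finset.sum_congr rfl
        intro l _
        rw [if_neg (fun h => hq l h.symm), zero_add]
      refine ⟨hxp, ?_, ?_⟩
      · have e2 : ∑ l, z l * v l = -((∑ l, z l * u (f l)) / u q) := by
          rw [Finset.sum_div, ← Finset.sum_neg_distrib]
          apply Finset.sum_congr rfl; intro l _; simp only [hv]; ring
        rw [hinner, hxp, hxq, e2]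
        simp_rw [hxf]
        generalize ∑ l, z.ofLp l * u.ofLp (f l) = S
        field_simp
        ring
      · have : (fun l => (x0 + Lmap f q v z) (f l)) = z.ofLp := by
          ext l; exact hxf l
        rw [this]; exact hz
  rw [hset, (isometry_add_left x0).euclideanHausdorffMeasure_image]
  have h2 := (Lmap f q v).euclideanHausdorffMeasure_image_eq_normDet_mul_volume
    {z : EuclideanSpace ℝ (Fin M) | z.ofLp ∈ A}
  rw [finrank_euclideanSpace_fin] at h2
  rw [h2, normDet_Lmap f hf q hq v]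
  congr 1
  · congr 2
    simp [hv]
  · have := (PiLp.volume_preserving_ofLp (Fin M)).measure_preimage_equiv
      (f := (MeasurableEquiv.toLp 2 (Fin M → ℝ)).symm) A
    exact this

end facet

end Pool.Agent.Helper390.CubeSection
end CubeJ

section CubeK
open MeasureTheory Set
open scoped ENNReal Pointwise

namespace Pool.Agent.Helper390.CubeSection

lemma N_le_center {m : ℕ} (a : Fin (m+1) → ℝ) (k : Fin (m+1)) (c : ℝ) :
    N (fun j => a (k.succAbove j)) (a k) c ≤ N a 0 c := by
  rw [N_succ k a 0 c, integral_nu]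
  have h : ∫ y in (-1:ℝ)..1, N (fun j => a (k.succAbove j)) (a k) c ≤
      ∫ y in (-1:ℝ)..1, N (fun j => a (k.succAbove j)) (0 + a k * y) c := by
    apply intervalIntegral.integral_mono_on (by norm_num)
    · simp
    · apply IntervalIntegrable.mono_set (a := -1) (b := 1) _ le_rfl
      apply intervalIntegrable_iff.2
      apply Measure.integrableOn_of_bounded (M := 1)
      · simp
      · exact ((measurable_N _ c).comp (by fun_prop)).aestronglyMeasurable
      · exact ae_of_all _ fun x => by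
          rw [Real.norm_eq_abs, abs_of_nonneg (N_nonneg _ _ _)]
          exact N_le_one _ _ _
    · intro y hy
      apply N_anti
      rw [zero_add, abs_mul]
      have : |y| ≤ 1 := abs_le.2 ⟨hy.1, hy.2⟩
      nlinarith [abs_nonneg (a k)]
  simp only [intervalIntegral.integral_const, smul_eq_mul] at h
  linarith

lemma dens_le {m : ℕ} (i : Fin (m+1)) (a : Fin (m+1) → ℝ) (hai : a i ≠ 0) (c : ℝ) (hc : 0 ≤ c) :
    2 * c * dens i a c ≤ N a 0 c := by
  rw [N_eq_integral_dens i a hai]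
  have h : ∫ s in Icc (-c) c, dens i a c ≤ ∫ s in Icc (-c) c, dens i a s := by
    apply setIntegral_mono_on
    · exact integrableOn_const (by simp) (by simp)
    · exact (integrable_dens i a hai).1.integrableOn
    · exact measurableSet_Icc
    · intro s hs
      apply dens_anti
      rw [abs_of_nonneg hc]
      exact abs_le.2 ⟨hs.1, hs.2⟩
  rw [setIntegral_const, smul_eq_mul, Real.volume_real_Icc, max_eq_left (by linarith)] at h
  linarith

lemma N_pos {m : ℕ} (a : Fin m → ℝ) (s r : ℝ) (hr : 0 < r) (h : |s| < r + ∑ k, |a k|) :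
    0 < N a s r := by
  -- find a point
  have hpt : ∃ z : Fin m → ℝ, (∀ k, |z k| < 1) ∧ |s + ∑ k, a k * z k| < r := by
    set A := ∑ k, |a k| with hA
    have hA0 : 0 ≤ A := Finset.sum_nonneg fun _ _ => abs_nonneg _
    have hz : ∀ t : ℝ, ∑ k, a k * (-(t * (SignType.sign (a k) : ℝ) * (SignType.sign s : ℝ))) =
        -(t * A * (SignType.sign s : ℝ)) := by
      intro t
      rw [hA, Finset.mul_sum, Finset.sum_mul, ← Finset.sum_neg_distrib]
      apply Finset.sum_congr rfl
      intro k _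
      have : |a k| = a k * (SignType.sign (a k) : ℝ) := by
        rw [self_mul_sign]
      rw [this]; ring
    have hs1 : ∀ x : ℝ, |(SignType.sign x : ℝ)| ≤ 1 := by
      intro x
      rcases lt_trichotomy x 0 with h | h | h
      · simp [h]
      · simp [h]
      · simp [h]
    rcases lt_or_ge |s| r with h1 | h1
    · exact ⟨0, by simp, by simpa using h1⟩
    · set v := (|s| - r + min A |s|) / 2 with hv
      have hm1 : |s| - r < min A |s| := lt_min (by linarith) (by linarith)
      have hm2 : min A |s| ≤ A := min_le_left _ _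
      have hm3 : min A |s| ≤ |s| := min_le_right _ _
      have hv1 : |s| - r < v := by rw [hv]; linarith
      have hv2 : v < A := by rw [hv]; linarith
      have hv3 : v < |s| := by rw [hv]; linarith
      have hv0 : 0 ≤ v := by linarith
      have hApos : 0 < A := by linarith
      have hspos : s ≠ 0 := by
        intro h0; rw [h0, abs_zero] at h1; linarith
      refine ⟨fun k => -((v / A) * (SignType.sign (a k) : ℝ) * (SignType.sign s : ℝ)), ?_, ?_⟩
      · intro k
        rw [abs_neg, abs_mul, abs_mul]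
        have h2 := hs1 (a k)
        have h3 := hs1 s
        have h4 : |v / A| < 1 := by
          rw [abs_of_nonneg (by positivity), div_lt_one hApos]; exact hv2
        calc |v / A| * |(SignType.sign (a k) : ℝ)| * |(SignType.sign s : ℝ)|
            ≤ |v / A| * 1 * 1 := by gcongr
          _ < 1 := by linarith
      · rw [hz, div_mul_cancel₀ v hApos.ne']
        have hss : s = |s| * (SignType.sign s : ℝ) := by
          rw [mul_comm, sign_mul_abs]
        have hsg : |(SignType.sign s : ℝ)| = 1 := by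
          rcases lt_or_gt_of_ne hspos with h | h
          · simp [h]
          · simp [h]
        have : s + -(v * (SignType.sign s : ℝ)) = (|s| - v) * (SignType.sign s : ℝ) := by
          conv_lhs => rw [hss]
          have hab : |(|s| * (SignType.sign s : ℝ))| = |s| := by
            rw [abs_mul, hsg, mul_one, abs_abs]
          have hsi : (SignType.sign (|s| * (SignType.sign s : ℝ)) : ℝ) = (SignType.sign s : ℝ) := by
            rw [← hss]
          rw [hsi]; ring
        rw [this, abs_mul, hsg, mul_one, abs_lt]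
        constructor <;> linarith
  obtain ⟨z0, hz1, hz2⟩ := hpt
  set U : Set (Fin m → ℝ) := {z | (∀ k, |z k| < 1) ∧ |s + ∑ k, a k * z k| < r} with hU
  have hopen : IsOpen U := by
    have : U = (⋂ k, {z : Fin m → ℝ | |z k| < 1}) ∩ {z | |s + ∑ k, a k * z k| < r} := by
      ext z; simp [hU]
    rw [this]
    apply IsOpen.inter
    · exact isOpen_iInter_of_finite fun k => isOpen_lt (by fun_prop) continuous_const
    · exact isOpen_lt (by fun_prop) continuous_const
  have hpos : 0 < volume U := hopen.measure_pos _ ⟨z0, hz1, hz2⟩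
  unfold N Measure.real
  apply ENNReal.toReal_pos _ (measure_ne_top _ _)
  rw [PP_eq, Measure.smul_apply, Measure.restrict_apply (measurableSet_N a s r), smul_eq_mul]
  apply mul_ne_zero (by simp)
  apply ne_of_gt
  refine hpos.trans_le (measure_mono ?_)
  intro z hz
  exact ⟨hz.2.le, (mem_cube_iff z).2 fun k => (hz.1 k).le⟩

end Pool.Agent.Helper390.CubeSection
end CubeK

section CubeL
open MeasureTheory Set
open scoped ENNReal Pointwise

namespace Pool.Agent.Helper390.CubeSection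

lemma N_zero (a : Fin 0 → ℝ) (s r : ℝ) : N a s r = (Icc (-r) r).indicator (fun _ => (1:ℝ)) s := by
  unfold N
  by_cases h : s ∈ Icc (-r) r
  · rw [indicator_of_mem h]
    have : {z : Fin 0 → ℝ | |s + ∑ k, a k * z k| ≤ r} = univ := by
      ext z
      simp only [Finset.univ_eq_empty, Finset.sum_empty, add_zero, Set.mem_ofPred_eq, mem_univ,
        iff_true]
      exact abs_le.2 ⟨h.1, h.2⟩
    rw [this]; simp
  · rw [indicator_of_notMem h]
    have : {z : Fin 0 → ℝ | |s + ∑ k, a k * z k| ≤ r} = ∅ := by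
      ext z
      simp only [Finset.univ_eq_empty, Finset.sum_empty, add_zero, Set.mem_ofPred_eq,
        mem_empty_iff_false, iff_false]
      intro h2
      exact h ⟨(abs_le.1 h2).1, (abs_le.1 h2).2⟩
    rw [this]; simp

lemma N_one_pos (b s r : ℝ) (hb : 0 < b) (h1 : b ≤ s + r) (h2 : r ≤ s + b)
    (h3 : s ≤ r + b) : N (fun _ : Fin 1 => b) s r = (b + r - s) / (2 * b) := by
  rw [N_succ 0, integral_nu]
  simp only [N_zero]
  have := intervalIntegral.integral_comp_add_mul (a := (-1:ℝ)) (b := 1)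
    ((Icc (-r) r).indicator (fun _ => (1:ℝ))) hb.ne' s
  rw [this, smul_eq_mul]
  have e : ∫ x in (s + b * -1)..(s + b * 1), (Icc (-r) r).indicator (fun _ => (1:ℝ)) x =
      b + r - s := by
    rw [intervalIntegral.integral_of_le (by linarith), ← integral_Icc_eq_integral_Ioc,
      integral_indicator measurableSet_Icc, Measure.restrict_restrict measurableSet_Icc]
    rw [Icc_inter_Icc, setIntegral_const, smul_eq_mul, mul_one, Real.volume_real_Icc]
    have e1 : -r ⊔ (s + b * -1) = s - b := by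
      rw [sup_eq_right.2 (by linarith)]; ring
    have e2 : r ⊓ (s + b * 1) = r := by
      rw [inf_eq_left.2 (by linarith)]
    rw [e1, e2, max_eq_left (by linarith)]
    ring
  rw [e]
  field_simp

lemma N_one (b s r : ℝ) (hb : b ≠ 0) (h1 : |b| ≤ |s| + r) (h2 : r ≤ |s| + |b|)
    (h3 : |s| ≤ r + |b|) : N (fun _ : Fin 1 => b) s r = (|b| + r - |s|) / (2 * |b|) := by
  have hbb : N (fun _ : Fin 1 => b) s r = N (fun _ : Fin 1 => |b|) s r := by
    rcases abs_cases b with ⟨h, _⟩ | ⟨h, _⟩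
    · rw [h]
    · rw [h, N_succ 0, N_succ 0, integral_nu, integral_nu]
      congr 1
      have := intervalIntegral.integral_comp_neg (a := (-1:ℝ)) (b := 1)
        (fun y => N (fun k : Fin 0 => -b) (s + -b * y) r)
      simp only [neg_neg] at this
      rw [← this]
      congr 1
      ext y
      rw [N_zero, N_zero]
      ring_nf
  rw [hbb, ← N_abs, N_one_pos |b| |s| r (abs_pos.2 hb) h1 h2 h3]

/-- The key inequality for the sum of the facet areas, non-dominated case. -/
theorem T_gt {m : ℕ} (a : Fin (m+2) → ℝ) (c : ℝ) (hc : 0 < c) (hnorm : c ^ 2 + ∑ k, a k ^ 2 = 1)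
    (ha : ∀ k, |a k| ≤ c) (hnd : c < ∑ k, |a k|) (k0 : Fin (m+2)) (hk0 : a k0 ≠ 0) :
    (m : ℝ) + 2 < √(1 - c ^ 2) * (N (fun l => a (k0.succAbove l)) c |a k0| / |a k0|) +
      ∑ k, √(1 - a k ^ 2) * (N (fun l => a (k.succAbove l)) (a k) c / c) := by
  -- every k has another nonzero coordinate
  have hother : ∀ k : Fin (m+2), ∃ j : Fin (m+1), a (k.succAbove j) ≠ 0 := by
    intro k
    by_contra hcon
    push Not at hcon
    rw [Fin.sum_univ_succAbove _ k] at hnd
    simp only [hcon, abs_zero, Finset.sum_const_zero, add_zero] at hnd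
    linarith [ha k]
  have hzz : 0 ≤ 1 - c ^ 2 := by
    have : 0 ≤ ∑ k, a k ^ 2 := Finset.sum_nonneg fun _ _ => sq_nonneg _
    linarith
  set z := √(1 - c ^ 2) with hz
  have hz0 : 0 ≤ z := Real.sqrt_nonneg _
  have hz2 : z ^ 2 = 1 - c ^ 2 := Real.sq_sqrt hzz
  have hcz : c ^ 2 + z ^ 2 = 1 := by linarith
  have hs : ∑ k, a k ^ 2 = z ^ 2 := by linarith
  have hk0p : 0 < |a k0| := abs_pos.2 hk0
  have hsumpos : 0 < ∑ k, a k ^ 2 := by
    have h1 : a k0 ^ 2 ≤ ∑ k, a k ^ 2 :=
      Finset.single_le_sum (f := fun k => a k ^ 2) (fun _ _ => sq_nonneg _) (Finset.mem_univ k0)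
    have h2 : 0 < a k0 ^ 2 := by positivity
    linarith
  have hc1 : c < 1 := by nlinarith
  rcases Nat.eq_zero_or_pos m with hm0 | hm
  · -- dimension three
    subst hm0
    have h0 : a 0 ≠ 0 := by
      obtain ⟨j, hj⟩ := hother 1
      fin_cases j
      simpa using hj
    have h1 : a 1 ≠ 0 := by
      obtain ⟨j, hj⟩ := hother 0
      fin_cases j
      simpa using hj
    have hsum2 : ∑ k : Fin (0+2), |a k| = |a 0| + |a 1| := Fin.sum_univ_two _
    rw [hsum2] at hnd
    have hsq2 : ∑ k : Fin (0+2), a k ^ 2 = a 0 ^ 2 + a 1 ^ 2 := Fin.sum_univ_two _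
    rw [hsq2] at hnorm
    have hp0 : 0 < |a 0| := abs_pos.2 h0
    have hp1 : 0 < |a 1| := abs_pos.2 h1
    have ha0 := ha 0
    have ha1 := ha 1
    have key := ineq3 c |a 0| |a 1| hc hp0 hp1 (by rw [sq_abs, sq_abs]; linarith) ha0 ha1 hnd
    rw [sq_abs, sq_abs] at key
    have hcabs : |c| = c := abs_of_pos hc
    have e0 : (fun l : Fin 1 => a ((0 : Fin 2).succAbove l)) = fun _ => a 1 := by
      ext l; fin_cases l; rfl
    have e1 : (fun l : Fin 1 => a ((1 : Fin 2).succAbove l)) = fun _ => a 0 := by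
      ext l; fin_cases l; rfl
    have N0 : N (fun l : Fin 1 => a ((0 : Fin 2).succAbove l)) (a 0) c =
        (|a 1| + c - |a 0|) / (2 * |a 1|) := by
      rw [e0, N_one _ _ _ h1 (by linarith) (by linarith) (by linarith)]
    have N1 : N (fun l : Fin 1 => a ((1 : Fin 2).succAbove l)) (a 1) c =
        (|a 0| + c - |a 1|) / (2 * |a 0|) := by
      rw [e1, N_one _ _ _ h0 (by linarith) (by linarith) (by linarith)]
    have NG : N (fun l : Fin 1 => a (k0.succAbove l)) c |a k0| / |a k0| =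
        (|a 0| + |a 1| - c) / (2 * |a 0| * |a 1|) := by
      have hk : k0 = 0 ∨ k0 = 1 := by
        have := k0.isLt
        rcases k0 with ⟨v, hv⟩
        interval_cases v
        · left; rfl
        · right; rfl
      rcases hk with rfl | rfl
      · rw [e0, N_one _ _ _ h1 (by rw [hcabs]; linarith) (by rw [hcabs]; linarith)
          (by rw [hcabs]; linarith), hcabs]
        field_simp
        try ring
      · rw [e1, N_one _ _ _ h0 (by rw [hcabs]; linarith) (by rw [hcabs]; linarith)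
          (by rw [hcabs]; linarith), hcabs]
        field_simp
        try ring
    rw [NG]
    have hsumT : ∑ k : Fin (0+2), √(1 - a k ^ 2) * (N (fun l => a (k.succAbove l)) (a k) c / c) =
        √(1 - a 0 ^ 2) * (N (fun l : Fin 1 => a ((0 : Fin 2).succAbove l)) (a 0) c / c) +
        √(1 - a 1 ^ 2) * (N (fun l : Fin 1 => a ((1 : Fin 2).succAbove l)) (a 1) c / c) :=
      Fin.sum_univ_two _
    rw [hsumT, N0, N1]
    have r0 : (|a 1| + c - |a 0|) / (2 * |a 1|) / c = (|a 1| + c - |a 0|) / (2 * |a 1| * c) := by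
      rw [div_div]
    have r1 : (|a 0| + c - |a 1|) / (2 * |a 0|) / c = (|a 0| + c - |a 1|) / (2 * |a 0| * c) := by
      rw [div_div]
    rw [r0, r1]
    push_cast
    linarith
  · -- dimension at least four
    have hm1 : 1 ≤ m := hm
    set G := N (fun l => a (k0.succAbove l)) c |a k0| / |a k0| with hG
    have hGd : G = 2 * dens k0 a c := by
      rw [hG]; unfold dens; field_simp
    set F := N a 0 c / c with hF
    have hcF : c * F = N a 0 c := by rw [hF]; field_simp
    have hGpos : 0 < G := by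
      rw [hG]
      apply div_pos _ hk0p
      apply N_pos _ _ _ hk0p
      rw [abs_of_pos hc]
      rw [Fin.sum_univ_succAbove _ k0] at hnd
      exact hnd
    have hx0 : G ≤ F := by
      have := dens_le k0 a hk0 c hc.le
      rw [hGd, hF, le_div_iff₀ hc]; linarith
    have hx1 : c * F ≤ 1 := by rw [hcF]; exact N_le_one _ _ _
    have hD0 : ∀ k, 0 ≤ F - N (fun l => a (k.succAbove l)) (a k) c / c := by
      intro k
      have := N_le_center a k c
      rw [hF, ← sub_div]
      exact div_nonneg (by linarith) hc.le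
    have hDs : ∑ k, (F - N (fun l => a (k.succAbove l)) (a k) c / c) ≤ G := by
      have h := cone k0 a hk0 hother c hc.le
      rw [Finset.sum_sub_distrib, ← Finset.sum_div]
      simp only [Finset.sum_const, Finset.card_univ, Fintype.card_fin, nsmul_eq_mul]
      rw [← hcF] at h
      have h2 : ((m + 2 : ℕ) : ℝ) * F ≤ (∑ k, N (fun j => a (k.succAbove j)) (a k) c) / c +
          2 * dens k0 a c := by
        rw [div_add' _ _ _ hc.ne', le_div_iff₀ hc]
        linarith
      have hFe : ((m + 2 : ℕ) : ℝ) * N a 0 c / c = ((m + 2 : ℕ) : ℝ) * F := by rw [hF]; ring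
      have hsd : ∑ k, N (fun l => a (k.succAbove l)) (a k) c / c =
          (∑ k, N (fun l => a (k.succAbove l)) (a k) c) / c := (Finset.sum_div _ _ _).symm
      rw [hGd]; linarith
    obtain ⟨j0, hj0⟩ := hother k0
    have hstar : ∀ R, 0 < R → 3 * R ^ 2 * (1 - c * F + c * G) < z ^ 2 + 2 * G * R ^ 3 := by
      intro R hR
      have h := star_strict k0 a hk0 j0 hj0 c R hc.le hR (by linarith)
      rw [hcF, ← hs, hGd]
      calc 3 * R ^ 2 * (1 - N a 0 c + c * (2 * dens k0 a c))
          = 3 * R ^ 2 * (1 - N a 0 c + 2 * c * dens k0 a c) := by ring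
        _ < _ := h
        _ = _ := by ring
    have := main_ineq hm1 a c z F G (fun k => F - N (fun l => a (k.succAbove l)) (a k) c / c)
      hc hc1 hz0 hcz ha hs hD0 hDs hx0 hx1 hGpos hstar
    simpa using this

end Pool.Agent.Helper390.CubeSection
end CubeL

section CubeM
open MeasureTheory Set
open scoped ENNReal Pointwise

namespace Pool.Agent.Helper390.CubeSection

lemma ae_PP_lt (M : ℕ) : ∀ᵐ z ∂(PP M), ∀ l, |z l| < 1 := by
  rw [ae_all_iff]
  intro l
  have hnu : ∀ᵐ y ∂nu, |y| < 1 := by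
    unfold nu
    apply Measure.ae_smul_measure
    have h1 : ∀ᵐ y ∂(volume.restrict (Icc (-1:ℝ) 1)), y ∈ Icc (-1:ℝ) 1 :=
      ae_restrict_mem measurableSet_Icc
    have h2 : ∀ᵐ y ∂(volume.restrict (Icc (-1:ℝ) 1)), y ∉ ({-1, 1} : Set ℝ) := by
      apply ae_restrict_of_ae
      have : volume ({-1, 1} : Set ℝ) = 0 := (Set.toFinite _).measure_zero _
      exact measure_eq_zero_iff_ae_notMem.1 this
    filter_upwards [h1, h2] with y hy1 hy2
    rw [abs_lt]
    simp only [mem_insert_iff, mem_singleton_iff, not_or] at hy2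
    exact ⟨lt_of_le_of_ne hy1.1 (Ne.symm hy2.1), lt_of_le_of_ne hy1.2 hy2.2⟩
  have := (measurePreserving_eval (fun _ : Fin M => nu) l).quasiMeasurePreserving.ae hnu
  exact this

lemma vol_of_PP {M : ℕ} (A : Set (Fin M → ℝ)) (hA : MeasurableSet A) (hsub : ∀ z ∈ A, ∀ l, |z l| ≤ 1) :
    volume A = 2 ^ M * (PP M) A := by
  rw [PP_eq, Measure.smul_apply, Measure.restrict_apply hA, smul_eq_mul, ← mul_assoc, ← mul_pow,
    ENNReal.mul_inv_cancel (by norm_num) (by norm_num), one_pow, one_mul]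
  congr 1
  symm
  apply inter_eq_left.2
  intro z hz
  exact (mem_cube_iff z).2 (hsub z hz)

lemma vol_closed {M : ℕ} (w : Fin M → ℝ) (s r : ℝ) :
    volume {z : Fin M → ℝ | (∀ l, |z l| < 1) ∧ |s + ∑ l, w l * z l| ≤ r} =
      ENNReal.ofReal (2 ^ M * N w s r) := by
  have hm : MeasurableSet {z : Fin M → ℝ | (∀ l, |z l| < 1) ∧ |s + ∑ l, w l * z l| ≤ r} := by
    apply ms_and
    · exact ms_forall fun k => measurableSet_lt (by fun_prop) measurable_const
    · exact measurableSet_le (by fun_prop) measurable_const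
  rw [vol_of_PP _ hm (fun z hz l => (hz.1 l).le), ENNReal.ofReal_mul (by positivity), N_eq_toReal,
    ENNReal.ofReal_toReal (measure_ne_top _ _)]
  congr 1
  · rw [ENNReal.ofReal_pow (by norm_num)]; simp
  · apply measure_congr
    filter_upwards [ae_PP_lt M] with z hz
    apply propext
    exact ⟨fun h => h.2, fun h => ⟨hz, h⟩⟩

lemma vol_open {M : ℕ} (w : Fin (M+1) → ℝ) (l0 : Fin (M+1)) (hl0 : w l0 ≠ 0) (s r : ℝ) :
    volume {z : Fin (M+1) → ℝ | (∀ l, |z l| < 1) ∧ |s + ∑ l, w l * z l| < r} =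
      ENNReal.ofReal (2 ^ (M+1) * N w s r) := by
  have hm : MeasurableSet {z : Fin (M+1) → ℝ | (∀ l, |z l| < 1) ∧ |s + ∑ l, w l * z l| < r} := by
    apply ms_and
    · exact ms_forall fun k => measurableSet_lt (by fun_prop) measurable_const
    · exact measurableSet_lt (by fun_prop) measurable_const
  rw [vol_of_PP _ hm (fun z hz l => (hz.1 l).le), ENNReal.ofReal_mul (by positivity), N_eq_toReal,
    ENNReal.ofReal_toReal (measure_ne_top _ _)]
  congr 1
  · rw [ENNReal.ofReal_pow (by norm_num)]; simp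
  · apply measure_congr
    have hnull : ∀ᵐ z ∂(PP (M+1)), ¬ (∑ l, w l * z l ∈ ({r - s, -r - s} : Set ℝ)) := by
      have h := prob_law l0 w hl0 ({r - s, -r - s} : Set ℝ) (by measurability)
      have h0 : volume ({r - s, -r - s} : Set ℝ) = 0 := (Set.toFinite _).measure_zero _
      rw [Measure.restrict_eq_zero.2 h0] at h
      simp only [integral_zero_measure] at h
      rw [measureReal_eq_zero_iff] at h
      exact measure_eq_zero_iff_ae_notMem.1 h
    filter_upwards [ae_PP_lt (M+1), hnull] with z hz hz2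
    apply propext
    refine ⟨fun h => h.2.le, fun h => ⟨hz, lt_of_le_of_ne h ?_⟩⟩
    intro heq
    apply hz2
    rcases abs_cases (s + ∑ l, w l * z l) with ⟨h3, _⟩ | ⟨h3, _⟩
    · left; linarith
    · right
      simp only [mem_singleton_iff]; linarith

lemma sum_measure_le {X κ : Type*} [MeasurableSpace X] (μ : Measure X) [Fintype κ] (E : κ → Set X)
    (B : Set X) (hm : ∀ i, MeasurableSet (E i)) (hd : Pairwise (Function.onFun Disjoint E))
    (hs : ∀ i, E i ⊆ B) : ∑ i, μ (E i) ≤ μ B := by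
  rw [← tsum_fintype (L := .unconditional _), ← measure_iUnion hd hm]
  exact measure_mono (iUnion_subset hs)

end Pool.Agent.Helper390.CubeSection
end CubeM

section CubeN
open MeasureTheory Set
open scoped ENNReal Pointwise

namespace Pool.Agent.Helper390.CubeSection

/-- The boundary as a subset of the ambient space. -/
def bdry {n : ℕ} (u : EuclideanSpace ℝ (Fin n)) : Set (EuclideanSpace ℝ (Fin n)) :=
  {x | inner ℝ x u = 0 ∧ (∀ i, |x i| ≤ 1) ∧ ∃ i, |x i| = 1}

section indices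

variable {M : ℕ} (j0 : Fin (M+2)) (k : Fin (M+1))

lemma idx_inj : Function.Injective (fun l : Fin M => j0.succAbove (k.succAbove l)) :=
  fun _ _ h => Fin.succAbove_right_injective (Fin.succAbove_right_injective h)

lemma idx_ne_j0 (l : Fin M) : j0.succAbove (k.succAbove l) ≠ j0 := Fin.succAbove_ne _ _

lemma idx_ne_p (l : Fin M) : j0.succAbove (k.succAbove l) ≠ j0.succAbove k :=
  fun h => Fin.succAbove_ne _ _ (Fin.succAbove_right_injective h)

lemma idx_cov (i : Fin (M+2)) : i = j0 ∨ i = j0.succAbove k ∨ ∃ l, i = j0.succAbove (k.succAbove l) := by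
  rcases Fin.eq_self_or_eq_succAbove j0 i with h | ⟨y, rfl⟩
  · exact Or.inl h
  · rcases Fin.eq_self_or_eq_succAbove k y with h | ⟨l, rfl⟩
    · exact Or.inr (Or.inl (by rw [h]))
    · exact Or.inr (Or.inr ⟨l, rfl⟩)

lemma idx_sum (g : Fin (M+2) → ℝ) : ∑ i, g i = g j0 + (g (j0.succAbove k) +
    ∑ l, g (j0.succAbove (k.succAbove l))) := by
  rw [Fin.sum_univ_succAbove _ j0, Fin.sum_univ_succAbove _ k]

end indices

/-- facet `x_p = σ` with `p = j0.succAbove k`, eliminating `j0` -/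
lemma facet1 {M : ℕ} (j0 : Fin (M+2)) (k : Fin (M+1)) (u : EuclideanSpace ℝ (Fin (M+2)))
    (hu : u j0 ≠ 0) (hnorm : ∑ i, u i ^ 2 = 1) (σ : ℝ) (hσ : |σ| = 1) :
    μHE[M] {x : EuclideanSpace ℝ (Fin (M+2)) | x (j0.succAbove k) = σ ∧ inner ℝ x u = 0 ∧
      (fun l => x (j0.succAbove (k.succAbove l))) ∈ {z : Fin M → ℝ | (∀ l, |z l| < 1) ∧
        |σ * u (j0.succAbove k) + ∑ l, u (j0.succAbove (k.succAbove l)) * z l| ≤ |u j0|}} =
    ENNReal.ofReal (2 ^ M * (√(1 - u (j0.succAbove k) ^ 2) *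
      (N (fun l => u (j0.succAbove (k.succAbove l))) (u (j0.succAbove k)) |u j0| / |u j0|))) := by
  rw [facet_measure (fun l => j0.succAbove (k.succAbove l)) (idx_inj j0 k) (j0.succAbove k) j0
    (Fin.succAbove_ne _ _) (idx_ne_p j0 k) (idx_ne_j0 j0 k)
    (fun i => by rcases idx_cov j0 k i with h | h | h <;> simp [h])
    (fun g => by rw [idx_sum j0 k]; ring) u hu, vol_closed, ← ENNReal.ofReal_mul (Real.sqrt_nonneg _)]
  congr 1
  have h1 : 1 + ∑ l, (u (j0.succAbove (k.succAbove l)) / u j0) ^ 2 =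
      (1 - u (j0.succAbove k) ^ 2) / (u j0) ^ 2 := by
    rw [idx_sum j0 k] at hnorm
    have : ∑ l, (u (j0.succAbove (k.succAbove l)) / u j0) ^ 2 =
        (∑ l, u (j0.succAbove (k.succAbove l)) ^ 2) / (u j0) ^ 2 := by
      rw [Finset.sum_div]; apply Finset.sum_congr rfl; intro l _; rw [div_pow]
    rw [this, eq_div_iff (by positivity), add_mul, div_mul_cancel₀ _ (by positivity)]
    linarith
  have h2 : N (fun l => u (j0.succAbove (k.succAbove l))) (σ * u (j0.succAbove k)) |u j0| =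
      N (fun l => u (j0.succAbove (k.succAbove l))) (u (j0.succAbove k)) |u j0| := by
    rw [← N_abs, abs_mul, hσ, one_mul, N_abs]
  rw [h1, h2, Real.sqrt_div' _ (sq_nonneg _), Real.sqrt_sq_eq_abs]
  ring

/-- facet `x_{j0} = σ`, eliminating `q = j0.succAbove k` -/
lemma facet2 {M : ℕ} (j0 : Fin (M+3)) (k : Fin (M+2)) (u : EuclideanSpace ℝ (Fin (M+3)))
    (hu : u (j0.succAbove k) ≠ 0) (l0 : Fin (M+1)) (hl0 : u (j0.succAbove (k.succAbove l0)) ≠ 0)
    (hnorm : ∑ i, u i ^ 2 = 1) (σ : ℝ) (hσ : |σ| = 1) :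
    μHE[M+1] {x : EuclideanSpace ℝ (Fin (M+3)) | x j0 = σ ∧ inner ℝ x u = 0 ∧
      (fun l => x (j0.succAbove (k.succAbove l))) ∈ {z : Fin (M+1) → ℝ | (∀ l, |z l| < 1) ∧
        |σ * u j0 + ∑ l, u (j0.succAbove (k.succAbove l)) * z l| < |u (j0.succAbove k)|}} =
    ENNReal.ofReal (2 ^ (M+1) * (√(1 - u j0 ^ 2) *
      (N (fun l => u (j0.succAbove (k.succAbove l))) (u j0) |u (j0.succAbove k)| /
        |u (j0.succAbove k)|))) := by
  rw [facet_measure (fun l => j0.succAbove (k.succAbove l)) (idx_inj j0 k) j0 (j0.succAbove k)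
    (Fin.succAbove_ne _ _).symm (idx_ne_j0 j0 k) (idx_ne_p j0 k)
    (fun i => by rcases idx_cov j0 k i with h | h | h <;> simp [h])
    (fun g => by rw [idx_sum j0 k]) u hu, vol_open _ l0 hl0, ← ENNReal.ofReal_mul (Real.sqrt_nonneg _)]
  congr 1
  have h1 : 1 + ∑ l, (u (j0.succAbove (k.succAbove l)) / u (j0.succAbove k)) ^ 2 =
      (1 - u j0 ^ 2) / (u (j0.succAbove k)) ^ 2 := by
    rw [idx_sum j0 k] at hnorm
    have : ∑ l, (u (j0.succAbove (k.succAbove l)) / u (j0.succAbove k)) ^ 2 =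
        (∑ l, u (j0.succAbove (k.succAbove l)) ^ 2) / (u (j0.succAbove k)) ^ 2 := by
      rw [Finset.sum_div]; apply Finset.sum_congr rfl; intro l _; rw [div_pow]
    rw [this, eq_div_iff (by positivity), add_mul, div_mul_cancel₀ _ (by positivity)]
    linarith
  have h2 : N (fun l => u (j0.succAbove (k.succAbove l))) (σ * u j0) |u (j0.succAbove k)| =
      N (fun l => u (j0.succAbove (k.succAbove l))) (u j0) |u (j0.succAbove k)| := by
    rw [← N_abs, abs_mul, hσ, one_mul, N_abs]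
  rw [h1, h2, Real.sqrt_div' _ (sq_nonneg _), Real.sqrt_sq_eq_abs]
  ring

end Pool.Agent.Helper390.CubeSection
end CubeN

section CubeO
open MeasureTheory Set
open scoped ENNReal Pointwise

namespace Pool.Agent.Helper390.CubeSection

/-- the two signs -/
def sg (b : Bool) : ℝ := if b then 1 else -1

lemma abs_sg (b : Bool) : |sg b| = 1 := by cases b <;> simp [sg]

lemma sg_inj : Function.Injective sg := by
  intro a b h
  cases a <;> cases b <;> simp [sg] at h ⊢ <;> linarith

section sets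

variable {M : ℕ} (u : EuclideanSpace ℝ (Fin (M+2))) (j0 : Fin (M+2))

/-- the piece of the facet `x_p = σ`, `p = j0.succAbove k` -/
def E1 (k : Fin (M+1)) (b : Bool) : Set (EuclideanSpace ℝ (Fin (M+2))) :=
  {x | x (j0.succAbove k) = sg b ∧ inner ℝ x u = 0 ∧
      (fun l => x (j0.succAbove (k.succAbove l))) ∈ {z : Fin M → ℝ | (∀ l, |z l| < 1) ∧
        |sg b * u (j0.succAbove k) + ∑ l, u (j0.succAbove (k.succAbove l)) * z l| ≤ |u j0|}}

/-- the open facet `x_{j0} = σ` -/
def E2 (k : Fin (M+1)) (b : Bool) : Set (EuclideanSpace ℝ (Fin (M+2))) :=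
  {x | x j0 = sg b ∧ inner ℝ x u = 0 ∧
      (fun l => x (j0.succAbove (k.succAbove l))) ∈ {z : Fin M → ℝ | (∀ l, |z l| < 1) ∧
        |sg b * u j0 + ∑ l, u (j0.succAbove (k.succAbove l)) * z l| < |u (j0.succAbove k)|}}

lemma inner_eq (k : Fin (M+1)) (x : EuclideanSpace ℝ (Fin (M+2))) :
    inner ℝ x u = x j0 * u j0 + (x (j0.succAbove k) * u (j0.succAbove k) +
      ∑ l, u (j0.succAbove (k.succAbove l)) * x (j0.succAbove (k.succAbove l))) := by
  rw [PiLp.inner_apply, idx_sum j0 k]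
  simp only [RCLike.inner_apply, conj_trivial]
  ring

lemma mem_E1 (hu : u j0 ≠ 0) (k : Fin (M+1)) (b : Bool) (x : EuclideanSpace ℝ (Fin (M+2)))
    (hx : x ∈ E1 u j0 k b) : inner ℝ x u = 0 ∧ x (j0.succAbove k) = sg b ∧ |x j0| ≤ 1 ∧
      ∀ l, |x (j0.succAbove (k.succAbove l))| < 1 := by
  obtain ⟨h1, h2, h3, h4⟩ := hx
  refine ⟨h2, h1, ?_, h3⟩
  rw [inner_eq u j0 k, h1] at h2
  have h5 : |x j0| * |u j0| ≤ 1 * |u j0| := by
    rw [← abs_mul, one_mul]
    have : x j0 * u j0 = -(sg b * u (j0.succAbove k) +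
      ∑ l, u (j0.succAbove (k.succAbove l)) * x (j0.succAbove (k.succAbove l))) := by linarith
    rw [this, abs_neg]
    exact h4
  exact le_of_mul_le_mul_right h5 (abs_pos.2 hu)

lemma mem_E2 (k : Fin (M+1)) (hu : u (j0.succAbove k) ≠ 0) (b : Bool)
    (x : EuclideanSpace ℝ (Fin (M+2))) (hx : x ∈ E2 u j0 k b) : inner ℝ x u = 0 ∧ x j0 = sg b ∧
      |x (j0.succAbove k)| < 1 ∧ ∀ l, |x (j0.succAbove (k.succAbove l))| < 1 := by
  obtain ⟨h1, h2, h3, h4⟩ := hx
  refine ⟨h2, h1, ?_, h3⟩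
  rw [inner_eq u j0 k, h1] at h2
  have h5 : |x (j0.succAbove k)| * |u (j0.succAbove k)| < 1 * |u (j0.succAbove k)| := by
    rw [← abs_mul, one_mul]
    have : x (j0.succAbove k) * u (j0.succAbove k) = -(sg b * u j0 +
      ∑ l, u (j0.succAbove (k.succAbove l)) * x (j0.succAbove (k.succAbove l))) := by linarith
    rw [this, abs_neg]
    exact h4
  exact lt_of_mul_lt_mul_right h5 (abs_nonneg _)

lemma E1_sub (hu : u j0 ≠ 0) (k : Fin (M+1)) (b : Bool) : E1 u j0 k b ⊆ bdry u := by
  intro x hx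
  obtain ⟨h1, h2, h3, h4⟩ := mem_E1 u j0 hu k b x hx
  refine ⟨h1, ?_, j0.succAbove k, by rw [h2, abs_sg]⟩
  intro i
  rcases idx_cov j0 k i with rfl | rfl | ⟨l, rfl⟩
  · exact h3
  · rw [h2, abs_sg]
  · exact (h4 l).le

lemma E2_sub (k : Fin (M+1)) (hu : u (j0.succAbove k) ≠ 0) (b : Bool) : E2 u j0 k b ⊆ bdry u := by
  intro x hx
  obtain ⟨h1, h2, h3, h4⟩ := mem_E2 u j0 k hu b x hx
  refine ⟨h1, ?_, j0, by rw [h2, abs_sg]⟩
  intro i
  rcases idx_cov j0 k i with rfl | rfl | ⟨l, rfl⟩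
  · rw [h2, abs_sg]
  · exact h3.le
  · exact (h4 l).le

lemma E1_meas (k : Fin (M+1)) (b : Bool) : MeasurableSet (E1 u j0 k b) := by
  unfold E1
  apply ms_and
  · exact measurableSet_eq_fun (by fun_prop) measurable_const
  apply ms_and
  · exact measurableSet_eq_fun (by fun_prop) measurable_const
  · have hA : MeasurableSet {z : Fin M → ℝ | (∀ l, |z l| < 1) ∧
        |sg b * u (j0.succAbove k) + ∑ l, u (j0.succAbove (k.succAbove l)) * z l| ≤ |u j0|} := by
      apply ms_and
      · exact ms_forall fun k => measurableSet_lt (by fun_prop) measurable_const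
      · exact measurableSet_le (by fun_prop) measurable_const
    have hf : Measurable (fun (x : EuclideanSpace ℝ (Fin (M+2))) (l : Fin M) =>
        x (j0.succAbove (k.succAbove l))) := by fun_prop
    exact hf hA

lemma E2_meas (k : Fin (M+1)) (b : Bool) : MeasurableSet (E2 u j0 k b) := by
  unfold E2
  apply ms_and
  · exact measurableSet_eq_fun (by fun_prop) measurable_const
  apply ms_and
  · exact measurableSet_eq_fun (by fun_prop) measurable_const
  · have hA : MeasurableSet {z : Fin M → ℝ | (∀ l, |z l| < 1) ∧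
        |sg b * u j0 + ∑ l, u (j0.succAbove (k.succAbove l)) * z l| < |u (j0.succAbove k)|} := by
      apply ms_and
      · exact ms_forall fun k => measurableSet_lt (by fun_prop) measurable_const
      · exact measurableSet_lt (by fun_prop) measurable_const
    have hf : Measurable (fun (x : EuclideanSpace ℝ (Fin (M+2))) (l : Fin M) =>
        x (j0.succAbove (k.succAbove l))) := by fun_prop
    exact hf hA

lemma E1_disj (hu : u j0 ≠ 0) (k k' : Fin (M+1)) (b b' : Bool) (h : (k, b) ≠ (k', b')) :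
    Disjoint (E1 u j0 k b) (E1 u j0 k' b') := by
  rw [Set.disjoint_left]
  intro x hx hx'
  obtain ⟨-, h2, -, h4⟩ := mem_E1 u j0 hu k b x hx
  obtain ⟨-, h2', -, h4'⟩ := mem_E1 u j0 hu k' b' x hx'
  by_cases hk : k = k'
  · subst hk
    apply h
    rw [h2] at h2'
    rw [sg_inj h2']
  · rcases Fin.eq_self_or_eq_succAbove k k' with h5 | ⟨l, h5⟩
    · exact hk h5.symm
    · have := h4 l
      rw [← h5, h2', abs_sg] at this
      exact lt_irrefl _ this

lemma E12_disj (hu : u j0 ≠ 0) (k k0 : Fin (M+1)) (hu0 : u (j0.succAbove k0) ≠ 0) (b b' : Bool) :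
    Disjoint (E1 u j0 k b) (E2 u j0 k0 b') := by
  rw [Set.disjoint_left]
  intro x hx hx'
  obtain ⟨-, h2, -, h4⟩ := mem_E1 u j0 hu k b x hx
  obtain ⟨-, h2', h3', h4'⟩ := mem_E2 u j0 k0 hu0 b' x hx'
  have h6 : |x (j0.succAbove k)| < 1 := by
    rcases Fin.eq_self_or_eq_succAbove k0 k with h5 | ⟨l, h5⟩
    · rw [h5]; exact h3'
    · rw [h5]; exact h4' l
  rw [h2, abs_sg] at h6
  exact lt_irrefl _ h6

lemma E2_disj (k0 : Fin (M+1)) (b b' : Bool) (h : b ≠ b') :
    Disjoint (E2 u j0 k0 b) (E2 u j0 k0 b') := by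
  rw [Set.disjoint_left]
  intro x hx hx'
  apply h
  have h1 := hx.1
  rw [hx'.1] at h1
  exact (sg_inj h1).symm

/-- lower bound using only the facets other than `j0` -/
lemma lower_dom (hu : u j0 ≠ 0) : ∑ k, ∑ b, μHE[M] (E1 u j0 k b) ≤ μHE[M] (bdry u) := by
  have h := sum_measure_le (μHE[M] : Measure (EuclideanSpace ℝ (Fin (M+2))))
    (fun i : Fin (M+1) × Bool => E1 u j0 i.1 i.2) (bdry u) (fun i => E1_meas u j0 i.1 i.2)
    (fun i i' hii => E1_disj u j0 hu i.1 i'.1 i.2 i'.2 (by simpa using hii))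
    (fun i => E1_sub u j0 hu i.1 i.2)
  rwa [Fintype.sum_prod_type] at h

/-- lower bound using all the facets -/
lemma lower_nd (hu : u j0 ≠ 0) (k0 : Fin (M+1)) (hu0 : u (j0.succAbove k0) ≠ 0) :
    (∑ b, μHE[M] (E2 u j0 k0 b)) + ∑ k, ∑ b, μHE[M] (E1 u j0 k b) ≤ μHE[M] (bdry u) := by
  have h := sum_measure_le (μHE[M] : Measure (EuclideanSpace ℝ (Fin (M+2))))
    (fun i : Bool ⊕ (Fin (M+1) × Bool) => Sum.elim (fun b => E2 u j0 k0 b)
      (fun i => E1 u j0 i.1 i.2) i) (bdry u) ?_ ?_ ?_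
  · rw [Fintype.sum_sum_type] at h
    simp only [Sum.elim_inl, Sum.elim_inr] at h
    rwa [Fintype.sum_prod_type] at h
  · rintro (b | i)
    · exact E2_meas u j0 k0 b
    · exact E1_meas u j0 i.1 i.2
  · rintro (b | i) (b' | i') hii
    · exact E2_disj u j0 k0 b b' (by simpa using hii)
    · exact (E12_disj u j0 hu i'.1 k0 hu0 i'.2 b).symm
    · exact E12_disj u j0 hu i.1 k0 hu0 i.2 b'
    · exact E1_disj u j0 hu i.1 i'.1 i.2 i'.2 (by simpa using hii)
  · rintro (b | i)
    · exact E2_sub u j0 k0 hu0 b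
    · exact E1_sub u j0 hu i.1 i.2

end sets

end Pool.Agent.Helper390.CubeSection
end CubeO

section CubeP
open MeasureTheory Set
open scoped ENNReal Pointwise

namespace Pool.Agent.Helper390.CubeSection

lemma N_eq_one {M : ℕ} (a : Fin M → ℝ) (s r : ℝ) (h : |s| + ∑ l, |a l| ≤ r) : N a s r = 1 := by
  unfold N
  have : (PP M) {z | |s + ∑ k, a k * z k| ≤ r} = 1 := by
    rw [prob_compl_eq_zero_iff (measurableSet_N a s r) |>.1]
    rw [measure_eq_zero_iff_ae_notMem]
    filter_upwards [ae_PP_lt M] with z hz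
    simp only [mem_compl_iff, Set.mem_ofPred_eq, not_not]
    calc |s + ∑ k, a k * z k| ≤ |s| + |∑ k, a k * z k| := abs_add_le _ _
      _ ≤ |s| + ∑ k, |a k * z k| := by gcongr; exact Finset.abs_sum_le_sum_abs _ _
      _ ≤ |s| + ∑ k, |a k| := by
        have : ∑ k, |a k * z k| ≤ ∑ k, |a k| := by
          apply Finset.sum_le_sum
          intro k _
          rw [abs_mul]
          nlinarith [abs_nonneg (a k), hz k]
        linarith
      _ ≤ r := h
  rw [Measure.real, this]; simp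

lemma sq_sum_eq_one {n : ℕ} (u : EuclideanSpace ℝ (Fin n)) (hu : ‖u‖ = 1) : ∑ i, u i ^ 2 = 1 := by
  have := EuclideanSpace.real_norm_sq_eq u
  rw [hu] at this
  linarith

lemma sum_E1 {M : ℕ} (u : EuclideanSpace ℝ (Fin (M+2))) (j0 : Fin (M+2)) (hu : u j0 ≠ 0)
    (hnorm : ∑ i, u i ^ 2 = 1) :
    ∑ k, ∑ b, μHE[M] (E1 u j0 k b) = ENNReal.ofReal (2 ^ (M+1) * ∑ k,
      √(1 - u (j0.succAbove k) ^ 2) * (N (fun l => u (j0.succAbove (k.succAbove l)))
      (u (j0.succAbove k)) |u j0| / |u j0|)) := by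
  have h1 : ∀ k, ∑ b, μHE[M] (E1 u j0 k b) = ENNReal.ofReal (2 ^ (M+1) * (√(1 - u (j0.succAbove k) ^ 2) *
      (N (fun l => u (j0.succAbove (k.succAbove l))) (u (j0.succAbove k)) |u j0| / |u j0|))) := by
    intro k
    have h2 : ∀ b, μHE[M] (E1 u j0 k b) = ENNReal.ofReal (2 ^ M * (√(1 - u (j0.succAbove k) ^ 2) *
      (N (fun l => u (j0.succAbove (k.succAbove l))) (u (j0.succAbove k)) |u j0| / |u j0|))) :=
      fun b => facet1 j0 k u hu hnorm (sg b) (abs_sg b)
    have hn : 0 ≤ (2:ℝ) ^ M * (√(1 - u (j0.succAbove k) ^ 2) *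
      (N (fun l => u (j0.succAbove (k.succAbove l))) (u (j0.succAbove k)) |u j0| / |u j0|)) := by
      have := N_nonneg (fun l => u (j0.succAbove (k.succAbove l))) (u (j0.succAbove k)) |u j0|
      positivity
    rw [Fintype.sum_bool, h2, h2, ← ENNReal.ofReal_add hn hn]
    congr 1
    rw [pow_succ]; ring
  simp_rw [h1]
  rw [← ENNReal.ofReal_sum_of_nonneg, ← Finset.mul_sum]
  intro k _
  have := N_nonneg (fun l => u (j0.succAbove (k.succAbove l))) (u (j0.succAbove k)) |u j0|
  positivity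

lemma target_eq (M : ℕ) : ((M + 1 : ℕ) : ℝ≥0∞) * 2 ^ (M+1) = ENNReal.ofReal (2 ^ (M+1) * ((M:ℝ) + 1)) := by
  rw [ENNReal.ofReal_mul (by positivity), ENNReal.ofReal_pow (by norm_num), mul_comm]
  congr 1
  · simp
  · rw [show (M:ℝ) + 1 = ((M + 1 : ℕ) : ℝ) by push_cast; ring, ENNReal.ofReal_natCast]

lemma lower_dominated {M : ℕ} (u : EuclideanSpace ℝ (Fin (M+2))) (j0 : Fin (M+2)) (hu : u j0 ≠ 0)
    (hnorm : ∑ i, u i ^ 2 = 1) (hdom : ∑ k, |u (j0.succAbove k)| ≤ |u j0|) :
    ((M + 1 : ℕ) : ℝ≥0∞) * 2 ^ (M+1) ≤ μHE[M] (bdry u) ∧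
    (1 ≤ M → (∃ k, u (j0.succAbove k) ≠ 0) →
      ((M + 1 : ℕ) : ℝ≥0∞) * 2 ^ (M+1) < μHE[M] (bdry u)) := by
  have hc : 0 < |u j0| := abs_pos.2 hu
  have hN : ∀ k : Fin (M+1), N (fun l => u (j0.succAbove (k.succAbove l))) (u (j0.succAbove k)) |u j0| = 1 := by
    intro k
    apply N_eq_one
    rw [Fin.sum_univ_succAbove _ k] at hdom
    exact hdom
  have hlow := lower_dom u j0 hu
  rw [sum_E1 u j0 hu hnorm] at hlow
  have hsq : ∀ k, u (j0.succAbove k) ^ 2 + |u j0| ^ 2 ≤ 1 := by
    intro k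
    rw [idx_sum j0 k] at hnorm
    have : 0 ≤ ∑ l, u (j0.succAbove (k.succAbove l)) ^ 2 := Finset.sum_nonneg fun _ _ => sq_nonneg _
    rw [sq_abs]; linarith
  have hw : ∀ k, |u j0| ≤ √(1 - u (j0.succAbove k) ^ 2) := by
    intro k
    apply Real.le_sqrt_of_sq_le
    linarith [hsq k]
  have hterm : ∀ k : Fin (M+1), 1 ≤ √(1 - u (j0.succAbove k) ^ 2) *
      (N (fun l => u (j0.succAbove (k.succAbove l))) (u (j0.succAbove k)) |u j0| / |u j0|) := by
    intro k
    rw [hN k, mul_one_div, le_div_iff₀ hc, one_mul]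
    exact hw k
  have hsum1 : ((M:ℝ) + 1) = ∑ k : Fin (M+1), (1:ℝ) := by simp
  rw [target_eq]
  constructor
  · refine le_trans (ENNReal.ofReal_le_ofReal ?_) hlow
    gcongr
    rw [hsum1]
    exact Finset.sum_le_sum fun k _ => hterm k
  · intro hM hex
    obtain ⟨k, hk⟩ := hex
    -- another index k' ≠ k
    have hk' : ∃ k' : Fin (M+1), k' ≠ k := by
      have : Nontrivial (Fin (M+1)) := Fin.nontrivial_iff_two_le.2 (by omega)
      exact exists_ne k
    obtain ⟨k', hkk⟩ := hk'
    refine lt_of_lt_of_le ?_ hlow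
    rw [ENNReal.ofReal_lt_ofReal_iff_of_nonneg (by positivity)]
    gcongr
    rw [hsum1]
    apply Finset.sum_lt_sum (fun k _ => hterm k)
    refine ⟨k', Finset.mem_univ _, ?_⟩
    rw [hN k', mul_one_div, lt_div_iff₀ hc, one_mul]
    apply Real.lt_sqrt_of_sq_lt
    -- |u j0|^2 + u k ^2 + u k'^2 ≤ 1
    rw [idx_sum j0 k'] at hnorm
    obtain ⟨l, hl⟩ : ∃ l, k = k'.succAbove l := by
      rcases Fin.eq_self_or_eq_succAbove k' k with h | ⟨l, h⟩
      · exact absurd h.symm hkk
      · exact ⟨l, h⟩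
    have h1 : u (j0.succAbove k) ^ 2 ≤ ∑ l, u (j0.succAbove (k'.succAbove l)) ^ 2 := by
      rw [hl]
      exact Finset.single_le_sum (f := fun l => u (j0.succAbove (k'.succAbove l)) ^ 2)
        (fun _ _ => sq_nonneg _) (Finset.mem_univ l)
    have h2 : 0 < u (j0.succAbove k) ^ 2 := by positivity
    rw [sq_abs]; linarith

lemma lower_nondominated {m : ℕ} (u : EuclideanSpace ℝ (Fin (m+3))) (j0 : Fin (m+3)) (hu : u j0 ≠ 0)
    (hmax : ∀ i, |u i| ≤ |u j0|)
    (hnorm : ∑ i, u i ^ 2 = 1) (hnd : |u j0| < ∑ k, |u (j0.succAbove k)|) :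
    (((m + 1) + 1 : ℕ) : ℝ≥0∞) * 2 ^ ((m+1)+1) < μHE[m+1] (bdry u) := by
  have hc : 0 < |u j0| := abs_pos.2 hu
  obtain ⟨k0, hk0⟩ : ∃ k0, u (j0.succAbove k0) ≠ 0 := by
    by_contra hcon
    push Not at hcon
    simp only [hcon, abs_zero, Finset.sum_const_zero] at hnd
    linarith
  obtain ⟨l0, hl0⟩ : ∃ l0, u (j0.succAbove (k0.succAbove l0)) ≠ 0 := by
    by_contra hcon
    push Not at hcon
    rw [Fin.sum_univ_succAbove _ k0] at hnd
    simp only [hcon, abs_zero, Finset.sum_const_zero, add_zero] at hnd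
    linarith [hmax (j0.succAbove k0)]
  have hT := T_gt (fun k => u (j0.succAbove k)) |u j0| hc
    (by rw [sq_abs, ← hnorm, Fin.sum_univ_succAbove _ j0]) (fun k => hmax _) hnd k0 hk0
  have hlow := lower_nd u j0 hu k0 hk0
  rw [sum_E1 u j0 hu hnorm] at hlow
  have hE2 : ∑ b, μHE[m+1] (E2 u j0 k0 b) = ENNReal.ofReal (2 ^ ((m+1)+1) * (√(1 - |u j0| ^ 2) *
      (N (fun l => u (j0.succAbove (k0.succAbove l))) |u j0| |u (j0.succAbove k0)| /
        |u (j0.succAbove k0)|))) := by
    have h2 : ∀ b, μHE[m+1] (E2 u j0 k0 b) = ENNReal.ofReal (2 ^ (m+1) * (√(1 - u j0 ^ 2) *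
      (N (fun l => u (j0.succAbove (k0.succAbove l))) (u j0) |u (j0.succAbove k0)| /
        |u (j0.succAbove k0)|))) :=
      fun b => facet2 j0 k0 u hk0 l0 hl0 hnorm (sg b) (abs_sg b)
    have hn : 0 ≤ (2:ℝ) ^ (m+1) * (√(1 - u j0 ^ 2) *
      (N (fun l => u (j0.succAbove (k0.succAbove l))) (u j0) |u (j0.succAbove k0)| /
        |u (j0.succAbove k0)|)) := by
      have := N_nonneg (fun l => u (j0.succAbove (k0.succAbove l))) (u j0) |u (j0.succAbove k0)|
      positivity
    rw [Fintype.sum_bool, h2, h2, ← ENNReal.ofReal_add hn hn, N_abs, sq_abs]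
    congr 1
    rw [pow_succ 2 (m+1)]; ring
  rw [hE2, ← ENNReal.ofReal_add] at hlow
  · rw [target_eq]
    refine lt_of_lt_of_le ?_ hlow
    rw [ENNReal.ofReal_lt_ofReal_iff_of_nonneg (by positivity), ← mul_add]
    apply mul_lt_mul_of_pos_left _ (by positivity)
    push_cast
    linarith
  · have := N_nonneg (fun l => u (j0.succAbove (k0.succAbove l))) |u j0| |u (j0.succAbove k0)|
    positivity
  · apply mul_nonneg (by positivity)
    apply Finset.sum_nonneg
    intro k _
    have := N_nonneg (fun l => u (j0.succAbove (k.succAbove l))) (u (j0.succAbove k)) |u j0|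
    positivity

lemma upper {M : ℕ} (u : EuclideanSpace ℝ (Fin (M+2))) (j0 : Fin (M+2)) (hu : u j0 ≠ 0)
    (hz : ∀ (k : Fin (M+1)) (l : Fin M), u (j0.succAbove (k.succAbove l)) = 0)
    (hcov : ∀ x ∈ bdry u, ∃ k, |x (j0.succAbove k)| = 1) :
    μHE[M] (bdry u) ≤ ((M + 1 : ℕ) : ℝ≥0∞) * 2 ^ (M+1) := by
  have hsub : bdry u ⊆ ⋃ i : Fin (M+1) × Bool, {x : EuclideanSpace ℝ (Fin (M+2)) |
      x (j0.succAbove i.1) = sg i.2 ∧ inner ℝ x u = 0 ∧
      (fun l => x (j0.succAbove (i.1.succAbove l))) ∈ (univ.pi fun _ : Fin M => Icc (-1:ℝ) 1)} := by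
    intro x hx
    obtain ⟨k, hk⟩ := hcov x hx
    have hsg : ∃ b, x (j0.succAbove k) = sg b := by
      rcases abs_cases (x (j0.succAbove k)) with ⟨h, _⟩ | ⟨h, _⟩
      · exact ⟨true, by simp [sg]; linarith⟩
      · exact ⟨false, by simp [sg]; linarith⟩
    obtain ⟨b, hb⟩ := hsg
    refine mem_iUnion.2 ⟨(k, b), hb, hx.1, ?_⟩
    rw [mem_cube_iff]
    intro l
    exact hx.2.1 _
  have hmeas : ∀ i : Fin (M+1) × Bool, μHE[M] {x : EuclideanSpace ℝ (Fin (M+2)) |
      x (j0.succAbove i.1) = sg i.2 ∧ inner ℝ x u = 0 ∧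
      (fun l => x (j0.succAbove (i.1.succAbove l))) ∈ (univ.pi fun _ : Fin M => Icc (-1:ℝ) 1)} =
      2 ^ M := by
    intro i
    rw [facet_measure (fun l => j0.succAbove (i.1.succAbove l)) (idx_inj j0 i.1)
      (j0.succAbove i.1) j0 (Fin.succAbove_ne _ _) (idx_ne_p j0 i.1) (idx_ne_j0 j0 i.1)
      (fun i' => by rcases idx_cov j0 i.1 i' with h | h | h <;> simp [h])
      (fun g => by rw [idx_sum j0 i.1]; ring) u hu]
    simp only [hz, zero_div, ne_eq, OfNat.ofNat_ne_zero, not_false_eq_true, zero_pow,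
      Finset.sum_const_zero, add_zero, Real.sqrt_one, ENNReal.ofReal_one, one_mul]
    rw [volume_pi_pi]
    simp only [Real.volume_Icc, Finset.prod_const, Finset.card_univ, Fintype.card_fin]
    rw [show (1 - -1 : ℝ) = 2 by norm_num]
    simp
  calc μHE[M] (bdry u) ≤ _ := measure_mono hsub
    _ ≤ _ := measure_iUnion_fintype_le _ _
    _ = ∑ i : Fin (M+1) × Bool, (2:ℝ≥0∞) ^ M := Finset.sum_congr rfl fun i _ => hmeas i
    _ = ((M + 1 : ℕ) : ℝ≥0∞) * 2 ^ (M+1) := by
        simp only [Finset.sum_const, Finset.card_univ, Fintype.card_prod, Fintype.card_fin,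
          Fintype.card_bool, nsmul_eq_mul]
        push_cast
        rw [pow_succ]; ring

theorem main (n : ℕ) (hn : 2 ≤ n) :
    (∀ u : EuclideanSpace ℝ (Fin n), ‖u‖ = 1 →
      ((n - 1 : ℕ) : ℝ≥0∞) * 2 ^ (n - 1) ≤ μHE[n - 2] (bdry u)) ∧
    (∀ u : EuclideanSpace ℝ (Fin n), ‖u‖ = 1 →
      (μHE[n - 2] (bdry u) = ((n - 1 : ℕ) : ℝ≥0∞) * 2 ^ (n - 1) ↔
        n = 2 ∨ ∃ i, u = EuclideanSpace.single i 1 ∨ u = EuclideanSpace.single i (-1))) := by
  obtain ⟨M, rfl⟩ : ∃ M, n = M + 2 := ⟨n - 2, by omega⟩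
  have e1 : M + 2 - 1 = M + 1 := rfl
  have e2 : M + 2 - 2 = M := rfl
  rw [e1]
  have hper : ∀ u : EuclideanSpace ℝ (Fin (M+2)), (μHE[M + 2 - 2] : Measure _) (bdry u) = μHE[M] (bdry u) :=
    fun u => rfl
  -- main dichotomy
  have key : ∀ u : EuclideanSpace ℝ (Fin (M+2)), ‖u‖ = 1 →
      ((M + 1 : ℕ) : ℝ≥0∞) * 2 ^ (M+1) ≤ μHE[M] (bdry u) ∧
      (μHE[M] (bdry u) = ((M + 1 : ℕ) : ℝ≥0∞) * 2 ^ (M+1) →
        M = 0 ∨ ∃ j0, ∀ k, u (Fin.succAbove j0 k) = 0) := by
    intro u hu
    have hnorm := sq_sum_eq_one u hu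
    obtain ⟨j0, hj0⟩ := Finite.exists_max (fun i => |u i|)
    have hu0 : u j0 ≠ 0 := by
      intro h0
      have : ∀ i, u i = 0 := by
        intro i
        have := hj0 i
        rw [h0, abs_zero] at this
        exact abs_nonpos_iff.1 this
      simp [this] at hnorm
    rcases le_or_gt (∑ k, |u (j0.succAbove k)|) |u j0| with hdom | hnd
    · have h := lower_dominated u j0 hu0 hnorm hdom
      refine ⟨h.1, fun heq => ?_⟩
      rcases Nat.eq_zero_or_pos M with h0 | hM
      · exact Or.inl h0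
      · right
        refine ⟨j0, ?_⟩
        by_contra hcon
        push Not at hcon
        exact absurd heq (h.2 hM hcon).ne'
    · rcases M with _ | m
      · exfalso
        have hs : ∑ k : Fin (0+1), |u (j0.succAbove k)| = |u (j0.succAbove 0)| := by
          simp
        rw [hs] at hnd
        linarith [hj0 (j0.succAbove 0)]
      · have h := lower_nondominated u j0 hu0 hj0 hnorm hnd
        exact ⟨h.le, fun heq => absurd heq h.ne'⟩
  refine ⟨fun u hu => by rw [hper]; exact (key u hu).1, fun u hu => ?_⟩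
  rw [hper]
  have hnorm := sq_sum_eq_one u hu
  constructor
  · intro heq
    rcases (key u hu).2 heq with h0 | ⟨j0, hz⟩
    · left; omega
    · right
      refine ⟨j0, ?_⟩
      rw [Fin.sum_univ_succAbove _ j0] at hnorm
      simp only [hz, ne_eq, OfNat.ofNat_ne_zero, not_false_eq_true, zero_pow,
        Finset.sum_const_zero, add_zero] at hnorm
      have hu1 : u j0 = 1 ∨ u j0 = -1 := by
        have h1 : (u j0 - 1) * (u j0 + 1) = 0 := by linarith
        rcases mul_eq_zero.1 h1 with h1 | h1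
        · left; linarith
        · right; linarith
      rcases hu1 with h1 | h1
      · left
        ext i
        rcases Fin.eq_self_or_eq_succAbove j0 i with rfl | ⟨k, rfl⟩
        · simp [h1]
        · simp [hz k]
      · right
        ext i
        rcases Fin.eq_self_or_eq_succAbove j0 i with rfl | ⟨k, rfl⟩
        · simp [h1]
        · simp [hz k]
  · intro h
    apply le_antisymm _ (key u hu).1
    rcases h with h | ⟨i, h⟩
    · have hM : M = 0 := by omega
      subst hM
      obtain ⟨j0, hj0⟩ := Finite.exists_max (fun i => |u i|)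
      have hu0 : u j0 ≠ 0 := by
        intro h0
        have : ∀ i, u i = 0 := by
          intro i
          have := hj0 i
          rw [h0, abs_zero] at this
          exact abs_nonpos_iff.1 this
        simp [this] at hnorm
      apply upper u j0 hu0 (fun k l => l.elim0)
      rintro x ⟨h1, h2, i, h3⟩
      refine ⟨0, ?_⟩
      rcases idx_cov j0 0 i with rfl | rfl | ⟨l, -⟩
      · -- |x j0| = 1
        rw [inner_eq u i 0] at h1
        have e : ∑ l : Fin 0, u (i.succAbove ((0 : Fin 1).succAbove l)) *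
            x (i.succAbove ((0 : Fin 1).succAbove l)) = 0 := by simp
        rw [e, add_zero] at h1
        have h4 : |x (i.succAbove 0)| * |u (i.succAbove 0)| = |u i| := by
          rw [← abs_mul]
          have : x (i.succAbove 0) * u (i.succAbove 0) = -(x i * u i) := by linarith
          rw [this, abs_neg, abs_mul, h3, one_mul]
        have h5 := hj0 (i.succAbove 0)
        have h6 : 0 < |u i| := abs_pos.2 hu0
        have h7 := h2 (i.succAbove 0)
        apply le_antisymm h7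
        by_contra hcon
        push Not at hcon
        have h8 : 0 < |u (i.succAbove 0)| := by
          rcases (abs_nonneg (u (i.succAbove 0))).lt_or_eq with h | h
          · exact h
          · rw [← h, mul_zero] at h4; linarith
        nlinarith
      · exact h3
      · exact l.elim0
    · have hui : u i ≠ 0 := by rcases h with rfl | rfl <;> simp
      have hz : ∀ k, u (i.succAbove k) = 0 := by
        intro k
        rcases h with rfl | rfl <;> simp [Fin.succAbove_ne]
      apply upper u i hui (fun k l => hz _)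
      rintro x ⟨h1, h2, j, h3⟩
      have hx0 : x i = 0 := by
        rw [PiLp.inner_apply, Fin.sum_univ_succAbove _ i] at h1
        simp only [hz, RCLike.inner_apply, conj_trivial, zero_mul, Finset.sum_const_zero,
          add_zero, mul_eq_zero] at h1
        rcases h1 with h1 | h1
        · exact absurd h1 hui
        · exact h1
      rcases Fin.eq_self_or_eq_succAbove i j with rfl | ⟨k, rfl⟩
      · rw [hx0, abs_zero] at h3; exact absurd h3 (by norm_num)
      · exact ⟨k, h3⟩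

end Pool.Agent.Helper390.CubeSection
end CubeP
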