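import Mathlib

/-! Polynomial certificates for `lemmaA0` (MP_d36a1d_co), found by linear programming.
Every leaf is a nonnegative combination of products of the constraints. -/

set_option autoImplicit false
set_option maxRecDepth 4000
set_option maxHeartbeats 4000000
set_option linter.unusedVariables false

namespace Pool.Agent.E809.A0

theorem tree_c1p (u y h r : ℝ) (G : Prop)
    (hu : 0 ≤ u)
    (hy : 0 ≤ y)
    (hh : 0 ≤ h)
    (hr : 0 ≤ r)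
    (hH : 0 ≤ 3/20 - (y+h))
    (hz : 0 ≤ 1/2 - u - y)
    (hrD : 0 ≤ (1/2 - 3/2*y - h + u/2) - r)
    (g_l3 : 0 ≤ ((1/2 - 3/2*y - h + u/2)-r)*(h*(1/2 - 3/2*y - h + u/2) + r*((1/2 - 3/2*y - h + u/2)+u) + (u^2-y^2)/2)-(y+h)*h*((1/2 - 3/2*y - h + u/2)+r) → 0 ≤ (y+h)*(h*(1/2 - 3/2*y - h + u/2) + r*((1/2 - 3/2*y - h + u/2)+u) + (u^2-y^2)/2)-r*h*((y+h)+(u+r)) → G)
    (g_l1 : 0 ≤ (1/4 - (y+h) + u)*((1/2 - 3/2*y - h + u/2)-r)-h*((1/2 - 3/2*y - h + u/2)+r) → 0 ≤ (1/4 - (y+h) + u)*(y+h)-r*h → G)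
    (g_l2 : 0 ≤ (y+h)*((h*(1/2 - 3/2*y - h + u/2) + r*((1/2 - 3/2*y - h + u/2)+u) + (u^2-y^2)/2)-(y+h)*(1/2 - 3/2*y - h + u/2))-r*(r+u)*h → G)
    : G := by
  rcases le_total (r) (3/2*y) with q0 | q0
  · replace q0 := sub_nonneg.mpr q0
    rcases le_total (3*y) (7*h) with q1 | q1
    · replace q1 := sub_nonneg.mpr q1
      exact g_l3 (by linarith [mul_nonneg (mul_nonneg hz q1) q1, mul_nonneg (mul_nonneg hu hy) hrD, mul_nonneg hrD q1, mul_nonneg (mul_nonneg hr hr) q0, mul_nonneg (mul_nonneg hu hr) hrD, mul_nonneg (mul_nonneg hH hH) q0, mul_nonneg (mul_nonneg hu hr) hr, mul_nonneg (mul_nonneg hu hy) hH, mul_nonneg (mul_nonneg hu hu) hrD, mul_nonneg (mul_nonneg hr hH) hz, mul_nonneg (mul_nonneg hu hr) hH, mul_nonneg (mul_nonneg hr q0) q1, mul_nonneg hr hr, mul_nonneg (mul_nonneg hu hrD) q1, mul_nonneg hH q0, mul_nonneg (mul_nonneg hz q0) q1, mul_nonneg (mul_nonneg hH hrD)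 q1, mul_nonneg (mul_nonneg hy hr) q0, mul_nonneg (mul_nonneg hr hr) q1, mul_nonneg (mul_nonneg hrD q0) q1, mul_nonneg hy hH, mul_nonneg (mul_nonneg hu hz) q1, mul_nonneg hh hH, mul_nonneg (mul_nonneg q1 q1) q1, mul_nonneg (mul_nonneg hh hrD) hrD, mul_nonneg (mul_nonneg hu hr) hz, mul_nonneg (mul_nonneg hr hH) q1, mul_nonneg hu q1, mul_nonneg q1 q1, mul_nonneg (mul_nonneg hr hrD) hrD]) (by linarith [mul_nonneg (mul_nonneg hu hu) hr, mul_nonneg (mul_nonneg hu hu) q1, mul_nonneg q0 q1, mul_nonneg (mul_nonneg hu hy) hr, mul_nonneg (mul_nonneg hr hH) q0, mul_nonneg hr hr, mul_nonneg (mul_nonneg hu hu) q0, mul_nonneg (mul_nonneg hy hy) hH, mul_nonneg (mul_nonneg hr hr) hH, mul_nonneg (mul_nonneg hh hH) q0, mul_nonneg (mul_nonneg q0 q1) q1, mul_nonneg (mul_nonneg hu q0) q1, mul_nonneg hr q0, mul_nonneg (mul_nonneg hr hrD) q1, mul_nonneg (mul_nonneg hh hrD) q1, mul_nonneg (mul_nonneg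 hrD q0) q1, mul_nonneg (mul_nonneg hu hy) hy, mul_nonneg hy hy, mul_nonneg (mul_nonneg hy hr) hrD])
    · replace q1 := sub_nonneg.mpr q1
      rcases le_total (r) (3/10*y) with q2 | q2
      · replace q2 := sub_nonneg.mpr q2
        exact g_l1 (by linarith [mul_nonneg hrD q1, mul_nonneg hu hr, mul_nonneg hH hH, mul_nonneg hrD q2, mul_nonneg hu q1, mul_nonneg hu hrD, mul_nonneg hu hH, mul_nonneg hr q2, mul_nonneg hrD hrD, mul_nonneg hh q1, mul_nonneg hr q1]) (by linarith [mul_nonneg hu hr, mul_nonneg q1 q1, mul_nonneg hr hrD, mul_nonneg hr q1, mul_nonneg hu hh, mul_nonneg hH q0, mul_nonneg hh hrD, mul_nonneg hh hH, mul_nonneg hu q0, mul_nonneg hz q1, mul_nonneg q2 q2])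
      · replace q2 := sub_nonneg.mpr q2
        exact g_l3 (by linarith [mul_nonneg hu q2, mul_nonneg (mul_nonneg hu hz) q1, mul_nonneg (mul_nonneg hu hu) hrD, mul_nonneg (mul_nonneg hh q1) q1, mul_nonneg (mul_nonneg hrD hrD) q2, mul_nonneg (mul_nonneg hu hu) q2, mul_nonneg (mul_nonneg hu q0) q1, mul_nonneg (mul_nonneg hu hu) hu, mul_nonneg q1 q2, mul_nonneg (mul_nonneg hr hr) q0, mul_nonneg (mul_nonneg hu hh) hH, mul_nonneg hu hu, mul_nonneg (mul_nonneg hu hrD) q2, mul_nonneg (mul_nonneg hh hrD) q1, mul_nonneg (mul_nonneg hy hH) hH, mul_nonneg (mul_nonneg hy hH) q1, mul_nonneg (mul_nonneg hu hr) hH, mul_nonneg hh hH, mul_nonneg (mul_nonneg hh hrD) q2, mul_nonneg (mul_nonneg hu hy) hrD, mul_nonneg hu hh, mul_nonneg (mul_nonneg hh q1) q2, mul_nonneg (mul_nonneg hz hrD) q2, mul_nonneg (mul_nonneg hu hy) hH, mul_nonneg q1 q1, mul_nonneg hu hy, mul_nonneg hy hH, mul_nonneg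 (mul_nonneg hh hrD) hrD, mul_nonneg hH q2, mul_nonneg (mul_nonneg q0 q1) q2, mul_nonneg (mul_nonneg hH q0) q0, mul_nonneg hh hh]) (by linarith [mul_nonneg (mul_nonneg hu hu) q0, mul_nonneg (mul_nonneg hu hu) hh, mul_nonneg (mul_nonneg hy hy) hH, mul_nonneg (mul_nonneg hr q0) q2, mul_nonneg (mul_nonneg hh q0) q1, mul_nonneg (mul_nonneg hu hy) hy, mul_nonneg q1 q2, mul_nonneg (mul_nonneg hh hz) q1, mul_nonneg (mul_nonneg hu hh) q0, mul_nonneg (mul_nonneg hr hr) hr, mul_nonneg (mul_nonneg hh hr) q1, mul_nonneg hh q0, mul_nonneg (mul_nonneg hz q1) q2, mul_nonneg (mul_nonneg hy hh) hH, mul_nonneg (mul_nonneg hu hy) q2, mul_nonneg (mul_nonneg hh hh) hH, mul_nonneg (mul_nonneg hrD q1) q1, mul_nonneg hh hh, mul_nonneg (mul_nonneg hh q2) q2, mul_nonneg (mul_nonneg hh hrD) q2, mul_nonneg (mul_nonneg hy hH) q2, mul_nonneg (mul_nonneg hy hrD) q2, mul_nonneg (mul_nonneg hu hu) hr])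
  · replace q0 := sub_nonneg.mpr q0
    rcases le_total (h) (y) with q1 | q1
    · replace q1 := sub_nonneg.mpr q1
      exact g_l2 (by linarith [mul_nonneg (mul_nonneg hrD q0) q1, mul_nonneg (mul_nonneg hu hu) hy, mul_nonneg (mul_nonneg hu hu) hh, mul_nonneg (mul_nonneg hu hh) q0, mul_nonneg (mul_nonneg hu hh) hr, mul_nonneg (mul_nonneg hu hh) hh, mul_nonneg (mul_nonneg hy hH) q0, mul_nonneg (mul_nonneg hr q1) q1, mul_nonneg (mul_nonneg hh q1) q1, mul_nonneg (mul_nonneg hu q0) q1, mul_nonneg q1 q1, mul_nonneg (mul_nonneg hh hh) hH, mul_nonneg (mul_nonneg hh hrD) q0, mul_nonneg (mul_nonneg hr hH) q1, mul_nonneg (mul_nonneg hu hr) q1, mul_nonneg hy q0, mul_nonneg q0 q1, mul_nonneg (mul_nonneg hh hr) hH, mul_nonneg (mul_nonneg hh hrD) q1, mul_nonneg (mul_nonneg hh hr) hrD, mul_nonneg (mul_nonneg q0 q0) q1])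
    · replace q1 := sub_nonneg.mpr q1
      exact g_l2 (by linarith [mul_nonneg hH hH, mul_nonneg hu hy, mul_nonneg (mul_nonneg hu hu) hu, mul_nonneg (mul_nonneg hu hu) hy, mul_nonneg (mul_nonneg hu hu) hh, mul_nonneg (mul_nonneg hu hy) q0, mul_nonneg (mul_nonneg hy hr) hH, mul_nonneg (mul_nonneg hu hy) hy, mul_nonneg (mul_nonneg hu hu) hrD, mul_nonneg hu hrD, mul_nonneg hrD q1, mul_nonneg hH hrD, mul_nonneg hy q0, mul_nonneg (mul_nonneg hy hrD) q0, mul_nonneg (mul_nonneg hy hh) hH, mul_nonneg (mul_nonneg hy hr) hr, mul_nonneg (mul_nonneg hy hh) q1, mul_nonneg (mul_nonneg hh hrD) q0, mul_nonneg (mul_nonneg hy hy) q0, mul_nonneg hy hH, mul_nonneg hu hu, mul_nonneg (mul_nonneg hr hrD) q1, mul_nonneg (mul_nonneg hu hy) hh, mul_nonneg (mul_nonneg hrD hrD) q0, mul_nonneg hy q1])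

theorem tree_c0p (u y h : ℝ) (G : Prop)
    (hu : 0 ≤ u)
    (hy : 0 ≤ y)
    (hh : 0 ≤ h)
    (hH : 0 ≤ 3/20 - (y+h))
    (hz : 0 ≤ 1/2 - u - y)
    (g_l3 : 0 ≤ h*(1/2 - 3/2*y - h + u/2)+(u^2-y^2)/2-(y+h)*h → G)
    (g_l1 : 0 ≤ (1/4 - (y+h) + u)-h → G)
    : G := by
  rcases le_total (3*y) (7*h) with q0 | q0
  · replace q0 := sub_nonneg.mpr q0
    exact g_l3 (by linarith [mul_nonneg hu hu, mul_nonneg hu hh, mul_nonneg hy hH, mul_nonneg hh hH])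
  · replace q0 := sub_nonneg.mpr q0
    exact g_l1 (by linarith)

theorem tree_c0m (z v h : ℝ) (G : Prop)
    (hz : 0 ≤ z)
    (hv : 0 ≤ v)
    (hh : 0 ≤ h)
    (hH : 0 ≤ 3/20 - (v+2*z+h))
    (g_l3 : 0 ≤ (v+2*z+h)*(1/2-3*z-2*v-h)-(z*(1-2*(v+2*z+h)))-(v+2*z+h)*h → G)
    (g_l1 : 0 ≤ (1/4-2*z-2*v-h)-h → G)
    : G := by
  rcases le_total (3*(v+2*z+h)) (10*h) with q0 | q0
  · replace q0 := sub_nonneg.mpr q0
    exact g_l3 (by linarith [mul_nonneg hz hH, mul_nonneg hv hH, mul_nonneg hH q0])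
  · replace q0 := sub_nonneg.mpr q0
    rcases le_total (v) (7/20*(v+2*z)) with q1 | q1
    · replace q1 := sub_nonneg.mpr q1
      exact g_l1 (by linarith)
    · replace q1 := sub_nonneg.mpr q1
      exact g_l3 (by linarith [mul_nonneg hz hH, mul_nonneg hv hH, mul_nonneg hh hH])

theorem tree_c1mA (z v h r : ℝ) (G : Prop)
    (hz : 0 ≤ z)
    (hv : 0 ≤ v)
    (hh : 0 ≤ h)
    (hr : 0 ≤ r)
    (hH : 0 ≤ 3/20 - (v+2*z+h))
    (hrD : 0 ≤ (1/2-3*z-2*v-h) - r)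
    (hrv : 0 ≤ v - r)
    (g_A3 : 0 ≤ ((1/2-3*z-2*v-h)-r)*((v+2*z+h)*(1/2-3*z-2*v-h)-(z*(1-2*(v+2*z+h))))-(v+2*z+h)*h*((1/2-3*z-2*v-h)+r) → 0 ≤ ((v+2*z+h)*(1/2-3*z-2*v-h)-(z*(1-2*(v+2*z+h))))-r*h → G)
    (g_A1 : 0 ≤ (1/4-2*z-2*v-h)*((1/2-3*z-2*v-h)-r)-h*((1/2-3*z-2*v-h)+r) → 0 ≤ (1/4-2*z-2*v-h)*(v+2*z+h)-r*h → G)
    : G := by
  rcases le_total (3*(v+2*z+h)) (10*h) with q0 | q0
  · replace q0 := sub_nonneg.mpr q0
    exact g_A3 (by linarith [mul_nonneg hr hrv, mul_nonneg (mul_nonneg hr hr) hrD, mul_nonneg (mul_nonneg hr hr) q0, mul_nonneg (mul_nonneg hz hz) hz, mul_nonneg (mul_nonneg hh hh) q0, mul_nonneg (mul_nonneg hz hv) hv, mul_nonneg (mul_nonneg hr hH) hH, mul_nonneg hr hr, mul_nonneg (mul_nonneg hh hH) q0, mul_nonneg hrD q0, mul_nonneg hH q0, mul_nonneg (mul_nonneg hz hrv) q0, mul_nonneg (mul_nonneg hv hh) hrv, mul_nonneg (mul_nonneg hH hH) hrv, mul_nonneg (mul_nonneg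 hz hrD) hrD, mul_nonneg hz hv, mul_nonneg (mul_nonneg hv hrD) hrv, mul_nonneg hz hH, mul_nonneg (mul_nonneg hv hv) hrv, mul_nonneg (mul_nonneg hv hr) hrv, mul_nonneg (mul_nonneg hh hrD) q0, mul_nonneg (mul_nonneg hh hH) hH, mul_nonneg hr hH, mul_nonneg (mul_nonneg hv hrD) hrD, mul_nonneg hv hH, mul_nonneg hz q0, mul_nonneg (mul_nonneg hv hr) q0, mul_nonneg (mul_nonneg hz hH) hH, mul_nonneg (mul_nonneg hh hh) hrv, mul_nonneg hrv q0, mul_nonneg (mul_nonneg hr hr) hr]) (by linarith [mul_nonneg hv hH, mul_nonneg hv q0, mul_nonneg hz q0, mul_nonneg hz hH, mul_nonneg hrD q0, mul_nonneg hh hrD, mul_nonneg hr q0, mul_nonneg hr hH])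
  · replace q0 := sub_nonneg.mpr q0
    rcases le_total (v) (7/20*(v+2*z)) with q1 | q1
    · replace q1 := sub_nonneg.mpr q1
      exact g_A1 (by linarith [mul_nonneg hH hH, mul_nonneg hrv q1, mul_nonneg hH q1, mul_nonneg hh q0, mul_nonneg hH hrv, mul_nonneg hh q1, mul_nonneg q1 q1, mul_nonneg hh hH, mul_nonneg hrD hrD, mul_nonneg hr hrv, mul_nonneg hr q0]) (by linarith [mul_nonneg q1 q1, mul_nonneg hH q1, mul_nonneg q0 q1, mul_nonneg hrv q1, mul_nonneg hh q0, mul_nonneg hr hrD, mul_nonneg hv hH, mul_nonneg hr hH, mul_nonneg hh hrD, mul_nonneg hr hr, mul_nonneg hr q0])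
    · replace q1 := sub_nonneg.mpr q1
      exact g_A3 (by linarith [mul_nonneg (mul_nonneg hz hH) hH, mul_nonneg hz q1, mul_nonneg (mul_nonneg hv hh) q1, mul_nonneg (mul_nonneg hr hrv) q0, mul_nonneg (mul_nonneg hh hH) hH, mul_nonneg hrD hrv, mul_nonneg hH q1, mul_nonneg (mul_nonneg hh q0) q1, mul_nonneg hH hrv, mul_nonneg hh hH, mul_nonneg hH q0, mul_nonneg hr hrv, mul_nonneg (mul_nonneg hh hr) q0, mul_nonneg hh hrD, mul_nonneg (mul_nonneg hh q0) q0, mul_nonneg (mul_nonneg hr hr) q1, mul_nonneg (mul_nonneg hH hrv) q0, mul_nonneg hh hrv, mul_nonneg (mul_nonneg hv hH) hH, mul_nonneg (mul_nonneg hv hrv) q1, mul_nonneg (mul_nonneg hH q0) q0, mul_nonneg hrv q1, mul_nonneg (mul_nonneg hv hr) q0, mul_nonneg (mul_nonneg hz hrv) q1, mul_nonneg (mul_nonneg hv hrD) hrD, mul_nonneg (mul_nonneg hz hr) q1, mul_nonneg (mul_nonneg hr hrv) q1, mul_nonneg hh hh, mul_nonneg (mul_nonneg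 hH q0) q1, mul_nonneg (mul_nonneg hh hr) q1, mul_nonneg (mul_nonneg hr hH) hH, mul_nonneg (mul_nonneg hr hr) hH]) (by linarith [mul_nonneg hh hH, mul_nonneg hh hrv, mul_nonneg hH q1, mul_nonneg hH q0, mul_nonneg hh q0, mul_nonneg hh hrD])

end Pool.Agent.E809.A0
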