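import Mathlib

/-! Polynomial certificates for `lemmaA0` (MP_d36a1d_co), found by linear programming.
Every leaf is a nonnegative combination of products of the constraints. -/

set_option autoImplicit false
set_option maxRecDepth 4000
set_option maxHeartbeats 4000000
set_option linter.unusedVariables false

namespace Pool.Agent.E809.A0

theorem tree_c1mB (z v h r : ℝ) (G : Prop)
    (hz : 0 ≤ z)
    (hv : 0 ≤ v)
    (hh : 0 ≤ h)
    (hr : 0 ≤ r)
    (hH : 0 ≤ 3/20 - (v+2*z+h))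
    (hrD : 0 ≤ (1/2-3*z-2*v-h) - r)
    (hrv : 0 ≤ r - v)
    (g_A1 : 0 ≤ (1/4-2*z-2*v-h)*((1/2-3*z-2*v-h)-r)-h*((1/2-3*z-2*v-h)+r) → 0 ≤ (1/4-2*z-2*v-h)*(v+2*z+h)-r*h → G)
    (g_B3 : 0 ≤ ((1/2-3*z-2*v-h)-r)*((v+2*z+h)*(1/2-3*z-2*v-h)-(z*(1-2*(v+2*z+h)))+(1/2-3*z-2*v-h)*(r-v))-(v+2*z+h)*h*((1/2-3*z-2*v-h)+r) → 0 ≤ (v+2*z+h)*((v+2*z+h)*(1/2-3*z-2*v-h)-(z*(1-2*(v+2*z+h)))+(1/2-3*z-2*v-h)*(r-v))-r*h*((v+2*z+h)+(r-v)) → G)
    (g_B2 : 0 ≤ r - 6/5*(v+2*z) → 0 ≤ (v+2*z+h)*((1/2-3*z-2*v-h)*(r-v)-(z*(1-2*(v+2*z+h))))-r*(r-v)*h → G)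
    : G := by
  rcases le_total (3*(v+2*z+h)) (10*h) with q0 | q0
  · replace q0 := sub_nonneg.mpr q0
    rcases le_total (r) (3/2*(v+2*z)) with q1 | q1
    · replace q1 := sub_nonneg.mpr q1
      exact g_B3 (by linarith [mul_nonneg (mul_nonneg hz hrD) hrD, mul_nonneg (mul_nonneg hz hv) hr, mul_nonneg hH hrv, mul_nonneg (mul_nonneg hh hrv) q0, mul_nonneg (mul_nonneg hh hh) q0, mul_nonneg (mul_nonneg hv hv) hrv, mul_nonneg (mul_nonneg hz hz) hz, mul_nonneg (mul_nonneg hh hH) hH, mul_nonneg hH q1, mul_nonneg hH q0, mul_nonneg hz q0, mul_nonneg hrv hrv, mul_nonneg (mul_nonneg hr hrv) q0, mul_nonneg (mul_nonneg hr hr) q1, mul_nonneg (mul_nonneg hv hv) q0, mul_nonneg (mul_nonneg hv hr) q0, mul_nonneg (mul_nonneg hv hH) hH, mul_nonneg hv hv, mul_nonneg (mul_nonneg hr hH) hH, mul_nonneg (mul_nonneg hz hH) hH, mul_nonneg (mul_nonneg hh hH) q0, mul_nonneg hr hH, mul_nonneg (mul_nonneg hr hr) hrv, mul_nonneg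 (mul_nonneg hr hrD) hrv, mul_nonneg hz hrv, mul_nonneg q0 q0, mul_nonneg hrD q0, mul_nonneg (mul_nonneg hH hrv) q0, mul_nonneg hr q1, mul_nonneg (mul_nonneg hv hv) hH, mul_nonneg (mul_nonneg hrv hrv) hrv, mul_nonneg (mul_nonneg hr hrD) hrD]) (by linarith [mul_nonneg hr q1, mul_nonneg (mul_nonneg hz hz) q0, mul_nonneg hv hv, mul_nonneg hv hr, mul_nonneg hz hz, mul_nonneg (mul_nonneg hr hr) hH, mul_nonneg (mul_nonneg hz hz) hrv, mul_nonneg (mul_nonneg hv hv) hh, mul_nonneg (mul_nonneg hz hrD) q0, mul_nonneg (mul_nonneg hr hr) q0, mul_nonneg (mul_nonneg hr hH) hrv, mul_nonneg hrv q0, mul_nonneg (mul_nonneg hr hH) q1, mul_nonneg (mul_nonneg hv hrD) q0, mul_nonneg (mul_nonneg hr q0) q1, mul_nonneg (mul_nonneg hz hv) hrv, mul_nonneg (mul_nonneg hv hh) q0, mul_nonneg (mul_nonneg hv hr) q0, mul_nonneg (mul_nonneg hv hv) hrv, mul_nonneg (mul_nonneg hz hH) q1, mul_nonneg (mul_nonneg hh hh) hrD, mul_nonneg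 (mul_nonneg hr hH) q0, mul_nonneg hr hrv, mul_nonneg (mul_nonneg hrD hrv) q0, mul_nonneg hz hv])
    · replace q1 := sub_nonneg.mpr q1
      rcases le_total (h) ((v+2*z)) with q2 | q2
      · replace q2 := sub_nonneg.mpr q2
        exact g_B2 (by linarith) (by linarith [mul_nonneg (mul_nonneg hz hr) hr, mul_nonneg (mul_nonneg hr hrv) q2, mul_nonneg hv q0, mul_nonneg (mul_nonneg hv hr) hrD, mul_nonneg (mul_nonneg hz hr) hH, mul_nonneg (mul_nonneg hh q0) q0, mul_nonneg hz q1, mul_nonneg (mul_nonneg hz hv) hr, mul_nonneg (mul_nonneg hv hv) hrD, mul_nonneg (mul_nonneg hv hH) hrv, mul_nonneg (mul_nonneg hr q2) q2, mul_nonneg (mul_nonneg hr hrD) q0, mul_nonneg (mul_nonneg hv hrv) q0, mul_nonneg (mul_nonneg hz hrv) q1, mul_nonneg (mul_nonneg hh hH) hrv, mul_nonneg (mul_nonneg hh hr) q0, mul_nonneg hv hv, mul_nonneg q0 q2, mul_nonneg (mul_nonneg hv q0) q1, mul_nonneg (mul_nonneg hz q2) q2, mul_nonneg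 (mul_nonneg hh hh) hH, mul_nonneg (mul_nonneg hv hv) hv, mul_nonneg hv q1, mul_nonneg hz hH, mul_nonneg (mul_nonneg hh hrD) q1, mul_nonneg (mul_nonneg hz hrD) q1, mul_nonneg (mul_nonneg hH hrv) q2, mul_nonneg q1 q2, mul_nonneg (mul_nonneg hh hrv) q0])
      · replace q2 := sub_nonneg.mpr q2
        exact g_B2 (by linarith) (by linarith [mul_nonneg (mul_nonneg hrD hrv) q2, mul_nonneg (mul_nonneg hv hv) hr, mul_nonneg (mul_nonneg hv hv) hv, mul_nonneg (mul_nonneg hz hv) hr, mul_nonneg (mul_nonneg hz q0) q1, mul_nonneg (mul_nonneg hv hrD) q1, mul_nonneg hv q2, mul_nonneg (mul_nonneg hv hr) hrD, mul_nonneg (mul_nonneg hv hrv) q0, mul_nonneg (mul_nonneg hz hz) hrv, mul_nonneg (mul_nonneg hz hH) hrv, mul_nonneg hz q1, mul_nonneg (mul_nonneg hz hr) hr, mul_nonneg hv q1, mul_nonneg (mul_nonneg hv hH) q0, mul_nonneg (mul_nonneg hv hH) hrv, mul_nonneg (mul_nonneg hv hh) q0, mul_nonneg (mul_nonneg hv hr)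 q0, mul_nonneg (mul_nonneg hz hv) hH, mul_nonneg hv hv, mul_nonneg (mul_nonneg hz hrD) q1, mul_nonneg (mul_nonneg hh hrD) q1, mul_nonneg hz hrv])
  · replace q0 := sub_nonneg.mpr q0
    rcases le_total (v) (7/20*(v+2*z)) with q1 | q1
    · replace q1 := sub_nonneg.mpr q1
      rcases le_total (r) (7/20*(v+2*z)) with q2 | q2
      · replace q2 := sub_nonneg.mpr q2
        exact g_A1 (by linarith [mul_nonneg hH hH, mul_nonneg hH q1, mul_nonneg hh q0, mul_nonneg hr q2, mul_nonneg hrD q2, mul_nonneg hrv q1, mul_nonneg hh q1, mul_nonneg q0 q2, mul_nonneg hrD hrD, mul_nonneg q1 q2, mul_nonneg hr q0]) (by linarith [mul_nonneg hrv q1, mul_nonneg hv q1, mul_nonneg hh q0, mul_nonneg hv hH, mul_nonneg hrD q2, mul_nonneg hv hrD, mul_nonneg hr q2, mul_nonneg hz hH, mul_nonneg hh hH, mul_nonneg hh hrD, mul_nonneg hrv q0, mul_nonneg hr hH])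
      · replace q2 := sub_nonneg.mpr q2
        rcases le_total (r) (3/2*(v+2*z)) with q3 | q3
        · replace q3 := sub_nonneg.mpr q3
          exact g_B3 (by linarith [mul_nonneg (mul_nonneg hrv q0) q1, mul_nonneg hv hH, mul_nonneg (mul_nonneg hv hH) q1, mul_nonneg hv hv, mul_nonneg (mul_nonneg q0 q0) q2, mul_nonneg (mul_nonneg hv q0) q1, mul_nonneg (mul_nonneg hrD q1) q2, mul_nonneg (mul_nonneg hrv q1) q2, mul_nonneg (mul_nonneg hr hrv) q3, mul_nonneg (mul_nonneg hH hrv) q0, mul_nonneg hh q1, mul_nonneg (mul_nonneg hh hH) hH, mul_nonneg hh q2, mul_nonneg (mul_nonneg hrD hrD) q2, mul_nonneg (mul_nonneg q1 q3) q3, mul_nonneg hh hh, mul_nonneg (mul_nonneg hv hr) q1, mul_nonneg hH q2, mul_nonneg (mul_nonneg hh hrD) q0, mul_nonneg (mul_nonneg hv hv) q1, mul_nonneg (mul_nonneg hh q0) q1, mul_nonneg (mul_nonneg hr hH) hH, mul_nonneg hh hH, mul_nonneg (mul_nonneg hH q1) q2, mul_nonneg hH q0, mul_nonneg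 (mul_nonneg hH hrD) q1, mul_nonneg (mul_nonneg hh hh) hh, mul_nonneg (mul_nonneg hh hrD) hrD, mul_nonneg (mul_nonneg hv hH) hH, mul_nonneg (mul_nonneg hh hH) q2, mul_nonneg q2 q3, mul_nonneg (mul_nonneg hr q0) q2]) (by linarith [mul_nonneg (mul_nonneg hv hH) q1, mul_nonneg (mul_nonneg hv hrD) q2, mul_nonneg q2 q3, mul_nonneg (mul_nonneg hh hH) hrv, mul_nonneg (mul_nonneg q1 q1) q3, mul_nonneg (mul_nonneg hv hrv) q0, mul_nonneg (mul_nonneg hr hr) hH, mul_nonneg (mul_nonneg hv hv) hv, mul_nonneg (mul_nonneg hz q0) q2, mul_nonneg (mul_nonneg hv hh) q1, mul_nonneg (mul_nonneg hh hrD) q3, mul_nonneg (mul_nonneg hh hh) hrD, mul_nonneg (mul_nonneg hrv q1) q1, mul_nonneg q1 q2, mul_nonneg (mul_nonneg hr hH) q3, mul_nonneg (mul_nonneg hv hr) hrv, mul_nonneg hh q2, mul_nonneg (mul_nonneg hr hr) q0, mul_nonneg (mul_nonneg hv hH) q0, mul_nonneg (mul_nonneg hh hh) q1, mul_nonneg hv hv, mul_nonneg hr q2,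 mul_nonneg hv hh, mul_nonneg (mul_nonneg hh hh) hh, mul_nonneg (mul_nonneg hh hrv) q0, mul_nonneg hh q0, mul_nonneg hh q1, mul_nonneg hv q3, mul_nonneg (mul_nonneg hz hH) q3])
        · replace q3 := sub_nonneg.mpr q3
          rcases le_total (h) ((v+2*z)) with q4 | q4
          · replace q4 := sub_nonneg.mpr q4
            exact g_B2 (by linarith) (by linarith [mul_nonneg hr q0, mul_nonneg hv hv, mul_nonneg (mul_nonneg hz hH) q1, mul_nonneg (mul_nonneg hrD q1) q3, mul_nonneg (mul_nonneg hrv q0) q0, mul_nonneg (mul_nonneg hh q0) q1, mul_nonneg (mul_nonneg hv hH) q1, mul_nonneg (mul_nonneg hh hh) q0, mul_nonneg (mul_nonneg hz hH) q3, mul_nonneg (mul_nonneg hv hH) q2, mul_nonneg (mul_nonneg hH hrv) q0, mul_nonneg q1 q3, mul_nonneg (mul_nonneg hrv hrv) q0, mul_nonneg hh q3, mul_nonneg (mul_nonneg hv q0) q1, mul_nonneg (mul_nonneg hv hrD) q2, mul_nonneg (mul_nonneg hv hrD) q0, mul_nonneg (mul_nonneg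 hh hr) hH, mul_nonneg hv hrv, mul_nonneg hv q3, mul_nonneg (mul_nonneg hz hrD) q2, mul_nonneg hv hh, mul_nonneg (mul_nonneg hh hrD) q0, mul_nonneg (mul_nonneg hh hrD) q2, mul_nonneg (mul_nonneg hh hrD) q3, mul_nonneg q0 q0])
          · replace q4 := sub_nonneg.mpr q4
            exact g_B2 (by linarith) (by linarith [mul_nonneg (mul_nonneg q1 q1) q2, mul_nonneg hrD q0, mul_nonneg q1 q2, mul_nonneg (mul_nonneg hv hrD) q1, mul_nonneg (mul_nonneg hh hH) hH, mul_nonneg (mul_nonneg hv hrD) q2, mul_nonneg (mul_nonneg hv hv) q1, mul_nonneg (mul_nonneg hrD hrD) q1, mul_nonneg (mul_nonneg hv q0) q1, mul_nonneg (mul_nonneg q1 q4) q4, mul_nonneg (mul_nonneg hz hr) q2, mul_nonneg (mul_nonneg hrD hrv) q0, mul_nonneg hh q1, mul_nonneg (mul_nonneg hrv hrv) q0, mul_nonneg (mul_nonneg hv hrD) hrD, mul_nonneg hrv q4, mul_nonneg hrD q1, mul_nonneg (mul_nonneg hh hh) q0, mul_nonneg hh q4, mul_nonneg hh hh, mul_nonneg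 q0 q2, mul_nonneg hv q1, mul_nonneg (mul_nonneg hv hr) hrv, mul_nonneg (mul_nonneg hh q0) q1, mul_nonneg (mul_nonneg hh q4) q4, mul_nonneg (mul_nonneg hh hrD) q2, mul_nonneg (mul_nonneg hh hr) q2, mul_nonneg (mul_nonneg hh hh) hr])
    · replace q1 := sub_nonneg.mpr q1
      rcases le_total (v) (7/10*(v+2*z)) with q2 | q2
      · replace q2 := sub_nonneg.mpr q2
        rcases le_total (r) (27/20*(v+2*z)) with q3 | q3
        · replace q3 := sub_nonneg.mpr q3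
          exact g_B3 (by linarith [mul_nonneg (mul_nonneg hrv q1) q3, mul_nonneg hh hh, mul_nonneg hh hH, mul_nonneg (mul_nonneg hv hv) hrv, mul_nonneg (mul_nonneg hrv q1) q2, mul_nonneg (mul_nonneg hz q0) q1, mul_nonneg (mul_nonneg hh hr) hrv, mul_nonneg (mul_nonneg hr hrD) hrD, mul_nonneg (mul_nonneg hr hH) hH, mul_nonneg (mul_nonneg hh hrv) q0, mul_nonneg (mul_nonneg hv q1) q2, mul_nonneg (mul_nonneg hh hH) hH, mul_nonneg q1 q1, mul_nonneg (mul_nonneg hv hH) hrD, mul_nonneg hrv q2, mul_nonneg hrv q3, mul_nonneg hrD hrv, mul_nonneg (mul_nonneg hh q0) q3, mul_nonneg (mul_nonneg hh hh) q0, mul_nonneg (mul_nonneg hv hh) q0, mul_nonneg (mul_nonneg hH q1) q2, mul_nonneg (mul_nonneg hH hrD) q2, mul_nonneg hH hrv, mul_nonneg hH q1, mul_nonneg q1 q3, mul_nonneg hh q2, mul_nonneg hr hH, mul_nonneg (mul_nonneg hrD q0) q1, mul_nonneg (mul_nonneg hr hrv) q3, mul_nonneg (mul_nonneg hh hH) hrv, mul_nonneg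 (mul_nonneg hh hrv) q1, mul_nonneg (mul_nonneg hrD hrv) hrv, mul_nonneg (mul_nonneg hrD hrD) hrv]) (by linarith [mul_nonneg (mul_nonneg hv q1) q2, mul_nonneg (mul_nonneg hH q1) q1, mul_nonneg hrv q3, mul_nonneg (mul_nonneg hh hr) hrD, mul_nonneg q1 q3, mul_nonneg hh q1, mul_nonneg hh hrv, mul_nonneg (mul_nonneg hr hr) hH, mul_nonneg (mul_nonneg hz q0) q1, mul_nonneg (mul_nonneg hv hH) q3, mul_nonneg (mul_nonneg hz hh) hrD, mul_nonneg (mul_nonneg hh hh) hrD, mul_nonneg (mul_nonneg hr q0) q1, mul_nonneg (mul_nonneg hv q0) q1, mul_nonneg (mul_nonneg hr hH) q3, mul_nonneg hr q2, mul_nonneg (mul_nonneg hrD hrv) q1, mul_nonneg hr hr, mul_nonneg (mul_nonneg hv hv) hrD, mul_nonneg (mul_nonneg hh hrv) q0, mul_nonneg hrv q2, mul_nonneg (mul_nonneg hz hrv) q0, mul_nonneg (mul_nonneg hr hr) q1, mul_nonneg (mul_nonneg hh hh) hh, mul_nonneg (mul_nonneg hh q0) q1, mul_nonneg hh q0, mul_nonneg hh hh, mul_nonneg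 (mul_nonneg hr hrv) q0, mul_nonneg (mul_nonneg hrv hrv) q1])
        · replace q3 := sub_nonneg.mpr q3
          rcases le_total (h) ((v+2*z)) with q4 | q4
          · replace q4 := sub_nonneg.mpr q4
            exact g_B2 (by linarith) (by linarith [mul_nonneg (mul_nonneg hv q3) q4, mul_nonneg (mul_nonneg q1 q1) q4, mul_nonneg q1 q1, mul_nonneg (mul_nonneg hv hh) q1, mul_nonneg (mul_nonneg hrv q0) q1, mul_nonneg (mul_nonneg hv hrD) q3, mul_nonneg q2 q3, mul_nonneg (mul_nonneg hz hh) q1, mul_nonneg (mul_nonneg hr q0) q0, mul_nonneg (mul_nonneg hh hh) q1, mul_nonneg (mul_nonneg hv hrD) q1, mul_nonneg (mul_nonneg hrD hrv) q1, mul_nonneg (mul_nonneg hrD q2) q3, mul_nonneg q3 q4, mul_nonneg (mul_nonneg hv hrv) q3, mul_nonneg (mul_nonneg hh hH) q3, mul_nonneg (mul_nonneg hh hr) hH, mul_nonneg (mul_nonneg hH hrv) q4, mul_nonneg hrv q2, mul_nonneg hh q3, mul_nonneg (mul_nonneg hrv q0) q3, mul_nonneg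 (mul_nonneg hh hrD) hrv, mul_nonneg (mul_nonneg hr q2) q3, mul_nonneg (mul_nonneg hrD q0) q1, mul_nonneg (mul_nonneg hv q1) q2, mul_nonneg (mul_nonneg hz hh) q0])
          · replace q4 := sub_nonneg.mpr q4
            exact g_B2 (by linarith) (by linarith [mul_nonneg (mul_nonneg hz hrv) q1, mul_nonneg q0 q3, mul_nonneg hrD q1, mul_nonneg (mul_nonneg hh hh) hH, mul_nonneg (mul_nonneg hv hv) hrD, mul_nonneg (mul_nonneg hH q1) q2, mul_nonneg (mul_nonneg hh hrv) q0, mul_nonneg q1 q2, mul_nonneg hH q4, mul_nonneg (mul_nonneg hz q0) q1, mul_nonneg (mul_nonneg hh hr) q1, mul_nonneg (mul_nonneg hh hr) q0, mul_nonneg (mul_nonneg hrD hrD) q2, mul_nonneg hr q4, mul_nonneg (mul_nonneg hv hv) q1, mul_nonneg hrv q0, mul_nonneg (mul_nonneg hr hr) q4, mul_nonneg (mul_nonneg hh hr) hrv, mul_nonneg (mul_nonneg hh hrD) hrv, mul_nonneg (mul_nonneg hv hv) q0, mul_nonneg (mul_nonneg hr hr) q1, mul_nonneg (mul_nonneg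 hh hh) q0, mul_nonneg hh hh, mul_nonneg (mul_nonneg hh hrD) hrD, mul_nonneg (mul_nonneg hv hrv) q1, mul_nonneg hh hr, mul_nonneg (mul_nonneg hH hrv) q0, mul_nonneg hrv q2])
      · replace q2 := sub_nonneg.mpr q2
        rcases le_total (r) (6/5*(v+2*z)) with q3 | q3
        · replace q3 := sub_nonneg.mpr q3
          exact g_B3 (by linarith [mul_nonneg (mul_nonneg hz hrD) hrD, mul_nonneg (mul_nonneg hr hH) hrv, mul_nonneg hrv q3, mul_nonneg (mul_nonneg hh q0) q1, mul_nonneg (mul_nonneg hv hv) hrv, mul_nonneg (mul_nonneg hh hh) q0, mul_nonneg (mul_nonneg hr hrv) q3, mul_nonneg hh hh, mul_nonneg (mul_nonneg hr hH) hrD, mul_nonneg q2 q3, mul_nonneg hr hH, mul_nonneg (mul_nonneg hz hv) q1, mul_nonneg (mul_nonneg hh hr) hrv, mul_nonneg (mul_nonneg hH q1) q1, mul_nonneg hr q3, mul_nonneg (mul_nonneg hrD hrD) q1, mul_nonneg (mul_nonneg hrD q1) q1, mul_nonneg hH hrv, mul_nonneg hz hrv, mul_nonneg (mul_nonneg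 hh q0) q3, mul_nonneg (mul_nonneg hz hrv) q1, mul_nonneg hz hh, mul_nonneg (mul_nonneg hh hH) hH, mul_nonneg hrD q2, mul_nonneg q0 q3, mul_nonneg (mul_nonneg hrv q0) q1, mul_nonneg hh hH, mul_nonneg (mul_nonneg hz q0) q1, mul_nonneg (mul_nonneg hh hrD) hrD, mul_nonneg hrD hrv, mul_nonneg (mul_nonneg hh hH) hrv, mul_nonneg q0 q0, mul_nonneg (mul_nonneg hr hrD) hrD]) (by linarith [mul_nonneg hr q3, mul_nonneg (mul_nonneg hrv hrv) q1, mul_nonneg hrv q3, mul_nonneg (mul_nonneg hz hH) q1, mul_nonneg hr hr, mul_nonneg (mul_nonneg hr hr) q1, mul_nonneg q1 q2, mul_nonneg (mul_nonneg hr hrD) hrv, mul_nonneg (mul_nonneg q0 q0) q0, mul_nonneg hr q2, mul_nonneg q2 q3, mul_nonneg (mul_nonneg hh hh) hrD, mul_nonneg hh q1, mul_nonneg (mul_nonneg hrD q0) q2, mul_nonneg (mul_nonneg hr hH) q3, mul_nonneg (mul_nonneg hr hr) q0, mul_nonneg (mul_nonneg q0 q1) q3, mul_nonneg (mul_nonneg hh hrv) q1, mul_nonneg (mul_nonneg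 hv hv) hrD, mul_nonneg hh hh, mul_nonneg (mul_nonneg hh hh) hrv, mul_nonneg (mul_nonneg hh hh) q1, mul_nonneg (mul_nonneg hz hH) q3, mul_nonneg (mul_nonneg hr hr) hH, mul_nonneg (mul_nonneg hh hh) hh, mul_nonneg hh q0, mul_nonneg (mul_nonneg hh hr) hrD, mul_nonneg hh hrv, mul_nonneg (mul_nonneg hv hv) q1, mul_nonneg (mul_nonneg hr hr) hrv])
        · replace q3 := sub_nonneg.mpr q3
          rcases le_total (h) ((v+2*z)) with q4 | q4
          · replace q4 := sub_nonneg.mpr q4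
            exact g_B2 (by linarith) (by linarith [mul_nonneg hz q3, mul_nonneg hh q3, mul_nonneg (mul_nonneg hr q0) q0, mul_nonneg (mul_nonneg q0 q0) q0, mul_nonneg (mul_nonneg hh hH) q0, mul_nonneg hv q3, mul_nonneg q1 q2, mul_nonneg (mul_nonneg hh hr) q2, mul_nonneg (mul_nonneg hv hr) hH, mul_nonneg (mul_nonneg hrD q2) q4, mul_nonneg (mul_nonneg hr hrv) q2, mul_nonneg hh q2, mul_nonneg (mul_nonneg hrv q1) q2, mul_nonneg (mul_nonneg hrv q0) q3, mul_nonneg (mul_nonneg hh hrD) q3, mul_nonneg hr q2, mul_nonneg (mul_nonneg hv hrD) q3, mul_nonneg (mul_nonneg hv hH) q3, mul_nonneg (mul_nonneg hh hr) hrD, mul_nonneg (mul_nonneg q0 q0) q1, mul_nonneg hh hh, mul_nonneg (mul_nonneg hh hH) q1, mul_nonneg (mul_nonneg hz hH) q1, mul_nonneg (mul_nonneg q0 q1) q2, mul_nonneg (mul_nonneg hz hH) hrv, mul_nonneg (mul_nonneg hh hr) hH, mul_nonneg (mul_nonneg hv hrD) hrv, mul_nonneg (mul_nonneg hr hr) q2])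
          · replace q4 := sub_nonneg.mpr q4
            exact g_B2 (by linarith) (by linarith [mul_nonneg hv q1, mul_nonneg hv hrv, mul_nonneg (mul_nonneg hh q0) q0, mul_nonneg (mul_nonneg hz q1) q2, mul_nonneg (mul_nonneg hv hv) hrD, mul_nonneg hh q0, mul_nonneg (mul_nonneg hh hrv) q0, mul_nonneg hz hrv, mul_nonneg hh q1, mul_nonneg (mul_nonneg hr q1) q2, mul_nonneg (mul_nonneg hh hr) q1, mul_nonneg (mul_nonneg hh hr) q0, mul_nonneg (mul_nonneg hr hrD) q1, mul_nonneg hz q1, mul_nonneg (mul_nonneg hrD q0) q1, mul_nonneg hrv q0, mul_nonneg (mul_nonneg hh hr) hrv, mul_nonneg (mul_nonneg hh hrD) hrv, mul_nonneg (mul_nonneg hv hv) q0, mul_nonneg (mul_nonneg hr hrv) q1, mul_nonneg (mul_nonneg hz hH) hH, mul_nonneg hh hrD, mul_nonneg hH q0, mul_nonneg (mul_nonneg hh hrD) hrD, mul_nonneg (mul_nonneg hh hh) hH, mul_nonneg (mul_nonneg hv hv) q1, mul_nonneg (mul_nonneg hH hrv) q0])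

end Pool.Agent.E809.A0
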