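import Mathlib

/-! Polynomial certificates for `lemmaA0` (MP_d36a1d_co), found by linear programming.
Every leaf is a nonnegative combination of products of the constraints. -/

set_option autoImplicit false
set_option maxRecDepth 4000
set_option maxHeartbeats 4000000
set_option linter.unusedVariables false

namespace Pool.Agent.E809.A0

theorem tree_c2p (u y H d : ℝ) (G : Prop)
    (hu : 0 ≤ u)
    (hy : 0 ≤ y)
    (hH : 0 ≤ H)
    (hd : 0 ≤ d)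
    (hH1 : 0 ≤ 3/20-H)
    (hz : 0 ≤ 1/2-u-y)
    (hW : 0 ≤ H+y-u-d)
    (hN : 0 ≤ (((y+u)/2)*(1-2*H)-((1/2-H-y/2+u/2)+d)*u))
    (hX : 0 ≤ (((y+u)/2)*(1-2*H)-((1/2-H-y/2+u/2)+d)*u)+H*y-H*d)
    (g_pa : 0 ≤ (2*H^2-d*((1/2-H-y/2+u/2)+d+u)) → 0 ≤ 2*y*(1/2-H-y/2+u/2)*((1/2-H-y/2+u/2)+d+u)-(H-d)*d*((1/2-H-y/2+u/2)+d+u)-2*H*(((y+u)/2)*(1-2*H)-((1/2-H-y/2+u/2)+d)*u) → G)
    (g_pap : 0 ≤ (2*H^2-d*((1/2-H-y/2+u/2)+d+u)) → 0 ≤ d-y → 0 ≤ 2*y*(1/2-H-y/2+u/2)*((1/2-H-y/2+u/2)+d+u)-(H-d)*d*((1/2-H-y/2+u/2)+d+u)-2*H*(((y+u)/2)*(1-2*H)-((1/2-H-y/2+u/2)+d)*u)+(2*H^2-d*((1/2-H-y/2+u/2)+d+u))*(d-y) → G)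
    (g_pb : 0 ≤ -(2*H^2-d*((1/2-H-y/2+u/2)+d+u)) → 0 ≤ 2*y*(1/2-H-y/2+u/2)*H-H*(H-d)*d-d*(((y+u)/2)*(1-2*H)-((1/2-H-y/2+u/2)+d)*u) → G)
    (g_pd : 0 ≤ 2*y*(1/2-H-y/2+u/2)*((1/2-H-y/2+u/2)+d+u)-(H-d+(1/4-((y+u)/2)))*d*((1/2-H-y/2+u/2)+d+u)-2*H*(((y+u)/2)*(1-2*H)-((1/2-H-y/2+u/2)+d)*u) → G)
    (g_pe : 0 ≤ 2*(y-H)*(1/2-H-y/2+u/2)-(H-d+(1/4-((y+u)/2)))*d → G)
    (g_pf : 0 ≤ 2*(y-H)*(1/2-H-y/2+u/2)-(H+(1/2-H-y/2+u/2)-y)*d → G)
    : G := by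
  rcases le_total (y) (1/5) with q0 | q0
  · replace q0 := sub_nonneg.mpr q0
    rcases le_total ((2*H^2-d*((1/2-H-y/2+u/2)+d+u))) (0) with q1 | q1
    · replace q1 := sub_nonneg.mpr q1
      rcases le_total (y) (3/4*H) with q2 | q2
      · replace q2 := sub_nonneg.mpr q2
        exact g_pb (by linarith) (by linarith [mul_nonneg (mul_nonneg hd hH1) hW, mul_nonneg (mul_nonneg hu hy) hy, mul_nonneg hd q1, mul_nonneg (mul_nonneg hd hd) hd, mul_nonneg (mul_nonneg hu hW) hW, mul_nonneg (mul_nonneg hu hH) hd, mul_nonneg (mul_nonneg hy hd) hW, mul_nonneg hu hN, mul_nonneg hX q2, mul_nonneg (mul_nonneg hz hW) hW, mul_nonneg (mul_nonneg hd hd) hW, mul_nonneg hH1 hX, mul_nonneg (mul_nonneg hy hy) q2, mul_nonneg hy q2, mul_nonneg (mul_nonneg hu hH1) hH1, mul_nonneg (mul_nonneg hu hu) hd, mul_nonneg (mul_nonneg hu hH1) hW, mul_nonneg (mul_nonneg hu hu) hu, mul_nonneg hy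 q1, mul_nonneg (mul_nonneg hu hu) hW, mul_nonneg hW hX, mul_nonneg (mul_nonneg hu hd) q2, mul_nonneg (mul_nonneg hu hu) q2, mul_nonneg (mul_nonneg hu hd) hd, mul_nonneg hu hu, mul_nonneg (mul_nonneg hH1 hH1) hH1, mul_nonneg hu q1, mul_nonneg (mul_nonneg hH1 hH1) q2, mul_nonneg (mul_nonneg hy hH1) hW, mul_nonneg (mul_nonneg hy hy) hW, mul_nonneg (mul_nonneg hd hd) q2, mul_nonneg (mul_nonneg hH hH1) hW, mul_nonneg hu hy, mul_nonneg hN q2])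
      · replace q2 := sub_nonneg.mpr q2
        exact g_pd (by linarith [mul_nonneg (mul_nonneg hd hd) hd, mul_nonneg (mul_nonneg hd q0) q2, mul_nonneg (mul_nonneg hH1 hz) hW, mul_nonneg hW q0, mul_nonneg (mul_nonneg hz q0) q2, mul_nonneg hu hu, mul_nonneg hu q2, mul_nonneg (mul_nonneg hd hW) hW, mul_nonneg hH1 q2, mul_nonneg hu hd, mul_nonneg (mul_nonneg hz hW) hW, mul_nonneg q0 q2, mul_nonneg (mul_nonneg hu hH1) q2, mul_nonneg (mul_nonneg hd hH1) hW, mul_nonneg (mul_nonneg hu hu) hd, mul_nonneg (mul_nonneg hH1 hH1) q2, mul_nonneg hH1 hW, mul_nonneg q1 q2, mul_nonneg hd hH1, mul_nonneg (mul_nonneg hu hz) q2, mul_nonneg hH1 q1, mul_nonneg (mul_nonneg hd hd) q2, mul_nonneg hu hH1, mul_nonneg (mul_nonneg hu hz) hW, mul_nonneg (mul_nonneg hW q0) q0, mul_nonneg (mul_nonneg hu hu) hW, mul_nonneg (mul_nonneg hu hH1) hW, mul_nonneg (mul_nonneg hu hd) hd, mul_nonneg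 hH1 hX, mul_nonneg hd q2, mul_nonneg (mul_nonneg hu hu) hz, mul_nonneg (mul_nonneg hW hW) q0, mul_nonneg (mul_nonneg hd hH1) q2, mul_nonneg hd q1])
    · replace q1 := sub_nonneg.mpr q1
      rcases le_total (d) (y) with q2 | q2
      · replace q2 := sub_nonneg.mpr q2
        exact g_pa (by linarith) (by linarith [mul_nonneg hu hu, mul_nonneg q1 q2, mul_nonneg (mul_nonneg hH hd) q2, mul_nonneg (mul_nonneg hd hW) hW, mul_nonneg (mul_nonneg hd hz) q0, mul_nonneg (mul_nonneg hu hy) hH1, mul_nonneg hH1 hN, mul_nonneg (mul_nonneg hy hW) hW, mul_nonneg hu hX, mul_nonneg (mul_nonneg hH1 q0) q2, mul_nonneg (mul_nonneg hu hu) hy, mul_nonneg (mul_nonneg hu hu) hu, mul_nonneg (mul_nonneg hu hy) q0, mul_nonneg q0 q2, mul_nonneg (mul_nonneg hd hW) q0, mul_nonneg (mul_nonneg hu hz) q2, mul_nonneg (mul_nonneg hu hd) hH1, mul_nonneg hu hd, mul_nonneg (mul_nonneg q0 q0) q2,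 mul_nonneg hy hH1, mul_nonneg (mul_nonneg hd hd) hz, mul_nonneg (mul_nonneg hu hd) hd, mul_nonneg hd hN, mul_nonneg hd hH1, mul_nonneg (mul_nonneg hu hu) hH1, mul_nonneg (mul_nonneg hd hH1) hH1, mul_nonneg hd hd, mul_nonneg (mul_nonneg hd hd) hd])
      · replace q2 := sub_nonneg.mpr q2
        exact g_pap (by linarith) (by linarith) (by linarith [mul_nonneg (mul_nonneg hu hu) hu, mul_nonneg (mul_nonneg hu hy) hz, mul_nonneg hu hX, mul_nonneg hd q1, mul_nonneg (mul_nonneg hy hd) hd, mul_nonneg (mul_nonneg hd hH1) hW, mul_nonneg (mul_nonneg hu hy) hH1, mul_nonneg hu hd, mul_nonneg (mul_nonneg hy hW) q0, mul_nonneg hu hu, mul_nonneg hH1 hX, mul_nonneg (mul_nonneg hu hu) hd, mul_nonneg hy hH1, mul_nonneg hy q2, mul_nonneg (mul_nonneg hy hW) hW, mul_nonneg (mul_nonneg hz hW) q2, mul_nonneg (mul_nonneg hy hy) hz, mul_nonneg hd hX, mul_nonneg (mul_nonneg hu hy) hd,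 mul_nonneg hH1 hN, mul_nonneg hy hX, mul_nonneg (mul_nonneg hu hu) hH1, mul_nonneg (mul_nonneg hu hd) hd, mul_nonneg (mul_nonneg hy hH) hW, mul_nonneg (mul_nonneg hd hd) hH1, mul_nonneg (mul_nonneg hd hW) hW])
  · replace q0 := sub_nonneg.mpr q0
    rcases le_total (y) (9/40) with q1 | q1
    · replace q1 := sub_nonneg.mpr q1
      exact g_pd (by linarith [mul_nonneg hy hH1, mul_nonneg (mul_nonneg hu hH1) hW, mul_nonneg hH1 hH1, mul_nonneg hd q1, mul_nonneg (mul_nonneg hd hd) hH1, mul_nonneg (mul_nonneg hd hd) q1, mul_nonneg (mul_nonneg hu hz) hW, mul_nonneg (mul_nonneg hd hz) q0, mul_nonneg hH1 q0, mul_nonneg (mul_nonneg hu hd) hd, mul_nonneg (mul_nonneg hz q0) q1, mul_nonneg (mul_nonneg hd hH1) hz, mul_nonneg (mul_nonneg hH hH) q0, mul_nonneg hd hH1, mul_nonneg hH1 hX, mul_nonneg (mul_nonneg hu hu) hW, mul_nonneg q0 q1, mul_nonneg hu hu, mul_nonneg (mul_nonneg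 hH hd) hW, mul_nonneg (mul_nonneg hu hu) hH, mul_nonneg (mul_nonneg hu hu) hz, mul_nonneg (mul_nonneg hd hW) q1, mul_nonneg hu q0, mul_nonneg hu hH1, mul_nonneg (mul_nonneg hd hd) hd, mul_nonneg (mul_nonneg hW hW) q0, mul_nonneg hW q1, mul_nonneg hu hd, mul_nonneg (mul_nonneg hH1 hz) q1, mul_nonneg (mul_nonneg hH1 hz) hW, mul_nonneg (mul_nonneg hu hu) hd, mul_nonneg (mul_nonneg hW q1) q1, mul_nonneg hd hd])
    · replace q1 := sub_nonneg.mpr q1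
      rcases le_total ((2*H^2-d*((1/2-H-y/2+u/2)+d+u))) (0) with q2 | q2
      · replace q2 := sub_nonneg.mpr q2
        rcases le_total (d-y) (-3/20) with q3 | q3
        · replace q3 := sub_nonneg.mpr q3
          exact g_pe (by linarith [mul_nonneg hH1 hH1, mul_nonneg hz q3, mul_nonneg hz hW, mul_nonneg hu hu, mul_nonneg hu hH1, mul_nonneg hz q1, mul_nonneg hu hW, mul_nonneg hu q3, mul_nonneg hH1 q1, mul_nonneg hH hW, mul_nonneg hd hd])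
        · replace q3 := sub_nonneg.mpr q3
          exact g_pd (by linarith [mul_nonneg (mul_nonneg hu hH1) hW, mul_nonneg (mul_nonneg hH hW) hW, mul_nonneg (mul_nonneg hH q1) q1, mul_nonneg (mul_nonneg hH1 hz) hW, mul_nonneg hd q3, mul_nonneg (mul_nonneg hu hu) hd, mul_nonneg (mul_nonneg hu hz) hz, mul_nonneg (mul_nonneg hd q1) q1, mul_nonneg (mul_nonneg hu hd) q3, mul_nonneg (mul_nonneg q1 q1) q1, mul_nonneg hH1 q1, mul_nonneg (mul_nonneg hd hd) q3, mul_nonneg (mul_nonneg hH1 hH1) hH1, mul_nonneg (mul_nonneg hd hd) hH1, mul_nonneg (mul_nonneg hH1 hz) q3, mul_nonneg hu hX, mul_nonneg hu q1, mul_nonneg (mul_nonneg hd hH1) hH1, mul_nonneg q0 q3, mul_nonneg hu hH1, mul_nonneg hu q2, mul_nonneg (mul_nonneg hu hy) hd, mul_nonneg (mul_nonneg hd q0) q3, mul_nonneg hu hu, mul_nonneg (mul_nonneg hW hW) q1, mul_nonneg (mul_nonneg hu hu) hW, mul_nonneg hu hd, mul_nonneg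 q1 q1, mul_nonneg hd hH1, mul_nonneg (mul_nonneg hu hu) hH, mul_nonneg hH1 hH1, mul_nonneg (mul_nonneg hz hz) hz, mul_nonneg (mul_nonneg hu hz) hW, mul_nonneg hH1 hN])
      · replace q2 := sub_nonneg.mpr q2
        exact g_pf (by linarith [mul_nonneg hu hW, mul_nonneg hz hW, mul_nonneg hu hu, mul_nonneg hW hW, mul_nonneg hz q1, mul_nonneg hH1 q1, mul_nonneg hu q1, mul_nonneg hd hd, mul_nonneg hH1 hH1, mul_nonneg hu hH1, mul_nonneg hd q1, mul_nonneg hH1 hW])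

theorem tree_c2m0 (z v H d : ℝ) (G : Prop)
    (hz : 0 ≤ z)
    (hv : 0 ≤ v)
    (hH : 0 ≤ H)
    (hd : 0 ≤ d)
    (hH1 : 0 ≤ 3/20-H)
    (hy : 0 ≤ 1/4-z-v)
    (hW : 0 ≤ H+2*v+2*z-d)
    (hX : 0 ≤ (z*(1-2*H))+H*(v+2*z)-H*d)
    (hrho : 0 ≤ -((1/2-H-z-v)+d-v))
    (g_pf : 0 ≤ 2*((v+2*z)-H)*(1/2-H-z-v)-(H+(1/2-H-z-v)-(v+2*z))*d → G)
    : G := by
  exact g_pf (by linarith [mul_nonneg hz hy, mul_nonneg hz hd, mul_nonneg hz hH1, mul_nonneg hy hrho, mul_nonneg hd hrho, mul_nonneg hd hW, mul_nonneg hd hH1, mul_nonneg hH1 hH1, mul_nonneg hH1 hy, mul_nonneg hd hd])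

end Pool.Agent.E809.A0
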