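import Mathlib

/-! Polynomial certificates for `lemmaA0` (MP_d36a1d_co), found by linear programming.
Every leaf is a nonnegative combination of products of the constraints. -/

set_option autoImplicit false
set_option maxRecDepth 4000
set_option maxHeartbeats 4000000
set_option linter.unusedVariables false

namespace Pool.Agent.E809.A0

theorem tree_c2m (z v H d : ℝ) (G : Prop)
    (hz : 0 ≤ z)
    (hv : 0 ≤ v)
    (hH : 0 ≤ H)
    (hd : 0 ≤ d)
    (hH1 : 0 ≤ 3/20-H)
    (hy : 0 ≤ 1/4-z-v)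
    (hW : 0 ≤ H+2*v+2*z-d)
    (hX : 0 ≤ (z*(1-2*H))+H*(v+2*z)-H*d)
    (hrho : 0 ≤ ((1/2-H-z-v)+d-v))
    (g_pa : 0 ≤ (2*H^2-d*((1/2-H-z-v)+d-v)) → 0 ≤ 2*(v+2*z)*(1/2-H-z-v)*((1/2-H-z-v)+d-v)-(H-d)*d*((1/2-H-z-v)+d-v)-2*H*(z*(1-2*H)) → G)
    (g_pap : 0 ≤ (2*H^2-d*((1/2-H-z-v)+d-v)) → 0 ≤ d-(v+2*z) → 0 ≤ 2*(v+2*z)*(1/2-H-z-v)*((1/2-H-z-v)+d-v)-(H-d)*d*((1/2-H-z-v)+d-v)-2*H*(z*(1-2*H))+(2*H^2-d*((1/2-H-z-v)+d-v))*(d-(v+2*z)) → G)
    (g_pb : 0 ≤ -(2*H^2-d*((1/2-H-z-v)+d-v)) → 0 ≤ 2*(v+2*z)*(1/2-H-z-v)*H-H*(H-d)*d-d*(z*(1-2*H)) → G)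
    (g_pc : 0 ≤ (2*H^2-d*((1/2-H-z-v)+d-v)) → 0 ≤ 2*(v+2*z)*(1/2-H-z-v)*H-(H-d)*d*H-d*(z*(1-2*H))-(1/2-H-z-v)*(2*H^2-d*((1/2-H-z-v)+d-v)) → G)
    (g_pd : 0 ≤ 2*(v+2*z)*(1/2-H-z-v)*((1/2-H-z-v)+d-v)-(H-d+(1/4-z))*d*((1/2-H-z-v)+d-v)-2*H*(z*(1-2*H)) → G)
    (g_pe : 0 ≤ 2*((v+2*z)-H)*(1/2-H-z-v)-(H-d+(1/4-z))*d → G)
    (g_pf : 0 ≤ 2*((v+2*z)-H)*(1/2-H-z-v)-(H+(1/2-H-z-v)-(v+2*z))*d → G)
    : G := by
  rcases le_total (11/40) ((v+2*z)) with q0 | q0
  · replace q0 := sub_nonneg.mpr q0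
    exact g_pf (by linarith [mul_nonneg hz hW, mul_nonneg hd q0, mul_nonneg hy hW, mul_nonneg hz hH1, mul_nonneg hz hy, mul_nonneg hv hy, mul_nonneg hv hd, mul_nonneg hy q0, mul_nonneg hH1 hH1, mul_nonneg hH1 hy])
  · replace q0 := sub_nonneg.mpr q0
    rcases le_total ((2*H^2-d*((1/2-H-z-v)+d-v))) (0) with q1 | q1
    · replace q1 := sub_nonneg.mpr q1
      rcases le_total ((v+2*z)) (3/4*H) with q2 | q2
      · replace q2 := sub_nonneg.mpr q2
        exact g_pb (by linarith) (by linarith [mul_nonneg (mul_nonneg hz hH1) hW, mul_nonneg hX q2, mul_nonneg hv q2, mul_nonneg (mul_nonneg hz hH1) q2, mul_nonneg (mul_nonneg hv q2) q2, mul_nonneg hv hH, mul_nonneg (mul_nonneg hH hd) q2, mul_nonneg (mul_nonneg hz hz) hz, mul_nonneg (mul_nonneg hv hH) hH1, mul_nonneg (mul_nonneg hz hd) q2, mul_nonneg (mul_nonneg hv hd) q2, mul_nonneg (mul_nonneg hz hv) hv, mul_nonneg hW hX, mul_nonneg (mul_nonneg hd hH1) hH1, mul_nonneg (mul_nonneg hz hH) hH1, mul_nonneg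 (mul_nonneg hv hv) hrho, mul_nonneg (mul_nonneg hz hW) hrho, mul_nonneg (mul_nonneg hz hd) hd, mul_nonneg (mul_nonneg hz hv) hrho, mul_nonneg (mul_nonneg hv hH) hd, mul_nonneg hv hv, mul_nonneg hv hW, mul_nonneg (mul_nonneg hd hd) hd, mul_nonneg (mul_nonneg hv hv) hd, mul_nonneg (mul_nonneg hd hd) q2, mul_nonneg hW hW, mul_nonneg hH1 hH1, mul_nonneg (mul_nonneg hv hv) hH1, mul_nonneg hH1 q2, mul_nonneg (mul_nonneg hd hd) hW, mul_nonneg hd q1, mul_nonneg hH1 hW, mul_nonneg (mul_nonneg hd hH1) hW])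
      · replace q2 := sub_nonneg.mpr q2
        rcases le_total ((v+2*z)) (1/4) with q3 | q3
        · replace q3 := sub_nonneg.mpr q3
          rcases le_total (((v+2*z)-H)) (3/20) with q4 | q4
          · replace q4 := sub_nonneg.mpr q4
            rcases le_total ((d-(v+2*z))) (1/20) with q5 | q5
            · replace q5 := sub_nonneg.mpr q5
              rcases le_total (((v+2*z)-H)) (1/10) with q6 | q6
              · replace q6 := sub_nonneg.mpr q6
                rcases le_total (d) (1/10) with q7 | q7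
                · replace q7 := sub_nonneg.mpr q7
                  rcases le_total ((d-(v+2*z))) ((-1/20)) with q8 | q8
                  · replace q8 := sub_nonneg.mpr q8
                    exact g_pd (by linarith [mul_nonneg q3 q8, mul_nonneg (mul_nonneg hv hH1) q4, mul_nonneg (mul_nonneg hv hv) q6, mul_nonneg (mul_nonneg hz hz) hv, mul_nonneg (mul_nonneg hz hH1) hH1, mul_nonneg (mul_nonneg hz q6) q6, mul_nonneg (mul_nonneg hv hv) hd, mul_nonneg hz q7, mul_nonneg (mul_nonneg hH1 q7) q7, mul_nonneg (mul_nonneg hH q4) q6, mul_nonneg (mul_nonneg hd q7) q7, mul_nonneg (mul_nonneg hz hv) hW, mul_nonneg (mul_nonneg hz hrho) hrho, mul_nonneg (mul_nonneg hv hH1) q7, mul_nonneg (mul_nonneg hy q7) q7, mul_nonneg (mul_nonneg hv hH) hd, mul_nonneg (mul_nonneg hv hv) hrho, mul_nonneg (mul_nonneg hH hH) hH1, mul_nonneg (mul_nonneg hd hH1) hH1, mul_nonneg (mul_nonneg hz hz) q7, mul_nonneg hv q6, mul_nonneg hrho q1, mul_nonneg (mul_nonneg hv hrho) q7,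 mul_nonneg (mul_nonneg hd q6) q6, mul_nonneg (mul_nonneg hz q7) q7, mul_nonneg (mul_nonneg hH1 hH1) hH1, mul_nonneg (mul_nonneg hrho hrho) q8, mul_nonneg (mul_nonneg hd hW) q7, mul_nonneg q1 q6, mul_nonneg q6 q7, mul_nonneg q6 q6, mul_nonneg (mul_nonneg hv q4) q4, mul_nonneg q1 q7, mul_nonneg hH q6])
                  · replace q8 := sub_nonneg.mpr q8
                    exact g_pd (by linarith [mul_nonneg (mul_nonneg hH q6) q8, mul_nonneg (mul_nonneg hH q7) q7, mul_nonneg hW q7, mul_nonneg (mul_nonneg q2 q6) q7, mul_nonneg (mul_nonneg hv hH1) q8, mul_nonneg hW q8, mul_nonneg (mul_nonneg hW hrho) q7, mul_nonneg (mul_nonneg hv hv) q7, mul_nonneg hd q1, mul_nonneg (mul_nonneg hv hv) hH, mul_nonneg (mul_nonneg hz hd) q7, mul_nonneg (mul_nonneg hH hH1) q7, mul_nonneg hH1 hX, mul_nonneg hv q7, mul_nonneg (mul_nonneg hW hrho) q8, mul_nonneg (mul_nonneg hW hrho) hrho, mul_nonneg hH q8, mul_nonneg (mul_nonneg hrho hrho) q2, mul_nonneg (mul_nonneg hH1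 hH1) q2, mul_nonneg hH q1, mul_nonneg (mul_nonneg hz hz) q6, mul_nonneg (mul_nonneg hz hz) hW, mul_nonneg (mul_nonneg hz hH1) hrho, mul_nonneg (mul_nonneg hz hz) hv, mul_nonneg (mul_nonneg hz hv) hW, mul_nonneg hH q7, mul_nonneg hX q8, mul_nonneg (mul_nonneg hH1 hH1) hW, mul_nonneg hX q2, mul_nonneg (mul_nonneg hd hW) q7, mul_nonneg (mul_nonneg hd q7) q7, mul_nonneg hv q1, mul_nonneg (mul_nonneg hz hW) q7])
                · replace q7 := sub_nonneg.mpr q7
                  rcases le_total (H) (1/10) with q8 | q8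
                  · replace q8 := sub_nonneg.mpr q8
                    exact g_pd (by linarith [mul_nonneg hz hz, mul_nonneg q8 q8, mul_nonneg hv q8, mul_nonneg (mul_nonneg hz hz) hW, mul_nonneg (mul_nonneg q4 q6) q8, mul_nonneg (mul_nonneg hz hH) hW, mul_nonneg (mul_nonneg hH hH) q8, mul_nonneg q5 q7, mul_nonneg (mul_nonneg hv hH1) hy, mul_nonneg hy q2, mul_nonneg hv hv, mul_nonneg (mul_nonneg hv hv) hW, mul_nonneg hv q5, mul_nonneg hX q7, mul_nonneg (mul_nonneg hy hrho) q5, mul_nonneg (mul_nonneg hd q6) q7, mul_nonneg (mul_nonneg hz hv) q7, mul_nonneg (mul_nonneg hv hW) q7, mul_nonneg q1 q7, mul_nonneg hW q8, mul_nonneg (mul_nonneg hd q7) q7, mul_nonneg (mul_nonneg hW hrho) q8, mul_nonneg (mul_nonneg hv hrho) q6, mul_nonneg (mul_nonneg hv q6) q6, mul_nonneg (mul_nonneg q0 q5) q7, mul_nonneg (mul_nonneg hz hrho) hrho, mul_nonneg (mul_nonneg hz hz) hv, mul_nonneg (mul_nonneg hrho q7) q8, mul_nonneg q6 q7, mul_nonneg (mul_nonneg q7 q7) q8,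 mul_nonneg q5 q6, mul_nonneg q2 q8, mul_nonneg (mul_nonneg hv hH) q8, mul_nonneg hX q8, mul_nonneg (mul_nonneg hz hH) q7])
                  · replace q8 := sub_nonneg.mpr q8
                    rcases le_total (d) (3/20) with q9 | q9
                    · replace q9 := sub_nonneg.mpr q9
                      exact g_pd (by linarith [mul_nonneg (mul_nonneg q0 q2) q3, mul_nonneg (mul_nonneg hv hrho) q6, mul_nonneg (mul_nonneg hH1 hy) q8, mul_nonneg (mul_nonneg hv hH1) q3, mul_nonneg (mul_nonneg hz hH1) hy, mul_nonneg hz q9, mul_nonneg (mul_nonneg hz hz) hz, mul_nonneg q6 q9, mul_nonneg (mul_nonneg hv hv) hv, mul_nonneg (mul_nonneg hv hv) q8, mul_nonneg (mul_nonneg hrho hrho) q2, mul_nonneg (mul_nonneg hH1 hH1) hW, mul_nonneg (mul_nonneg hz q2) q6, mul_nonneg (mul_nonneg hv hH1) q7, mul_nonneg (mul_nonneg hz hz) q9, mul_nonneg (mul_nonneg q2 q6) q9, mul_nonneg q1 q9, mul_nonneg (mul_nonneg hv hv) q2, mul_nonneg (mul_nonneg hv q3) q3, mul_nonneg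 (mul_nonneg hz hH1) hH1, mul_nonneg (mul_nonneg hd q8) q9, mul_nonneg hz q1, mul_nonneg (mul_nonneg hz hrho) q9, mul_nonneg (mul_nonneg hrho q3) q8, mul_nonneg (mul_nonneg hv hH1) hy, mul_nonneg (mul_nonneg hrho q5) q9, mul_nonneg (mul_nonneg hH1 hH1) hH1, mul_nonneg (mul_nonneg hv hv) q7, mul_nonneg q7 q9, mul_nonneg (mul_nonneg q7 q9) q9, mul_nonneg q1 q2, mul_nonneg (mul_nonneg hz hd) q9, mul_nonneg (mul_nonneg hH1 hrho) q5, mul_nonneg hH1 q1, mul_nonneg (mul_nonneg hy q9) q9])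
                    · replace q9 := sub_nonneg.mpr q9
                      rcases le_total (H) (1/8) with q10 | q10
                      · replace q10 := sub_nonneg.mpr q10
                        exact g_pd (by linarith [mul_nonneg (mul_nonneg hv hrho) q10, mul_nonneg hz q1, mul_nonneg (mul_nonneg hz hz) hz, mul_nonneg (mul_nonneg hrho hrho) q5, mul_nonneg (mul_nonneg hz hz) q8, mul_nonneg q6 q9, mul_nonneg (mul_nonneg q7 q9) q10, mul_nonneg (mul_nonneg hW q10) q10, mul_nonneg (mul_nonneg q6 q6) q10, mul_nonneg (mul_nonneg q2 q4) q7, mul_nonneg (mul_nonneg hv hv) hv, mul_nonneg (mul_nonneg hrho hrho) q9, mul_nonneg (mul_nonneg hv q3) q4, mul_nonneg (mul_nonneg hz hW) q8, mul_nonneg (mul_nonneg hv hy) hrho, mul_nonneg q6 q8, mul_nonneg q9 q10, mul_nonneg (mul_nonneg hz hv) q9, mul_nonneg hz q10, mul_nonneg (mul_nonneg hv hW) q9, mul_nonneg (mul_nonneg hH1 q9) q10, mul_nonneg (mul_nonneg hH1 q10) q10, mul_nonneg hz hz, mul_nonneg hX q6, mul_nonneg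 (mul_nonneg hv q8) q9, mul_nonneg (mul_nonneg hv q4) q10, mul_nonneg q5 q6, mul_nonneg q5 q9, mul_nonneg q2 q10, mul_nonneg (mul_nonneg hv q5) q9, mul_nonneg (mul_nonneg hy q9) q9, mul_nonneg q10 q10, mul_nonneg (mul_nonneg q6 q7) q9, mul_nonneg (mul_nonneg q7 q9) q9, mul_nonneg (mul_nonneg hz hz) hW])
                      · replace q10 := sub_nonneg.mpr q10
                        rcases le_total (v) (1/20) with q11 | q11
                        · replace q11 := sub_nonneg.mpr q11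
                          exact g_pd (by linarith [mul_nonneg (mul_nonneg hz hH1) hrho, mul_nonneg (mul_nonneg hz q4) q4, mul_nonneg hv hH1, mul_nonneg (mul_nonneg q6 q7) q9, mul_nonneg q3 q5, mul_nonneg (mul_nonneg hv q4) q4, mul_nonneg (mul_nonneg hz q5) q5, mul_nonneg q4 q9, mul_nonneg (mul_nonneg hz q9) q11, mul_nonneg hH1 hW, mul_nonneg (mul_nonneg hH q2) q6, mul_nonneg q1 q9, mul_nonneg (mul_nonneg hv hv) q11, mul_nonneg hH1 q9, mul_nonneg (mul_nonneg q9 q10) q11, mul_nonneg hv q9, mul_nonneg q1 q2, mul_nonneg (mul_nonneg q7 q9) q11, mul_nonneg (mul_nonneg hH hW) q9, mul_nonneg (mul_nonneg hH1 hH1) hH1, mul_nonneg q1 q11, mul_nonneg (mul_nonneg hz hrho) q11, mul_nonneg (mul_nonneg hW q9) q11, mul_nonneg hv q11, mul_nonneg (mul_nonneg hd q2) q6, mul_nonneg (mul_nonneg hz q4) q11, mul_nonneg (mul_nonneg hv hH1) hy, mul_nonneg q9 q9, mul_nonneg q2 q11, mul_nonneg (mul_nonneg hz hd) q6, mul_nonneg hH1 hH1, mul_nonneg (mul_nonneg hH1 q7) q9,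 mul_nonneg (mul_nonneg hW q11) q11, mul_nonneg (mul_nonneg q7 q9) q9])
                        · replace q11 := sub_nonneg.mpr q11
                          exact g_pb (by linarith) (by linarith [mul_nonneg (mul_nonneg hH1 q9) q11, mul_nonneg (mul_nonneg hH1 hW) q11, mul_nonneg hH1 q6, mul_nonneg hX q11, mul_nonneg hH1 q10, mul_nonneg q3 q11, mul_nonneg (mul_nonneg q7 q7) q10, mul_nonneg q8 q11, mul_nonneg (mul_nonneg q4 q4) q10, mul_nonneg (mul_nonneg hv hv) q10, mul_nonneg (mul_nonneg hH1 q8) q10, mul_nonneg (mul_nonneg hH1 q5) q9, mul_nonneg hX q5, mul_nonneg (mul_nonneg hz hH1) hW, mul_nonneg q6 q9, mul_nonneg hX q6, mul_nonneg q11 q11, mul_nonneg q5 q10, mul_nonneg q5 q5, mul_nonneg (mul_nonneg hrho q9) q10, mul_nonneg q9 q11, mul_nonneg (mul_nonneg hH1 q9) q10, mul_nonneg (mul_nonneg hH hH1) q11, mul_nonneg (mul_nonneg hz q3) q10])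
              · replace q6 := sub_nonneg.mpr q6
                exact g_pf (by linarith [mul_nonneg hv hH, mul_nonneg hz q3, mul_nonneg hH hH, mul_nonneg hrho q6, mul_nonneg hH1 q6, mul_nonneg hH1 q5, mul_nonneg hd q6, mul_nonneg hv hd, mul_nonneg hH1 hH1, mul_nonneg q4 q6, mul_nonneg hrho q5, mul_nonneg hz q5, mul_nonneg q5 q5])
            · replace q5 := sub_nonneg.mpr q5
              exact g_pd (by linarith [mul_nonneg hH1 hX, mul_nonneg (mul_nonneg hd q5) q5, mul_nonneg (mul_nonneg hd hH1) q2, mul_nonneg (mul_nonneg hy hy) hW, mul_nonneg (mul_nonneg hd hH1) q5, mul_nonneg (mul_nonneg hv hv) hd, mul_nonneg q1 q5, mul_nonneg (mul_nonneg hv hH1) hH1, mul_nonneg (mul_nonneg hv hH1) hy, mul_nonneg (mul_nonneg hz q2) q5, mul_nonneg (mul_nonneg hv q3) q3, mul_nonneg (mul_nonneg hz hz) hz, mul_nonneg hz hX, mul_nonneg hW q3, mul_nonneg q2 q5, mul_nonneg (mul_nonneg hH hH) hH1, mul_nonneg (mul_nonneg hz hd) q2, mul_nonneg (mul_nonneg hz hH1) hH1,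 mul_nonneg hH1 hW, mul_nonneg (mul_nonneg hz hH1) hrho, mul_nonneg (mul_nonneg hv q4) q5, mul_nonneg (mul_nonneg hz hd) q5, mul_nonneg (mul_nonneg hz hz) hd, mul_nonneg (mul_nonneg hW hW) hW, mul_nonneg (mul_nonneg hv hv) hW, mul_nonneg (mul_nonneg hH1 hW) hrho, mul_nonneg (mul_nonneg hd q2) q3, mul_nonneg hH1 q2, mul_nonneg (mul_nonneg hz hd) hH1, mul_nonneg (mul_nonneg hy hrho) q2, mul_nonneg (mul_nonneg hH1 q2) q4, mul_nonneg (mul_nonneg hv hv) hv, mul_nonneg (mul_nonneg hH1 hrho) q2, mul_nonneg (mul_nonneg hy q2) q5])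
          · replace q4 := sub_nonneg.mpr q4
            exact g_pf (by linarith [mul_nonneg q4 q4, mul_nonneg hH1 q3, mul_nonneg hrho q4, mul_nonneg hH hH, mul_nonneg hH1 hW, mul_nonneg hH hd, mul_nonneg hy hy, mul_nonneg hz q3, mul_nonneg hy hW, mul_nonneg hy q4, mul_nonneg hy q3, mul_nonneg hv hv, mul_nonneg hW q3])
        · replace q3 := sub_nonneg.mpr q3
          rcases le_total (d) (7/20) with q4 | q4
          · replace q4 := sub_nonneg.mpr q4
            exact g_pf (by linarith [mul_nonneg hv q0, mul_nonneg hv hd, mul_nonneg hH1 q2, mul_nonneg q4 q4, mul_nonneg hd q3, mul_nonneg hrho q4, mul_nonneg hz q0, mul_nonneg hH1 hrho, mul_nonneg hH1 hH1, mul_nonneg hy q4, mul_nonneg q0 q3, mul_nonneg hH1 q4])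
          · replace q4 := sub_nonneg.mpr q4
            exact g_pe (by linarith [mul_nonneg hz hy, mul_nonneg hv hH, mul_nonneg hH hy, mul_nonneg hz hv, mul_nonneg hW q0, mul_nonneg hrho q4, mul_nonneg hrho q2, mul_nonneg hH q4, mul_nonneg q0 q4, mul_nonneg q4 q4, mul_nonneg hH1 hH1])
    · replace q1 := sub_nonneg.mpr q1
      rcases le_total ((v+2*z)) (d) with q2 | q2
      · replace q2 := sub_nonneg.mpr q2
        exact g_pap (by linarith) (by linarith) (by linarith [mul_nonneg q1 q2, mul_nonneg (mul_nonneg hv hd) q2, mul_nonneg (mul_nonneg hz hH1) hy, mul_nonneg (mul_nonneg hv q2) q2, mul_nonneg (mul_nonneg hv hrho) q2, mul_nonneg (mul_nonneg hv hd) hy, mul_nonneg (mul_nonneg hd hd) hd, mul_nonneg (mul_nonneg hz hv) hv, mul_nonneg (mul_nonneg hH q2) q2, mul_nonneg hz hX, mul_nonneg hv q2, mul_nonneg hz hH1, mul_nonneg (mul_nonneg hz hv) hH, mul_nonneg (mul_nonneg hz hrho) hrho, mul_nonneg hv hH1, mul_nonneg (mul_nonneg hz hH1) hH1, mul_nonneg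 hX q2, mul_nonneg (mul_nonneg hv hH1) hy, mul_nonneg hy hX, mul_nonneg (mul_nonneg hv hd) hH1, mul_nonneg (mul_nonneg hv hrho) hrho, mul_nonneg (mul_nonneg hv hH1) hH1, mul_nonneg (mul_nonneg hz q2) q2, mul_nonneg hH1 hX, mul_nonneg (mul_nonneg hz hd) q0, mul_nonneg (mul_nonneg hz hd) hd, mul_nonneg (mul_nonneg hd hd) hH1, mul_nonneg (mul_nonneg hd hd) q2, mul_nonneg (mul_nonneg hv q0) q0, mul_nonneg hv q1])
      · replace q2 := sub_nonneg.mpr q2
        rcases le_total ((v+2*z)) (3/20) with q3 | q3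
        · replace q3 := sub_nonneg.mpr q3
          exact g_pa (by linarith) (by linarith [mul_nonneg hH1 q2, mul_nonneg (mul_nonneg hv hH1) hH1, mul_nonneg (mul_nonneg hv hd) hH1, mul_nonneg (mul_nonneg hv hH1) hy, mul_nonneg (mul_nonneg hz hz) hW, mul_nonneg hd q3, mul_nonneg (mul_nonneg hz hd) hrho, mul_nonneg hv q1, mul_nonneg hz hH1, mul_nonneg q2 q3, mul_nonneg (mul_nonneg hz hrho) hrho, mul_nonneg (mul_nonneg hv hrho) q3, mul_nonneg (mul_nonneg hd hd) hrho, mul_nonneg (mul_nonneg hz hd) q3, mul_nonneg (mul_nonneg hv hd) q0, mul_nonneg hd q2, mul_nonneg (mul_nonneg hd hd) hH1, mul_nonneg (mul_nonneg hd hd) q3, mul_nonneg (mul_nonneg hz hz) hH, mul_nonneg (mul_nonneg hd hd) hd, mul_nonneg (mul_nonneg hd hH1) q0, mul_nonneg (mul_nonneg hd hH1) hH1, mul_nonneg (mul_nonneg hv hv) hv, mul_nonneg (mul_nonneg hz hH1) hH1, mul_nonneg (mul_nonneg hv hrho) hrho, mul_nonneg hv q3, mul_nonneg (mul_nonneg hz hv) hv, mul_nonneg (mul_nonneg hv q0) q3,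 mul_nonneg (mul_nonneg hv hv) hd, mul_nonneg (mul_nonneg hz hH1) hrho])
        · replace q3 := sub_nonneg.mpr q3
          rcases le_total (9/40) ((v+2*z)) with q4 | q4
          · replace q4 := sub_nonneg.mpr q4
            exact g_pf (by linarith [mul_nonneg hH1 hH1, mul_nonneg q2 q2, mul_nonneg hz q0, mul_nonneg hH1 q4, mul_nonneg hH1 hrho, mul_nonneg hd q4, mul_nonneg hv q0, mul_nonneg hH1 q2, mul_nonneg q0 q4, mul_nonneg hy q2])
          · replace q4 := sub_nonneg.mpr q4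
            rcases le_total (((v+2*z)-H)) (1/10) with q5 | q5
            · replace q5 := sub_nonneg.mpr q5
              rcases le_total (H) (1/10) with q6 | q6
              · replace q6 := sub_nonneg.mpr q6
                exact g_pf (by linarith [mul_nonneg hd q6, mul_nonneg q2 q6, mul_nonneg hz hd, mul_nonneg q6 q6, mul_nonneg q2 q2, mul_nonneg hrho q3, mul_nonneg q2 q5, mul_nonneg hrho q6, mul_nonneg hd hd])
              · replace q6 := sub_nonneg.mpr q6
                rcases le_total ((d-(v+2*z))) ((-3/20)) with q7 | q7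
                · replace q7 := sub_nonneg.mpr q7
                  exact g_pf (by linarith [mul_nonneg hH hd, mul_nonneg hz hH1, mul_nonneg hd hrho, mul_nonneg q5 q7, mul_nonneg hH1 hH1, mul_nonneg hrho q7, mul_nonneg hd hd])
                · replace q7 := sub_nonneg.mpr q7
                  rcases le_total (v) (3/20) with q8 | q8
                  · replace q8 := sub_nonneg.mpr q8
                    rcases le_total (d) (1/20) with q9 | q9
                    · replace q9 := sub_nonneg.mpr q9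
                      rcases le_total (((v+2*z)-H)) (1/20) with q10 | q10
                      · replace q10 := sub_nonneg.mpr q10
                        rcases le_total (((v+2*z)-H)) (3/80) with q11 | q11
                        · replace q11 := sub_nonneg.mpr q11
                          exact g_pa (by linarith) (by linarith [mul_nonneg (mul_nonneg hz hd) q9, mul_nonneg (mul_nonneg q6 q8) q11, mul_nonneg (mul_nonneg hH1 q8) q8, mul_nonneg q7 q8, mul_nonneg (mul_nonneg hv hH1) q9, mul_nonneg hH1 q11, mul_nonneg (mul_nonneg hH hd) q11, mul_nonneg (mul_nonneg hz hH1) q0, mul_nonneg (mul_nonneg hd q8) q8, mul_nonneg hH1 q6, mul_nonneg (mul_nonneg q9 q9) q9, mul_nonneg (mul_nonneg hW q8) q8, mul_nonneg (mul_nonneg hz hz) q9, mul_nonneg (mul_nonneg hz q5) q11, mul_nonneg q2 q7, mul_nonneg hv q11, mul_nonneg (mul_nonneg hd hH1) q9, mul_nonneg (mul_nonneg hz hH1) hH1, mul_nonneg (mul_nonneg hv hv) q11, mul_nonneg (mul_nonneg q8 q8) q8, mul_nonneg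 hd q7, mul_nonneg hd hH1, mul_nonneg hH1 q8, mul_nonneg hH hH1, mul_nonneg (mul_nonneg hrho hrho) q3, mul_nonneg (mul_nonneg hH1 hH1) hH1, mul_nonneg q8 q8, mul_nonneg q9 q11, mul_nonneg (mul_nonneg hH1 hW) q9, mul_nonneg (mul_nonneg hrho q9) q9, mul_nonneg (mul_nonneg hv q5) q11, mul_nonneg (mul_nonneg hd q5) q8, mul_nonneg (mul_nonneg hv hv) hv, mul_nonneg (mul_nonneg hH1 hH1) hW])
                        · replace q11 := sub_nonneg.mpr q11
                          exact g_pf (by linarith [mul_nonneg hH1 hH1, mul_nonneg q2 q9, mul_nonneg hv hd, mul_nonneg q2 q7, mul_nonneg hH1 q11, mul_nonneg q8 q11, mul_nonneg q8 q9, mul_nonneg hd hd])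
                      · replace q10 := sub_nonneg.mpr q10
                        exact g_pf (by linarith [mul_nonneg hH1 hH1, mul_nonneg q2 q9, mul_nonneg hv hd, mul_nonneg q2 q7, mul_nonneg hH1 q10, mul_nonneg q8 q10, mul_nonneg q9 q9])
                    · replace q9 := sub_nonneg.mpr q9
                      exact g_pc (by linarith) (by linarith [mul_nonneg (mul_nonneg hd q4) q8, mul_nonneg (mul_nonneg hv hv) hv, mul_nonneg (mul_nonneg q5 q9) q9, mul_nonneg (mul_nonneg hH1 q6) q9, mul_nonneg (mul_nonneg q2 q2) q8, mul_nonneg (mul_nonneg hz hH1) hW, mul_nonneg (mul_nonneg q0 q4) q9, mul_nonneg q2 q2, mul_nonneg (mul_nonneg hH1 hH1) q6, mul_nonneg q2 q3, mul_nonneg (mul_nonneg hH1 q7) q7, mul_nonneg hH1 hH1, mul_nonneg (mul_nonneg hH1 hy) q9, mul_nonneg q3 q4, mul_nonneg (mul_nonneg q3 q8) q8, mul_nonneg (mul_nonneg hH1 q5) q8, mul_nonneg (mul_nonneg q8 q8) q8, mul_nonneg q7 q9, mul_nonneg (mul_nonneg hv hv) q9, mul_nonneg (mul_nonneg hd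 q8) q8, mul_nonneg (mul_nonneg hz q2) q2, mul_nonneg (mul_nonneg hH1 hrho) hrho, mul_nonneg hv hH1, mul_nonneg hH1 q5, mul_nonneg (mul_nonneg hy q8) q9, mul_nonneg (mul_nonneg hz hz) q4, mul_nonneg (mul_nonneg hv hv) hH1, mul_nonneg q4 q9, mul_nonneg q3 q8, mul_nonneg (mul_nonneg q8 q9) q9, mul_nonneg (mul_nonneg hH1 q8) q9, mul_nonneg (mul_nonneg hy q9) q9, mul_nonneg hH1 q7])
                  · replace q8 := sub_nonneg.mpr q8
                    rcases le_total (((v+2*z)-H)) (3/40) with q9 | q9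
                    · replace q9 := sub_nonneg.mpr q9
                      rcases le_total (d) (1/10) with q10 | q10
                      · replace q10 := sub_nonneg.mpr q10
                        rcases le_total ((v+2*z)) (1/5) with q11 | q11
                        · replace q11 := sub_nonneg.mpr q11
                          rcases le_total (((v+2*z)-H)) (1/20) with q12 | q12
                          · replace q12 := sub_nonneg.mpr q12
                            rcases le_total ((v+2*z)) (7/40) with q13 | q13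
                            · replace q13 := sub_nonneg.mpr q13
                              exact g_pa (by linarith) (by linarith [mul_nonneg (mul_nonneg hrho hrho) q6, mul_nonneg q7 q8, mul_nonneg (mul_nonneg hz hz) hW, mul_nonneg (mul_nonneg q5 q5) q8, mul_nonneg (mul_nonneg hz hH1) q10, mul_nonneg (mul_nonneg q5 q5) q10, mul_nonneg hz q1, mul_nonneg hz q13, mul_nonneg (mul_nonneg hz hv) q8, mul_nonneg hz hd, mul_nonneg (mul_nonneg hd hd) q10, mul_nonneg (mul_nonneg q8 q10) q10, mul_nonneg (mul_nonneg q8 q8) q8, mul_nonneg (mul_nonneg hd hd) hH1, mul_nonneg hrho q8, mul_nonneg (mul_nonneg hH q8) q8, mul_nonneg (mul_nonneg hH1 q12) q12, mul_nonneg (mul_nonneg hz hz) hd, mul_nonneg hH1 hX, mul_nonneg (mul_nonneg hd hd) q7, mul_nonneg hH1 q10, mul_nonneg q7 q10, mul_nonneg q6 q8, mul_nonneg (mul_nonneg hz hz) q6, mul_nonneg (mul_nonneg hH1 hH1) hH1, mul_nonneg (mul_nonneg q8 q8) q10, mul_nonneg hz q8, mul_nonneg hH1 hH1, mul_nonneg (mul_nonneg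 hz hrho) hrho, mul_nonneg (mul_nonneg hH1 hH1) q10, mul_nonneg (mul_nonneg hd hrho) hrho, mul_nonneg q8 q12, mul_nonneg hH1 hrho])
                            · replace q13 := sub_nonneg.mpr q13
                              exact g_pc (by linarith) (by linarith [mul_nonneg hX q12, mul_nonneg hd q7, mul_nonneg (mul_nonneg q6 q10) q10, mul_nonneg (mul_nonneg hy q8) q10, mul_nonneg (mul_nonneg hz hH) q10, mul_nonneg (mul_nonneg hz q8) q8, mul_nonneg (mul_nonneg hz hW) hrho, mul_nonneg (mul_nonneg hz q12) q12, mul_nonneg (mul_nonneg hd hH1) hy, mul_nonneg (mul_nonneg hv q12) q12, mul_nonneg (mul_nonneg hz hz) q0, mul_nonneg hH1 hX, mul_nonneg hd hH1, mul_nonneg (mul_nonneg hv hrho) q8, mul_nonneg hH1 q11, mul_nonneg (mul_nonneg hz hH) hH1, mul_nonneg (mul_nonneg hz hv) q10, mul_nonneg (mul_nonneg hH hd) hH1, mul_nonneg q10 q13, mul_nonneg (mul_nonneg hz hd) hy, mul_nonneg (mul_nonneg hz q10) q10, mul_nonneg hH hH1, mul_nonneg (mul_nonneg hH1 hH1)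 q6, mul_nonneg (mul_nonneg hd hrho) hrho, mul_nonneg (mul_nonneg hd hd) hd, mul_nonneg q11 q13, mul_nonneg (mul_nonneg hH1 q8) q8, mul_nonneg hrho q8, mul_nonneg hH1 q8, mul_nonneg (mul_nonneg q10 q10) q10, mul_nonneg hd q8, mul_nonneg hH1 q6, mul_nonneg hz q8])
                          · replace q12 := sub_nonneg.mpr q12
                            exact g_pf (by linarith [mul_nonneg q6 q6, mul_nonneg hH1 q8, mul_nonneg hz hrho, mul_nonneg hz hH1, mul_nonneg q0 q10, mul_nonneg q5 q12, mul_nonneg hrho q10, mul_nonneg hrho q8, mul_nonneg hrho q12, mul_nonneg hH1 hH1, mul_nonneg hH q10, mul_nonneg q10 q10])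
                        · replace q11 := sub_nonneg.mpr q11
                          exact g_pf (by linarith [mul_nonneg hH1 q10, mul_nonneg q0 q11, mul_nonneg hz hrho, mul_nonneg hz hH1, mul_nonneg q2 q7, mul_nonneg hH1 hrho, mul_nonneg hrho q8, mul_nonneg hH1 hH1, mul_nonneg q7 q8, mul_nonneg q10 q10])
                      · replace q10 := sub_nonneg.mpr q10
                        exact g_pc (by linarith) (by linarith [mul_nonneg (mul_nonneg hd q8) q8, mul_nonneg (mul_nonneg q6 q10) q10, mul_nonneg (mul_nonneg hH1 hy) q10, mul_nonneg (mul_nonneg hz q9) q9, mul_nonneg hv q8, mul_nonneg (mul_nonneg hrho hrho) hrho, mul_nonneg (mul_nonneg hv q5) q5, mul_nonneg hd q9, mul_nonneg (mul_nonneg hz hv) q8, mul_nonneg (mul_nonneg hv hd) q6, mul_nonneg hX q9, mul_nonneg hH1 q9, mul_nonneg (mul_nonneg hz q9) q10, mul_nonneg (mul_nonneg hH1 hH1) q6, mul_nonneg q8 q10, mul_nonneg (mul_nonneg hd hd) hy, mul_nonneg hy hX, mul_nonneg q10 q10, mul_nonneg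 hH1 hrho, mul_nonneg (mul_nonneg hH1 hH1) hy, mul_nonneg (mul_nonneg hv hv) hH1, mul_nonneg (mul_nonneg hd hrho) hrho, mul_nonneg hd hH1, mul_nonneg (mul_nonneg hz hW) hrho, mul_nonneg (mul_nonneg q2 q10) q10, mul_nonneg (mul_nonneg hH hd) hH1, mul_nonneg hrho q8, mul_nonneg (mul_nonneg hW q8) q8, mul_nonneg (mul_nonneg hz hH) hH1, mul_nonneg hz q1, mul_nonneg (mul_nonneg hz hz) q4, mul_nonneg q9 q10])
                    · replace q9 := sub_nonneg.mpr q9
                      exact g_pf (by linarith [mul_nonneg hH1 q2, mul_nonneg hd hH1, mul_nonneg hd q9, mul_nonneg q7 q8, mul_nonneg hy q2, mul_nonneg hz q4, mul_nonneg hy q8, mul_nonneg q6 q8, mul_nonneg hH1 hy, mul_nonneg hH1 hH1, mul_nonneg hz hrho, mul_nonneg q2 q2])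
            · replace q5 := sub_nonneg.mpr q5
              exact g_pf (by linarith [mul_nonneg hd q5, mul_nonneg hH1 q5, mul_nonneg hv hH, mul_nonneg hH1 q2, mul_nonneg q0 q5, mul_nonneg hz hz, mul_nonneg hH1 hrho, mul_nonneg hv hy, mul_nonneg hrho q2, mul_nonneg q2 q2, mul_nonneg hd hd])

end Pool.Agent.E809.A0
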