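import Mathlib
import Pool.Agent.Helper390.E809A0T1
import Pool.Agent.Helper390.E809A0T2
import Pool.Agent.Helper390.E809A0T3
import Pool.Agent.Helper390.E809A0T4

/-! Assembly of the exact inequality behind `lemmaA0` (MP_d36a1d_co). -/

set_option autoImplicit false

namespace Pool.Agent.E809.A0

/-- Duality step in the case `r ≤ D`. -/
theorem leaf3 {H q W D r h k τ : ℝ} (hH : 0 < H) (hq : 0 < q) (hr : 0 < r)
    (hτ : 0 ≤ τ) (hrD : r ≤ D) (hk0 : 0 ≤ k)
    (hk : W - τ * q ≤ H * k) (m : 0 ≤ (D - r) * W - H * h * (D + r))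
    (p : 0 ≤ H * W - r * h * q) :
    (D + r) * (r * h - H * τ) ≤ k * r * (D - r) := by
  have hDr : 0 ≤ D - r := sub_nonneg.2 hrD
  have hD : 0 < D := lt_of_lt_of_le hr hrD
  have hRHS : 0 ≤ k * r * (D - r) := mul_nonneg (mul_nonneg hk0 hr.le) hDr
  rcases le_or_gt (r * h) (H * τ) with hc | hc
  · have : (D + r) * (r * h - H * τ) ≤ 0 :=
      mul_nonpos_of_nonneg_of_nonpos (by linarith) (by linarith)
    linarith
  · have h1 : 0 < r * h := lt_of_le_of_lt (mul_nonneg hH.le hτ) hc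
    have h2 : 0 < H * W := by
      have := mul_pos h1 hq
      linarith
    have hW : 0 < W := by
      by_contra hneg
      have := mul_nonpos_of_nonneg_of_nonpos hH.le (not_lt.1 hneg)
      linarith
    have h3 : 0 ≤ W - τ * q := by
      have h4 : 0 ≤ H * (W - τ * q) := by
        have h5 := mul_nonneg (sub_nonneg.2 hc.le) hq.le
        nlinarith
      by_contra hneg
      have := mul_neg_of_pos_of_neg hH (not_le.1 hneg)
      linarith
    have key : W * H * (k * r * (D - r) - (D + r) * (r * h - H * τ)) =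
        W * r * (D - r) * (H * k - (W - τ * q)) + (W - τ * q) * r * ((D - r) * W - H * h * (D + r))
          + τ * H * (D + r) * (H * W - r * h * q) := by ring
    have h6 : 0 ≤ W * r * (D - r) * (H * k - (W - τ * q)) +
        (W - τ * q) * r * ((D - r) * W - H * h * (D + r))
          + τ * H * (D + r) * (H * W - r * h * q) := by
      have a1 : 0 ≤ W * r * (D - r) * (H * k - (W - τ * q)) :=
        mul_nonneg (mul_nonneg (mul_nonneg hW.le hr.le) hDr) (sub_nonneg.2 hk)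
      have a2 : 0 ≤ (W - τ * q) * r * ((D - r) * W - H * h * (D + r)) :=
        mul_nonneg (mul_nonneg h3 hr.le) m
      have a3 : 0 ≤ τ * H * (D + r) * (H * W - r * h * q) :=
        mul_nonneg (mul_nonneg (mul_nonneg hτ hH.le) (by linarith)) p
      linarith
    rw [← key] at h6
    by_contra hneg
    have := mul_neg_of_pos_of_neg (mul_pos hW hH)
      (show k * r * (D - r) - (D + r) * (r * h - H * τ) < 0 by linarith)
    linarith

/-- The case `r ≤ D`, from the duality inequality. -/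
theorem final1 {H D r k τ y : ℝ} (hH : 0 ≤ H) (hr : 0 < r) (hτ : 0 ≤ τ) (hrD : r ≤ D)
    (hk0 : 0 ≤ k) (hy : 0 ≤ y)
    (hm : (D + r) * (r * (H - y) - H * τ) ≤ k * r * (D - r)) :
    (k - 2 * k * (D / (D + r))) + (H - 2 * H * (τ / (τ + r))) - y ≤ 0 := by
  have hD : 0 < D := lt_of_lt_of_le hr hrD
  have hDr : 0 < D + r := by linarith
  have hτr : 0 < τ + r := by linarith
  have e1 : k - 2 * k * (D / (D + r)) = - (k * (D - r) / (D + r)) := by
    field_simp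
    ring
  have e2 : H - 2 * H * (τ / (τ + r)) = H * (r - τ) / (τ + r) := by
    field_simp
    ring
  rw [e1, e2]
  have hA : 0 ≤ k * (D - r) / (D + r) :=
    div_nonneg (mul_nonneg hk0 (sub_nonneg.2 hrD)) hDr.le
  rcases le_or_gt r τ with hc | hc
  · have : H * (r - τ) / (τ + r) ≤ 0 :=
      div_nonpos_of_nonpos_of_nonneg
        (mul_nonpos_of_nonneg_of_nonpos hH (by linarith)) hτr.le
    linarith
  · have h1 : H * (r - τ) / (τ + r) ≤ H * (r - τ) / r := by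
      apply div_le_div_of_nonneg_left (mul_nonneg hH (by linarith)) hr (by linarith)
    have h2 : H * (r - τ) / r ≤ k * (D - r) / (D + r) + y := by
      rw [div_add' _ _ _ hDr.ne', div_le_div_iff₀ hr hDr]
      nlinarith
    linarith

/-- The case `r = D + d ≥ D`, from the chord inequality. -/
theorem final2 {H D d k φ y : ℝ} (hH : 0 ≤ H) (hD : 0 < D) (hd : 0 ≤ d) (hφ : 0 ≤ φ)
    (hφD : φ ≤ D) (hm : k * d + H * (d + 2 * φ) ≤ y * (2 * D + d)) :
    (k - 2 * k * (D / (D + (D + d)))) + (H - 2 * H * ((D - φ) / ((D - φ) + (D + d)))) - y ≤ 0 := by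
  have h2 : 0 < 2 * D + d := by linarith
  have h3 : 0 < (D - φ) + (D + d) := by linarith
  have h4 : 0 < D + (D + d) := by linarith
  have e1 : k - 2 * k * (D / (D + (D + d))) = k * d / (2 * D + d) := by
    have : D + (D + d) = 2 * D + d := by ring
    rw [this]
    field_simp
    ring
  have e2 : H - 2 * H * ((D - φ) / ((D - φ) + (D + d))) = H * (d + φ) / ((D - φ) + (D + d)) := by
    field_simp
    ring
  rw [e1, e2]
  have h5 : H * (d + φ) / ((D - φ) + (D + d)) ≤ H * (d + 2 * φ) / (2 * D + d) := by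
    rw [div_le_div_iff₀ h3 h2]
    have : 0 ≤ H * (2 * φ * (D - φ)) :=
      mul_nonneg hH (mul_nonneg (by linarith) (by linarith))
    nlinarith
  have h6 : k * d / (2 * D + d) + H * (d + 2 * φ) / (2 * D + d) ≤ y := by
    rw [← add_div, div_le_iff₀ h2]
    exact hm
  linarith

section leaves2

variable {H D d k φ y ρ Nr zB z : ℝ}

theorem leaf_pa (hd : 0 ≤ d) (hH : 0 ≤ H) (hk1 : k ≤ y - d + zB) (hz0 : 0 ≤ zB)
    (hcost : H * zB + ρ * φ ≤ Nr) (hρ : 0 < ρ) (hs : 0 ≤ 2 * H ^ 2 - d * ρ)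
    (hp : 0 ≤ 2 * y * D * ρ - (H - d) * d * ρ - 2 * H * Nr) :
    k * d + H * (d + 2 * φ) ≤ y * (2 * D + d) := by
  have h1 := mul_nonneg (mul_nonneg hρ.le hd) (sub_nonneg.2 hk1)
  have h2 := mul_nonneg hH (sub_nonneg.2 hcost)
  have h3 := mul_nonneg hz0 hs
  have h4 : 0 ≤ ρ * (y * (2 * D + d) - (k * d + H * (d + 2 * φ))) := by nlinarith
  by_contra hneg
  have := mul_neg_of_pos_of_neg hρ
    (show y * (2 * D + d) - (k * d + H * (d + 2 * φ)) < 0 by linarith)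
  linarith

theorem leaf_pap (hd : 0 ≤ d) (hH : 0 ≤ H) (hk0 : 0 ≤ k) (hk1 : k ≤ y - d + zB)
    (hcost : H * zB + ρ * φ ≤ Nr) (hρ : 0 < ρ) (hs : 0 ≤ 2 * H ^ 2 - d * ρ)
    (hp : 0 ≤ 2 * y * D * ρ - (H - d) * d * ρ - 2 * H * Nr + (2 * H ^ 2 - d * ρ) * (d - y)) :
    k * d + H * (d + 2 * φ) ≤ y * (2 * D + d) := by
  have h1 := mul_nonneg (mul_nonneg hρ.le hd) (sub_nonneg.2 hk1)
  have h2 := mul_nonneg hH (sub_nonneg.2 hcost)
  have h3 : 0 ≤ (zB - (d - y)) * (2 * H ^ 2 - d * ρ) := mul_nonneg (by linarith) hs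
  have h4 : 0 ≤ ρ * (y * (2 * D + d) - (k * d + H * (d + 2 * φ))) := by nlinarith
  by_contra hneg
  have := mul_neg_of_pos_of_neg hρ
    (show y * (2 * D + d) - (k * d + H * (d + 2 * φ)) < 0 by linarith)
  linarith

theorem leaf_pb (hd : 0 ≤ d) (hH : 0 < H) (hφ : 0 ≤ φ) (hk1 : k ≤ y - d + zB)
    (hcost : H * zB + ρ * φ ≤ Nr) (hs : 0 ≤ -(2 * H ^ 2 - d * ρ))
    (hp : 0 ≤ 2 * y * D * H - H * (H - d) * d - d * Nr) :
    k * d + H * (d + 2 * φ) ≤ y * (2 * D + d) := by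
  have h1 := mul_nonneg (mul_nonneg hH.le hd) (sub_nonneg.2 hk1)
  have h2 := mul_nonneg hd (sub_nonneg.2 hcost)
  have h3 := mul_nonneg hφ hs
  have h4 : 0 ≤ H * (y * (2 * D + d) - (k * d + H * (d + 2 * φ))) := by nlinarith
  by_contra hneg
  have := mul_neg_of_pos_of_neg hH
    (show y * (2 * D + d) - (k * d + H * (d + 2 * φ)) < 0 by linarith)
  linarith

theorem leaf_pc (hd : 0 ≤ d) (hH : 0 < H) (hφD : φ ≤ D) (hk1 : k ≤ y - d + zB)
    (hcost : H * zB + ρ * φ ≤ Nr) (hs : 0 ≤ 2 * H ^ 2 - d * ρ)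
    (hp : 0 ≤ 2 * y * D * H - (H - d) * d * H - d * Nr - D * (2 * H ^ 2 - d * ρ)) :
    k * d + H * (d + 2 * φ) ≤ y * (2 * D + d) := by
  have h1 := mul_nonneg (mul_nonneg hH.le hd) (sub_nonneg.2 hk1)
  have h2 := mul_nonneg hd (sub_nonneg.2 hcost)
  have h3 := mul_nonneg (sub_nonneg.2 hφD) hs
  have h4 : 0 ≤ H * (y * (2 * D + d) - (k * d + H * (d + 2 * φ))) := by nlinarith
  by_contra hneg
  have := mul_neg_of_pos_of_neg hH
    (show y * (2 * D + d) - (k * d + H * (d + 2 * φ)) < 0 by linarith)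
  linarith

theorem leaf_pd (hd : 0 ≤ d) (hH : 0 ≤ H) (hk1 : k ≤ y - d + zB) (hz0 : 0 ≤ zB)
    (hz1 : zB ≤ 1 / 4 - z) (hcost : H * zB + ρ * φ ≤ Nr) (hρ : 0 < ρ)
    (hp : 0 ≤ 2 * y * D * ρ - (H - d + (1 / 4 - z)) * d * ρ - 2 * H * Nr) :
    k * d + H * (d + 2 * φ) ≤ y * (2 * D + d) := by
  have h1 := mul_nonneg (mul_nonneg hρ.le hd) (sub_nonneg.2 hk1)
  have h2 := mul_nonneg hH (sub_nonneg.2 hcost)
  have h3 := mul_nonneg (mul_nonneg hH hH) hz0
  have h5 := mul_nonneg (mul_nonneg hρ.le hd) (sub_nonneg.2 hz1)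
  have h4 : 0 ≤ ρ * (y * (2 * D + d) - (k * d + H * (d + 2 * φ))) := by nlinarith
  by_contra hneg
  have := mul_neg_of_pos_of_neg hρ
    (show y * (2 * D + d) - (k * d + H * (d + 2 * φ)) < 0 by linarith)
  linarith

theorem leaf_pe (hd : 0 ≤ d) (hH : 0 ≤ H) (hφD : φ ≤ D) (hk1 : k ≤ y - d + zB)
    (hz1 : zB ≤ 1 / 4 - z)
    (hp : 0 ≤ 2 * (y - H) * D - (H - d + (1 / 4 - z)) * d) :
    k * d + H * (d + 2 * φ) ≤ y * (2 * D + d) := by
  have h1 := mul_nonneg hd (sub_nonneg.2 hk1)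
  have h2 := mul_nonneg hH (sub_nonneg.2 hφD)
  have h3 := mul_nonneg hd (sub_nonneg.2 hz1)
  nlinarith

theorem leaf_pf (hd : 0 ≤ d) (hH : 0 ≤ H) (hφD : φ ≤ D) (hk2 : k ≤ D)
    (hp : 0 ≤ 2 * (y - H) * D - (H + D - y) * d) :
    k * d + H * (d + 2 * φ) ≤ y * (2 * D + d) := by
  have h1 := mul_nonneg hd (sub_nonneg.2 hk2)
  have h2 := mul_nonneg hH (sub_nonneg.2 hφD)
  nlinarith

end leaves2

end Pool.Agent.E809.A0
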