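import Mathlib
import Pool.Agent.Helper390.E809A0Core

/-! The four cases of the exact inequality behind `lemmaA0` (MP_d36a1d_co). -/

set_option autoImplicit false
set_option maxHeartbeats 4000000

namespace Pool.Agent.E809.A0

theorem case1p {u y h r k τ zB : ℝ} (hu : 0 ≤ u) (hy : 0 ≤ y) (hh : 0 ≤ h) (hr : 0 < r)
    (hH : y + h ≤ 3 / 20) (hz : u + y ≤ 1 / 2) (hHp : 0 < y + h)
    (hrD : r ≤ (1/2 - 3/2*y - h + u/2)) (hk0 : 0 ≤ k) (hτ : 0 ≤ τ) (hzB0 : 0 ≤ zB)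
    (h1 : (1/2 - 3/2*y - h + u/2) - τ - k ≤ zB) (h3 : zB ≤ 1/4 - (y+u)/2)
    (hc : (y+h) * zB + ((1/2 - 3/2*y - h + u/2) - τ) * (u + r) + r * u
      ≤ (y+u)/2 * (1 - 2 * (y+h))) :
    ((1/2 - 3/2*y - h + u/2) + r) * (r * h - (y+h) * τ)
      ≤ k * r * ((1/2 - 3/2*y - h + u/2) - r) := by
  have hHz := mul_nonneg hHp.le (sub_nonneg.2 h1)
  refine tree_c1p u y h r _ hu hy hh hr.le (by linarith) (by linarith) (by linarith) ?_ ?_ ?_
  · intro m p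
    refine leaf3 (H := y + h) (q := (y+h)+(u+r))
      (W := (h*(1/2 - 3/2*y - h + u/2) + r*((1/2 - 3/2*y - h + u/2)+u) + (u^2-y^2)/2))
      hHp (by linarith) hr hτ hrD hk0 ?_ m p
    nlinarith
  · intro m p
    refine leaf3 (H := y + h) (q := (y+h)) (W := (y+h) * (1/4 - (y+h) + u))
      hHp hHp hr hτ hrD hk0 ?_ ?_ ?_
    · have := mul_nonneg hHp.le (show (0:ℝ) ≤ k - ((1/4 - (y+h) + u) - τ) by linarith)
      nlinarith
    · have := mul_nonneg hHp.le m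
      nlinarith
    · have := mul_nonneg hHp.le p
      nlinarith
  · intro p
    have hρ : 0 < r + u := by linarith
    have h5 : 0 ≤ (y+h) * τ - r * h := by
      have h6 : 0 ≤ (y+h) * ((y+u)/2 * (1 - 2 * (y+h)) -
          (((1/2 - 3/2*y - h + u/2) - τ) * (u + r) + r * u)) :=
        mul_nonneg hHp.le (by have := mul_nonneg hHp.le hzB0; linarith)
      have h7 : 0 ≤ (r + u) * ((y+h) * τ - r * h) := by nlinarith
      by_contra hneg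
      have := mul_neg_of_pos_of_neg hρ (not_le.1 hneg)
      linarith
    have h8 : ((1/2 - 3/2*y - h + u/2) + r) * (r * h - (y+h) * τ) ≤ 0 :=
      mul_nonpos_of_nonneg_of_nonpos (by linarith) (by linarith)
    have h9 : 0 ≤ k * r * ((1/2 - 3/2*y - h + u/2) - r) :=
      mul_nonneg (mul_nonneg hk0 hr.le) (by linarith)
    linarith

theorem case1mA {z v h r k τ zB : ℝ} (hz : 0 ≤ z) (hv : 0 ≤ v) (hh : 0 ≤ h) (hr : 0 < r)
    (hH : v + 2 * z + h ≤ 3 / 20) (hHp : 0 < v + 2 * z + h) (hrv : r ≤ v)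
    (hrD : r ≤ (1/2-3*z-2*v-h)) (hk0 : 0 ≤ k) (hτ : 0 ≤ τ)
    (h1 : (1/2-3*z-2*v-h) - τ - k ≤ zB) (h3 : zB ≤ 1/4 - z)
    (hc : (v+2*z+h) * zB ≤ z * (1 - 2 * (v+2*z+h))) :
    ((1/2-3*z-2*v-h) + r) * (r * h - (v+2*z+h) * τ)
      ≤ k * r * ((1/2-3*z-2*v-h) - r) := by
  have hHz := mul_nonneg hHp.le (sub_nonneg.2 h1)
  refine tree_c1mA z v h r _ hz hv hh hr.le (by linarith) (by linarith) (by linarith) ?_ ?_
  · intro m p
    refine leaf3 (H := v+2*z+h) (q := v+2*z+h)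
      (W := ((v+2*z+h)*(1/2-3*z-2*v-h)-(z*(1-2*(v+2*z+h)))))
      hHp hHp hr hτ hrD hk0 ?_ m ?_
    · nlinarith
    · have := mul_nonneg hHp.le p
      nlinarith
  · intro m p
    refine leaf3 (H := v+2*z+h) (q := v+2*z+h) (W := (v+2*z+h) * (1/4-2*z-2*v-h))
      hHp hHp hr hτ hrD hk0 ?_ ?_ ?_
    · have := mul_nonneg hHp.le (show (0:ℝ) ≤ k - ((1/4-2*z-2*v-h) - τ) by linarith)
      nlinarith
    · have := mul_nonneg hHp.le m
      nlinarith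
    · have := mul_nonneg hHp.le p
      nlinarith

theorem case1mB {z v h r k τ zB : ℝ} (hz : 0 ≤ z) (hv : 0 ≤ v) (hh : 0 ≤ h) (hr : 0 < r)
    (hH : v + 2 * z + h ≤ 3 / 20) (hHp : 0 < v + 2 * z + h) (hrv : v ≤ r)
    (hrD : r ≤ (1/2-3*z-2*v-h)) (hk0 : 0 ≤ k) (hτ : 0 ≤ τ) (hzB0 : 0 ≤ zB)
    (h1 : (1/2-3*z-2*v-h) - τ - k ≤ zB) (h3 : zB ≤ 1/4 - z)
    (hc : (v+2*z+h) * zB + ((1/2-3*z-2*v-h) - τ) * (r - v) ≤ z * (1 - 2 * (v+2*z+h))) :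
    ((1/2-3*z-2*v-h) + r) * (r * h - (v+2*z+h) * τ)
      ≤ k * r * ((1/2-3*z-2*v-h) - r) := by
  have hHz := mul_nonneg hHp.le (sub_nonneg.2 h1)
  refine tree_c1mB z v h r _ hz hv hh hr.le (by linarith) (by linarith) (by linarith) ?_ ?_ ?_
  · intro m p
    refine leaf3 (H := v+2*z+h) (q := v+2*z+h) (W := (v+2*z+h) * (1/4-2*z-2*v-h))
      hHp hHp hr hτ hrD hk0 ?_ ?_ ?_
    · have := mul_nonneg hHp.le (show (0:ℝ) ≤ k - ((1/4-2*z-2*v-h) - τ) by linarith)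
      nlinarith
    · have := mul_nonneg hHp.le m
      nlinarith
    · have := mul_nonneg hHp.le p
      nlinarith
  · intro m p
    refine leaf3 (H := v+2*z+h) (q := (v+2*z+h)+(r-v))
      (W := ((v+2*z+h)*(1/2-3*z-2*v-h)-(z*(1-2*(v+2*z+h)))+(1/2-3*z-2*v-h)*(r-v)))
      hHp (by linarith) hr hτ hrD hk0 ?_ m p
    nlinarith
  · intro hr6 p
    have hρ : 0 < r - v := by linarith
    have h5 : 0 ≤ (v+2*z+h) * τ - r * h := by
      have h6 : 0 ≤ (v+2*z+h) * (z * (1 - 2 * (v+2*z+h)) -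
          ((1/2-3*z-2*v-h) - τ) * (r - v)) :=
        mul_nonneg hHp.le (by have := mul_nonneg hHp.le hzB0; linarith)
      have h7 : 0 ≤ (r - v) * ((v+2*z+h) * τ - r * h) := by nlinarith
      by_contra hneg
      have := mul_neg_of_pos_of_neg hρ (not_le.1 hneg)
      linarith
    have h8 : ((1/2-3*z-2*v-h) + r) * (r * h - (v+2*z+h) * τ) ≤ 0 :=
      mul_nonpos_of_nonneg_of_nonpos (by linarith) (by linarith)
    have h9 : 0 ≤ k * r * ((1/2-3*z-2*v-h) - r) :=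
      mul_nonneg (mul_nonneg hk0 hr.le) (by linarith)
    linarith

theorem case2p {u y H d k φ zB : ℝ} (hu : 0 ≤ u) (hy : 0 ≤ y) (hH : 0 < H) (hH1 : H ≤ 3/20)
    (hd : 0 ≤ d) (hz : u + y ≤ 1/2) (hW : d + u ≤ H + y)
    (hk0 : 0 ≤ k) (hk1 : k ≤ y - d + zB) (hk2 : k ≤ (1/2-H-y/2+u/2))
    (hφ : 0 ≤ φ) (hφD : φ ≤ (1/2-H-y/2+u/2)) (hzB0 : 0 ≤ zB) (hzB1 : zB ≤ 1/4 - ((y+u)/2))
    (hc : H * zB + ((1/2-H-y/2+u/2)+d+u) * φ
      ≤ (((y+u)/2)*(1-2*H)-((1/2-H-y/2+u/2)+d)*u)) :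
    k * d + H * (d + 2 * φ) ≤ y * (2 * (1/2-H-y/2+u/2) + d) := by
  have hρ : 0 < ((1/2-H-y/2+u/2)+d+u) := by linarith
  have hHz := mul_nonneg hH.le hzB0
  have hρφ := mul_nonneg hρ.le hφ
  have hX := mul_nonneg hH.le (show (0:ℝ) ≤ zB - (d - y) by linarith)
  refine tree_c2p u y H d _ hu hy hH.le hd (by linarith) (by linarith) (by linarith)
    (by linarith) (by linarith) ?_ ?_ ?_ ?_ ?_ ?_
  · exact fun a b => leaf_pa hd hH.le hk1 hzB0 hc hρ a b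
  · exact fun a _ b => leaf_pap hd hH.le hk0 hk1 hc hρ a b
  · exact fun a b => leaf_pb hd hH hφ hk1 hc a b
  · exact fun a => leaf_pd hd hH.le hk1 hzB0 hzB1 hc hρ a
  · exact fun a => leaf_pe hd hH.le hφD hk1 hzB1 a
  · exact fun a => leaf_pf hd hH.le hφD hk2 a

theorem case2m {z v H d k φ zB : ℝ} (hz : 0 ≤ z) (hv : 0 ≤ v) (hH : 0 < H) (hH1 : H ≤ 3/20)
    (hd : 0 ≤ d) (hy : z + v ≤ 1/4) (hW : d ≤ H + 2 * v + 2 * z)
    (hk0 : 0 ≤ k) (hk1 : k ≤ (v+2*z) - d + zB) (hk2 : k ≤ (1/2-H-z-v))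
    (hφ : 0 ≤ φ) (hφD : φ ≤ (1/2-H-z-v)) (hzB0 : 0 ≤ zB) (hzB1 : zB ≤ 1/4 - z)
    (hcz : H * zB ≤ z * (1-2*H))
    (hc : H * zB + ((1/2-H-z-v)+d-v) * φ ≤ (z*(1-2*H))) :
    k * d + H * (d + 2 * φ) ≤ (v+2*z) * (2 * (1/2-H-z-v) + d) := by
  have hHz := mul_nonneg hH.le hzB0
  have hX := mul_nonneg hH.le (show (0:ℝ) ≤ zB - (d - (v+2*z)) by linarith)
  rcases le_or_gt ((1/2-H-z-v)+d-v) 0 with hρ | hρ
  · refine tree_c2m0 z v H d _ hz hv hH.le hd (by linarith) (by linarith) (by linarith)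
      (by linarith) (by linarith) ?_
    exact fun a => leaf_pf hd hH.le hφD hk2 a
  · refine tree_c2m z v H d _ hz hv hH.le hd (by linarith) (by linarith) (by linarith)
      (by linarith) (by linarith) ?_ ?_ ?_ ?_ ?_ ?_ ?_
    · exact fun a b => leaf_pa hd hH.le hk1 hzB0 hc hρ a b
    · exact fun a _ b => leaf_pap hd hH.le hk0 hk1 hc hρ a b
    · exact fun a b => leaf_pb hd hH hφ hk1 hc a b
    · exact fun a b => leaf_pc hd hH hφD hk1 hc a b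
    · exact fun a => leaf_pd hd hH.le hk1 hzB0 hzB1 hc hρ a
    · exact fun a => leaf_pe hd hH.le hφD hk1 hzB1 a
    · exact fun a => leaf_pf hd hH.le hφD hk2 a

end Pool.Agent.E809.A0
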