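import Mathlib
import Pool.Agent.Helper390.E809A0Cases

/-! The exact inequality `lemmaA0` (MP_d36a1d_co) in terms of the totals. -/

set_option autoImplicit false
set_option maxHeartbeats 4000000

namespace Pool.Agent.E809.A0

theorem core {z y H k φ r zB : ℝ} (hz : 0 ≤ z) (hz4 : z ≤ 1/4) (hH : 0 < H) (hH1 : H ≤ 3/20)
    (hy : 0 ≤ y) (hy1 : y ≤ 1/4 + z) (hk0 : 0 ≤ k) (hkD : k ≤ 1/2+z-y-H) (hφ : 0 ≤ φ)
    (hφD : φ ≤ 1/2+z-y-H) (hr : 0 ≤ r) (hzB0 : 0 ≤ zB) (h1 : φ - k ≤ zB)
    (h2 : r - (1/2+z-y-H) - y + k ≤ zB) (h3 : zB ≤ 1/4 - z)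
    (h4 : r + (1/2+z-y-H) ≤ 1 - H)
    (hc : H*zB + φ * max 0 (2*z-y+r) + r * max 0 (2*z-y) ≤ z*(1-2*H)) :
    (k - 2*k*((1/2+z-y-H)/((1/2+z-y-H)+r))) +
      (H - 2*H*(((1/2+z-y-H)-φ)/(((1/2+z-y-H)-φ)+r))) - y ≤ 0 := by
  have hHz := mul_nonneg hH.le hzB0
  have hD : 0 < 1/2+z-y-H := by linarith
  have hcz : H * zB ≤ z*(1-2*H) := by
    have := mul_nonneg hφ (le_max_left 0 (2*z-y+r))
    have := mul_nonneg hr (le_max_left 0 (2*z-y))
    linarith
  rcases hr.eq_or_lt with hr0 | hr0
  · subst hr0
    have e1 : (1/2+z-y-H)/((1/2+z-y-H)+0) = 1 := by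
      rw [add_zero]; exact div_self hD.ne'
    rw [e1]
    rcases hφD.lt_or_eq with hφ1 | hφ1
    · have e2 : ((1/2+z-y-H)-φ)/(((1/2+z-y-H)-φ)+0) = 1 := by
        rw [add_zero]; exact div_self (by linarith)
      rw [e2]
      linarith
    · have e2 : ((1/2+z-y-H)-φ)/(((1/2+z-y-H)-φ)+0) = 0 := by
        rw [← hφ1]; simp
      rw [e2]
      rcases le_or_gt H y with hHy | hHy
      · linarith
      have goal : 0 ≤ k - (H - y) := by
        have hHk := mul_nonneg hH.le (sub_nonneg.2 h1)
        rcases le_or_gt 0 (2*z-y) with hu | hu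
        · rw [max_eq_right (by linarith : (0:ℝ) ≤ 2*z-y+0)] at hc
          rw [hφ1] at hc hHk h1
          rw [zero_mul] at hc
          refine tree_c0p (2*z-y) y (H-y) _ hu hy (by linarith) (by linarith) (by linarith) ?_ ?_
          · intro m
            have h5 : 0 ≤ H * (k - (H - y)) := by nlinarith
            by_contra hneg
            have := mul_neg_of_pos_of_neg hH (not_le.1 hneg)
            linarith
          · intro m
            linarith
        · rw [hφ1] at hHk h1
          refine tree_c0m z (y-2*z) (H-y) _ hz (by linarith) (by linarith) (by linarith) ?_ ?_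
          · intro m
            have h5 : 0 ≤ H * (k - (H - y)) := by nlinarith
            by_contra hneg
            have := mul_neg_of_pos_of_neg hH (not_le.1 hneg)
            linarith
          · intro m
            linarith
      linarith
  · rcases le_total r (1/2+z-y-H) with hrD | hrD
    · -- case 1
      refine final1 hH.le hr0 (by linarith) hrD hk0 hy ?_
      rcases le_or_gt H y with hHy | hHy
      · have h8 : ((1/2+z-y-H) + r) * (r * (H-y) - H*((1/2+z-y-H)-φ)) ≤ 0 := by
          apply mul_nonpos_of_nonneg_of_nonpos (by linarith)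
          have := mul_nonneg hr0.le (show (0:ℝ) ≤ y - H by linarith)
          have := mul_nonneg hH.le (show (0:ℝ) ≤ (1/2+z-y-H)-φ by linarith)
          linarith
        have h9 : 0 ≤ k * r * ((1/2+z-y-H) - r) :=
          mul_nonneg (mul_nonneg hk0 hr0.le) (by linarith)
        linarith
      rcases le_or_gt 0 (2*z-y) with hu | hu
      · rw [max_eq_right (by linarith : (0:ℝ) ≤ 2*z-y+r), max_eq_right hu] at hc
        have e1 : (1/2 - 3/2*y - (H-y) + (2*z-y)/2) = 1/2+z-y-H := by ring
        have e2 : y + (H - y) = H := by ring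
        have e3 : (y + (2*z-y))/2 = z := by ring
        have := @case1p (2*z-y) y (H-y) r k ((1/2+z-y-H)-φ) zB hu hy (by linarith) hr0
          (by linarith) (by linarith) (by linarith) (by linarith) hk0 (by linarith) hzB0
          (by linarith) (by linarith)
          (by rw [e1, e2, e3]; nlinarith)
        rw [e1, e2] at this
        exact this
      · have e1 : (1/2-3*z-2*(y-2*z)-(H-y)) = 1/2+z-y-H := by ring
        have e2 : (y-2*z) + 2*z + (H - y) = H := by ring
        rcases le_total r (y-2*z) with hrv | hrv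
        · have := @case1mA z (y-2*z) (H-y) r k ((1/2+z-y-H)-φ) zB hz (by linarith) (by linarith)
            hr0 (by linarith) (by linarith) hrv (by linarith) hk0 (by linarith)
            (by linarith) h3 (by rw [e2]; exact hcz)
          rw [e1, e2] at this
          exact this
        · have := @case1mB z (y-2*z) (H-y) r k ((1/2+z-y-H)-φ) zB hz (by linarith) (by linarith)
            hr0 (by linarith) (by linarith) hrv (by linarith) hk0 (by linarith) hzB0
            (by linarith) h3 (by
              rw [e1, e2]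
              have := mul_nonneg hφ (sub_nonneg.2 (le_max_right 0 (2*z-y+r)))
              have := mul_nonneg hr (le_max_left 0 (2*z-y))
              nlinarith)
          rw [e1, e2] at this
          exact this
    · -- case 2
      obtain ⟨d, rfl⟩ : ∃ d, r = (1/2+z-y-H) + d := ⟨r - (1/2+z-y-H), by ring⟩
      have hd : 0 ≤ d := by linarith
      refine final2 hH.le hD hd hφ hφD ?_
      rcases le_or_gt 0 (2*z-y) with hu | hu
      · rw [max_eq_right (by linarith : (0:ℝ) ≤ 2*z-y+((1/2+z-y-H) + d)), max_eq_right hu] at hc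
        have e1 : (1/2-H-y/2+(2*z-y)/2) = 1/2+z-y-H := by ring
        have e3 : (y + (2*z-y))/2 = z := by ring
        have := @case2p (2*z-y) y H d k φ zB hu hy hH hH1 hd (by linarith) (by linarith) hk0
          (by linarith) (by linarith) hφ (by linarith) hzB0 (by linarith)
          (by rw [e1, e3]; nlinarith)
        rw [e1] at this
        exact this
      · have e1 : (1/2-H-z-(y-2*z)) = 1/2+z-y-H := by ring
        have e2 : (y-2*z) + 2*z = y := by ring
        have := @case2m z (y-2*z) H d k φ zB hz (by linarith) hH hH1 hd (by linarith)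
          (by linarith) hk0 (by linarith) (by linarith) hφ (by linarith) hzB0 h3 hcz
          (by
            rw [e1]
            have := mul_nonneg hφ (sub_nonneg.2 (le_max_right 0 (2*z-y+((1/2+z-y-H) + d))))
            have := mul_nonneg hr (le_max_left 0 (2*z-y))
            nlinarith)
        rw [e1, e2] at this
        exact this

/-- The case `H = 0`. -/
theorem coreH0 {z f y k s r : ℝ} (hz : 0 ≤ z) (hf : 0 ≤ f) (hf1 : f ≤ 1)
    (hy : 0 ≤ y) (hy1 : y ≤ 1/4 + z) (hk0 : 0 ≤ k) (hs0 : 0 ≤ s) (hr : 0 ≤ r)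
    (hks : k + s = 1/2 + z - y) (hrf : r + (k + s) ≤ 1 - f) (hD : 0 < k + s) :
    (k - 2*k*((k+s)/((k+s)+r))) - y ≤ 0 := by
  have hDr : 0 < (k + s) + r := by linarith
  have e1 : k - 2*k*((k+s)/((k+s)+r)) = k * (r - (k+s)) / ((k+s)+r) := by
    field_simp
    ring
  rw [e1]
  have h1 : k * (r - (k+s)) / ((k+s)+r) ≤ y := by
    rw [div_le_iff₀ hDr]
    rcases le_total r (k+s) with h | h
    · have h2 : k * (r - (k+s)) ≤ 0 := mul_nonpos_of_nonneg_of_nonpos hk0 (by linarith)
      have h3 : 0 ≤ y * ((k+s)+r) := mul_nonneg hy hDr.le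
      linarith
    · have h2 : k * (r - (k+s)) ≤ (k+s) * (r - (k+s)) :=
        mul_le_mul_of_nonneg_right (by linarith) (by linarith)
      have h3 : (k+s) * (r - (k+s)) ≤ y * ((k+s)+r) := by
        -- with D = k+s, (D - y) r ≤ D^2 + D y ; r ≤ 1 - f - D
        rcases le_total (k+s) y with h4 | h4
        · have := mul_nonneg (sub_nonneg.2 h4) hr
          have := mul_nonneg hD.le hD.le
          have := mul_nonneg hy hD.le
          nlinarith
        · have h5 := mul_nonneg (sub_nonneg.2 h4) (sub_nonneg.2 hrf)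
          rw [hks] at h5 ⊢
          have h6 : 0 ≤ f * (z - (2*y - z - 1/2)) := mul_nonneg hf (by linarith)
          have h7 : 0 ≤ z * (1 - f) := mul_nonneg hz (by linarith)
          nlinarith [sq_nonneg (y - z)]
      linarith
  linarith

end Pool.Agent.E809.A0
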