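import Mathlib
import Pool.Agent.Helper390.E809A0

/-! `lemmaA0` (MP_d36a1d_co), for `f ≤ 3/20`, without the structure `Dat`: the hypotheses are the
fields of `Dat 0 z f H k s pT pB rT rB`. -/

set_option autoImplicit false
set_option maxHeartbeats 4000000

namespace Pool.Agent.E809.A0

theorem main {z f H k s pT pB rT rB : ℝ} (hz : 0 ≤ z) (hf : 0 ≤ f)
    (hzf : 0 < f → z ≤ 1 / 4) (hH : 0 ≤ H) (hHf : H ≤ f) (hpT : 0 ≤ pT) (hpTk : pT ≤ k)
    (hpB : 0 ≤ pB) (hpBs : pB ≤ s) (hrT : 0 ≤ rT) (hkrT : k + rT ≤ 1 / 2 + z - f)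
    (hrB : 0 ≤ rB) (hsrB : s + rB ≤ 1 / 2 - z) (hy : 0 ≤ 1 / 2 + z - H - k - s)
    (hy1 : 1 / 2 + z - H - k - s ≤ 1 / 4 + z)
    (hmin : 0 < H → pB + rB ≤ 1 / 4 - z)
    (hG : H * (pB + rB) +
      pT * max 0 (2 * z - (1 / 2 + z - H - k - s) + (f - H) + (rT + rB)) +
      rT * max 0 (2 * z - (1 / 2 + z - H - k - s) + (f - H)) +
      pB * max 0 (2 * z - (1 / 2 + z - H - k - s) + (rT + rB)) +
      rB * max 0 (2 * z - (1 / 2 + z - H - k - s)) ≤ z * (1 - 2 * f))
    (hf1 : f ≤ 3 / 20) :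
    (k - 2 * k * ((k + s) / ((k + s) + (rT + rB)))) +
      (H - 2 * H * ((k + s - pT - pB) / ((k + s - pT - pB) + (rT + rB)))) -
      (1 / 2 + z - H - k - s) ≤ 0 := by
  have hk0 : 0 ≤ k := hpT.trans hpTk
  have hs0 : 0 ≤ s := hpB.trans hpBs
  rcases hH.eq_or_lt with hH0 | hH0
  · subst hH0
    have hks : 0 < k + s := by linarith
    have := @coreH0 z f (1/2 + z - 0 - k - s) k s (rT + rB) hz hf (by linarith) hy hy1 hk0 hs0
      (by linarith) (by ring) (by linarith) hks
    have e : (0:ℝ) - 2 * 0 * ((k + s - pT - pB) / ((k + s - pT - pB) + (rT + rB))) = 0 := by ring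
    rw [e]
    linarith
  · have hz4 : z ≤ 1 / 4 := hzf (hH0.trans_le hHf)
    have hg : 0 ≤ f - H := by linarith
    have e1 : (1/2 + z - (1/2 + z - H - k - s) - H) = k + s := by ring
    have e2 : (k + s - (pT + pB)) = k + s - pT - pB := by ring
    have m1 : max 0 (2 * z - (1 / 2 + z - H - k - s) + (rT + rB)) ≤
        max 0 (2 * z - (1 / 2 + z - H - k - s) + (f - H) + (rT + rB)) :=
      max_le_max le_rfl (by linarith)
    have m2 : max 0 (2 * z - (1 / 2 + z - H - k - s)) ≤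
        max 0 (2 * z - (1 / 2 + z - H - k - s) + (f - H)) :=
      max_le_max le_rfl (by linarith)
    have hcost : H * (pB + rB) + (pT + pB) * max 0 (2 * z - (1 / 2 + z - H - k - s) + (rT + rB))
        + (rT + rB) * max 0 (2 * z - (1 / 2 + z - H - k - s)) ≤ z * (1 - 2 * H) := by
      have h1 := mul_nonneg hpT (sub_nonneg.2 m1)
      have h2 := mul_nonneg hrT (sub_nonneg.2 m2)
      have h3 := mul_nonneg hz hg
      nlinarith
    have := @core z (1 / 2 + z - H - k - s) H k (pT + pB) (rT + rB) (pB + rB) hz hz4 hH0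
      (by linarith) hy hy1 hk0 (by linarith) (by linarith) (by linarith) (by linarith)
      (by linarith) (by linarith) (by linarith) (hmin hH0) (by linarith) hcost
    rw [e1, e2] at this
    exact this

end Pool.Agent.E809.A0

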