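import Mathlib

/-!
# Sum of the positive eigenvalues and vertex covers

Tools for `E(G)/2 ≥ n - α(G)`.
-/

set_option autoImplicit false

open Finset Matrix

namespace Pool.Agent.Helper390.Energy

set_option linter.unusedSectionVars false
set_option linter.unusedSimpArgs false

variable {V : Type} [Fintype V] [DecidableEq V]

/-- Jordan decomposition of a real symmetric matrix. -/
lemma exists_posneg (B : Matrix V V ℝ) (hB : B.IsHermitian) :
    ∃ P N : Matrix V V ℝ, P.PosSemidef ∧ N.PosSemidef ∧ P - N = B ∧ P * N = 0 ∧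
      P.trace = ∑ i, max (hB.eigenvalues i) 0 := by
  set U : Matrix V V ℝ := (hB.eigenvectorUnitary : Matrix V V ℝ) with hU
  have hUU : Uᴴ * U = 1 := by
    have := Unitary.coe_star_mul_self hB.eigenvectorUnitary
    simpa [star_eq_conjTranspose] using this
  have hspec : B = U * diagonal hB.eigenvalues * Uᴴ := by
    have := hB.spectral_theorem
    rw [Unitary.conjStarAlgAut_apply] at this
    simpa [star_eq_conjTranspose, Function.comp_def] using this
  refine ⟨U * diagonal (fun i => max (hB.eigenvalues i) 0) * Uᴴ,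
    U * diagonal (fun i => max (-(hB.eigenvalues i)) 0) * Uᴴ, ?_, ?_, ?_, ?_, ?_⟩
  · exact PosSemidef.mul_mul_conjTranspose_same
      (PosSemidef.diagonal (fun i => le_max_right _ _)) U
  · exact PosSemidef.mul_mul_conjTranspose_same
      (PosSemidef.diagonal (fun i => le_max_right _ _)) U
  · conv_rhs => rw [hspec]
    rw [← Matrix.sub_mul, ← Matrix.mul_sub, diagonal_sub]
    congr 3
    funext i
    rcases le_total (hB.eigenvalues i) 0 with h | h
    · rw [max_eq_right h, max_eq_left (by linarith)]; ring
    · rw [max_eq_left h, max_eq_right (by linarith)]; ring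
  · calc U * diagonal (fun i => max (hB.eigenvalues i) 0) * Uᴴ *
          (U * diagonal (fun i => max (-(hB.eigenvalues i)) 0) * Uᴴ)
        = U * diagonal (fun i => max (hB.eigenvalues i) 0) * (Uᴴ * U) *
          diagonal (fun i => max (-(hB.eigenvalues i)) 0) * Uᴴ := by
          simp only [Matrix.mul_assoc]
      _ = U * (diagonal (fun i => max (hB.eigenvalues i) 0) *
          diagonal (fun i => max (-(hB.eigenvalues i)) 0)) * Uᴴ := by
          rw [hUU]; simp only [Matrix.mul_assoc, Matrix.mul_one]
      _ = 0 := by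
          rw [diagonal_mul_diagonal]
          have : (fun i => max (hB.eigenvalues i) 0 * max (-(hB.eigenvalues i)) 0) =
              (fun _ => (0:ℝ)) := by
            funext i
            rcases le_total (hB.eigenvalues i) 0 with h | h
            · rw [max_eq_right h]; ring
            · rw [max_eq_right (a := -(hB.eigenvalues i)) (by linarith)]; ring
          rw [this]
          simp
  · rw [Matrix.trace_mul_comm, ← Matrix.mul_assoc, hUU, Matrix.one_mul, trace_diagonal]

/-- The sum of the positive eigenvalues is the least trace of a positive part. -/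
lemma sum_max_le_trace (B P N : Matrix V V ℝ) (hB : B.IsHermitian) (hP : P.PosSemidef)
    (hN : N.PosSemidef) (h : P - N = B) :
    ∑ i, max (hB.eigenvalues i) 0 ≤ P.trace := by
  set U : Matrix V V ℝ := (hB.eigenvectorUnitary : Matrix V V ℝ) with hU
  have hUU : Uᴴ * U = 1 := by
    have := Unitary.coe_star_mul_self hB.eigenvectorUnitary
    simpa [star_eq_conjTranspose] using this
  have hUU' : U * Uᴴ = 1 := mul_eq_one_comm.mp hUU
  have hspec : B = U * diagonal hB.eigenvalues * Uᴴ := by
    have := hB.spectral_theorem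
    rw [Unitary.conjStarAlgAut_apply] at this
    simpa [star_eq_conjTranspose, Function.comp_def] using this
  have hdiag : diagonal hB.eigenvalues = Uᴴ * P * U - Uᴴ * N * U := by
    rw [← Matrix.sub_mul, ← Matrix.mul_sub, h]
    calc diagonal hB.eigenvalues = (Uᴴ * U) * diagonal hB.eigenvalues * (Uᴴ * U) := by
          rw [hUU]; simp
      _ = Uᴴ * (U * diagonal hB.eigenvalues * Uᴴ) * U := by simp only [Matrix.mul_assoc]
      _ = Uᴴ * B * U := by rw [← hspec]
  have hPp := hP.conjTranspose_mul_mul_same U
  have hNp := hN.conjTranspose_mul_mul_same U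
  have htr : P.trace = (Uᴴ * P * U).trace := by
    rw [Matrix.trace_mul_comm, ← Matrix.mul_assoc, hUU', Matrix.one_mul]
  rw [htr, Matrix.trace]
  apply Finset.sum_le_sum
  intro i _
  have h1 : hB.eigenvalues i = (Uᴴ * P * U) i i - (Uᴴ * N * U) i i := by
    have := congrFun (congrFun hdiag i) i
    simpa using this
  have h2 := hPp.diag_nonneg (i := i)
  have h3 := hNp.diag_nonneg (i := i)
  simp only [Matrix.diag_apply]
  exact max_le (by rw [h1]; linarith) h2

/-- `2×2` minors. -/
lemma posSemidef_minor {P : Matrix V V ℝ} (hP : P.PosSemidef) (i j : V) :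
    (P i j) ^ 2 ≤ P i i * P j j := by
  have h := (hP.submatrix ![i, j]).det_nonneg
  rw [det_fin_two] at h
  simp only [submatrix_apply, cons_val_zero, cons_val_one] at h
  have hsym : P j i = P i j := by
    have := hP.isHermitian.apply i j
    simpa using this
  rw [hsym] at h
  nlinarith [h]

lemma symm_apply {P : Matrix V V ℝ} (hP : P.PosSemidef) (i j : V) : P j i = P i j := by
  have := hP.isHermitian.apply i j
  simpa using this

/-- The Schur complement of a diagonal entry. -/
noncomputable def schur (P : Matrix V V ℝ) (i : V) : Matrix V V ℝ :=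
  Matrix.of fun j k => P j k - P i j * P i k / P i i

lemma schur_posSemidef {P : Matrix V V ℝ} (hP : P.PosSemidef) (i : V) (hi : 0 < P i i) :
    (schur P i).PosSemidef := by
  apply PosSemidef.of_dotProduct_mulVec_nonneg
  · ext j k
    simp only [schur, conjTranspose_apply, of_apply, star_trivial]
    rw [symm_apply hP k j]; ring
  · intro x
    set t : ℝ := (P *ᵥ x) i / P i i with ht
    have h := hP.dotProduct_mulVec_nonneg (x - t • Pi.single i 1)
    have e1 : star (x - t • (Pi.single i 1 : V → ℝ)) ⬝ᵥ (P *ᵥ (x - t • Pi.single i 1)) =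
        x ⬝ᵥ (P *ᵥ x) - (P *ᵥ x) i ^ 2 / P i i := by
      have e2 : x ⬝ᵥ (P *ᵥ (Pi.single i 1)) = (P *ᵥ x) i := by
        rw [mulVec_single_one]
        simp only [mulVec, dotProduct, col_apply]
        refine Finset.sum_congr rfl fun k _ => ?_
        rw [symm_apply hP i k]; ring
      have e3 : (P *ᵥ (Pi.single i 1)) i = P i i := by simp
      simp only [star_trivial, mulVec_sub, mulVec_smul, dotProduct_sub, sub_dotProduct,
        smul_dotProduct, dotProduct_smul, smul_eq_mul, single_one_dotProduct, e2, e3]
      rw [ht]; field_simp; ring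
    rw [e1] at h
    have e4 : star x ⬝ᵥ (schur P i *ᵥ x) = x ⬝ᵥ (P *ᵥ x) - (P *ᵥ x) i ^ 2 / P i i := by
      simp only [star_trivial, schur, mulVec, dotProduct, of_apply]
      have : ∀ j, x j * ∑ k, (P j k - P i j * P i k / P i i) * x k =
          x j * ∑ k, P j k * x k - (P i j * x j) * ((∑ k, P i k * x k) / P i i) := by
        intro j
        have : ∑ k, (P j k - P i j * P i k / P i i) * x k =
            ∑ k, P j k * x k - P i j * ((∑ k, P i k * x k) / P i i) := by
          rw [Finset.sum_div, Finset.mul_sum, ← Finset.sum_sub_distrib]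
          refine Finset.sum_congr rfl fun k _ => ?_
          ring
        rw [this]; ring
      rw [Finset.sum_congr rfl fun j _ => this j, Finset.sum_sub_distrib, ← Finset.sum_mul]
      ring
    rw [e4]; exact h

/-- The elementary inequality behind the averaging. -/
lemma edge_ineq {a b p : ℝ} (ha : 0 < a) (hb : 0 < b) (h1 : p ≤ a * b) (h2 : 1 - a * b ≤ p) :
    0 ≤ a * (p * (1 - p) / a ^ 2 - 1 + b ^ 2) + b * (p * (1 - p) / b ^ 2 - 1 + a ^ 2) := by
  have e : a * (p * (1 - p) / a ^ 2 - 1 + b ^ 2) + b * (p * (1 - p) / b ^ 2 - 1 + a ^ 2) =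
      (a + b) / (a * b) * ((a * b - p) * (p + a * b - 1)) := by
    field_simp; ring
  rw [e]
  exact mul_nonneg (by positivity) (mul_nonneg (by linarith) (by linarith))

/-- The key step: some vertex `i` gains at least its degree. -/
lemma step (G : SimpleGraph V) [DecidableRel G.Adj] (P N : Matrix V V ℝ) (hP : P.PosSemidef)
    (hN : N.PosSemidef) (h : P - N = G.adjMatrix ℝ) (hPN : P * N = 0)
    (hne : ∃ a b, G.Adj a b) :
    ∃ i, 0 < P i i ∧ (∃ b, G.Adj i b) ∧
      ((univ.filter fun j => G.Adj i j).card : ℝ) ≤
        P i i + ∑ j ∈ univ.filter (fun j => G.Adj i j), P j j +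
          ∑ j ∈ univ.filter (fun j => j ≠ i ∧ ¬ G.Adj i j), (P i j) ^ 2 / P i i := by
  have hent : ∀ i j, P i j - N i j = if G.Adj i j then 1 else 0 := by
    intro i j
    have := congrFun (congrFun h i) j
    simpa [SimpleGraph.adjMatrix_apply] using this
  have hdiag : ∀ i, N i i = P i i := by
    intro i
    have := hent i i
    simp only [SimpleGraph.irrefl, if_false] at this
    linarith
  have hedge : ∀ i j, G.Adj i j → N i j = P i j - 1 := by
    intro i j hij
    have := hent i j
    rw [if_pos hij] at this; linarith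
  have hnon : ∀ i j, ¬ G.Adj i j → N i j = P i j := by
    intro i j hij
    have := hent i j
    rw [if_neg hij] at this; linarith
  have hP0 : ∀ i, 0 ≤ P i i := fun i => hP.diag_nonneg
  -- entries
  have hbd : ∀ i j, P i j ≤ √(P i i) * √(P j j) := by
    intro i j
    rw [← Real.sqrt_mul (hP0 i)]
    exact Real.le_sqrt_of_sq_le (posSemidef_minor hP i j)
  have hbd2 : ∀ i j, G.Adj i j → 1 - √(P i i) * √(P j j) ≤ P i j := by
    intro i j hij
    have h1 : (-(N i j)) ^ 2 ≤ P i i * P j j := by
      have := posSemidef_minor hN i j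
      rw [hdiag, hdiag] at this
      nlinarith
    have h2 := Real.le_sqrt_of_sq_le h1
    rw [Real.sqrt_mul (hP0 i), hedge i j hij] at h2
    linarith
  have hpos : ∀ i j, G.Adj i j → 0 < P i i := by
    intro i j hij
    rcases (hP0 i).lt_or_eq with h1 | h1
    · exact h1
    · exfalso
      have h2 := hbd i j
      have h3 := hbd2 i j hij
      rw [← h1] at h2 h3
      simp at h2 h3
      linarith
  -- orthogonality
  have horth : ∀ i, 0 < P i i → ∑ j ∈ univ.filter (fun j => j ≠ i ∧ ¬ G.Adj i j), (P i j) ^ 2 / P i i =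
      ∑ j ∈ univ.filter (fun j => G.Adj i j), P i j * (1 - P i j) / P i i - P i i := by
    intro i hi
    have h1 : ∑ k, P i k * N i k = 0 := by
      have := congrFun (congrFun hPN i) i
      rw [Matrix.mul_apply] at this
      rw [Matrix.zero_apply] at this
      rw [← this]
      refine Finset.sum_congr rfl fun k _ => ?_
      rw [symm_apply hN i k]
    have h2 : ∑ k, P i k * N i k = ∑ k ∈ univ.filter (fun k => G.Adj i k), P i k * N i k +
        ∑ k ∈ univ.filter (fun k => ¬ G.Adj i k), P i k * N i k :=
      (Finset.sum_filter_add_sum_filter_not _ _ _).symm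
    have h3 : univ.filter (fun k => ¬ G.Adj i k) =
        insert i (univ.filter (fun k => k ≠ i ∧ ¬ G.Adj i k)) := by
      ext k
      simp only [mem_filter, mem_univ, true_and, mem_insert]
      constructor
      · intro hk
        by_cases hki : k = i
        · exact Or.inl hki
        · exact Or.inr ⟨hki, hk⟩
      · rintro (hk | hk)
        · rw [hk]; exact G.irrefl
        · exact hk.2
    rw [h3, Finset.sum_insert (by simp)] at h2
    rw [h1] at h2
    have h4 : ∑ k ∈ univ.filter (fun k => G.Adj i k), P i k * N i k =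
        - ∑ k ∈ univ.filter (fun k => G.Adj i k), P i k * (1 - P i k) := by
      rw [← Finset.sum_neg_distrib]
      refine Finset.sum_congr rfl fun k hk => ?_
      rw [hedge i k (by simpa using hk)]; ring
    have h5 : ∑ k ∈ univ.filter (fun k => k ≠ i ∧ ¬ G.Adj i k), P i k * N i k =
        ∑ k ∈ univ.filter (fun k => k ≠ i ∧ ¬ G.Adj i k), (P i k) ^ 2 := by
      refine Finset.sum_congr rfl fun k hk => ?_
      rw [hnon i k (by simp at hk; exact hk.2)]; ring
    rw [h4, h5, hdiag] at h2
    rw [← Finset.sum_div, ← Finset.sum_div]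
    field_simp
    linarith
  -- averaging
  set T : V → ℝ := fun i => ∑ j ∈ univ.filter (fun j => G.Adj i j),
    (P i j * (1 - P i j) / P i i - 1 + P j j) with hT
  have hex : ∃ i, (∃ b, G.Adj i b) ∧ 0 ≤ T i := by
    by_contra hcon
    push Not at hcon
    have hneg : ∑ i, √(P i i) * T i < 0 := by
      obtain ⟨a, b, hab⟩ := hne
      apply Finset.sum_neg' ?_ ⟨a, mem_univ a, ?_⟩
      · intro i _
        by_cases hi : ∃ b, G.Adj i b
        · exact mul_nonpos_of_nonneg_of_nonpos (Real.sqrt_nonneg _) (hcon i hi).le
        · have : T i = 0 := by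
            rw [hT]
            apply Finset.sum_eq_zero
            intro j hj
            exact absurd ⟨j, by simpa using hj⟩ hi
          rw [this, mul_zero]
      · exact mul_neg_of_pos_of_neg (Real.sqrt_pos.mpr (hpos a b hab)) (hcon a ⟨b, hab⟩)
    have hF : ∑ i, √(P i i) * T i = ∑ i, ∑ j, if G.Adj i j then
        √(P i i) * (P i j * (1 - P i j) / P i i - 1 + P j j) else 0 := by
      refine Finset.sum_congr rfl fun i _ => ?_
      rw [hT, Finset.mul_sum, Finset.sum_filter]
    have hF2 : 2 * ∑ i, √(P i i) * T i = ∑ i, ∑ j, if G.Adj i j then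
        √(P i i) * (P i j * (1 - P i j) / P i i - 1 + P j j) +
        √(P j j) * (P i j * (1 - P i j) / P j j - 1 + P i i) else 0 := by
      rw [two_mul]
      conv_lhs => rw [hF]
      conv_lhs => 
        arg 2
        rw [Finset.sum_comm]
      rw [← Finset.sum_add_distrib]
      refine Finset.sum_congr rfl fun i _ => ?_
      rw [← Finset.sum_add_distrib]
      refine Finset.sum_congr rfl fun j _ => ?_
      by_cases hij : G.Adj i j
      · rw [if_pos hij, if_pos hij.symm, if_pos hij, symm_apply hP i j]
      · rw [if_neg hij, if_neg (fun h => hij h.symm), if_neg hij, add_zero]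
    have hnn : 0 ≤ ∑ i, ∑ j, (if G.Adj i j then
        √(P i i) * (P i j * (1 - P i j) / P i i - 1 + P j j) +
        √(P j j) * (P i j * (1 - P i j) / P j j - 1 + P i i) else 0) := by
      apply Finset.sum_nonneg
      intro i _
      apply Finset.sum_nonneg
      intro j _
      split_ifs with hij
      · have h1 := edge_ineq (Real.sqrt_pos.mpr (hpos i j hij))
          (Real.sqrt_pos.mpr (hpos j i hij.symm)) (hbd i j) (hbd2 i j hij)
        rw [Real.sq_sqrt (hP0 i), Real.sq_sqrt (hP0 j)] at h1
        exact h1
      · exact le_rfl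
    linarith
  obtain ⟨i, ⟨b, hib⟩, hTi⟩ := hex
  have hi := hpos i b hib
  refine ⟨i, hi, ⟨b, hib⟩, ?_⟩
  rw [horth i hi]
  have : T i = ∑ j ∈ univ.filter (fun j => G.Adj i j), P i j * (1 - P i j) / P i i -
      ((univ.filter fun j => G.Adj i j).card : ℝ) +
      ∑ j ∈ univ.filter (fun j => G.Adj i j), P j j := by
    rw [hT]
    simp only [Finset.sum_add_distrib, Finset.sum_sub_distrib, Finset.sum_const, nsmul_eq_mul,
      mul_one]
  linarith

/-- The graph `G` with all edges outside `S` removed. -/
def restrict (G : SimpleGraph V) (S : Finset V) : SimpleGraph V where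
  Adj a b := a ∈ S ∧ b ∈ S ∧ G.Adj a b
  symm := ⟨fun _ _ h => ⟨h.2.1, h.1, h.2.2.symm⟩⟩
  loopless := ⟨fun _ h => G.irrefl h.2.2⟩

lemma restrict_adj (G : SimpleGraph V) (S : Finset V) (a b : V) :
    (restrict G S).Adj a b ↔ a ∈ S ∧ b ∈ S ∧ G.Adj a b := Iff.rfl

theorem main_ind (G : SimpleGraph V) [DecidableRel G.Adj] :
    ∀ (S : Finset V) (P N : Matrix V V ℝ), P.PosSemidef → N.PosSemidef →
      (∀ j ∈ S, ∀ k ∈ S, P j k - N j k = if G.Adj j k then 1 else 0) →
      ∃ s ⊆ S, G.IsIndepSet (s : Set V) ∧ (S.card : ℝ) - s.card ≤ ∑ j ∈ S, P j j := by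
  classical
  intro S
  induction S using Finset.strongInduction with
  | H S ih =>
  intro P N hP hN hPN
  have hPnn : ∀ i, 0 ≤ P i i := fun i => hP.diag_nonneg
  set G' := restrict G S with hG'
  by_cases hne : ∃ a b, G'.Adj a b
  swap
  · refine ⟨S, subset_rfl, ?_, ?_⟩
    · intro a ha b hb _ hab
      exact hne ⟨a, b, ha, hb, hab⟩
    · rw [sub_self]
      exact Finset.sum_nonneg fun i _ => hPnn i
  -- optimal decomposition
  have hB : (G'.adjMatrix ℝ).IsHermitian := by
    have := G'.isSymm_adjMatrix (α := ℝ)
    rw [Matrix.IsHermitian, Matrix.conjTranspose_eq_transpose_of_trivial]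
    exact this
  obtain ⟨P0, N0, hP0, hN0, hPN0, horth, htr⟩ := exists_posneg (G'.adjMatrix ℝ) hB
  have htr2 : P0.trace ≤ ∑ j ∈ S, P j j := by
    rw [htr]
    set D : Matrix V V ℝ := diagonal (fun j => if j ∈ S then 1 else 0) with hD
    have h1 := hP.conjTranspose_mul_mul_same D
    have h2 := hN.conjTranspose_mul_mul_same D
    have hDent : ∀ (Q : Matrix V V ℝ) (a b : V), (Dᴴ * Q * D) a b =
        if a ∈ S ∧ b ∈ S then Q a b else 0 := by
      intro Q a b
      rw [hD, diagonal_conjTranspose, mul_diagonal, diagonal_mul]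
      by_cases ha : a ∈ S <;> by_cases hb : b ∈ S <;> simp [ha, hb]
    have h3 : Dᴴ * P * D - Dᴴ * N * D = G'.adjMatrix ℝ := by
      ext a b
      rw [Matrix.sub_apply, hDent, hDent, SimpleGraph.adjMatrix_apply]
      by_cases hab : a ∈ S ∧ b ∈ S
      · rw [if_pos hab, if_pos hab, hPN a hab.1 b hab.2]
        by_cases hG : G.Adj a b
        · rw [if_pos hG, if_pos ⟨hab.1, hab.2, hG⟩]
        · rw [if_neg hG, if_neg (fun h => hG h.2.2)]
      · rw [if_neg hab, if_neg hab, if_neg (fun h => hab ⟨h.1, h.2.1⟩), sub_zero]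
    have h4 := sum_max_le_trace _ _ _ hB h1 h2 h3
    refine h4.trans (le_of_eq ?_)
    rw [Matrix.trace]
    simp only [Matrix.diag_apply, hDent, and_self]
    rw [← Finset.sum_filter]
    simp
  obtain ⟨i, hi, ⟨b, hib⟩, hstep⟩ := step G' P0 N0 hP0 hN0 hPN0 horth hne
  have hiS : i ∈ S := hib.1
  have hent : ∀ j k, P0 j k - N0 j k = if G'.Adj j k then 1 else 0 := by
    intro j k
    have := congrFun (congrFun hPN0 j) k
    simpa [SimpleGraph.adjMatrix_apply] using this
  have hNi : N0 i i = P0 i i := by
    have := hent i i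
    simp only [SimpleGraph.irrefl, if_false] at this
    linarith
  have hP0nn : ∀ i, 0 ≤ P0 i i := fun i => hP0.diag_nonneg
  set H := S.filter (fun j => j ≠ i ∧ ¬ G.Adj i j) with hH
  have hHS : H ⊂ S := by
    refine Finset.filter_ssubset.mpr ⟨i, hiS, ?_⟩
    simp
  have hcond : ∀ j ∈ H, ∀ k ∈ H, schur P0 i j k - schur N0 i j k =
      if G.Adj j k then 1 else 0 := by
    intro j hj k hk
    rw [hH, mem_filter] at hj hk
    have e1 : N0 i j = P0 i j := by
      have := hent i j
      rw [if_neg (fun h => hj.2.2 h.2.2)] at this; linarith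
    have e2 : N0 i k = P0 i k := by
      have := hent i k
      rw [if_neg (fun h => hk.2.2 h.2.2)] at this; linarith
    have e3 := hent j k
    simp only [schur, of_apply]
    rw [e1, e2, hNi]
    by_cases hG : G.Adj j k
    · rw [if_pos hG]; rw [if_pos ⟨hj.1, hk.1, hG⟩] at e3; linarith
    · rw [if_neg hG]; rw [if_neg (fun h => hG h.2.2)] at e3; linarith
  obtain ⟨s, hsH, hsind, hscard⟩ := ih H hHS (schur P0 i) (schur N0 i)
    (schur_posSemidef hP0 i hi) (schur_posSemidef hN0 i (by rw [hNi]; exact hi)) hcond
  have his : i ∉ s := by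
    intro h
    have := hsH h
    rw [hH, mem_filter] at this
    exact this.2.1 rfl
  refine ⟨insert i s, ?_, ?_, ?_⟩
  · intro x hx
    rw [mem_insert] at hx
    rcases hx with rfl | hx
    · exact hiS
    · exact hHS.subset (hsH hx)
  · have hi' : ∀ x ∈ s, ¬ G.Adj i x := by
      intro x hx
      have := hsH hx
      rw [hH, mem_filter] at this
      exact this.2.2
    intro x hx y hy hxy
    simp only [coe_insert, Set.mem_insert_iff, mem_coe] at hx hy
    rcases hx with rfl | hx <;> rcases hy with rfl | hy
    · exact absurd rfl hxy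
    · exact hi' y hy
    · exact fun h => hi' x hx h.symm
    · exact hsind (by simpa using hx) (by simpa using hy) hxy
  · -- counting
    set NB := univ.filter (fun j => G'.Adj i j) with hNB
    set R := univ.filter (fun j => j ≠ i ∧ ¬ G'.Adj i j) with hR
    have hdisj : Disjoint NB H := by
      rw [Finset.disjoint_left]
      intro x hx hx2
      rw [hNB, mem_filter] at hx
      rw [hH, mem_filter] at hx2
      exact hx2.2.2 hx.2.2.2
    have hcardS : S = insert i (NB ∪ H) := by
      ext x
      simp only [hNB, hH, mem_insert, mem_union, mem_filter, mem_univ, true_and]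
      constructor
      · intro hx
        by_cases hxi : x = i
        · exact Or.inl hxi
        · right
          by_cases hG : G.Adj i x
          · exact Or.inl ⟨hiS, hx, hG⟩
          · exact Or.inr ⟨hx, hxi, hG⟩
      · rintro (rfl | h | h)
        · exact hiS
        · exact h.2.1
        · exact h.1
    have hiNH : i ∉ NB ∪ H := by
      simp [hNB, hH]
    have hcard : (S.card : ℝ) = 1 + NB.card + H.card := by
      rw [hcardS, card_insert_of_notMem hiNH, card_union_of_disjoint hdisj]
      push_cast; ring
    have hHR : H ⊆ R := by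
      intro x hx
      rw [hH, mem_filter] at hx
      rw [hR, mem_filter]
      exact ⟨mem_univ _, hx.2.1, fun h => hx.2.2 h.2.2⟩
    have htrace : P0.trace = P0 i i + ∑ j ∈ NB, P0 j j + ∑ j ∈ R, P0 j j := by
      have h1 : (univ : Finset V) = insert i (NB ∪ R) := by
        ext x
        simp only [hNB, hR, mem_insert, mem_union, mem_filter, mem_univ, true_and, true_iff]
        by_cases hxi : x = i
        · exact Or.inl hxi
        · right
          by_cases hG : G'.Adj i x
          · exact Or.inl hG
          · exact Or.inr ⟨hxi, hG⟩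
      have h2 : i ∉ NB ∪ R := by
        simp [hNB, hR]
      have h3 : Disjoint NB R := by
        rw [Finset.disjoint_left]
        intro x hx hx2
        rw [hNB, mem_filter] at hx
        rw [hR, mem_filter] at hx2
        exact hx2.2.2 hx.2
      rw [Matrix.trace]
      simp only [Matrix.diag_apply]
      rw [h1, Finset.sum_insert h2, Finset.sum_union h3]
      ring
    have hge : ∑ j ∈ H, schur P0 i j j ≤ ∑ j ∈ R, (P0 j j - (P0 i j) ^ 2 / P0 i i) := by
      have h1 : ∀ j, schur P0 i j j = P0 j j - (P0 i j) ^ 2 / P0 i i := by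
        intro j
        simp only [schur, of_apply]; ring
      rw [Finset.sum_congr rfl fun j _ => h1 j]
      apply Finset.sum_le_sum_of_subset_of_nonneg hHR
      intro j _ _
      rw [← h1]
      exact (schur_posSemidef hP0 i hi).diag_nonneg
    rw [Finset.sum_sub_distrib] at hge
    rw [card_insert_of_notMem his]
    push_cast
    rw [hcard]
    linarith

/-- `n - α(G)` is at most the sum of the positive adjacency eigenvalues. -/
theorem energy_bound (G : SimpleGraph V) [DecidableRel G.Adj] (s : Finset V)
    (hs : ∀ t : Finset V, G.IsIndepSet (t : Set V) → t.card ≤ s.card) :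
    (Fintype.card V : ℝ) - (s.card : ℝ) ≤
      (((G.adjMatrix ℝ).charpoly.roots).filter (fun x : ℝ => 0 < x)).sum := by
  have hB : (G.adjMatrix ℝ).IsHermitian := by
    have := G.isSymm_adjMatrix (α := ℝ)
    rw [Matrix.IsHermitian, Matrix.conjTranspose_eq_transpose_of_trivial]
    exact this
  obtain ⟨P0, N0, hP0, hN0, hPN0, horth, htr⟩ := exists_posneg (G.adjMatrix ℝ) hB
  obtain ⟨t, -, htind, htcard⟩ := main_ind G univ P0 N0 hP0 hN0 (by
    intro j _ k _
    have := congrFun (congrFun hPN0 j) k
    simpa [SimpleGraph.adjMatrix_apply] using this)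
  have h1 : (((G.adjMatrix ℝ).charpoly.roots).filter (fun x : ℝ => 0 < x)).sum =
      ∑ i, max (hB.eigenvalues i) 0 := by
    rw [hB.roots_charpoly_eq_eigenvalues, Multiset.filter_map, ← Finset.filter_val]
    change ∑ i ∈ univ.filter _, _ = _
    rw [Finset.sum_filter]
    refine Finset.sum_congr rfl fun i _ => ?_
    simp only [Function.comp_apply, RCLike.ofReal_real_eq_id, id]
    split_ifs with h
    · rw [max_eq_left h.le]
    · rw [max_eq_right (not_lt.mp h)]
  rw [h1, ← htr]
  have h2 : (t.card : ℝ) ≤ s.card := by exact_mod_cast hs t htind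
  have h3 : ∑ j, P0 j j = P0.trace := by simp [Matrix.trace]
  rw [Finset.card_univ, h3] at htcard
  linarith

end Pool.Agent.Helper390.Energy
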