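import Pool.Agent.Helper390.EnergyA

/-!
# The inertia bound, and `E(G)/2 ≥ max(n⁺, n⁻)`
-/

set_option autoImplicit false

open Finset Matrix

namespace Pool.Agent.Helper390.Energy

variable {V : Type} [Fintype V] [DecidableEq V]

/-- Cvetkovic's inertia bound. -/
lemma inertia (B : Matrix V V ℝ) (hB : B.IsHermitian) (s : Finset V)
    (hs : ∀ i ∈ s, ∀ j ∈ s, B i j = 0) (ε : ℝ) :
    (univ.filter (fun k => 0 < ε * hB.eigenvalues k)).card + s.card ≤ Fintype.card V := by
  classical
  set U : Matrix V V ℝ := (hB.eigenvectorUnitary : Matrix V V ℝ) with hU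
  have hUU : Uᴴ * U = 1 := by
    have := Unitary.coe_star_mul_self hB.eigenvectorUnitary
    simpa [star_eq_conjTranspose] using this
  have hspec : B = U * diagonal hB.eigenvalues * Uᴴ := by
    have := hB.spectral_theorem
    rw [Unitary.conjStarAlgAut_apply] at this
    simpa [star_eq_conjTranspose, Function.comp_def] using this
  have hdiag : Uᴴ * B * U = diagonal hB.eigenvalues := by
    calc Uᴴ * B * U = Uᴴ * (U * diagonal hB.eigenvalues * Uᴴ) * U := by rw [← hspec]
      _ = (Uᴴ * U) * diagonal hB.eigenvalues * (Uᴴ * U) := by simp only [Matrix.mul_assoc]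
      _ = diagonal hB.eigenvalues := by rw [hUU]; simp
  let K := {k : V // 0 < ε * hB.eigenvalues k}
  let C := {j : V // j ∉ s}
  let M : Matrix C K ℝ := U.submatrix Subtype.val Subtype.val
  have hinj : Function.Injective M.mulVecLin := by
    rw [← LinearMap.ker_eq_bot, LinearMap.ker_eq_bot']
    intro c hc
    set y : V → ℝ := fun k => if h : 0 < ε * hB.eigenvalues k then c ⟨k, h⟩ else 0 with hy
    have hx : ∀ j, (U *ᵥ y) j = ∑ k : K, U j k * c k := by
      intro j
      simp only [mulVec, dotProduct]
      have : ∀ k, U j k * y k = if h : 0 < ε * hB.eigenvalues k then U j k * c ⟨k, h⟩ else 0 := by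
        intro k
        simp only [hy]
        split_ifs <;> simp
      rw [Finset.sum_congr rfl fun k _ => this k]
      rw [Finset.sum_dite]
      simp only [Finset.sum_const_zero, add_zero]
      apply Fintype.sum_equiv (Equiv.subtypeEquivRight (by simp))
      intro k
      rfl
    have hx0 : ∀ j, j ∉ s → (U *ᵥ y) j = 0 := by
      intro j hj
      have := congrFun hc ⟨j, hj⟩
      rw [hx]
      simpa [M, mulVec, dotProduct] using this
    have hq1 : (U *ᵥ y) ⬝ᵥ (B *ᵥ (U *ᵥ y)) = 0 := by
      simp only [dotProduct]
      apply Finset.sum_eq_zero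
      intro i _
      by_cases hi : i ∈ s
      · have : (B *ᵥ (U *ᵥ y)) i = 0 := by
          rw [mulVec, dotProduct]
          apply Finset.sum_eq_zero
          intro j _
          by_cases hj : j ∈ s
          · rw [hs i hi j hj, zero_mul]
          · rw [hx0 j hj, mul_zero]
        rw [this, mul_zero]
      · rw [hx0 i hi, zero_mul]
    have hq2 : (U *ᵥ y) ⬝ᵥ (B *ᵥ (U *ᵥ y)) = ∑ k, hB.eigenvalues k * y k ^ 2 := by
      have h1 : (U *ᵥ y) ⬝ᵥ (B *ᵥ (U *ᵥ y)) = y ⬝ᵥ ((Uᴴ * B * U) *ᵥ y) := by
        rw [← Matrix.mulVec_mulVec, ← Matrix.mulVec_mulVec, Matrix.dotProduct_mulVec y,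
          Matrix.conjTranspose_eq_transpose_of_trivial, Matrix.vecMul_transpose]
      rw [h1, hdiag]
      simp only [dotProduct, mulVec_diagonal]
      refine Finset.sum_congr rfl fun k _ => ?_
      ring
    have hq3 : ∑ k, ε * hB.eigenvalues k * y k ^ 2 = 0 := by
      rw [hq1] at hq2
      have : ∑ k, ε * hB.eigenvalues k * y k ^ 2 = ε * ∑ k, hB.eigenvalues k * y k ^ 2 := by
        rw [Finset.mul_sum]
        refine Finset.sum_congr rfl fun k _ => ?_
        ring
      rw [this, ← hq2, mul_zero]
    have hnn : ∀ k ∈ univ, 0 ≤ ε * hB.eigenvalues k * y k ^ 2 := by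
      intro k _
      simp only [hy]
      split_ifs with h
      · positivity
      · simp
    rw [Finset.sum_eq_zero_iff_of_nonneg hnn] at hq3
    funext k
    have h1 := hq3 k.1 (mem_univ _)
    simp only [hy] at h1
    rw [dif_pos k.2] at h1
    have h2 : c k ^ 2 = 0 := by
      rcases mul_eq_zero.mp h1 with h | h
      · exact absurd h k.2.ne'
      · exact h
    simpa using h2
  have hfin := LinearMap.finrank_le_finrank_of_injective hinj
  rw [Module.finrank_fintype_fun_eq_card, Module.finrank_fintype_fun_eq_card] at hfin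
  have h1 : Fintype.card K = (univ.filter (fun k => 0 < ε * hB.eigenvalues k)).card :=
    Fintype.card_subtype _
  have h2 : Fintype.card C = Fintype.card V - s.card := by
    rw [Fintype.card_subtype_compl (fun j => j ∈ s)]
    simp
  have h3 : s.card ≤ Fintype.card V := s.card_le_univ
  omega

/-- The sum of the positive eigenvalues is at least the number of positive and the number of
negative eigenvalues. -/
theorem inertia_bound (G : SimpleGraph V) [DecidableRel G.Adj] :
    ((max (((G.adjMatrix ℝ).charpoly.roots.filter (fun x => 0 < x)).card)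
            (((G.adjMatrix ℝ).charpoly.roots.filter (fun x => x < 0)).card) : ℕ) : ℝ)
        ≤ ((G.adjMatrix ℝ).charpoly.roots.filter (fun x => 0 < x)).sum := by
  classical
  have hB : (G.adjMatrix ℝ).IsHermitian := by
    have := G.isSymm_adjMatrix (α := ℝ)
    rw [Matrix.IsHermitian, Matrix.conjTranspose_eq_transpose_of_trivial]
    exact this
  -- a maximum independent set
  obtain ⟨s, hs, hmax⟩ : ∃ s : Finset V, G.IsIndepSet (s : Set V) ∧
      ∀ t : Finset V, G.IsIndepSet (t : Set V) → t.card ≤ s.card := by
    have hne : (univ.filter (fun t : Finset V => G.IsIndepSet (t : Set V))).Nonempty :=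
      ⟨∅, by simp [SimpleGraph.IsIndepSet]⟩
    obtain ⟨s, hs, hmax⟩ := Finset.exists_max_image _ Finset.card hne
    rw [mem_filter] at hs
    exact ⟨s, hs.2, fun t ht => hmax t (by simp [ht])⟩
  have hbound := energy_bound G s hmax
  refine le_trans ?_ hbound
  have hzero : ∀ i ∈ s, ∀ j ∈ s, (G.adjMatrix ℝ) i j = 0 := by
    intro i hi j hj
    rw [SimpleGraph.adjMatrix_apply, if_neg]
    intro hadj
    exact hs (by simpa using hi) (by simpa using hj) hadj.ne hadj
  have hp := inertia _ hB s hzero 1
  have hn := inertia _ hB s hzero (-1)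
  have cp : ((G.adjMatrix ℝ).charpoly.roots.filter (fun x => 0 < x)).card =
      (univ.filter (fun k => 0 < 1 * hB.eigenvalues k)).card := by
    rw [hB.roots_charpoly_eq_eigenvalues, Multiset.filter_map, ← Finset.filter_val,
      Multiset.card_map]
    simp [Finset.card_def]
  have cn : ((G.adjMatrix ℝ).charpoly.roots.filter (fun x => x < 0)).card =
      (univ.filter (fun k => 0 < (-1) * hB.eigenvalues k)).card := by
    rw [hB.roots_charpoly_eq_eigenvalues, Multiset.filter_map, ← Finset.filter_val,
      Multiset.card_map]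
    simp [Finset.card_def]
  rw [cp, cn]
  rw [le_sub_iff_add_le]
  have : max (univ.filter (fun k => 0 < 1 * hB.eigenvalues k)).card
      (univ.filter (fun k => 0 < (-1) * hB.eigenvalues k)).card + s.card ≤ Fintype.card V := by
    rcases le_total (univ.filter (fun k => 0 < 1 * hB.eigenvalues k)).card
      (univ.filter (fun k => 0 < (-1) * hB.eigenvalues k)).card with h | h
    · rw [max_eq_right h]; exact hn
    · rw [max_eq_left h]; exact hp
  exact_mod_cast this

end Pool.Agent.Helper390.Energy
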