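import Mathlib

set_option autoImplicit false
set_option linter.unusedVariables false
set_option linter.unusedSectionVars false

namespace Pool.Agent.LCU

/-! ### integer tree metrics -/

/-- `d` is the path metric of a tree with vertex set `X` -/
structure TreeMetric {X : Type} (d : X → X → ℕ) : Prop where
  self : ∀ x, d x x = 0
  eq : ∀ x y, d x y = 0 → x = y
  symm : ∀ x y, d x y = d y x
  tri : ∀ x y z, d x z ≤ d x y + d y z
  four : ∀ x y z w, d x y + d z w ≤ max (d x z + d y w) (d x w + d y z)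
  med : ∀ x y z, ∃ m, d x m + d m y = d x y ∧ d y m + d m z = d y z ∧ d x m + d m z = d x z
  near : ∀ x y, x ≠ y → ∃ z, d x z = 1 ∧ d z y + 1 = d x y

/-- convex subsets -/
def Cvx {X : Type} (d : X → X → ℕ) (Y : Set X) : Prop :=
  ∀ x ∈ Y, ∀ y ∈ Y, ∀ z, d x z + d z y = d x y → z ∈ Y

/-- `p` is the gate (nearest point) of `x` in `Y` -/
def Gate {X : Type} (d : X → X → ℕ) (Y : Set X) (x p : X) : Prop :=
  p ∈ Y ∧ ∀ y ∈ Y, d x p + d p y = d x y

/-! ### walks in labelled graphs -/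

/-- `Walk A v u w`: the word `u` (letters with signs) can be read along a walk from `v` to `w` in the
graph whose edges with label `a` are the pairs `(x, y)` with `A a x y` -/
def Walk {α V : Type} (A : α → V → V → Prop) : V → List (α × Bool) → V → Prop
  | v, [], w => v = w
  | v, (a, true) :: u, w => ∃ v', A a v v' ∧ Walk A v' u w
  | v, (a, false) :: u, w => ∃ v', A a v' v ∧ Walk A v' u w

/-- the shape graph: path edges `v → v + 1` (label `false`) below `N`, chords `k → ys[k]` (label `true`) -/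
def Shape (N : ℕ) (ys : List ℕ) : Bool → ℕ → ℕ → Prop
  | false, v, w => w = v + 1 ∧ w < N
  | true, v, w => ys[v]? = some w

/-- the labelled graph: edges of the shape graph get the additional label `ξ` -/
def Lab {n : ℕ} (N : ℕ) (ys : List ℕ) (ξ : Bool → ℕ → Fin n) : Bool × Fin n → ℕ → ℕ → Prop :=
  fun c v w => Shape N ys c.1 v w ∧ ξ c.1 v = c.2

/-- admissible chord lists -/
def Adm (N : ℕ) (ys : List ℕ) : Prop := ys.Nodup ∧ ys.length ≤ N ∧ ∀ y ∈ ys, y < N

/-- the shape graph has no reduced closed walk of length less than `ℓ` (except the empty one) -/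
def Girth (N : ℕ) (ys : List ℕ) (ℓ : ℕ) : Prop :=
  ∀ (v : ℕ) (u : List (Bool × Bool)), FreeGroup.IsReduced u → u ≠ [] → u.length < ℓ →
    ¬ Walk (Shape N ys) v u v

/-- no reduced labelled word of length `m` can be read from two different vertices -/
def Piece {n : ℕ} (N : ℕ) (ys : List ℕ) (ξ : Bool → ℕ → Fin n) (m : ℕ) : Prop :=
  ∀ (v v' w w' : ℕ) (u : List ((Bool × Fin n) × Bool)), v ≠ v' → FreeGroup.IsReduced u →
    u.length = m → Walk (Lab N ys ξ) v u w → ¬ Walk (Lab N ys ξ) v' u w'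


/-! ### the windmill -/

section Windmill

variable (F : Type) [Group F] {X I : Type} [MulAction F X] [MulAction F I]

/-- a group `F` acting on a tree `X`, an invariant family of convex subsets `Y α` whose stabilisers move
points of `Y α` by at least `ℓ`, two different members meeting in a set of diameter at most `δ` -/
structure Sys (d : X → X → ℕ) (Y : I → Set X) (δ ℓ : ℕ) : Prop where
  tree : TreeMetric d
  iso : ∀ (f : F) (x y : X), d (f • x) (f • y) = d x y
  ne : ∀ α, (Y α).Nonempty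
  cvx : ∀ α, Cvx d (Y α)
  equi : ∀ (f : F) (α : I) (x : X), x ∈ Y α → f • x ∈ Y (f • α)
  hl : 6 * δ + 5 ≤ ℓ
  move : ∀ (α : I) (g : F), g • α = α → g ≠ 1 → ∀ y ∈ Y α, ℓ ≤ d y (g • y)
  small : ∀ α β : I, α ≠ β → ∀ x y, x ∈ Y α → x ∈ Y β → y ∈ Y α → y ∈ Y β → d x y ≤ δ

/-- the Dehn property of `n` at the base point `x₀` -/
def Dehn (d : X → X → ℕ) (Y : I → Set X) (δ : ℕ) (x₀ : X) (n : F) : Prop :=
  ∃ (α : I) (g : F), g • α = α ∧ g ≠ 1 ∧ ∃ a b : X, Gate d (Y α) x₀ a ∧ b ∈ Y α ∧
    Gate d (Y α) (n • x₀) (g • b) ∧ d a b ≤ 3 * δ + 2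

/-- a stage of the windmill: a convex set `W` and a subgroup `H` preserving it -/
structure Stage (d : X → X → ℕ) (Y : I → Set X) (δ : ℕ) (x₀ : X) (W : Set X) (H : Subgroup F) : Prop where
  cvx : Cvx d W
  inv : ∀ h ∈ H, ∀ x ∈ W, h • x ∈ W
  small : ∀ α : I, MulAction.stabilizer F α ≤ H ∨
    ∀ x ∈ Y α, x ∈ W → ∀ y ∈ Y α, y ∈ W → d x y ≤ 2 * δ
  mem : x₀ ∈ W
  dehn : ∀ n ∈ H, n = 1 ∨ Dehn F d Y δ x₀ n

/-- the 1-neighbourhood -/
def Nbr (d : X → X → ℕ) (W : Set X) : Set X := {x | ∃ w ∈ W, d x w ≤ 1}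

/-- the members of the family which are added in one step -/
def Add (Y : I → Set X) (V : Set X) (H : Subgroup F) : Set I :=
  {α | ¬ MulAction.stabilizer F α ≤ H ∧ ∃ w ∈ V, w ∈ Y α}

/-- the new subgroup -/
def NewH (A : Set I) (H : Subgroup F) : Subgroup F :=
  Subgroup.closure ({h | h ∈ H} ∪ {g | ∃ α ∈ A, g • α = α})

/-- `V` together with the sets `Y α`, `α ∈ A` -/
def Base (Y : I → Set X) (V : Set X) (A : Set I) : Set X := {x | x ∈ V ∨ ∃ α ∈ A, x ∈ Y α}

/-- the new convex set -/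
def NewW (K : Subgroup F) (B : Set X) : Set X := {x | ∃ n ∈ K, ∃ y ∈ B, x = n • y}

/-- the gate of `z` in `Y α` is `δ`-close to a point of `Y α ∩ V` -/
def Near (d : X → X → ℕ) (Y : I → Set X) (δ : ℕ) (V : Set X) (α : I) (z : X) : Prop :=
  ∃ p, Gate d (Y α) z p ∧ ∃ i ∈ Y α, i ∈ V ∧ d p i ≤ δ

/-- normal forms of elements: `n = g₁ ⋯ g_j h`; the last argument is the index of `g₁` -/
inductive NF (A : Set I) (H : Subgroup F) : F → Option I → Prop
  | base (h : F) (hh : h ∈ H) : NF A H h none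
  | cons (α : I) (g n : F) (s : Option I) (hα : α ∈ A) (hg : g • α = α) (hg1 : g ≠ 1)
      (hn : NF A H n s) (hs : s ≠ some α) : NF A H (g * n) (some α)

/-- points reached from `B` by alternating syllables -/
inductive PT (Y : I → Set X) (A : Set I) (B : Set X) : X → Option I → Prop
  | base (z : X) (hz : z ∈ B) : PT Y A B z none
  | step (α : I) (g : F) (z : X) (s : Option I) (hα : α ∈ A) (hg : g • α = α) (hg1 : g ≠ 1)
      (hz : PT Y A B z s) (hs : s ≠ some α) (hn : s = none → z ∉ Y α) : PT Y A B (g • z) (some α)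

end Windmill

theorem red_sub {α : Type*} {L₁ L₂ : List (α × Bool)} (h : FreeGroup.IsReduced L₂)
    (h' : L₁ <:+: L₂) : FreeGroup.IsReduced L₁ := by
  obtain ⟨s, t, rfl⟩ := h'
  unfold FreeGroup.IsReduced at *
  rw [List.isChain_append, List.isChain_append] at h
  exact h.1.2.1

-- ##### tree_basic
theorem gate_exists {X : Type} {d : X → X → ℕ} (hd : TreeMetric d) {Y : Set X} (hY : Cvx d Y)
    (hne : Y.Nonempty) (x : X) : ∃ p, Gate d Y x p := by
  obtain ⟨p, hp, hmin⟩ : ∃ p ∈ Y, ∀ q ∈ Y, d x p ≤ d x q := by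
    have hS : ((fun p => d x p) '' Y).Nonempty := hne.image _
    obtain ⟨p, hp, hpe⟩ := Nat.sInf_mem hS
    refine ⟨p, hp, fun q hq => ?_⟩
    have : d x p = sInf ((fun p => d x p) '' Y) := hpe
    rw [this]
    exact Nat.sInf_le ⟨q, hq, rfl⟩
  refine ⟨p, hp, fun y hy => ?_⟩
  obtain ⟨m, h1, h2, h3⟩ := hd.med x p y
  have hm : m ∈ Y := hY p hp y hy m h2
  have h4 := hmin m hm
  have h5 : d m p = 0 := by omega
  have h6 := hd.eq m p h5
  subst h6
  exact h3

theorem gate_unique {X : Type} {d : X → X → ℕ} (hd : TreeMetric d) {Y : Set X} {x p q : X}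
    (hp : Gate d Y x p) (hq : Gate d Y x q) : p = q := by
  have h1 := hp.2 q hq.1
  have h2 := hq.2 p hp.1
  exact hd.eq p q (by omega)

theorem gate_two {X : Type} {d : X → X → ℕ} (hd : TreeMetric d) {Y : Set X} {x y p q : X}
    (hp : Gate d Y x p) (hq : Gate d Y y q) (hpq : p ≠ q) :
    d x y = d x p + d p q + d q y := by
  have h1 := hp.2 q hq.1
  have h2 := hq.2 p hp.1
  have h3 := hd.four x q y p
  have h4 : d p q ≠ 0 := fun h => hpq (hd.eq p q h)
  have h5 := hd.symm p q
  have h6 := hd.symm y q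
  have h7 := hd.symm y p
  have h8 := hd.tri x p y
  rcases le_max_iff.mp h3 with h | h
  · omega
  · omega

theorem between_or {X : Type} {d : X → X → ℕ} (hd : TreeMetric d) {x y z : X}
    (h : d x z + d z y = d x y) (c : X) : d x z + d z c = d x c ∨ d c z + d z y = d c y := by
  have h3 := hd.four z c x y
  have h5 := hd.symm z x
  have h6 := hd.symm z c
  have h7 := hd.symm c x
  have h8 := hd.tri c z y
  have h9 := hd.tri x z c
  rcases le_max_iff.mp h3 with h | h
  · right; omega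
  · left; omega

theorem cvx_union {X : Type} {d : X → X → ℕ} (hd : TreeMetric d) {A B : Set X} (hA : Cvx d A)
    (hB : Cvx d B) {c : X} (hcA : c ∈ A) (hcB : c ∈ B) : Cvx d (A ∪ B) := by
  intro x hx y hy z hz
  rcases hx with hx | hx <;> rcases hy with hy | hy
  · exact Or.inl (hA x hx y hy z hz)
  · rcases between_or hd hz c with h | h
    · exact Or.inl (hA x hx c hcA z h)
    · exact Or.inr (hB c hcB y hy z h)
  · rcases between_or hd hz c with h | h
    · exact Or.inr (hB x hx c hcB z h)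
    · exact Or.inl (hA c hcA y hy z h)
  · exact Or.inr (hB x hx y hy z hz)

theorem gate_trans {X : Type} {d : X → X → ℕ} (hd : TreeMetric d) {A B : Set X} (hB : Cvx d B)
    {z b p : X} (hb : Gate d B z b) (hne : ∀ a ∈ A, ¬ Gate d B a b) (hp : Gate d A b p) :
    Gate d A z p := by
  have key : ∀ a ∈ A, d z a = d z b + d b a := by
    intro a ha
    obtain ⟨c, hc⟩ := gate_exists hd hB ⟨b, hb.1⟩ a
    have hbc : b ≠ c := by
      rintro rfl
      exact hne a ha hc
    have h1 := gate_two hd hb hc hbc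
    have h2 := hc.2 b hb.1
    have h3 := hd.symm a c
    have h4 := hd.symm c b
    have h5 := hd.symm a b
    omega
  refine ⟨hp.1, fun a ha => ?_⟩
  have h1 := key a ha
  have h2 := key p hp.1
  have h3 := hp.2 a ha
  omega

theorem gate_in {X : Type} {d : X → X → ℕ} (hd : TreeMetric d) {V Y : Set X} (hV : Cvx d V)
    {w x p : X} (hw : w ∈ V) (hwY : w ∈ Y) (hx : x ∈ V) (hp : Gate d Y x p) : p ∈ V :=
  hV x hx w hw p (hp.2 w hwY)

-- ##### nbr
theorem nbr_gate {X : Type} {d : X → X → ℕ} (hd : TreeMetric d) {W : Set X} (hW : Cvx d W)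
    {x : X} (hx : x ∈ Nbr d W) : ∃ p, Gate d W x p ∧ d x p ≤ 1 := by
  obtain ⟨w, hw, hxw⟩ := hx
  obtain ⟨p, hp⟩ := gate_exists hd hW ⟨w, hw⟩ x
  have := hp.2 w hw
  exact ⟨p, hp, by omega⟩

theorem cvx_nbr {X : Type} {d : X → X → ℕ} (hd : TreeMetric d) {W : Set X} (hW : Cvx d W) :
    Cvx d (Nbr d W) := by
  intro x hx y hy z hz
  obtain ⟨p, hp, hxp⟩ := nbr_gate hd hW hx
  obtain ⟨q, hq, hyq⟩ := nbr_gate hd hW hy
  have s1 := hd.symm p y
  have s2 := hd.symm q y
  have s3 := hd.symm z p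
  have s4 := hd.symm z q
  by_cases hpq : p = q
  · subst hpq
    rcases between_or hd hz p with h | h
    · exact ⟨p, hp.1, by omega⟩
    · exact ⟨p, hp.1, by omega⟩
  · rcases between_or hd hz p with h | h
    · exact ⟨p, hp.1, by omega⟩
    · rcases between_or hd h q with h' | h'
      · exact ⟨z, hW p hp.1 q hq.1 z h', by rw [hd.self]; omega⟩
      · exact ⟨q, hq.1, by omega⟩

theorem diam_nbr {X : Type} {d : X → X → ℕ} (hd : TreeMetric d) {W Y : Set X} (hW : Cvx d W)
    (hY : Cvx d Y) (D : ℕ) (h : ∀ x ∈ Y, x ∈ W → ∀ y ∈ Y, y ∈ W → d x y ≤ D) :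
    ∀ x ∈ Y, x ∈ Nbr d W → ∀ y ∈ Y, y ∈ Nbr d W → d x y ≤ D + 2 := by
  intro x hxY hx y hyY hy
  obtain ⟨p, hp, hxp⟩ := nbr_gate hd hW hx
  obtain ⟨q, hq, hyq⟩ := nbr_gate hd hW hy
  have s1 := hd.symm p y
  have s2 := hd.symm q y
  by_cases hpq : p = q
  · subst hpq
    have := hd.tri x p y
    omega
  · have h2 := gate_two hd hp hq hpq
    have t1 := hd.tri p q y
    have t2 := hd.tri x p y
    have t3 := hd.tri x p q
    have t4 := hd.tri x q y
    have hpY : p ∈ Y := hY x hxY y hyY p (by omega)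
    have hqY : q ∈ Y := hY x hxY y hyY q (by omega)
    have h3 := h p hpY hp.1 q hqY hq.1
    omega

-- ##### near
/-- gates of points of `Y β` in `Y α` -/
theorem near_of_mem {F : Type} [Group F] {X I : Type} [MulAction F X] [MulAction F I]
    {d : X → X → ℕ} {Y : I → Set X} {δ ℓ : ℕ} (S : Sys F d Y δ ℓ) {V : Set X} (hV : Cvx d V)
    {α β : I} (hαβ : β ≠ α) {v w : X} (hv : v ∈ V) (hvα : v ∈ Y α) (hw : w ∈ V) (hwβ : w ∈ Y β)
    {z : X} (hz : z ∈ Y β) : Near d Y δ V α z := by
  obtain ⟨p, hp⟩ := gate_exists S.tree (S.cvx α) (S.ne α) z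
  obtain ⟨q, hq⟩ := gate_exists S.tree (S.cvx α) (S.ne α) w
  have hqV : q ∈ V := gate_in S.tree hV hv hvα hw hq
  by_cases hpq : p = q
  · subst hpq
    exact ⟨p, hp, p, hp.1, hqV, by rw [S.tree.self]; exact Nat.zero_le _⟩
  · have h1 := gate_two S.tree hp hq hpq
    have h2 := hq.2 p hp.1
    have h3 := hp.2 q hq.1
    have s1 := S.tree.symm w q
    have s2 := S.tree.symm q p
    have s3 := S.tree.symm w p
    have hpβ : p ∈ Y β := S.cvx β z hz w hwβ p (by omega)
    have hqβ : q ∈ Y β := S.cvx β z hz w hwβ q (by omega)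
    exact ⟨p, hp, q, hq.1, hqV, S.small α β (Ne.symm hαβ) p q hp.1 hpβ hq.1 hqβ⟩

/-- gates of points of `V` in `Y α` -/
theorem near_of_base {F : Type} [Group F] {X I : Type} [MulAction F X] [MulAction F I]
    {d : X → X → ℕ} {Y : I → Set X} {δ ℓ : ℕ} (S : Sys F d Y δ ℓ) {V : Set X} (hV : Cvx d V)
    {α : I} {v : X} (hv : v ∈ V) (hvα : v ∈ Y α) {z : X} (hz : z ∈ V) : Near d Y δ V α z := by
  obtain ⟨p, hp⟩ := gate_exists S.tree (S.cvx α) (S.ne α) z
  have hpV : p ∈ V := gate_in S.tree hV hv hvα hz hp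
  exact ⟨p, hp, p, hp.1, hpV, by rw [S.tree.self]; exact Nat.zero_le _⟩

/-- the gate of a translate -/
theorem gate_smul {F : Type} [Group F] {X I : Type} [MulAction F X] [MulAction F I]
    {d : X → X → ℕ} {Y : I → Set X} {δ ℓ : ℕ} (S : Sys F d Y δ ℓ) {α : I} {z p : X}
    (hp : Gate d (Y α) z p) (g : F) : Gate d (Y (g • α)) (g • z) (g • p) := by
  refine ⟨S.equi g α p hp.1, ?_⟩
  intro y hy
  have h1 : g⁻¹ • y ∈ Y α := by
    have := S.equi g⁻¹ (g • α) y hy
    rwa [inv_smul_smul] at this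
  have h2 := hp.2 _ h1
  have h3 : y = g • (g⁻¹ • y) := by rw [smul_inv_smul]
  rw [h3, S.iso, S.iso, S.iso]
  exact h2

/-- a syllable moves the gate away and makes the gates in the other members close -/
theorem near_step {F : Type} [Group F] {X I : Type} [MulAction F X] [MulAction F I]
    {d : X → X → ℕ} {Y : I → Set X} {δ ℓ : ℕ} (S : Sys F d Y δ ℓ) {V : Set X} (hV : Cvx d V)
    (A : Set I) (hA : ∀ α ∈ A, ∃ w ∈ V, w ∈ Y α)
    (hAs : ∀ α ∈ A, ∀ x ∈ Y α, x ∈ V → ∀ y ∈ Y α, y ∈ V → d x y ≤ 2 * δ + 2)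
    {α : I} (hα : α ∈ A) {g : F} (hg : g • α = α) (hg1 : g ≠ 1) {z : X} (hz : Near d Y δ V α z)
    {β : I} (hβ : β ∈ A) (hβα : β ≠ α) : Near d Y δ V β (g • z) := by
  obtain ⟨p, hp, i, hi, hiV, hpi⟩ := hz
  obtain ⟨wα, hwαV, hwα⟩ := hA α hα
  obtain ⟨wβ, hwβV, hwβ⟩ := hA β hβ
  have hgp : Gate d (Y α) (g • z) (g • p) := by
    have := gate_smul S hp g
    rwa [hg] at this
  have hclaim : ∀ a ∈ Y β, ¬ Gate d (Y α) a (g • p) := by
    intro a ha hga
    obtain ⟨p', hp', i', hi', hi'V, hpi'⟩ := near_of_mem S hV hβα hwαV hwα hwβV hwβ ha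
    have he := gate_unique S.tree hp' hga
    subst he
    have h1 := S.move α g hg hg1 p hp.1
    have h2 := hAs α hα i hi hiV i' hi' hi'V
    have h3 := S.tree.tri p i (g • p)
    have h4 := S.tree.tri i i' (g • p)
    have h5 := S.tree.symm i' (g • p)
    have h6 := S.hl
    omega
  obtain ⟨p'', hp'', i'', hi'', hi''V, hpi''⟩ :=
    near_of_mem S hV (Ne.symm hβα) hwβV hwβ hwαV hwα hgp.1
  exact ⟨p'', gate_trans S.tree (S.cvx α) hgp hclaim hp'', i'', hi'', hi''V, hpi''⟩

-- ##### nf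
theorem nf_left {F : Type} [Group F] {I : Type} [MulAction F I] (A : Set I) (H : Subgroup F)
    (hA : ∀ h ∈ H, ∀ α ∈ A, h • α ∈ A) (h n : F) (s : Option I) (hh : h ∈ H) (hn : NF F A H n s) :
    NF F A H (h * n) (s.map (fun α => h • α)) := by
  induction hn with
  | base g hg => exact NF.base (h * g) (H.mul_mem hh hg)
  | cons α g n s hα hg hg1 hn hs ih =>
    have e : h * (g * n) = (h * g * h⁻¹) * (h * n) := by group
    rw [e]
    refine NF.cons (h • α) (h * g * h⁻¹) (h * n) _ (hA h hh α hα) ?_ ?_ ih ?_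
    · rw [mul_smul, mul_smul, inv_smul_smul, hg]
    · intro h1
      apply hg1
      have : g = h⁻¹ * (h * g * h⁻¹) * h := by group
      rw [this, h1]; group
    · intro h1
      rcases s with _ | β
      · simp at h1
      · simp only [Option.map_some, Option.some.injEq, smul_left_cancel_iff] at h1
        exact hs (by rw [h1])

theorem nf_gen {F : Type} [Group F] {I : Type} [MulAction F I] (A : Set I) (H : Subgroup F)
    (hA : ∀ h ∈ H, ∀ α ∈ A, h • α ∈ A) (x n : F) (s : Option I)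
    (hx : x ∈ H ∨ ∃ α ∈ A, x • α = α) (hn : NF F A H n s) : ∃ s', NF F A H (x * n) s' := by
  rcases hx with hx | ⟨α, hα, hx⟩
  · exact ⟨_, nf_left A H hA x n s hx hn⟩
  · by_cases hx1 : x = 1
    · exact ⟨s, by rw [hx1, one_mul]; exact hn⟩
    by_cases hs : s = some α
    · subst hs
      cases hn with
      | cons _ g n' s' hα' hg hg1 hn' hs' =>
        by_cases h1 : x * g = 1
        · refine ⟨s', ?_⟩
          rw [← mul_assoc, h1, one_mul]
          exact hn'
        · refine ⟨some α, ?_⟩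
          rw [← mul_assoc]
          exact NF.cons α (x * g) n' s' hα (by rw [mul_smul, hg, hx]) h1 hn' hs'
    · exact ⟨some α, NF.cons α x n s hα hx hx1 hn hs⟩

theorem nf_all {F : Type} [Group F] {I : Type} [MulAction F I] (A : Set I) (H : Subgroup F)
    (hA : ∀ h ∈ H, ∀ α ∈ A, h • α ∈ A) : ∀ n ∈ NewH F A H, ∃ s, NF F A H n s := by
  intro n hn
  refine Subgroup.closure_induction_left (p := fun n _ => ∃ s, NF F A H n s) ?_ ?_ ?_ hn
  · exact ⟨none, NF.base 1 H.one_mem⟩
  · rintro x hx y _ ⟨s, hs⟩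
    exact nf_gen A H hA x y s hx hs
  · rintro x hx y _ ⟨s, hs⟩
    refine nf_gen A H hA x⁻¹ y s ?_ hs
    rcases hx with hx | ⟨α, hα, hx⟩
    · exact Or.inl (H.inv_mem hx)
    · exact Or.inr ⟨α, hα, by rw [inv_smul_eq_iff]; exact hx.symm⟩

-- ##### pt
theorem pt_smul {F : Type} [Group F] {X I : Type} [MulAction F X] [MulAction F I]
    {d : X → X → ℕ} {Y : I → Set X} {δ ℓ : ℕ} (S : Sys F d Y δ ℓ) (A : Set I) (H : Subgroup F)
    (hA : ∀ h ∈ H, ∀ α ∈ A, h • α ∈ A) (B : Set X) (hB : ∀ h ∈ H, ∀ x ∈ B, h • x ∈ B)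
    (h : F) (hh : h ∈ H) (z : X) (s : Option I) (hPT : PT F Y A B z s) :
    PT F Y A B (h • z) (s.map (h • ·)) := by
  induction hPT with
  | base z hz => exact PT.base _ (hB h hh z hz)
  | step α g z s hα hg hg1 hz hs hn ih =>
    have e : h • g • z = (h * g * h⁻¹) • (h • z) := by
      rw [mul_smul, mul_smul, inv_smul_smul]
    rw [e]
    refine PT.step (h • α) (h * g * h⁻¹) (h • z) (s.map (h • ·)) (hA h hh α hα) ?_ ?_ ih ?_ ?_
    · rw [mul_smul, mul_smul, inv_smul_smul, hg]
    · intro h1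
      apply hg1
      have h2 : h * g = h := by
        have := congrArg (· * h) h1
        simpa using this
      simpa using h2
    · intro h1
      cases s with
      | none => simp at h1
      | some β =>
        simp only [Option.map_some, Option.some.injEq] at h1
        exact hs (by rw [smul_left_cancel h h1])
    · intro h1 h2
      cases s with
      | none =>
        have h3 := S.equi h⁻¹ _ _ h2
        rw [inv_smul_smul, inv_smul_smul] at h3
        exact hn rfl h3
      | some β => simp at h1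

theorem pt_gen {F : Type} [Group F] {X I : Type} [MulAction F X] [MulAction F I]
    {d : X → X → ℕ} {Y : I → Set X} {δ ℓ : ℕ} (S : Sys F d Y δ ℓ) (A : Set I) (B : Set X)
    (hAB : ∀ α ∈ A, Y α ⊆ B) (x : F) (α : I) (hα : α ∈ A) (hx : x • α = α) (z : X)
    (s : Option I) (hPT : PT F Y A B z s) : ∃ s', PT F Y A B (x • z) s' := by
  by_cases hx1 : x = 1
  · subst hx1
    exact ⟨s, by rwa [one_smul]⟩
  by_cases hs : s = some α
  · subst hs
    cases hPT with
    | step _ g z' s' hα' hg hg1 hz hs hn =>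
      rw [← mul_smul]
      by_cases hxg : x * g = 1
      · rw [hxg, one_smul]
        exact ⟨s', hz⟩
      · exact ⟨some α, PT.step α (x * g) z' s' hα (by rw [mul_smul, hg, hx]) hxg hz hs hn⟩
  · by_cases h2 : s = none ∧ z ∈ Y α
    · refine ⟨none, PT.base _ (hAB α hα ?_)⟩
      have h3 := S.equi x α z h2.2
      rwa [hx] at h3
    · exact ⟨some α, PT.step α x z s hα hx hx1 hPT hs (fun h h' => h2 ⟨h, h'⟩)⟩

theorem pt_all {F : Type} [Group F] {X I : Type} [MulAction F X] [MulAction F I]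
    {d : X → X → ℕ} {Y : I → Set X} {δ ℓ : ℕ} (S : Sys F d Y δ ℓ) (A : Set I) (H : Subgroup F)
    (hA : ∀ h ∈ H, ∀ α ∈ A, h • α ∈ A) (B : Set X) (hB : ∀ h ∈ H, ∀ x ∈ B, h • x ∈ B)
    (hAB : ∀ α ∈ A, Y α ⊆ B) :
    ∀ n ∈ NewH F A H, ∀ y ∈ B, ∃ s, PT F Y A B (n • y) s := by
  intro n hn y hy
  have hgen : ∀ x : F, x ∈ ({h | h ∈ H} ∪ {g | ∃ α ∈ A, g • α = α} : Set F) → ∀ z s,
      PT F Y A B z s → ∃ s', PT F Y A B (x • z) s' := by
    rintro x (hx | ⟨α, hα, hx⟩) z s hPT
    · exact ⟨_, pt_smul S A H hA B hB x hx z s hPT⟩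
    · exact pt_gen S A B hAB x α hα hx z s hPT
  unfold NewH at hn
  induction hn using Subgroup.closure_induction_left with
  | one => exact ⟨none, by rw [one_smul]; exact PT.base y hy⟩
  | mul_left x hx n hn ih =>
    obtain ⟨s, hs⟩ := ih
    rw [mul_smul]
    exact hgen x hx _ s hs
  | inv_mul_cancel x hx n hn ih =>
    obtain ⟨s, hs⟩ := ih
    rw [mul_smul]
    refine hgen x⁻¹ ?_ _ s hs
    rcases hx with hx | ⟨α, hα, hx⟩
    · exact Or.inl (H.inv_mem hx)
    · exact Or.inr ⟨α, hα, by rw [inv_smul_eq_iff, hx]⟩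

-- ##### pt_near
theorem pt_near {F : Type} [Group F] {X I : Type} [MulAction F X] [MulAction F I]
    {d : X → X → ℕ} {Y : I → Set X} {δ ℓ : ℕ} (S : Sys F d Y δ ℓ) {V : Set X} (hV : Cvx d V)
    (A : Set I) (hA : ∀ α ∈ A, ∃ w ∈ V, w ∈ Y α)
    (hAs : ∀ α ∈ A, ∀ x ∈ Y α, x ∈ V → ∀ y ∈ Y α, y ∈ V → d x y ≤ 2 * δ + 2)
    {z : X} {s : Option I} (hz : PT F Y A (Base Y V A) z s) :
    ∀ β ∈ A, s ≠ some β → (s = none → z ∉ Y β) → Near d Y δ V β z := by
  induction hz with
  | base z hz =>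
    intro β hβ _ hzβ
    have hzβ' : z ∉ Y β := hzβ rfl
    obtain ⟨v, hv, hvβ⟩ := hA β hβ
    rcases hz with hzV | ⟨γ, hγ, hzγ⟩
    · exact near_of_base S hV hv hvβ hzV
    · obtain ⟨w, hw, hwγ⟩ := hA γ hγ
      have hne : γ ≠ β := by rintro rfl; exact hzβ' hzγ
      exact near_of_mem S hV hne hv hvβ hw hwγ hzγ
  | step α g z s hα hg hg1 hz hs hn ih =>
    intro β hβ hβα _
    have hne : β ≠ α := by rintro rfl; exact hβα rfl
    have hnear : Near d Y δ V α z := ih α hα hs hn
    exact near_step S hV A hA hAs hα hg hg1 hnear hβ hne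

theorem nf_near {F : Type} [Group F] {X I : Type} [MulAction F X] [MulAction F I]
    {d : X → X → ℕ} {Y : I → Set X} {δ ℓ : ℕ} (S : Sys F d Y δ ℓ) {V : Set X} (hV : Cvx d V)
    (A : Set I) (H : Subgroup F) (hH : ∀ h ∈ H, ∀ x ∈ V, h • x ∈ V)
    (hA : ∀ α ∈ A, ∃ w ∈ V, w ∈ Y α)
    (hAs : ∀ α ∈ A, ∀ x ∈ Y α, x ∈ V → ∀ y ∈ Y α, y ∈ V → d x y ≤ 2 * δ + 2)
    {n : F} {s : Option I} (hn : NF F A H n s) {x : X} (hx : x ∈ V) :
    (∀ β ∈ A, s ≠ some β → Near d Y δ V β (n • x)) ∧
    (∀ α : I, s = some α → ∃ g : F, g • α = α ∧ g ≠ 1 ∧ ∃ b ∈ Y α,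
      Gate d (Y α) (n • x) (g • b) ∧ ∃ i ∈ Y α, i ∈ V ∧ d b i ≤ δ) := by
  induction hn with
  | base h hh =>
    refine ⟨fun β hβ _ => ?_, fun α h => by simp at h⟩
    obtain ⟨v, hv, hvβ⟩ := hA β hβ
    exact near_of_base S hV hv hvβ (hH h hh x hx)
  | cons α g n s hα hg hg1 hn hs ih =>
    have hnear := ih.1 α hα hs
    refine ⟨fun β hβ hβα => ?_, fun α' h => ?_⟩
    · have hne : β ≠ α := by rintro rfl; exact hβα rfl
      rw [mul_smul]
      exact near_step S hV A hA hAs hα hg hg1 hnear hβ hne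
    · obtain rfl := Option.some.inj h
      obtain ⟨p, hp, i, hi, hiV, hpi⟩ := hnear
      refine ⟨g, hg, hg1, p, hp.1, ?_, i, hi, hiV, hpi⟩
      have := gate_smul S hp g
      rw [hg] at this
      rw [mul_smul]; exact this

-- ##### newsmall
theorem newsmall_conj {F : Type} [Group F] {I : Type} [MulAction F I] {K : Subgroup F} {γ : I}
    {g : F} (hg : g ∈ K) (h : MulAction.stabilizer F (g⁻¹ • γ) ≤ K) :
    MulAction.stabilizer F γ ≤ K := by
  intro k hk
  have hk' : k • γ = γ := hk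
  have h1 : g⁻¹ * k * g ∈ K := by
    apply h
    show (g⁻¹ * k * g) • (g⁻¹ • γ) = g⁻¹ • γ
    rw [smul_smul, mul_assoc, mul_inv_cancel, mul_one, mul_smul, hk']
  have h2 : g * (g⁻¹ * k * g) * g⁻¹ ∈ K := K.mul_mem (K.mul_mem hg h1) (K.inv_mem hg)
  have h3 : g * (g⁻¹ * k * g) * g⁻¹ = k := by group
  rwa [h3] at h2

theorem new_small {F : Type} [Group F] {X I : Type} [MulAction F X] [MulAction F I]
    {d : X → X → ℕ} {Y : I → Set X} {δ ℓ : ℕ} (S : Sys F d Y δ ℓ) {V : Set X} (hV : Cvx d V)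
    (A : Set I) (K : Subgroup F) (hA : ∀ α ∈ A, ∃ w ∈ V, w ∈ Y α)
    (hAs : ∀ α ∈ A, ∀ x ∈ Y α, x ∈ V → ∀ y ∈ Y α, y ∈ V → d x y ≤ 2 * δ + 2)
    (hAK : ∀ α ∈ A, MulAction.stabilizer F α ≤ K)
    (hK : ∀ α : I, (∃ w ∈ V, w ∈ Y α) → MulAction.stabilizer F α ≤ K)
    {z₂ : X} {s : Option I} (hz : PT F Y A (Base Y V A) z₂ s) :
    ∀ (γ : I) (z₁ : X), ¬ MulAction.stabilizer F γ ≤ K → z₁ ∈ Base Y V A → z₁ ∈ Y γ → z₂ ∈ Y γ →
      d z₁ z₂ ≤ 2 * δ := by
  induction hz with
  | base z₂ hz₂ =>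
    intro γ z₁ hγ h₁ h₁γ h₂γ
    have hV' : ∀ w, w ∈ V → w ∉ Y γ := fun w hw hw' => hγ (hK γ ⟨w, hw, hw'⟩)
    have hne : ∀ α ∈ A, α ≠ γ := fun α hα h => hγ (h ▸ hAK α hα)
    obtain ⟨α, hα, h₁α⟩ : ∃ α ∈ A, z₁ ∈ Y α := by
      rcases h₁ with h | h
      · exact absurd h₁γ (hV' _ h)
      · exact h
    obtain ⟨β, hβ, h₂β⟩ : ∃ α ∈ A, z₂ ∈ Y α := by
      rcases hz₂ with h | h
      · exact absurd h₂γ (hV' _ h)
      · exact h
    by_cases hαβ : α = β
    · subst hαβ
      have := S.small α γ (hne α hα) z₁ z₂ h₁α h₁γ h₂β h₂γ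
      omega
    · obtain ⟨p, hp⟩ := gate_exists S.tree (S.cvx α) (S.ne α) z₂
      have hpz := hp.2 z₁ h₁α
      have hpγ : p ∈ Y γ := S.cvx γ z₂ h₂γ z₁ h₁γ p hpz
      have hd1 := S.small α γ (hne α hα) z₁ p h₁α h₁γ hp.1 hpγ
      obtain ⟨w, hwV, hwβ⟩ := hA β hβ
      obtain ⟨v, hvV, hvα⟩ := hA α hα
      obtain ⟨q, hq⟩ := gate_exists S.tree (S.cvx α) (S.ne α) w
      have hqV : q ∈ V := gate_in S.tree hV hvV hvα hwV hq
      have hpq : p ≠ q := by
        intro h
        exact hV' q hqV (h ▸ hpγ)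
      have h2 := gate_two S.tree hp hq hpq
      have h3 := hq.2 p hp.1
      have e1 := S.tree.symm w q
      have e2 := S.tree.symm q p
      have e3 := S.tree.symm w p
      have hpβ : p ∈ Y β := S.cvx β z₂ h₂β w hwβ p (by omega)
      have hd2 := S.small β γ (hne β hβ) p z₂ hpβ hpγ h₂β h₂γ
      have := S.tree.tri z₁ p z₂
      omega
  | step α g z s hα hg hg1 hz' hs hn ih =>
    intro γ z₁ hγ h₁ h₁γ h₂γ
    have hgK : g ∈ K := hAK α hα hg
    have hne : ∀ α ∈ A, α ≠ γ := fun α hα h => hγ (h ▸ hAK α hα)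
    by_cases h₁α : z₁ ∈ Y α
    · have hg' : g⁻¹ • α = α := by rw [inv_smul_eq_iff, hg]
      have a1 : g⁻¹ • z₁ ∈ Y α := by
        have := S.equi g⁻¹ α z₁ h₁α
        rwa [hg'] at this
      have a2 : g⁻¹ • z₁ ∈ Y (g⁻¹ • γ) := S.equi g⁻¹ γ z₁ h₁γ
      have a3 : z ∈ Y (g⁻¹ • γ) := by
        have := S.equi g⁻¹ γ (g • z) h₂γ
        rwa [inv_smul_smul] at this
      have a4 := ih (g⁻¹ • γ) (g⁻¹ • z₁) (fun h => hγ (newsmall_conj hgK h))
        (Or.inr ⟨α, hα, a1⟩) a2 a3
      have a5 := S.iso g (g⁻¹ • z₁) z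
      rw [smul_inv_smul] at a5
      rw [a5]
      exact a4
    · obtain ⟨v, hvV, hvα⟩ := hA α hα
      have hN1 : Near d Y δ V α z₁ := by
        rcases h₁ with h | ⟨β, hβ, h₁β⟩
        · exact near_of_base S hV hvV hvα h
        · obtain ⟨w, hwV, hwβ⟩ := hA β hβ
          have hβα : β ≠ α := by
            rintro rfl
            exact h₁α h₁β
          exact near_of_mem S hV hβα hvV hvα hwV hwβ h₁β
      obtain ⟨p₁, hp₁, i₁, hi₁α, hi₁V, hd₁⟩ := hN1
      obtain ⟨b, hb, i, hiα, hiV, hd₂⟩ := pt_near S hV A hA hAs hz' α hα hs hn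
      have hgb := gate_smul S hb g
      rw [hg] at hgb
      have m1 := S.move α g hg hg1 b hb.1
      have m2 := S.hl
      have m3 := hAs α hα i hiα hiV i₁ hi₁α hi₁V
      have t1 := S.tree.tri b i i₁
      have t2 := S.tree.tri b i₁ p₁
      have t3 := S.tree.symm i₁ p₁
      have t4 := S.tree.tri b p₁ (g • b)
      have hpg : p₁ ≠ g • b := by
        intro h
        have := S.tree.self (g • b)
        rw [h] at t4 t2 t3 hd₁
        omega
      have h2 := gate_two S.tree hp₁ hgb hpg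
      have h3 := hgb.2 p₁ hp₁.1
      have h4 := hp₁.2 (g • b) hgb.1
      have e1 := S.tree.symm (g • z) (g • b)
      have e2 := S.tree.symm (g • b) p₁
      have e3 := S.tree.symm (g • z) p₁
      have c1 : p₁ ∈ Y γ := S.cvx γ z₁ h₁γ (g • z) h₂γ p₁ (by omega)
      have c2 : g • b ∈ Y γ := S.cvx γ z₁ h₁γ (g • z) h₂γ (g • b) (by omega)
      have c3 := S.small α γ (hne α hα) p₁ (g • b) hp₁.1 c1 hgb.1 c2
      omega

-- ##### newcvx
theorem newcvx_aux {F : Type} [Group F] {X I : Type} [MulAction F X] [MulAction F I]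
    {d : X → X → ℕ} {Y : I → Set X} {δ ℓ : ℕ} (S : Sys F d Y δ ℓ) {V : Set X} (hV : Cvx d V)
    (A : Set I) (hA : ∀ α ∈ A, ∃ w ∈ V, w ∈ Y α) {x : X} (hx : x ∈ Base Y V A) :
    ∃ T : Set X, Cvx d T ∧ x ∈ T ∧ T ⊆ Base Y V A ∧ V ⊆ T ∧ V.Nonempty := by
  rcases hx with hx | ⟨α, hα, hx⟩
  · exact ⟨V, hV, hx, fun y hy => Or.inl hy, le_rfl, ⟨x, hx⟩⟩
  · obtain ⟨w, hw, hw'⟩ := hA α hα
    refine ⟨V ∪ Y α, cvx_union S.tree hV (S.cvx α) hw hw', Or.inr hx, ?_,
      Set.subset_union_left, ⟨w, hw⟩⟩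
    rintro y (hy | hy)
    · exact Or.inl hy
    · exact Or.inr ⟨α, hα, hy⟩

theorem base_cvx {F : Type} [Group F] {X I : Type} [MulAction F X] [MulAction F I]
    {d : X → X → ℕ} {Y : I → Set X} {δ ℓ : ℕ} (S : Sys F d Y δ ℓ) {V : Set X} (hV : Cvx d V)
    (A : Set I) (hA : ∀ α ∈ A, ∃ w ∈ V, w ∈ Y α) : Cvx d (Base Y V A) := by
  intro x hx y hy z hz
  obtain ⟨T, hT, hxT, hTB, hVT, v, hv⟩ := newcvx_aux S hV A hA hx
  obtain ⟨T', hT', hyT, hTB', hVT', -⟩ := newcvx_aux S hV A hA hy
  have h := cvx_union S.tree hT hT' (hVT hv) (hVT' hv) x (Or.inl hxT) y (Or.inr hyT) z hz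
  rcases h with h | h
  · exact hTB h
  · exact hTB' h

theorem newcvx_base {F : Type} [Group F] {X I : Type} [MulAction F X] [MulAction F I]
    {d : X → X → ℕ} {Y : I → Set X} {δ ℓ : ℕ} (S : Sys F d Y δ ℓ) {V : Set X}
    (A : Set I) (H : Subgroup F) (hH : ∀ h ∈ H, ∀ x ∈ V, h • x ∈ V)
    (hAH : ∀ h ∈ H, ∀ α ∈ A, h • α ∈ A) {h : F} (hh : h ∈ H) {x : X} (hx : x ∈ Base Y V A) :
    h • x ∈ Base Y V A := by
  rcases hx with hx | ⟨α, hα, hx⟩
  · exact Or.inl (hH h hh x hx)
  · exact Or.inr ⟨h • α, hAH h hh α hα, S.equi h α x hx⟩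

theorem newcvx_smul {F : Type} [Group F] {X : Type} [MulAction F X]
    {K : Subgroup F} {B : Set X} {m : F} (hm : m ∈ K) {z : X} (hz : m⁻¹ • z ∈ NewW F K B) :
    z ∈ NewW F K B := by
  obtain ⟨n, hn, y, hy, h⟩ := hz
  refine ⟨m * n, K.mul_mem hm hn, y, hy, ?_⟩
  rw [mul_smul, ← h, smul_inv_smul]

theorem newcvx_between {F : Type} [Group F] {X I : Type} [MulAction F X] [MulAction F I]
    {d : X → X → ℕ} {Y : I → Set X} {δ ℓ : ℕ} (S : Sys F d Y δ ℓ) (m : F) {x y z : X}
    (h : d (m • x) z + d z (m • y) = d (m • x) (m • y)) :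
    d x (m⁻¹ • z) + d (m⁻¹ • z) y = d x y := by
  have h1 : d x (m⁻¹ • z) = d (m • x) z := by
    rw [← S.iso m x (m⁻¹ • z), smul_inv_smul]
  have h2 : d (m⁻¹ • z) y = d z (m • y) := by
    rw [← S.iso m (m⁻¹ • z) y, smul_inv_smul]
  rw [h1, h2, h, S.iso]

theorem newcvx_step {F : Type} [Group F] {X I : Type} [MulAction F X] [MulAction F I]
    {d : X → X → ℕ} {Y : I → Set X} {δ ℓ : ℕ} (S : Sys F d Y δ ℓ) {V : Set X} (hV : Cvx d V)
    (A : Set I) (H : Subgroup F) (hH : ∀ h ∈ H, ∀ x ∈ V, h • x ∈ V)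
    (hAH : ∀ h ∈ H, ∀ α ∈ A, h • α ∈ A)
    (hA : ∀ α ∈ A, ∃ w ∈ V, w ∈ Y α) (s n : F)
    (hs : s ∈ ({h | h ∈ H} ∪ {g | ∃ α ∈ A, g • α = α} : Set F))
    (hn : ∀ x ∈ Base Y V A, ∀ y ∈ Base Y V A, ∀ z, d x z + d z (n • y) = d x (n • y) →
      z ∈ NewW F (NewH F A H) (Base Y V A)) :
    ∀ x ∈ Base Y V A, ∀ y ∈ Base Y V A, ∀ z, d x z + d z ((s * n) • y) = d x ((s * n) • y) →
      z ∈ NewW F (NewH F A H) (Base Y V A) := by
  intro x hx y hy z hz
  have hsK : s ∈ NewH F A H := Subgroup.subset_closure hs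
  rw [mul_smul] at hz
  rcases hs with hs | ⟨α, hα, hs⟩
  · have hs' : s ∈ H := hs
    have hx' : s⁻¹ • x ∈ Base Y V A := newcvx_base S A H hH hAH (H.inv_mem hs') hx
    refine newcvx_smul hsK (hn _ hx' y hy _ ?_)
    apply newcvx_between S s
    rw [smul_inv_smul]
    exact hz
  · obtain ⟨c, hc⟩ := S.ne α
    have hc' : s • c ∈ Y α := by
      have := S.equi s α c hc
      rwa [hs] at this
    rcases between_or S.tree hz (s • c) with h | h
    · refine ⟨1, (NewH F A H).one_mem, z, ?_, (one_smul F z).symm⟩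
      exact base_cvx S hV A hA x hx (s • c) (Or.inr ⟨α, hα, hc'⟩) z h
    · exact newcvx_smul hsK (hn c (Or.inr ⟨α, hα, hc⟩) y hy _ (newcvx_between S s h))

theorem newcvx_all {F : Type} [Group F] {X I : Type} [MulAction F X] [MulAction F I]
    {d : X → X → ℕ} {Y : I → Set X} {δ ℓ : ℕ} (S : Sys F d Y δ ℓ) {V : Set X} (hV : Cvx d V)
    (A : Set I) (H : Subgroup F) (hH : ∀ h ∈ H, ∀ x ∈ V, h • x ∈ V)
    (hAH : ∀ h ∈ H, ∀ α ∈ A, h • α ∈ A)
    (hA : ∀ α ∈ A, ∃ w ∈ V, w ∈ Y α) (n : F) (hnK : n ∈ NewH F A H) :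
    ∀ x ∈ Base Y V A, ∀ y ∈ Base Y V A, ∀ z, d x z + d z (n • y) = d x (n • y) →
      z ∈ NewW F (NewH F A H) (Base Y V A) := by
  unfold NewH at hnK
  induction hnK using Subgroup.closure_induction_left with
  | one =>
    intro x hx y hy z hz
    rw [one_smul] at hz
    exact ⟨1, (NewH F A H).one_mem, z, base_cvx S hV A hA x hx y hy z hz, (one_smul F z).symm⟩
  | mul_left s hs n hn ih => exact newcvx_step S hV A H hH hAH hA s n hs ih
  | inv_mul_cancel s hs n hn ih =>
    refine newcvx_step S hV A H hH hAH hA s⁻¹ n ?_ ih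
    rcases hs with hs | ⟨α, hα, hs⟩
    · exact Or.inl (H.inv_mem hs)
    · exact Or.inr ⟨α, hα, inv_smul_eq_iff.2 hs.symm⟩

theorem new_cvx {F : Type} [Group F] {X I : Type} [MulAction F X] [MulAction F I]
    {d : X → X → ℕ} {Y : I → Set X} {δ ℓ : ℕ} (S : Sys F d Y δ ℓ) {V : Set X} (hV : Cvx d V)
    (A : Set I) (H : Subgroup F) (hH : ∀ h ∈ H, ∀ x ∈ V, h • x ∈ V)
    (hAH : ∀ h ∈ H, ∀ α ∈ A, h • α ∈ A)
    (hA : ∀ α ∈ A, ∃ w ∈ V, w ∈ Y α) : Cvx d (NewW F (NewH F A H) (Base Y V A)) := by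
  rintro _ ⟨m, hm, x, hx, rfl⟩ _ ⟨m', hm', y, hy, rfl⟩ z hz
  refine newcvx_smul hm ?_
  refine newcvx_all S hV A H hH hAH hA (m⁻¹ * m')
    ((NewH F A H).mul_mem ((NewH F A H).inv_mem hm) hm') x hx y hy _ ?_
  apply newcvx_between S m
  rw [mul_smul, smul_inv_smul]
  exact hz

-- ##### step
theorem step_stab {F : Type} [Group F] {I : Type} [MulAction F I] {K : Subgroup F} {k : F}
    (hk : k ∈ K) {α : I} (h : MulAction.stabilizer F (k • α) ≤ K) :
    MulAction.stabilizer F α ≤ K := by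
  intro g hg
  rw [MulAction.mem_stabilizer_iff] at hg
  have h1 : k * g * k⁻¹ ∈ MulAction.stabilizer F (k • α) := by
    rw [MulAction.mem_stabilizer_iff, smul_smul, inv_mul_cancel_right, mul_smul, hg]
  have h2 := K.mul_mem (K.mul_mem (K.inv_mem hk) (h h1)) hk
  have h3 : k⁻¹ * (k * g * k⁻¹) * k = g := by group
  rwa [h3] at h2

theorem step_nf_none {F : Type} [Group F] {I : Type} [MulAction F I] {A : Set I} {H : Subgroup F}
    {n : F} (h : NF F A H n none) : n ∈ H := by
  cases h with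
  | base _ hh => exact hh

theorem step_nf_some {F : Type} [Group F] {I : Type} [MulAction F I] {A : Set I} {H : Subgroup F}
    {n : F} {α : I} (h : NF F A H n (some α)) : α ∈ A := by
  cases h with
  | cons _ _ _ _ hα => exact hα

theorem stage_step {F : Type} [Group F] {X I : Type} [MulAction F X] [MulAction F I]
    {d : X → X → ℕ} {Y : I → Set X} {δ ℓ : ℕ} (S : Sys F d Y δ ℓ) {x₀ : X} {W : Set X}
    {H : Subgroup F} (h : Stage F d Y δ x₀ W H) :
    ∃ (W' : Set X) (H' : Subgroup F), Stage F d Y δ x₀ W' H' ∧ H ≤ H' ∧ Nbr d W ⊆ W' ∧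
      ∀ α : I, (∃ w ∈ W, w ∈ Y α) → MulAction.stabilizer F α ≤ H' := by
  have hV : Cvx d (Nbr d W) := cvx_nbr S.tree h.cvx
  have hH : ∀ k ∈ H, ∀ x ∈ Nbr d W, k • x ∈ Nbr d W := by
    rintro k hk x ⟨w, hw, hxw⟩
    exact ⟨k • w, h.inv k hk w hw, by rw [S.iso]; exact hxw⟩
  have hWV : ∀ w ∈ W, w ∈ Nbr d W := fun w hw => ⟨w, hw, by rw [S.tree.self]; exact Nat.zero_le 1⟩
  obtain ⟨A, hAdef⟩ : ∃ A, A = Add F Y (Nbr d W) H := ⟨_, rfl⟩
  have hA : ∀ α ∈ A, ∃ w ∈ Nbr d W, w ∈ Y α := by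
    intro α hα
    rw [hAdef] at hα
    exact hα.2
  have hAn : ∀ α ∈ A, ¬ MulAction.stabilizer F α ≤ H := by
    intro α hα
    rw [hAdef] at hα
    exact hα.1
  have hAH : ∀ k ∈ H, ∀ α ∈ A, k • α ∈ A := by
    intro k hk α hα
    obtain ⟨w, hw, hwY⟩ := hA α hα
    rw [hAdef]
    exact ⟨fun hc => hAn α hα (step_stab hk hc), k • w, hH k hk w hw, S.equi k α w hwY⟩
  have hAs : ∀ α ∈ A, ∀ x ∈ Y α, x ∈ Nbr d W → ∀ y ∈ Y α, y ∈ Nbr d W → d x y ≤ 2 * δ + 2 := by
    intro α hα
    exact diam_nbr S.tree h.cvx (S.cvx α) (2 * δ) ((h.small α).resolve_left (hAn α hα))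
  obtain ⟨H', hH'def⟩ : ∃ H', H' = NewH F A H := ⟨_, rfl⟩
  have hHH' : H ≤ H' := by
    intro k hk
    rw [hH'def]
    exact Subgroup.subset_closure (Or.inl hk)
  have hAK : ∀ α ∈ A, MulAction.stabilizer F α ≤ H' := by
    intro α hα g hg
    rw [hH'def]
    exact Subgroup.subset_closure (Or.inr ⟨α, hα, hg⟩)
  have hK : ∀ α : I, (∃ w ∈ Nbr d W, w ∈ Y α) → MulAction.stabilizer F α ≤ H' := by
    intro α hα
    by_cases hc : MulAction.stabilizer F α ≤ H
    · exact hc.trans hHH'
    · exact hAK α (by rw [hAdef]; exact ⟨hc, hα⟩)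
  have hVB : ∀ x ∈ Nbr d W, x ∈ NewW F H' (Base Y (Nbr d W) A) := fun x hx =>
    ⟨1, H'.one_mem, x, Or.inl hx, (one_smul F x).symm⟩
  have hB : ∀ k ∈ H, ∀ x ∈ Base Y (Nbr d W) A, k • x ∈ Base Y (Nbr d W) A := by
    rintro k hk x (hx | ⟨α, hα, hx⟩)
    · exact Or.inl (hH k hk x hx)
    · exact Or.inr ⟨k • α, hAH k hk α hα, S.equi k α x hx⟩
  have hAB : ∀ α ∈ A, Y α ⊆ Base Y (Nbr d W) A := fun α hα x hx => Or.inr ⟨α, hα, hx⟩
  have hx₀ : x₀ ∈ Nbr d W := hWV x₀ h.mem
  refine ⟨NewW F H' (Base Y (Nbr d W) A), H', ⟨?_, ?_, ?_, hVB x₀ hx₀, ?_⟩, hHH',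
    fun x hx => hVB x hx, fun α hα => hK α ?_⟩
  · rw [hH'def]
    exact new_cvx S hV A H hH hAH hA
  · rintro k hk x ⟨n, hn, y, hy, rfl⟩
    exact ⟨k * n, H'.mul_mem hk hn, y, hy, smul_smul k n y⟩
  · intro γ
    by_cases hγ : MulAction.stabilizer F γ ≤ H'
    · exact Or.inl hγ
    · right
      rintro x hxγ ⟨m, hm, x', hx', rfl⟩ y hyγ ⟨m', hm', y', hy', rfl⟩
      have hmm : m⁻¹ * m' ∈ H' := H'.mul_mem (H'.inv_mem hm) hm'
      obtain ⟨s, hs⟩ := pt_all S A H hAH (Base Y (Nbr d W) A) hB hAB (m⁻¹ * m')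
        (by rw [← hH'def]; exact hmm) y' hy'
      have h1 := new_small S hV A H' hA hAs hAK hK hs (m⁻¹ • γ) x'
        (fun hc => hγ (step_stab (H'.inv_mem hm) hc)) hx'
        (by
          have := S.equi m⁻¹ γ _ hxγ
          rwa [inv_smul_smul] at this)
        (by
          have := S.equi m⁻¹ γ _ hyγ
          rwa [smul_smul] at this)
      have h2 := S.iso m x' ((m⁻¹ * m') • y')
      rw [smul_smul, mul_inv_cancel_left] at h2
      rw [h2]
      exact h1
  · intro n hn
    rw [hH'def] at hn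
    obtain ⟨s, hs⟩ := nf_all A H hAH n hn
    rcases s with _ | α
    · exact h.dehn n (step_nf_none hs)
    · right
      have hα := step_nf_some hs
      obtain ⟨g, hg, hg1, b, hb, hgb, i, hiY, hiV, hbi⟩ :=
        (nf_near S hV A H hH hA hAs hs hx₀).2 α rfl
      obtain ⟨a, ha⟩ := gate_exists S.tree (S.cvx α) (S.ne α) x₀
      have haV := gate_in S.tree hV hiV hiY hx₀ ha
      have h1 := hAs α hα a ha.1 haV i hiY hiV
      have h2 := S.tree.tri a i b
      have h3 := S.tree.symm i b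
      exact ⟨α, g, hg, hg1, a, b, ha, hb, hgb, by omega⟩
  · obtain ⟨w, hw, hwY⟩ := hα
    exact ⟨w, hWV w hw, hwY⟩

-- ##### windmill
theorem windmill_seq {F : Type} [Group F] {X I : Type} [MulAction F X] [MulAction F I]
    {d : X → X → ℕ} {Y : I → Set X} {δ ℓ : ℕ} (S : Sys F d Y δ ℓ) (x₀ : X) :
    ∃ (W : ℕ → Set X) (H : ℕ → Subgroup F), (∀ k, Stage F d Y δ x₀ (W k) (H k)) ∧
      (∀ k, H k ≤ H (k + 1)) ∧ (∀ k, Nbr d (W k) ⊆ W (k + 1)) ∧
      ∀ k (α : I), (∃ w ∈ W k, w ∈ Y α) → MulAction.stabilizer F α ≤ H (k + 1) := by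
  have init : Stage F d Y δ x₀ ({x₀} : Set X) (⊥ : Subgroup F) := by
    refine ⟨?_, ?_, ?_, rfl, ?_⟩
    · intro x hx y hy z hz
      rw [Set.mem_singleton_iff] at hx hy ⊢
      rw [hx, hy, S.tree.self] at hz
      exact (S.tree.eq x₀ z (by omega)).symm
    · intro h hh x hx
      rw [Subgroup.mem_bot] at hh
      rw [hh, one_smul]
      exact hx
    · intro α
      right
      intro x _ hx y _ hy
      rw [Set.mem_singleton_iff] at hx hy
      rw [hx, hy, S.tree.self]
      omega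
    · intro n hn
      left
      exact Subgroup.mem_bot.mp hn
  have step : ∀ p : {p : Set X × Subgroup F // Stage F d Y δ x₀ p.1 p.2},
      ∃ q : {p : Set X × Subgroup F // Stage F d Y δ x₀ p.1 p.2},
        p.1.2 ≤ q.1.2 ∧ Nbr d p.1.1 ⊆ q.1.1 ∧
        ∀ α : I, (∃ w ∈ p.1.1, w ∈ Y α) → MulAction.stabilizer F α ≤ q.1.2 := by
    rintro ⟨⟨W, H⟩, h⟩
    obtain ⟨W', H', a1, a2, a3, a4⟩ := stage_step S h
    exact ⟨⟨(W', H'), a1⟩, a2, a3, a4⟩
  choose nxt hn1 hn2 hn3 using step
  refine ⟨fun k => (nxt^[k] ⟨({x₀}, ⊥), init⟩).1.1, fun k => (nxt^[k] ⟨({x₀}, ⊥), init⟩).1.2,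
    fun k => (nxt^[k] ⟨({x₀}, ⊥), init⟩).2, ?_, ?_, ?_⟩
  · intro k
    simp only [Function.iterate_succ_apply']
    exact hn1 _
  · intro k
    simp only [Function.iterate_succ_apply']
    exact hn2 _
  · intro k
    simp only [Function.iterate_succ_apply']
    exact hn3 _

theorem windmill_all {F : Type} [Group F] {X I : Type} [MulAction F X] [MulAction F I]
    {d : X → X → ℕ} {Y : I → Set X} {δ ℓ : ℕ} (S : Sys F d Y δ ℓ) (x₀ : X) (n : F)
    (hn : n ∈ Subgroup.closure {g : F | ∃ α : I, g • α = α}) : n = 1 ∨ Dehn F d Y δ x₀ n := by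
  obtain ⟨W, H, hS, hH, hN, hst⟩ := windmill_seq S x₀
  have hmono : Monotone H := monotone_nat_of_le_succ hH
  have hball : ∀ k x, d x₀ x ≤ k → x ∈ W k := by
    intro k
    induction k with
    | zero =>
      intro x hx
      have : x₀ = x := S.tree.eq x₀ x (by omega)
      rw [← this]
      exact (hS 0).mem
    | succ k ih =>
      intro x hx
      by_cases hxx : x = x₀
      · rw [hxx]; exact (hS _).mem
      · obtain ⟨z, hz1, hz2⟩ := S.tree.near x x₀ hxx
        apply hN k
        refine ⟨z, ih z ?_, by omega⟩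
        rw [S.tree.symm x₀ z]
        rw [S.tree.symm x₀ x] at hx
        omega
  have hex : ∃ k, n ∈ H k := by
    induction hn using Subgroup.closure_induction with
    | mem g hg =>
      obtain ⟨α, hα⟩ := hg
      obtain ⟨y, hy⟩ := S.ne α
      exact ⟨d x₀ y + 1, hst (d x₀ y) α ⟨y, hball _ y le_rfl, hy⟩ (MulAction.mem_stabilizer_iff.mpr hα)⟩
    | one => exact ⟨0, (H 0).one_mem⟩
    | mul x y _ _ hx hy =>
      obtain ⟨k1, hk1⟩ := hx
      obtain ⟨k2, hk2⟩ := hy
      exact ⟨max k1 k2, (H _).mul_mem (hmono (le_max_left _ _) hk1) (hmono (le_max_right _ _) hk2)⟩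
    | inv x _ hx =>
      obtain ⟨k1, hk1⟩ := hx
      exact ⟨k1, (H _).inv_mem hk1⟩
  obtain ⟨k, hk⟩ := hex
  exact (hS k).dehn n hk

theorem windmill {F : Type} [Group F] {X I : Type} [MulAction F X] [MulAction F I]
    {d : X → X → ℕ} {Y : I → Set X} {δ ℓ : ℕ} (S : Sys F d Y δ ℓ) (x₀ : X) (n : F)
    (hn : n ∈ Subgroup.closure {g : F | ∃ α : I, g • α = α}) (α : I) (h1 : x₀ ∈ Y α)
    (h2 : n • x₀ ∈ Y α) : n • α = α := by
  classical
  have hex : ∃ v : ℕ, ∃ g : F, g • α = α ∧ d x₀ ((g * n) • x₀) = v := ⟨_, 1, one_smul _ _, rfl⟩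
  obtain ⟨g, hg, hgv⟩ := Nat.find_spec hex
  have hmin : ∀ g' : F, g' • α = α → d x₀ ((g * n) • x₀) ≤ d x₀ ((g' * n) • x₀) := by
    intro g' hg'
    rw [hgv]
    exact Nat.find_min' hex ⟨g', hg', rfl⟩
  have hmN : g * n ∈ Subgroup.closure {g : F | ∃ α : I, g • α = α} :=
    mul_mem (Subgroup.subset_closure ⟨α, hg⟩) hn
  have hmY : (g * n) • x₀ ∈ Y α := by
    have := S.equi g α (n • x₀) h2
    rw [hg, ← mul_smul] at this
    exact this
  rcases windmill_all S x₀ (g * n) hmN with h | ⟨β, g', hg', hg'1, a, b, Ga, hb, Gb, hab⟩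
  · have hn' : n = g⁻¹ := eq_inv_of_mul_eq_one_right h
    rw [hn', inv_smul_eq_iff, hg]
  · exfalso
    generalize hm : (g * n) • x₀ = mx at *
    have hl := S.hl
    have hmove := S.move β g' hg' hg'1 b hb
    have t1 := S.tree.tri b a (g' • b)
    have s1 := S.tree.symm b a
    have hne : a ≠ g' • b := by
      intro h
      rw [← h] at hmove
      omega
    have g2 := gate_two S.tree Ga Gb hne
    have t2 := S.tree.tri a (g' • b) mx
    have t3 := S.tree.tri x₀ a mx
    have t4 := S.tree.tri x₀ a (g' • b)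
    have t5 := S.tree.tri x₀ (g' • b) mx
    have s2 := S.tree.symm (g' • b) mx
    have ha : a ∈ Y α := S.cvx α x₀ h1 mx hmY a (by omega)
    have hgb : g' • b ∈ Y α := S.cvx α x₀ h1 mx hmY (g' • b) (by omega)
    have hβ : β = α := by
      by_contra hne'
      have := S.small β α hne' a (g' • b) Ga.1 ha Gb.1 hgb
      omega
    subst hβ
    have e1 := Ga.2 x₀ h1
    rw [S.tree.self] at e1
    have e2 := Gb.2 mx hmY
    rw [S.tree.self] at e2
    have ea : x₀ = a := S.tree.eq _ _ (by omega)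
    have eb : mx = g' • b := S.tree.eq _ _ (by omega)
    have hfix : (g'⁻¹ * g) • β = β := by
      rw [mul_smul, hg, inv_smul_eq_iff, hg']
    have hh := hmin (g'⁻¹ * g) hfix
    rw [mul_assoc, mul_smul, hm, eb, inv_smul_smul] at hh
    rw [← ea] at hab t1 s1
    omega

-- ##### freetree
/-- the word metric of a free group -/
def wd {α : Type} [DecidableEq α] (x y : FreeGroup α) : ℕ := (x⁻¹ * y).norm

/-- longest common prefix -/
def freetree_pre {β : Type} [DecidableEq β] : List β → List β → List β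
  | a :: l, b :: m => if a = b then a :: freetree_pre l m else []
  | _, _ => []

theorem freetree_pre_left {β : Type} [DecidableEq β] : ∀ L M : List β, freetree_pre L M <+: L
  | [], _ => by simp [freetree_pre]
  | _ :: _, [] => by simp [freetree_pre]
  | a :: l, b :: m => by
    unfold freetree_pre
    split_ifs with h
    · rw [List.cons_prefix_cons]
      exact ⟨rfl, freetree_pre_left l m⟩
    · exact List.nil_prefix

theorem freetree_pre_right {β : Type} [DecidableEq β] : ∀ L M : List β, freetree_pre L M <+: M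
  | [], _ => by simp [freetree_pre]
  | _ :: _, [] => by simp [freetree_pre]
  | a :: l, b :: m => by
    unfold freetree_pre
    split_ifs with h
    · rw [List.cons_prefix_cons]
      exact ⟨h, freetree_pre_right l m⟩
    · exact List.nil_prefix

theorem freetree_pre_self {β : Type} [DecidableEq β] : ∀ P L : List β, P <+: L →
    freetree_pre P L = P
  | [], _, _ => by simp [freetree_pre]
  | a :: l, [], h => by simp at h
  | a :: l, b :: m, h => by
    rw [List.cons_prefix_cons] at h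
    unfold freetree_pre
    rw [if_pos h.1, freetree_pre_self l m h.2]

theorem freetree_pre_ultra {β : Type} [DecidableEq β] : ∀ L M N : List β,
    min (freetree_pre L M).length (freetree_pre M N).length ≤ (freetree_pre L N).length
  | [], _, _ => by simp [freetree_pre]
  | _ :: _, [], _ => by simp [freetree_pre]
  | _ :: _, _ :: _, [] => by simp [freetree_pre]
  | a :: l, b :: m, c :: n => by
    have ih := freetree_pre_ultra l m n
    unfold freetree_pre
    by_cases h1 : a = b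
    · by_cases h2 : b = c
      · rw [if_pos h1, if_pos h2, if_pos (h1.trans h2)]
        simp only [List.length_cons]
        omega
      · rw [if_pos h1, if_neg h2]
        simp
    · rw [if_neg h1]
      simp

theorem freetree_invRev_cons {α : Type} (a : α × Bool) (l : List (α × Bool)) :
    FreeGroup.invRev (a :: l) = FreeGroup.invRev l ++ [(a.1, !a.2)] := by
  simp [FreeGroup.invRev]

theorem freetree_red_append {α : Type} [DecidableEq α] (L M : List (α × Bool))
    (hL : FreeGroup.IsReduced L) (hM : FreeGroup.IsReduced M)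
    (h : ∀ a ∈ L.head?, ∀ b ∈ M.head?, a ≠ b) :
    FreeGroup.IsReduced (FreeGroup.invRev L ++ M) := by
  have h1 : FreeGroup.IsReduced (FreeGroup.invRev L) := by
    rw [FreeGroup.isReduced_iff_reduce_eq, FreeGroup.reduce_invRev, hL.reduce_eq]
  unfold FreeGroup.IsReduced at *
  rw [List.isChain_append]
  refine ⟨h1, hM, ?_⟩
  intro x hx y hy hxy
  cases L with
  | nil => simp at hx
  | cons a l =>
    rw [freetree_invRev_cons] at hx
    simp only [List.getLast?_append, List.getLast?_singleton, Option.some_or, Option.mem_def,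
      Option.some.injEq] at hx
    have h2 := h a (by simp) y hy
    subst hx
    simp only at hxy ⊢
    by_contra h3
    apply h2
    apply Prod.ext hxy
    cases h4 : a.2 <;> cases h5 : y.2 <;> simp_all

theorem freetree_key {α : Type} [DecidableEq α] : ∀ L M : List (α × Bool),
    FreeGroup.IsReduced L → FreeGroup.IsReduced M →
    ((FreeGroup.mk L)⁻¹ * FreeGroup.mk M).norm + 2 * (freetree_pre L M).length =
      L.length + M.length := by
  have hbase : ∀ L M : List (α × Bool), FreeGroup.IsReduced L → FreeGroup.IsReduced M →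
      (∀ a ∈ L.head?, ∀ b ∈ M.head?, a ≠ b) →
      ((FreeGroup.mk L)⁻¹ * FreeGroup.mk M).norm = L.length + M.length := by
    intro L M hL hM h
    rw [FreeGroup.inv_mk, FreeGroup.mul_mk, FreeGroup.norm, FreeGroup.toWord_mk,
      (freetree_red_append L M hL hM h).reduce_eq, List.length_append, FreeGroup.invRev_length]
  intro L
  induction L with
  | nil =>
    intro M hL hM
    rw [hbase [] M hL hM (by simp)]
    simp [freetree_pre]
  | cons a l ih =>
    intro M hL hM
    cases M with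
    | nil =>
      rw [hbase _ _ hL hM (by simp)]
      simp [freetree_pre]
    | cons b m =>
      by_cases hab : a = b
      · subst hab
        have hl : FreeGroup.IsReduced l := red_sub hL (List.suffix_cons a l).isInfix
        have hm : FreeGroup.IsReduced m := red_sub hM (List.suffix_cons a m).isInfix
        have e1 : ∀ t : List (α × Bool), FreeGroup.mk (a :: t) = FreeGroup.mk [a] * FreeGroup.mk t := by
          intro t
          rw [FreeGroup.mul_mk]
          rfl
        have e2 : (FreeGroup.mk (a :: l))⁻¹ * FreeGroup.mk (a :: m) =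
            (FreeGroup.mk l)⁻¹ * FreeGroup.mk m := by
          rw [e1 l, e1 m]
          group
        rw [e2]
        have h3 := ih m hl hm
        unfold freetree_pre
        rw [if_pos rfl]
        simp only [List.length_cons]
        omega
      · rw [hbase _ _ hL hM (by
          intro x hx y hy
          simp only [List.head?_cons, Option.mem_def, Option.some.injEq] at hx hy
          rw [← hx, ← hy]
          exact hab)]
        unfold freetree_pre
        rw [if_neg hab]
        simp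

theorem freetree_wd {α : Type} [DecidableEq α] (x y : FreeGroup α) :
    wd x y + 2 * (freetree_pre x.toWord y.toWord).length = x.norm + y.norm := by
  have h := freetree_key x.toWord y.toWord FreeGroup.isReduced_toWord FreeGroup.isReduced_toWord
  rw [FreeGroup.mk_toWord, FreeGroup.mk_toWord] at h
  exact h

theorem freetree_inv {α : Type} [DecidableEq α] (w x y : FreeGroup α) :
    wd (w * x) (w * y) = wd x y := by
  unfold wd
  congr 1
  group

theorem freetree_one {α : Type} [DecidableEq α] (y : FreeGroup α) : wd 1 y = y.norm := by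
  unfold wd
  rw [inv_one, one_mul]

theorem freetree_symm {α : Type} [DecidableEq α] (x y : FreeGroup α) : wd x y = wd y x := by
  unfold wd
  rw [← FreeGroup.norm_inv_eq]
  congr 1
  group

theorem freetree_med_one {α : Type} [DecidableEq α] (y z : FreeGroup α) :
    ∃ m : FreeGroup α, wd 1 m + wd m y = wd 1 y ∧ wd y m + wd m z = wd y z ∧
      wd 1 m + wd m z = wd 1 z := by
  set P := freetree_pre y.toWord z.toWord with hP
  have h1 : P <+: y.toWord := freetree_pre_left _ _
  have h2 : P <+: z.toWord := freetree_pre_right _ _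
  have hPr : FreeGroup.IsReduced P := red_sub (FreeGroup.isReduced_toWord (x := y)) h1.isInfix
  have hPw : (FreeGroup.mk P).toWord = P := by
    rw [FreeGroup.toWord_mk, hPr.reduce_eq]
  have hPn : (FreeGroup.mk P).norm = P.length := by
    rw [FreeGroup.norm, hPw]
  have e1 := freetree_wd (FreeGroup.mk P) y
  have e2 := freetree_wd (FreeGroup.mk P) z
  have e3 := freetree_wd y z
  rw [hPw, freetree_pre_self _ _ h1, hPn] at e1
  rw [hPw, freetree_pre_self _ _ h2, hPn] at e2
  rw [← hP] at e3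
  have l1 : P.length ≤ y.norm := h1.length_le
  have l2 : P.length ≤ z.norm := h2.length_le
  refine ⟨FreeGroup.mk P, ?_, ?_, ?_⟩
  · rw [freetree_one, freetree_one, hPn]; omega
  · rw [freetree_symm y]; omega
  · rw [freetree_one, freetree_one, hPn]; omega

theorem freetree_near_one {α : Type} [DecidableEq α] (y : FreeGroup α) (hy : y ≠ 1) :
    ∃ z : FreeGroup α, wd 1 z = 1 ∧ wd z y + 1 = wd 1 y := by
  cases hw : y.toWord with
  | nil => exact absurd (FreeGroup.toWord_eq_nil_iff.1 hw) hy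
  | cons a t =>
    have h1 : (FreeGroup.mk [a]).toWord = [a] := by
      rw [FreeGroup.toWord_mk]; rfl
    have h2 : (FreeGroup.mk [a]).norm = 1 := by rw [FreeGroup.norm, h1]; rfl
    refine ⟨FreeGroup.mk [a], ?_, ?_⟩
    · rw [freetree_one, h2]
    · have e1 := freetree_wd (FreeGroup.mk [a]) y
      rw [h1, hw, freetree_pre_self [a] (a :: t) (by simp), h2] at e1
      rw [freetree_one]
      have : 1 ≤ y.norm := by rw [FreeGroup.norm, hw]; simp
      simp only [List.length_singleton] at e1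
      omega

theorem wd_tree {α : Type} [DecidableEq α] : TreeMetric (wd (α := α)) := by
  refine ⟨?_, ?_, freetree_symm, ?_, ?_, ?_, ?_⟩
  · intro x
    unfold wd
    rw [inv_mul_cancel, FreeGroup.norm_one]
  · intro x y h
    unfold wd at h
    rw [FreeGroup.norm_eq_zero] at h
    exact inv_mul_eq_one.1 h
  · intro x y z
    unfold wd
    have h : x⁻¹ * z = (x⁻¹ * y) * (y⁻¹ * z) := by group
    rw [h]
    exact FreeGroup.norm_mul_le _ _
  · intro x y z w
    rw [← freetree_inv w⁻¹ x y, ← freetree_inv w⁻¹ z w, ← freetree_inv w⁻¹ x z,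
      ← freetree_inv w⁻¹ y w, ← freetree_inv w⁻¹ x w, ← freetree_inv w⁻¹ y z, inv_mul_cancel]
    generalize w⁻¹ * x = x'
    generalize w⁻¹ * y = y'
    generalize w⁻¹ * z = z'
    rw [freetree_symm z' 1, freetree_symm y' 1, freetree_symm x' 1, freetree_one, freetree_one,
      freetree_one]
    have e1 := freetree_wd x' y'
    have e2 := freetree_wd x' z'
    have e3 := freetree_wd z' y'
    rw [freetree_symm y' z']
    have e4 := freetree_pre_ultra x'.toWord z'.toWord y'.toWord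
    omega
  · intro x y z
    obtain ⟨m, h1, h2, h3⟩ := freetree_med_one (x⁻¹ * y) (x⁻¹ * z)
    refine ⟨x * m, ?_, ?_, ?_⟩
    · rw [← freetree_inv x 1 m, ← freetree_inv x m, ← freetree_inv x 1] at h1
      simpa using h1
    · rw [← freetree_inv x _ m, ← freetree_inv x m, ← freetree_inv x (x⁻¹ * y) (x⁻¹ * z)] at h2
      simpa using h2
    · rw [← freetree_inv x 1 m, ← freetree_inv x m, ← freetree_inv x 1] at h3
      simpa using h3
  · intro x y hxy
    obtain ⟨z, h1, h2⟩ := freetree_near_one (x⁻¹ * y) (by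
      intro h
      exact hxy (inv_mul_eq_one.1 h))
    refine ⟨x * z, ?_, ?_⟩
    · rw [← freetree_inv x 1 z] at h1
      simpa using h1
    · rw [← freetree_inv x z, ← freetree_inv x 1] at h2
      simpa using h2

theorem wd_split {α : Type} [DecidableEq α] {x y z : FreeGroup α} (h : wd x z + wd z y = wd x y) :
    (x⁻¹ * y).toWord = (x⁻¹ * z).toWord ++ (z⁻¹ * y).toWord := by
  have h1 : x⁻¹ * y = (x⁻¹ * z) * (z⁻¹ * y) := by group
  have h2 := FreeGroup.toWord_mul_sublist (x⁻¹ * z) (z⁻¹ * y)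
  rw [← h1] at h2
  apply h2.eq_of_length
  rw [List.length_append]
  exact h.symm

-- ##### read
/-- deterministic in both directions -/
def Folded {α V : Type} (A : α → V → V → Prop) : Prop :=
  (∀ a v w w', A a v w → A a v w' → w = w') ∧ (∀ a v v' w, A a v w → A a v' w → v = v')

/-- the reduced word of `f` can be read from `v` to `w` -/
def Rd {α V : Type} [DecidableEq α] (A : α → V → V → Prop) (v : V) (f : FreeGroup α) (w : V) : Prop :=
  Walk A v f.toWord w

theorem walk_append {α V : Type} (A : α → V → V → Prop) (v w : V) (u u' : List (α × Bool)) :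
    Walk A v (u ++ u') w ↔ ∃ x, Walk A v u x ∧ Walk A x u' w := by
  induction u generalizing v with
  | nil =>
    constructor
    · intro h; exact ⟨v, rfl, h⟩
    · rintro ⟨x, hx, h⟩
      have hx' : v = x := hx
      rw [hx']; exact h
  | cons c u ih =>
    obtain ⟨a, b⟩ := c
    cases b with
    | true =>
      constructor
      · rintro ⟨v', hv', h⟩
        obtain ⟨x, h1, h2⟩ := (ih v').1 h
        exact ⟨x, ⟨v', hv', h1⟩, h2⟩
      · rintro ⟨x, ⟨v', hv', h1⟩, h2⟩
        exact ⟨v', hv', (ih v').2 ⟨x, h1, h2⟩⟩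
    | false =>
      constructor
      · rintro ⟨v', hv', h⟩
        obtain ⟨x, h1, h2⟩ := (ih v').1 h
        exact ⟨x, ⟨v', hv', h1⟩, h2⟩
      · rintro ⟨x, ⟨v', hv', h1⟩, h2⟩
        exact ⟨v', hv', (ih v').2 ⟨x, h1, h2⟩⟩

theorem walk_det {α V : Type} {A : α → V → V → Prop} (hA : Folded A) {v w w' : V}
    {u : List (α × Bool)} (h : Walk A v u w) (h' : Walk A v u w') : w = w' := by
  induction u generalizing v with
  | nil =>
    have h1 : v = w := h
    have h2 : v = w' := h'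
    rw [← h1, h2]
  | cons c u ih =>
    obtain ⟨a, b⟩ := c
    cases b with
    | true =>
      obtain ⟨x, hx, h1⟩ := h
      obtain ⟨y, hy, h2⟩ := h'
      have : x = y := hA.1 a v x y hx hy
      subst this
      exact ih h1 h2
    | false =>
      obtain ⟨x, hx, h1⟩ := h
      obtain ⟨y, hy, h2⟩ := h'
      have : x = y := hA.2 a x y v hx hy
      subst this
      exact ih h1 h2

theorem walk_codet {α V : Type} {A : α → V → V → Prop} (hA : Folded A) {v v' w : V}
    {u : List (α × Bool)} (h : Walk A v u w) (h' : Walk A v' u w) : v = v' := by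
  induction u generalizing v v' with
  | nil =>
    have h1 : v = w := h
    have h2 : v' = w := h'
    rw [h1, h2]
  | cons c u ih =>
    obtain ⟨a, b⟩ := c
    cases b with
    | true =>
      obtain ⟨x, hx, h1⟩ := h
      obtain ⟨y, hy, h2⟩ := h'
      have : x = y := ih h1 h2
      subst this
      exact hA.2 a v v' x hx hy
    | false =>
      obtain ⟨x, hx, h1⟩ := h
      obtain ⟨y, hy, h2⟩ := h'
      have : x = y := ih h1 h2
      subst this
      exact hA.1 a x v v' hx hy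

theorem read_step {α V : Type} {A : α → V → V → Prop} (hA : Folded A) {v w : V}
    {u u' : List (α × Bool)} (hs : FreeGroup.Red.Step u u') (h : Walk A v u w) :
    Walk A v u' w := by
  cases hs with
  | @not L1 L2 a b =>
    rw [walk_append] at h ⊢
    obtain ⟨x, h1, h2⟩ := h
    refine ⟨x, h1, ?_⟩
    cases b with
    | true =>
      obtain ⟨y, hy, z, hz, h3⟩ := h2
      have : x = z := hA.2 a x z y hy hz
      rw [this]; exact h3
    | false =>
      obtain ⟨y, hy, z, hz, h3⟩ := h2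
      have : x = z := hA.1 a y x z hy hz
      rw [this]; exact h3

theorem read_red {α V : Type} {A : α → V → V → Prop} (hA : Folded A) {v w : V}
    {u u' : List (α × Bool)} (hs : FreeGroup.Red u u') (h : Walk A v u w) :
    Walk A v u' w := by
  induction hs with
  | refl => exact h
  | tail _ hst ih => exact read_step hA hst ih

theorem walk_reduce {α V : Type} [DecidableEq α] {A : α → V → V → Prop} (hA : Folded A) {v w : V}
    {u : List (α × Bool)} (h : Walk A v u w) : Walk A v (FreeGroup.reduce u) w :=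
  read_red hA FreeGroup.reduce.red h

theorem rd_one {α V : Type} [DecidableEq α] (A : α → V → V → Prop) (v : V) : Rd A v 1 v := by
  unfold Rd
  rw [FreeGroup.toWord_one]
  exact rfl

theorem rd_mul {α V : Type} [DecidableEq α] {A : α → V → V → Prop} (hA : Folded A) {v w x : V}
    {f g : FreeGroup α} (h : Rd A v f w) (h' : Rd A w g x) : Rd A v (f * g) x := by
  unfold Rd at *
  rw [FreeGroup.toWord_mul]
  exact walk_reduce hA ((walk_append A v x _ _).2 ⟨w, h, h'⟩)

theorem read_invRev {α V : Type} {A : α → V → V → Prop} {v w : V}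
    {u : List (α × Bool)} (h : Walk A v u w) : Walk A w (FreeGroup.invRev u) v := by
  induction u generalizing v with
  | nil =>
    have h1 : v = w := h
    rw [h1]
    exact rfl
  | cons c u ih =>
    obtain ⟨a, b⟩ := c
    have e : FreeGroup.invRev ((a, b) :: u) = FreeGroup.invRev u ++ [(a, !b)] := by
      simp [FreeGroup.invRev]
    rw [e, walk_append]
    cases b with
    | true =>
      obtain ⟨x, hx, h1⟩ := h
      exact ⟨x, ih h1, v, hx, rfl⟩
    | false =>
      obtain ⟨x, hx, h1⟩ := h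
      exact ⟨x, ih h1, v, hx, rfl⟩

theorem rd_inv {α V : Type} [DecidableEq α] {A : α → V → V → Prop} {v w : V}
    {f : FreeGroup α} (h : Rd A v f w) : Rd A w f⁻¹ v := by
  unfold Rd at *
  rw [FreeGroup.toWord_inv]
  exact read_invRev h

theorem rd_split {α V : Type} [DecidableEq α] {A : α → V → V → Prop} {v w : V}
    {f g : FreeGroup α} (hfg : (f * g).toWord = f.toWord ++ g.toWord) (h : Rd A v (f * g) w) :
    ∃ x, Rd A v f x ∧ Rd A x g w := by
  unfold Rd at *
  rw [hfg, walk_append] at h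
  exact h

-- ##### graph
/-- the words readable as closed walks at `v₀` -/
def loops {α V : Type} [DecidableEq α] {A : α → V → V → Prop} (hA : Folded A) (v₀ : V) :
    Subgroup (FreeGroup α) where
  carrier := {f | Rd A v₀ f v₀}
  one_mem' := rd_one A v₀
  mul_mem' := fun h h' => rd_mul hA h h'
  inv_mem' := fun h => rd_inv h

/-- the translates of the set of readable elements -/
def graph_Y {α V : Type} [DecidableEq α] {A : α → V → V → Prop} (hA : Folded A) (v₀ : V)
    (c : FreeGroup α ⧸ loops hA v₀) : Set (FreeGroup α) :=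
  {x | ∃ f : FreeGroup α, (f : FreeGroup α ⧸ loops hA v₀) = c ∧ ∃ v, Rd A v₀ (f⁻¹ * x) v}

theorem graph_mem {α V : Type} [DecidableEq α] {A : α → V → V → Prop} (hA : Folded A) (v₀ : V)
    (f x : FreeGroup α) : x ∈ graph_Y hA v₀ (f : FreeGroup α ⧸ loops hA v₀) ↔
      ∃ v, Rd A v₀ (f⁻¹ * x) v := by
  constructor
  · rintro ⟨f', hf', v, hv⟩
    have h1 : f⁻¹ * f' ∈ loops hA v₀ := QuotientGroup.eq.mp hf'.symm
    refine ⟨v, ?_⟩
    have h2 := rd_mul hA (show Rd A v₀ (f⁻¹ * f') v₀ from h1) hv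
    have h3 : f⁻¹ * f' * (f'⁻¹ * x) = f⁻¹ * x := by group
    rwa [h3] at h2
  · rintro ⟨v, hv⟩
    exact ⟨f, rfl, v, hv⟩

theorem graph_rd {α V : Type} [DecidableEq α] {A : α → V → V → Prop} (hA : Folded A) {v₀ v w : V}
    {f x y : FreeGroup α} (h : Rd A v₀ (f⁻¹ * x) v) (h' : Rd A v₀ (f⁻¹ * y) w) :
    Rd A v (x⁻¹ * y) w := by
  have h2 := rd_mul hA (rd_inv h) h'
  have h3 : (f⁻¹ * x)⁻¹ * (f⁻¹ * y) = x⁻¹ * y := by group
  rwa [h3] at h2

theorem graph_sys {α V : Type} [DecidableEq α] {A : α → V → V → Prop} (hA : Folded A) (v₀ : V)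
    (δ ℓ : ℕ) (hl : 6 * δ + 5 ≤ ℓ)
    (hg : ∀ (v : V) (f : FreeGroup α), Rd A v f v → f ≠ 1 → ℓ ≤ f.norm)
    (hp : ∀ (v v' w w' : V) (f : FreeGroup α), v ≠ v' → Rd A v f w → Rd A v' f w' → f.norm ≤ δ) :
    Sys (FreeGroup α) (wd (α := α)) (graph_Y hA v₀) δ ℓ where
  tree := wd_tree
  iso := by
    intro f x y
    unfold wd
    simp only [smul_eq_mul]
    congr 1
    group
  ne := by
    intro c
    obtain ⟨f, rfl⟩ := QuotientGroup.mk_surjective c
    refine ⟨f, (graph_mem hA v₀ f f).mpr ⟨v₀, ?_⟩⟩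
    rw [inv_mul_cancel]
    exact rd_one A v₀
  cvx := by
    intro c
    obtain ⟨f, rfl⟩ := QuotientGroup.mk_surjective c
    intro x hx y hy z hz
    obtain ⟨v, hv⟩ := (graph_mem hA v₀ f x).mp hx
    obtain ⟨w, hw⟩ := (graph_mem hA v₀ f y).mp hy
    have h1 := graph_rd hA hv hw
    have h2 := wd_split hz
    have h3 : x⁻¹ * z * (z⁻¹ * y) = x⁻¹ * y := by group
    rw [← h3] at h1 h2
    obtain ⟨u, hu, _⟩ := rd_split h2 h1
    refine (graph_mem hA v₀ f z).mpr ⟨u, ?_⟩
    have h4 := rd_mul hA hv hu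
    have h5 : f⁻¹ * x * (x⁻¹ * z) = f⁻¹ * z := by group
    rwa [h5] at h4
  equi := by
    intro f c x hx
    obtain ⟨c, rfl⟩ := QuotientGroup.mk_surjective c
    obtain ⟨v, hv⟩ := (graph_mem hA v₀ c x).mp hx
    refine (graph_mem hA v₀ (f * c) (f * x)).mpr ⟨v, ?_⟩
    have h5 : (f * c)⁻¹ * (f * x) = c⁻¹ * x := by group
    rwa [h5]
  hl := hl
  move := by
    intro c g hgc hg1 y hy
    obtain ⟨f, rfl⟩ := QuotientGroup.mk_surjective c
    obtain ⟨v, hv⟩ := (graph_mem hA v₀ f y).mp hy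
    have h1 : ((g * f : FreeGroup α) : FreeGroup α ⧸ loops hA v₀) = (f : FreeGroup α ⧸ loops hA v₀) :=
      hgc
    have h2 : f⁻¹ * (g * f) ∈ loops hA v₀ := QuotientGroup.eq.mp h1.symm
    have h3 := rd_mul hA (rd_mul hA (rd_inv hv) (show Rd A v₀ (f⁻¹ * (g * f)) v₀ from h2)) hv
    have h4 : (f⁻¹ * y)⁻¹ * (f⁻¹ * (g * f)) * (f⁻¹ * y) = y⁻¹ * (g * y) := by group
    rw [h4] at h3
    have h5 : y⁻¹ * (g * y) ≠ 1 := by
      intro h
      apply hg1
      have h6 : g = y * (y⁻¹ * (g * y)) * y⁻¹ := by group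
      rw [h6, h]; group
    exact hg v _ h3 h5
  small := by
    intro c c' hcc x y hx hx' hy hy'
    obtain ⟨f, rfl⟩ := QuotientGroup.mk_surjective c
    obtain ⟨f', rfl⟩ := QuotientGroup.mk_surjective c'
    obtain ⟨v, hv⟩ := (graph_mem hA v₀ f x).mp hx
    obtain ⟨v', hv'⟩ := (graph_mem hA v₀ f' x).mp hx'
    obtain ⟨w, hw⟩ := (graph_mem hA v₀ f y).mp hy
    obtain ⟨w', hw'⟩ := (graph_mem hA v₀ f' y).mp hy'
    have h1 := graph_rd hA hv hw
    have h2 := graph_rd hA hv' hw'
    have hvv : v ≠ v' := by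
      intro h
      subst h
      apply hcc
      apply QuotientGroup.eq.mpr
      have h3 := rd_mul hA hv (rd_inv hv')
      have h4 : f⁻¹ * x * (f'⁻¹ * x)⁻¹ = f⁻¹ * f' := by group
      rw [h4] at h3
      exact h3
    exact hp v v' w w' _ hvv h1 h2

theorem graph_inj {α V : Type} [DecidableEq α] {A : α → V → V → Prop} (hA : Folded A) (v₀ : V)
    (δ ℓ : ℕ) (hl : 6 * δ + 5 ≤ ℓ)
    (hg : ∀ (v : V) (f : FreeGroup α), Rd A v f v → f ≠ 1 → ℓ ≤ f.norm)
    (hp : ∀ (v v' w w' : V) (f : FreeGroup α), v ≠ v' → Rd A v f w → Rd A v' f w' → f.norm ≤ δ)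
    (x y : FreeGroup α) (v w : V) (hx : Rd A v₀ x v) (hy : Rd A v₀ y w)
    (h : x⁻¹ * y ∈ Subgroup.normalClosure (loops hA v₀ : Set (FreeGroup α))) : v = w := by
  have S := graph_sys hA v₀ δ ℓ hl hg hp
  have hn : y * x⁻¹ ∈ Subgroup.closure
      {g : FreeGroup α | ∃ c : FreeGroup α ⧸ loops hA v₀, g • c = c} := by
    have h1 : y * x⁻¹ ∈ Subgroup.normalClosure (loops hA v₀ : Set (FreeGroup α)) := by
      have h2 := Subgroup.normalClosure_normal.conj_mem _ h x
      have h3 : x * (x⁻¹ * y) * x⁻¹ = y * x⁻¹ := by group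
      rwa [h3] at h2
    have h4 : Subgroup.normalClosure (loops hA v₀ : Set (FreeGroup α)) ≤ Subgroup.closure
        {g : FreeGroup α | ∃ c : FreeGroup α ⧸ loops hA v₀, g • c = c} := by
      unfold Subgroup.normalClosure
      apply Subgroup.closure_mono
      intro g hg
      obtain ⟨p, hp, hc⟩ := Group.mem_conjugatesOfSet_iff.mp hg
      obtain ⟨c, hc⟩ := isConj_iff.mp hc
      refine ⟨(c : FreeGroup α ⧸ loops hA v₀), ?_⟩
      change ((g * c : FreeGroup α) : FreeGroup α ⧸ loops hA v₀) = _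
      symm
      apply QuotientGroup.eq.mpr
      rw [← hc]
      have h5 : c⁻¹ * (c * p * c⁻¹ * c) = p := by group
      rw [h5]
      exact hp
    exact h4 h1
  have hx1 : x ∈ graph_Y hA v₀ ((1 : FreeGroup α) : FreeGroup α ⧸ loops hA v₀) := by
    refine (graph_mem hA v₀ 1 x).mpr ⟨v, ?_⟩
    simpa using hx
  have hy1 : (y * x⁻¹) • x ∈ graph_Y hA v₀ ((1 : FreeGroup α) : FreeGroup α ⧸ loops hA v₀) := by
    refine (graph_mem hA v₀ 1 _).mpr ⟨w, ?_⟩
    simpa using hy
  have h6 := windmill S x (y * x⁻¹) hn _ hx1 hy1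
  have h7 : ((y * x⁻¹ * 1 : FreeGroup α) : FreeGroup α ⧸ loops hA v₀) =
      ((1 : FreeGroup α) : FreeGroup α ⧸ loops hA v₀) := h6
  have h8 := QuotientGroup.eq.mp h7.symm
  have h9 : (1 : FreeGroup α)⁻¹ * (y * x⁻¹ * 1) = y * x⁻¹ := by group
  rw [h9] at h8
  have h10 := rd_mul hA (show Rd A v₀ (y * x⁻¹) v₀ from h8) hx
  have h11 : y * x⁻¹ * x = y := by group
  rw [h11] at h10
  exact walk_det hA h10 hy

-- ##### girth_nil
theorem girth_nil_first {N v w : ℕ} {a b : Bool} {u : List (Bool × Bool)}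
    (h : Walk (Shape N []) v ((a, b) :: u) w) : a = false := by
  cases a
  · rfl
  · exfalso
    cases b
    · obtain ⟨v', h1, -⟩ := h
      have h2 : ([] : List ℕ)[v']? = some v := h1
      simp at h2
    · obtain ⟨v', h1, -⟩ := h
      have h2 : ([] : List ℕ)[v]? = some v' := h1
      simp at h2

theorem girth_nil_aux (N : ℕ) (u : List (Bool × Bool)) : ∀ (v w : ℕ) (b : Bool),
    FreeGroup.IsReduced ((false, b) :: u) → Walk (Shape N []) v ((false, b) :: u) w →
    (b = true → w = v + (u.length + 1)) ∧ (b = false → v = w + (u.length + 1)) := by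
  induction u with
  | nil =>
    intro v w b _ h
    cases b
    · obtain ⟨v', h1, h2⟩ := h
      have h3 : v = v' + 1 ∧ v < N := h1
      have h4 : v' = w := h2
      refine ⟨fun h => by simp at h, fun _ => ?_⟩
      rw [List.length_nil]
      omega
    · obtain ⟨v', h1, h2⟩ := h
      have h3 : v' = v + 1 ∧ v' < N := h1
      have h4 : v' = w := h2
      refine ⟨fun _ => ?_, fun h => by simp at h⟩
      rw [List.length_nil]
      omega
  | cons x u ih =>
    obtain ⟨a', b'⟩ := x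
    intro v w b hr h
    unfold FreeGroup.IsReduced at hr
    rw [List.isChain_cons_cons] at hr
    cases b
    · obtain ⟨v', h1, h2⟩ := h
      have h3 : v = v' + 1 ∧ v < N := h1
      have ha := girth_nil_first h2
      subst ha
      have hb : false = b' := hr.1 rfl
      subst hb
      have h4 := (ih v' w false hr.2 h2).2 rfl
      refine ⟨fun h => by simp at h, fun _ => ?_⟩
      rw [List.length_cons]
      omega
    · obtain ⟨v', h1, h2⟩ := h
      have h3 : v' = v + 1 ∧ v' < N := h1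
      have ha := girth_nil_first h2
      subst ha
      have hb : true = b' := hr.1 rfl
      subst hb
      have h4 := (ih v' w true hr.2 h2).1 rfl
      refine ⟨fun _ => ?_, fun h => by simp at h⟩
      rw [List.length_cons]
      omega

theorem girth_nil (N ℓ : ℕ) : Girth N [] ℓ := by
  intro v u hr hne _ h
  rcases u with _ | ⟨⟨a, b⟩, u⟩
  · exact hne rfl
  · have ha := girth_nil_first h
    subst ha
    have h1 := girth_nil_aux N u v v b hr h
    cases b
    · have := h1.2 rfl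
      omega
    · have := h1.1 rfl
      omega

-- ##### girth_append
theorem girth_append_shape (N : ℕ) (ys : List ℕ) (y : ℕ) (b : Bool) (v w : ℕ) :
    Shape N (ys ++ [y]) b v w ↔ Shape N ys b v w ∨ (b = true ∧ v = ys.length ∧ w = y) := by
  cases b
  · simp [Shape]
  · simp only [Shape, true_and]
    rw [List.getElem?_append]
    by_cases hv : v < ys.length
    · rw [if_pos hv]
      constructor
      · exact Or.inl
      · rintro (h | ⟨h, _⟩)
        · exact h
        · omega
    · rw [if_neg hv]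
      have h0 : ys[v]? = none := List.getElem?_eq_none (by omega)
      rw [h0]
      by_cases hv2 : v = ys.length
      · subst hv2
        simp [eq_comm]
      · have : v - ys.length ≠ 0 := by omega
        obtain ⟨m, hm⟩ := Nat.exists_eq_succ_of_ne_zero this
        rw [hm]
        simp [hv2]

/-- source and target of the new edge -/
def girth_append_src (k y : ℕ) (b : Bool) : ℕ := if b then k else y
def girth_append_tgt (k y : ℕ) (b : Bool) : ℕ := if b then y else k

theorem girth_append_cut (N : ℕ) (ys : List ℕ) (y w : ℕ) (u : List (Bool × Bool)) : ∀ v,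
    Walk (Shape N (ys ++ [y])) v u w → Walk (Shape N ys) v u w ∨
      ∃ (u1 : List (Bool × Bool)) (b : Bool) (u2 : List (Bool × Bool)), u = u1 ++ (true, b) :: u2 ∧
        Walk (Shape N ys) v u1 (girth_append_src ys.length y b) ∧
        Walk (Shape N (ys ++ [y])) (girth_append_tgt ys.length y b) u2 w := by
  induction u with
  | nil => intro v h; exact Or.inl h
  | cons a u ih =>
    intro v h
    obtain ⟨c, s⟩ := a
    cases s
    · obtain ⟨v', hv', hw⟩ := h
      rw [girth_append_shape] at hv'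
      rcases hv' with hv' | ⟨rfl, rfl, rfl⟩
      · rcases ih v' hw with h1 | ⟨u1, b, u2, rfl, h1, h2⟩
        · exact Or.inl ⟨v', hv', h1⟩
        · exact Or.inr ⟨(c, false) :: u1, b, u2, rfl, ⟨v', hv', h1⟩, h2⟩
      · exact Or.inr ⟨[], false, u, rfl, rfl, hw⟩
    · obtain ⟨v', hv', hw⟩ := h
      rw [girth_append_shape] at hv'
      rcases hv' with hv' | ⟨rfl, rfl, rfl⟩
      · rcases ih v' hw with h1 | ⟨u1, b, u2, rfl, h1, h2⟩
        · exact Or.inl ⟨v', hv', h1⟩
        · exact Or.inr ⟨(c, true) :: u1, b, u2, rfl, ⟨v', hv', h1⟩, h2⟩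
      · exact Or.inr ⟨[], true, u, rfl, rfl, hw⟩

theorem girth_append_inv {α V : Type} (A : α → V → V → Prop) (w : V) (u : List (α × Bool)) :
    ∀ v, Walk A v u w → Walk A w (FreeGroup.invRev u) v := by
  induction u with
  | nil => intro v h; exact Eq.symm h
  | cons a u ih =>
    intro v h
    obtain ⟨c, s⟩ := a
    rw [FreeGroup.invRev_cons, walk_append]
    cases s
    · obtain ⟨v', hv', hw⟩ := h
      exact ⟨v', ih v' hw, v, hv', rfl⟩
    · obtain ⟨v', hv', hw⟩ := h
      exact ⟨v', ih v' hw, v, hv', rfl⟩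

theorem girth_append (N ℓ : ℕ) (ys : List ℕ) (y : ℕ) (hys : Adm N ys) (hlen : ys.length < N)
    (hy : y < N) (hy' : y ∉ ys) (h : Girth N ys ℓ)
    (hfar : ∀ u : List (Bool × Bool), u.length < ℓ → ¬ Walk (Shape N ys) ys.length u y) :
    Adm N (ys ++ [y]) ∧ Girth N (ys ++ [y]) ℓ := by
  have hfar' : ∀ u : List (Bool × Bool), u.length < ℓ → ¬ Walk (Shape N ys) y u ys.length := by
    intro u hu hw
    exact hfar (FreeGroup.invRev u) (by rwa [FreeGroup.invRev_length])
      (girth_append_inv _ _ _ _ hw)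
  constructor
  · obtain ⟨h1, h2, h3⟩ := hys
    refine ⟨?_, ?_, ?_⟩
    · rw [List.nodup_append]
      refine ⟨h1, List.nodup_singleton _, ?_⟩
      intro a ha b hb
      rw [List.mem_singleton] at hb
      rintro rfl
      exact hy' (hb ▸ ha)
    · rw [List.length_append, List.length_singleton]
      omega
    · intro z hz
      rw [List.mem_append, List.mem_singleton] at hz
      rcases hz with hz | rfl
      · exact h3 z hz
      · exact hy
  · intro v u hred hne hlt hw
    rcases girth_append_cut N ys y v u v hw with h1 | ⟨u0, b1, u', rfl, h0, h1⟩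
    · exact h v u hred hne hlt h1
    rcases girth_append_cut N ys y v u' _ h1 with h2 | ⟨u1, b2, u2, rfl, h2, h3⟩
    · have h4 : Walk (Shape N ys) (girth_append_tgt ys.length y b1) (u' ++ u0)
          (girth_append_src ys.length y b1) := (walk_append _ _ _ _ _).2 ⟨v, h2, h0⟩
      have hl : (u' ++ u0).length < ℓ := by
        simp only [List.length_append, List.length_cons] at hlt ⊢
        omega
      cases b1
      · exact hfar _ hl h4
      · exact hfar' _ hl h4
    · have hl : u1.length < ℓ := by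
        simp only [List.length_append, List.length_cons] at hlt
        omega
      have hinf : u1 <:+: u0 ++ (true, b1) :: (u1 ++ (true, b2) :: u2) :=
        ⟨u0 ++ [(true, b1)], (true, b2) :: u2, by simp⟩
      have hred1 : FreeGroup.IsReduced u1 := red_sub hred hinf
      have hne1 : b1 ≠ b2 → u1 ≠ [] := by
        rintro hb rfl
        have h5 : [(true, b1), (true, b2)] <:+: u0 ++ (true, b1) :: ([] ++ (true, b2) :: u2) :=
          ⟨u0, u2, by simp⟩
        have h6 := red_sub hred h5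
        simp [FreeGroup.IsReduced] at h6
        exact hb h6
      cases b1 <;> cases b2
      · exact hfar _ hl h2
      · exact h _ u1 hred1 (hne1 (by simp)) hl h2
      · exact h _ u1 hred1 (hne1 (by simp)) hl h2
      · exact hfar' _ hl h2

-- ##### greedy
theorem greedy_folded (N : ℕ) (ys : List ℕ) (h : ys.Nodup) : Folded (Shape N ys) := by
  constructor
  · intro a v w w' h1 h2
    cases a with
    | false =>
      simp only [Shape] at h1 h2
      omega
    | true =>
      simp only [Shape] at h1 h2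
      rw [h1] at h2
      exact Option.some.inj h2
  · intro a v v' w h1 h2
    cases a with
    | false =>
      simp only [Shape] at h1 h2
      omega
    | true =>
      simp only [Shape] at h1 h2
      obtain ⟨hv, h3⟩ := List.getElem?_eq_some_iff.1 h1
      obtain ⟨hv', h4⟩ := List.getElem?_eq_some_iff.1 h2
      exact (List.Nodup.getElem_inj_iff h).1 (h3.trans h4.symm)

/-- all words of length less than `ℓ` -/
noncomputable def greedy_words (ℓ : ℕ) : Finset (List (Bool × Bool)) := by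
  classical
  exact (Finset.range ℓ).biUnion
    (fun i => (Finset.univ : Finset (Fin i → Bool × Bool)).image (fun f => List.ofFn f))

theorem greedy_mem_words (ℓ : ℕ) (u : List (Bool × Bool)) (hu : u.length < ℓ) :
    u ∈ greedy_words ℓ := by
  classical
  unfold greedy_words
  rw [Finset.mem_biUnion]
  refine ⟨u.length, Finset.mem_range.2 hu, ?_⟩
  rw [Finset.mem_image]
  exact ⟨fun i => u.get i, Finset.mem_univ _, List.ofFn_get u⟩

theorem greedy_sum (ℓ : ℕ) : ∑ i ∈ Finset.range ℓ, 4 ^ i ≤ 5 ^ ℓ := by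
  induction ℓ with
  | zero => simp
  | succ k ih =>
    rw [Finset.sum_range_succ]
    have h1 : 4 ^ k ≤ 5 ^ k := Nat.pow_le_pow_left (by norm_num) k
    calc _ ≤ 5 ^ k + 5 ^ k := add_le_add ih h1
      _ ≤ 5 ^ (k + 1) := by rw [pow_succ]; omega

theorem greedy_card_words (ℓ : ℕ) : (greedy_words ℓ).card ≤ 5 ^ ℓ := by
  classical
  unfold greedy_words
  refine le_trans Finset.card_biUnion_le (le_trans (Finset.sum_le_sum ?_) (greedy_sum ℓ))
  intro i _
  refine le_trans Finset.card_image_le ?_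
  rw [Finset.card_univ, Fintype.card_fun]
  simp [Fintype.card_prod]

open Classical in
/-- the endpoint of a walk -/
noncomputable def greedy_end (N : ℕ) (ys : List ℕ) (u : List (Bool × Bool)) : ℕ :=
  if h : ∃ w, Walk (Shape N ys) ys.length u w then h.choose else 0

open Classical in
/-- the good endpoints -/
noncomputable def greedy_good (N ℓ : ℕ) (ys : List ℕ) : Finset ℕ :=
  (Finset.range N).filter (fun y => y ∉ ys ∧
    ∀ u : List (Bool × Bool), u.length < ℓ → ¬ Walk (Shape N ys) ys.length u y)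

theorem greedy_card_good (N ℓ K : ℕ) (hK : 4 * K ≤ N) (hl : 4 * 5 ^ ℓ ≤ N) (ys : List ℕ)
    (hnd : ys.Nodup) (hlen : ys.length = K) : N / 2 ≤ (greedy_good N ℓ ys).card := by
  classical
  have hcov : Finset.range N ⊆ greedy_good N ℓ ys ∪
      (ys.toFinset ∪ (greedy_words ℓ).image (greedy_end N ys)) := by
    intro y hy
    by_cases h1 : y ∈ ys
    · refine Finset.mem_union_right _ (Finset.mem_union_left _ ?_)
      exact List.mem_toFinset.2 h1
    by_cases h2 : ∀ u : List (Bool × Bool), u.length < ℓ → ¬ Walk (Shape N ys) ys.length u y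
    · refine Finset.mem_union_left _ ?_
      unfold greedy_good
      exact Finset.mem_filter.2 ⟨hy, h1, h2⟩
    · push Not at h2
      obtain ⟨u, hu, hw⟩ := h2
      refine Finset.mem_union_right _ (Finset.mem_union_right _ ?_)
      refine Finset.mem_image.2 ⟨u, greedy_mem_words ℓ u hu, ?_⟩
      have hex : ∃ w, Walk (Shape N ys) ys.length u w := ⟨y, hw⟩
      unfold greedy_end
      rw [dif_pos hex]
      exact walk_det (greedy_folded N ys hnd) hex.choose_spec hw
  have h1 := Finset.card_le_card hcov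
  rw [Finset.card_range] at h1
  have h2 := Finset.card_union_le (greedy_good N ℓ ys)
    (ys.toFinset ∪ (greedy_words ℓ).image (greedy_end N ys))
  have h3 := Finset.card_union_le ys.toFinset ((greedy_words ℓ).image (greedy_end N ys))
  have h4 : ys.toFinset.card ≤ K := hlen ▸ List.toFinset_card_le ys
  have h5 : ((greedy_words ℓ).image (greedy_end N ys)).card ≤ 5 ^ ℓ :=
    le_trans Finset.card_image_le (greedy_card_words ℓ)
  omega

theorem greedy (N ℓ K : ℕ) (hK : 4 * K ≤ N) (hl : 4 * 5 ^ ℓ ≤ N) :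
    ∃ S : Finset (List ℕ), (N / 2) ^ K ≤ S.card ∧
      ∀ ys ∈ S, ys.length = K ∧ Adm N ys ∧ Girth N ys ℓ := by
  classical
  induction K with
  | zero =>
    refine ⟨{[]}, by simp, ?_⟩
    intro ys hys
    rw [Finset.mem_singleton] at hys
    subst hys
    refine ⟨rfl, ⟨List.nodup_nil, by simp, by simp⟩, girth_nil N ℓ⟩
  | succ K ih =>
    obtain ⟨S, hS, hS'⟩ := ih (by omega)
    refine ⟨(S.sigma (fun ys => greedy_good N ℓ ys)).image (fun p => p.1 ++ [p.2]), ?_, ?_⟩
    · rw [Finset.card_image_of_injOn, Finset.card_sigma]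
      · calc (N / 2) ^ (K + 1) = (N / 2) ^ K * (N / 2) := pow_succ _ _
          _ ≤ S.card * (N / 2) := Nat.mul_le_mul_right _ hS
          _ = ∑ _ys ∈ S, N / 2 := by rw [Finset.sum_const, smul_eq_mul]
          _ ≤ ∑ ys ∈ S, (greedy_good N ℓ ys).card := by
            refine Finset.sum_le_sum fun ys hys => ?_
            obtain ⟨h1, h2, _⟩ := hS' ys hys
            exact greedy_card_good N ℓ K (by omega) hl ys h2.1 h1
      · rintro ⟨a, b⟩ _ ⟨a', b'⟩ _ h
        simp only at h
        have h' := List.append_inj' h rfl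
        obtain ⟨h1, h2⟩ := h'
        have h3 : b = b' := by simpa using h2
        subst h1
        subst h3
        rfl
    · intro zs hzs
      rw [Finset.mem_image] at hzs
      obtain ⟨⟨ys, y⟩, hp, rfl⟩ := hzs
      rw [Finset.mem_sigma] at hp
      obtain ⟨hys, hy⟩ := hp
      simp only at hys hy ⊢
      obtain ⟨h1, h2, h3⟩ := hS' ys hys
      unfold greedy_good at hy
      rw [Finset.mem_filter] at hy
      obtain ⟨hy1, hy2, hy3⟩ := hy
      have h5 : 1 ≤ 5 ^ ℓ := Nat.one_le_pow _ _ (by norm_num)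
      refine ⟨by simp [h1], ?_⟩
      exact girth_append N ℓ ys y h2 (by omega) (Finset.mem_range.1 hy1) hy2 h3 hy3

-- ##### indep
/-- few labellings satisfy many constraints -/
theorem few_labels {E : Type} [Fintype E] [DecidableEq E] (n m : ℕ) (e f : Fin m → E)
    (he : Function.Injective e) (hf : Function.Injective f) (hef : ∀ k, e k ≠ f k) :
    (Finset.univ.filter (fun ξ : E → Fin n => ∀ k, ξ (e k) = ξ (f k))).card * n ^ (m / 3) ≤
      n ^ Fintype.card E := by
  classical
  obtain ⟨J, hJm, hJmax⟩ := Finset.exists_max_image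
    ((Finset.univ : Finset (Finset (Fin m))).filter (fun J => ∀ k ∈ J, ∀ l ∈ J, e k ≠ f l))
    Finset.card ⟨∅, by simp⟩
  rw [Finset.mem_filter] at hJm
  have hJ := hJm.2
  have hcov : ∀ k, k ∉ J → (∃ l ∈ J, e k = f l) ∨ (∃ l ∈ J, f k = e l) := by
    intro k hk
    by_contra hcon
    push Not at hcon
    have hmem : insert k J ∈ (Finset.univ : Finset (Finset (Fin m))).filter
        (fun J => ∀ k ∈ J, ∀ l ∈ J, e k ≠ f l) := by
      rw [Finset.mem_filter]
      refine ⟨Finset.mem_univ _, ?_⟩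
      intro a ha b hb
      rw [Finset.mem_insert] at ha hb
      rcases ha with rfl | ha <;> rcases hb with rfl | hb
      · exact hef _
      · exact hcon.1 b hb
      · exact fun h => hcon.2 a ha h.symm
      · exact hJ a ha b hb
    have := hJmax _ hmem
    rw [Finset.card_insert_of_notMem hk] at this
    omega
  have h1 : (Finset.univ.filter (fun k : Fin m => ∃ l ∈ J, e k = f l)).card ≤ J.card := by
    have : (Finset.univ.filter (fun k : Fin m => ∃ l ∈ J, e k = f l)).image e ⊆ J.image f := by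
      intro x hx
      rw [Finset.mem_image] at hx
      obtain ⟨k, hk, rfl⟩ := hx
      obtain ⟨l, hl, h⟩ := (Finset.mem_filter.1 hk).2
      exact Finset.mem_image.2 ⟨l, hl, h.symm⟩
    have h2 := Finset.card_le_card this
    rw [Finset.card_image_of_injective _ he] at h2
    exact h2.trans Finset.card_image_le
  have h2 : (Finset.univ.filter (fun k : Fin m => ∃ l ∈ J, f k = e l)).card ≤ J.card := by
    have : (Finset.univ.filter (fun k : Fin m => ∃ l ∈ J, f k = e l)).image f ⊆ J.image e := by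
      intro x hx
      rw [Finset.mem_image] at hx
      obtain ⟨k, hk, rfl⟩ := hx
      obtain ⟨l, hl, h⟩ := (Finset.mem_filter.1 hk).2
      exact Finset.mem_image.2 ⟨l, hl, h.symm⟩
    have h2 := Finset.card_le_card this
    rw [Finset.card_image_of_injective _ hf] at h2
    exact h2.trans Finset.card_image_le
  have hm : m ≤ 3 * J.card := by
    have hsub : (Finset.univ : Finset (Fin m)) ⊆ J ∪
        ((Finset.univ.filter (fun k : Fin m => ∃ l ∈ J, e k = f l)) ∪
         (Finset.univ.filter (fun k : Fin m => ∃ l ∈ J, f k = e l))) := by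
      intro k _
      by_cases hk : k ∈ J
      · exact Finset.mem_union_left _ hk
      · refine Finset.mem_union_right _ ?_
        rcases hcov k hk with h | h
        · exact Finset.mem_union_left _ (Finset.mem_filter.2 ⟨Finset.mem_univ _, h⟩)
        · exact Finset.mem_union_right _ (Finset.mem_filter.2 ⟨Finset.mem_univ _, h⟩)
    have h3 := Finset.card_le_card hsub
    rw [Finset.card_univ, Fintype.card_fin] at h3
    have h4 := Finset.card_union_le J
        ((Finset.univ.filter (fun k : Fin m => ∃ l ∈ J, e k = f l)) ∪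
         (Finset.univ.filter (fun k : Fin m => ∃ l ∈ J, f k = e l)))
    have h5 := Finset.card_union_le (Finset.univ.filter (fun k : Fin m => ∃ l ∈ J, e k = f l))
         (Finset.univ.filter (fun k : Fin m => ∃ l ∈ J, f k = e l))
    omega
  have hJE : J.card ≤ Fintype.card E := by
    rw [← Finset.card_image_of_injective J he]
    exact Finset.card_le_univ _
  have hcount : (Finset.univ.filter (fun ξ : E → Fin n => ∀ k, ξ (e k) = ξ (f k))).card ≤
      n ^ (Fintype.card E - J.card) := by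
    have hcard : Fintype.card ({x : E // x ∉ J.image e} → Fin n) = n ^ (Fintype.card E - J.card) := by
      rw [Fintype.card_fun, Fintype.card_fin]
      congr 1
      rw [Fintype.card_subtype_compl, Fintype.card_coe, Finset.card_image_of_injective _ he]
    rw [← hcard, ← Finset.card_univ]
    refine Finset.card_le_card_of_injOn (fun ξ x => ξ x.1) (fun _ _ => Finset.mem_univ _) ?_
    intro ξ hξ ξ' hξ' h
    have hξ1 := (Finset.mem_filter.1 hξ).2
    have hξ2 := (Finset.mem_filter.1 hξ').2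
    have hoff : ∀ x, x ∉ J.image e → ξ x = ξ' x := fun x hx => congrFun h ⟨x, hx⟩
    funext x
    by_cases hx : x ∈ J.image e
    · obtain ⟨k, hk, rfl⟩ := Finset.mem_image.1 hx
      rw [hξ1 k, hξ2 k]
      apply hoff
      intro hc
      obtain ⟨l, hl, h'⟩ := Finset.mem_image.1 hc
      exact hJ l hl k hk h'
    · exact hoff x hx
  rcases Nat.eq_zero_or_pos n with rfl | hn
  · rcases isEmpty_or_nonempty E with hE | hE
    · have hm0 : m = 0 := by
        by_contra hne
        exact hE.elim (e ⟨0, Nat.pos_of_ne_zero hne⟩)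
      subst hm0
      simp only [Nat.zero_div, pow_zero, mul_one]
      refine hcount.trans ?_
      rw [Fintype.card_eq_zero, Nat.zero_sub]
    · have : (Finset.univ.filter (fun ξ : E → Fin 0 => ∀ k, ξ (e k) = ξ (f k))) = ∅ := by
        rw [Finset.eq_empty_iff_forall_notMem]
        intro ξ _
        exact (ξ (Classical.arbitrary E)).elim0
      rw [this]
      simp
  · calc (Finset.univ.filter (fun ξ : E → Fin n => ∀ k, ξ (e k) = ξ (f k))).card * n ^ (m / 3)
        ≤ n ^ (Fintype.card E - J.card) * n ^ J.card :=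
          Nat.mul_le_mul hcount (Nat.pow_le_pow_right hn (by omega))
      _ = n ^ Fintype.card E := by
          rw [← pow_add]
          congr 1
          omega

-- ##### edges
/-- one step of a walk -/
def edges_Step {α V : Type} (A : α → V → V → Prop) (c : α × Bool) (x y : V) : Prop :=
  if c.2 = true then A c.1 x y else A c.1 y x

theorem edges_walk_cons {α V : Type} (A : α → V → V → Prop) (v w : V) (c : α × Bool)
    (u : List (α × Bool)) : Walk A v (c :: u) w ↔ ∃ v', edges_Step A c v v' ∧ Walk A v' u w := by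
  obtain ⟨a, b⟩ := c
  cases b <;> simp [Walk, edges_Step]

theorem edges_pos {α V : Type} (A : α → V → V → Prop) (u : List (α × Bool)) : ∀ v w : V,
    Walk A v u w → ∃ p : ℕ → V, p 0 = v ∧ p u.length = w ∧
      ∀ k (hk : k < u.length), edges_Step A u[k] (p k) (p (k + 1)) := by
  induction u with
  | nil =>
    intro v w h
    exact ⟨fun _ => v, rfl, h, fun k hk => absurd hk (Nat.not_lt_zero k)⟩
  | cons c u ih =>
    intro v w h
    obtain ⟨v', h1, h2⟩ := (edges_walk_cons A v w c u).1 h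
    obtain ⟨p, hp0, hp1, hp2⟩ := ih v' w h2
    refine ⟨fun k => match k with | 0 => v | k + 1 => p k, rfl, hp1, ?_⟩
    intro k hk
    cases k with
    | zero =>
      show edges_Step A c v (p 0)
      rw [hp0]
      exact h1
    | succ k => exact hp2 k (by simpa using hk)

theorem edges_walk_of_pos {α V : Type} (A : α → V → V → Prop) (u : List (α × Bool)) :
    ∀ p : ℕ → V, (∀ k (hk : k < u.length), edges_Step A u[k] (p k) (p (k + 1))) →
      Walk A (p 0) u (p u.length) := by
  induction u with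
  | nil => intro p _; rfl
  | cons c u ih =>
    intro p hp
    rw [edges_walk_cons]
    refine ⟨p 1, hp 0 (by simp), ?_⟩
    exact ih (fun k => p (k + 1)) (fun k hk => hp (k + 1) (by simpa using hk))

theorem edges_sub {α V : Type} (A : α → V → V → Prop) (u : List (α × Bool)) (p : ℕ → V)
    (hp : ∀ k (hk : k < u.length), edges_Step A u[k] (p k) (p (k + 1))) (i j : ℕ) (hij : i ≤ j)
    (hj : j ≤ u.length) : Walk A (p i) ((u.drop i).take (j - i)) (p j) := by
  have hlen : ((u.drop i).take (j - i)).length = j - i := by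
    rw [List.length_take, List.length_drop]
    omega
  have := edges_walk_of_pos A ((u.drop i).take (j - i)) (fun k => p (i + k)) (by
    intro k hk
    rw [List.getElem_take, List.getElem_drop]
    exact hp (i + k) (by rw [hlen] at hk; omega))
  rw [hlen] at this
  have e : i + (j - i) = j := by omega
  simp only [e, Nat.add_zero] at this
  exact this

theorem edges_folded {N : ℕ} {ys : List ℕ} (hys : Adm N ys) : Folded (Shape N ys) := by
  constructor
  · rintro (_ | _) v w w' h h'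
    · exact h.1.trans h'.1.symm
    · have h1 : ys[v]? = some w := h
      have h2 : ys[v]? = some w' := h'
      exact Option.some.inj (h1.symm.trans h2)
  · rintro (_ | _) v v' w h h'
    · have := h.1.symm.trans h'.1
      omega
    · have h1 : ys[v]? = some w := h
      have h2 : ys[v']? = some w := h'
      have hlt : v < ys.length := by
        by_contra hcon
        rw [List.getElem?_eq_none (not_lt.1 hcon)] at h1
        exact absurd h1 (by simp)
      exact (List.getElem?_inj hlt hys.1).1 (h1.trans h2.symm)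

theorem edges_src_lt {N : ℕ} {ys : List ℕ} (hys : Adm N ys) {b : Bool} {v w : ℕ}
    (h : Shape N ys b v w) : v < N := by
  cases b
  · have := h.1; have := h.2; omega
  · have h1 : ys[v]? = some w := h
    have hlt : v < ys.length := by
      by_contra hcon
      rw [List.getElem?_eq_none (not_lt.1 hcon)] at h1
      exact absurd h1 (by simp)
    exact lt_of_lt_of_le hlt hys.2.1

/-- the source of an edge -/
def edges_src (b : Bool) (x y : ℕ) : ℕ := if b = true then x else y

theorem edges_step_src_lt {N : ℕ} {ys : List ℕ} (hys : Adm N ys) {c : Bool × Bool} {x y : ℕ}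
    (h : edges_Step (Shape N ys) c x y) : edges_src c.2 x y < N := by
  obtain ⟨a, b⟩ := c
  cases b
  · exact edges_src_lt hys (h : Shape N ys a y x)
  · exact edges_src_lt hys (h : Shape N ys a x y)

/-- injectivity of the edges -/
theorem edges_inj {N : ℕ} {ys : List ℕ} {m : ℕ} (hg : Girth N ys (m + 1))
    {u : List (Bool × Bool)} (hu : FreeGroup.IsReduced u) (hm : u.length = m) (p : ℕ → ℕ)
    (hp : ∀ k (hk : k < u.length), edges_Step (Shape N ys) u[k] (p k) (p (k + 1)))
    (k l : ℕ) (hkl : k < l) (hl : l < u.length)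
    (h1 : (u[k]'(hkl.trans hl)).1 = (u[l]).1)
    (h2 : edges_src (u[k]'(hkl.trans hl)).2 (p k) (p (k + 1)) =
      edges_src (u[l]).2 (p l) (p (l + 1))) : False := by
  have hinj : ∀ i j, i < j → j ≤ u.length → p i ≠ p j := by
    intro i j hij hj hpe
    have hw := edges_sub (Shape N ys) u p hp i j hij.le hj
    have hlen : ((u.drop i).take (j - i)).length = j - i := by
      rw [List.length_take, List.length_drop]
      omega
    rw [← hpe] at hw
    refine hg (p i) ((u.drop i).take (j - i)) ?_ ?_ ?_ hw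
    · exact List.IsChain.take (List.IsChain.drop hu i) (j - i)
    · intro h0
      rw [h0] at hlen
      simp at hlen
      omega
    · rw [hlen]; omega
  have hkb : k < u.length := hkl.trans hl
  unfold edges_src at h2
  cases hs : (u[k]'hkb).2 <;> cases ht : (u[l]).2 <;> rw [hs, ht] at h2 <;> simp at h2
  · exact hinj (k + 1) (l + 1) (by omega) (by omega) h2
  · rcases Nat.lt_or_ge (k + 1) l with h3 | h3
    · exact hinj (k + 1) l h3 hl.le h2
    · have h4 : l = k + 1 := by omega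
      subst h4
      have h5 := (List.isChain_iff_getElem.1 hu) k hl h1
      rw [hs, ht] at h5
      exact absurd h5 (by simp)
  · exact hinj k (l + 1) (by omega) (by omega) h2
  · exact hinj k l hkl hl.le h2

/-- the edges used by a walk: type and source -/
theorem walk_edges (N : ℕ) (ys : List ℕ) (m : ℕ) (hys : Adm N ys) (hg : Girth N ys (m + 1))
    (u : List (Bool × Bool)) (hu : FreeGroup.IsReduced u) (hm : u.length = m) (v v' w w' : ℕ)
    (hv : v ≠ v') (h : Walk (Shape N ys) v u w) (h' : Walk (Shape N ys) v' u w') :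
    ∃ e f : Fin m → Bool × Fin N, Function.Injective e ∧ Function.Injective f ∧
      (∀ k, e k ≠ f k) ∧
      ∀ (n : ℕ) (ξ : Bool → ℕ → Fin n) (U : List ((Bool × Fin n) × Bool)),
        U.map (fun a => (a.1.1, a.2)) = u → Walk (Lab N ys ξ) v U w → Walk (Lab N ys ξ) v' U w' →
        ∀ k, ξ (e k).1 (e k).2 = ξ (f k).1 (f k).2 := by
  have hF := edges_folded hys
  obtain ⟨p, hp0, hp1, hp2⟩ := edges_pos (Shape N ys) u v w h
  obtain ⟨q, hq0, hq1, hq2⟩ := edges_pos (Shape N ys) u v' w' h'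
  have hpq : ∀ k ≤ u.length, p k ≠ q k := by
    intro k hk hpe
    have hw := edges_sub (Shape N ys) u p hp2 0 k (Nat.zero_le k) hk
    have hw' := edges_sub (Shape N ys) u q hq2 0 k (Nat.zero_le k) hk
    rw [hpe] at hw
    have := walk_codet hF hw hw'
    rw [hp0, hq0] at this
    exact hv this
  have hlt : ∀ k : Fin m, k.1 < u.length := fun k => by rw [hm]; exact k.2
  let E : (p : ℕ → ℕ) → (∀ k (hk : k < u.length),
      edges_Step (Shape N ys) u[k] (p k) (p (k + 1))) → Fin m → Bool × Fin N := fun p hp k =>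
    ((u[k.1]'(hlt k)).1, ⟨edges_src (u[k.1]'(hlt k)).2 (p k.1) (p (k.1 + 1)),
      edges_step_src_lt hys (hp k.1 (hlt k))⟩)
  have hE : ∀ (p : ℕ → ℕ) (hp : ∀ k (hk : k < u.length),
      edges_Step (Shape N ys) u[k] (p k) (p (k + 1))), Function.Injective (E p hp) := by
    intro p hp k l hkl
    have h1 : (u[k.1]'(hlt k)).1 = (u[l.1]'(hlt l)).1 :=
      congrArg (fun x : Bool × Fin N => x.1) hkl
    have h2 : edges_src (u[k.1]'(hlt k)).2 (p k.1) (p (k.1 + 1)) =
        edges_src (u[l.1]'(hlt l)).2 (p l.1) (p (l.1 + 1)) :=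
      congrArg (fun x : Bool × Fin N => x.2.1) hkl
    rcases lt_trichotomy k.1 l.1 with h3 | h3 | h3
    · exact absurd (edges_inj hg hu hm p hp k.1 l.1 h3 (hlt l) h1 h2) id
    · exact Fin.ext h3
    · exact absurd (edges_inj hg hu hm p hp l.1 k.1 h3 (hlt k) h1.symm h2.symm) id
  refine ⟨E p hp2, E q hq2, hE p hp2, hE q hq2, ?_, ?_⟩
  · intro k hk
    have h2 : edges_src (u[k.1]'(hlt k)).2 (p k.1) (p (k.1 + 1)) =
        edges_src (u[k.1]'(hlt k)).2 (q k.1) (q (k.1 + 1)) :=
      congrArg (fun x : Bool × Fin N => x.2.1) hk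
    unfold edges_src at h2
    cases hs : (u[k.1]'(hlt k)).2 <;> rw [hs] at h2 <;> simp at h2
    · exact hpq (k.1 + 1) (hlt k) h2
    · exact hpq k.1 (hlt k).le h2
  · intro n ξ U hU hW hW' k
    have hUlen : U.length = u.length := by rw [← hU, List.length_map]
    have hUk : ∀ k (hk : k < u.length), u[k] = ((U[k]'(hUlen ▸ hk)).1.1, (U[k]'(hUlen ▸ hk)).2) := by
      intro k hk
      subst hU
      simp
    have key : ∀ (a b : ℕ) (p : ℕ → ℕ), p 0 = a → (∀ k (hk : k < u.length),
        edges_Step (Shape N ys) u[k] (p k) (p (k + 1))) → Walk (Lab N ys ξ) a U b →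
        ∀ k (hk : k < u.length), ξ (u[k]).1 (edges_src (u[k]).2 (p k) (p (k + 1))) =
          (U[k]'(hUlen ▸ hk)).1.2 := by
      intro a b p hpa hp hW
      obtain ⟨P, hP0, hP1, hP2⟩ := edges_pos (Lab N ys ξ) U a b hW
      have hPs : ∀ k (hk : k < u.length), edges_Step (Shape N ys) u[k] (P k) (P (k + 1)) ∧
          ξ (u[k]).1 (edges_src (u[k]).2 (P k) (P (k + 1))) = (U[k]'(hUlen ▸ hk)).1.2 := by
        intro k hk
        have h1 := hP2 k (hUlen ▸ hk)
        rw [hUk k hk]
        unfold edges_Step at h1 ⊢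
        unfold edges_src
        by_cases hs : (U[k]'(hUlen ▸ hk)).2 = true
        · rw [if_pos hs] at h1
          simp only [hs, if_true]
          exact h1
        · rw [if_neg hs] at h1
          simp only [hs, if_false]
          exact h1
      have hPp : ∀ k, k ≤ u.length → P k = p k := by
        intro k
        induction k with
        | zero => intro _; rw [hP0, hpa]
        | succ k ih =>
          intro hk
          have h1 := ih (by omega)
          have h2 := (hPs k (by omega)).1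
          have h3 := hp k (by omega)
          rw [h1] at h2
          unfold edges_Step at h2 h3
          by_cases hs : (u[k]'(by omega)).2 = true
          · rw [if_pos hs] at h2 h3
            exact hF.1 _ _ _ _ h2 h3
          · rw [if_neg hs] at h2 h3
            exact hF.2 _ _ _ _ h2 h3
      intro k hk
      have := (hPs k hk).2
      rw [hPp k hk.le, hPp (k + 1) hk] at this
      exact this
    have h1 := key v w p hp0 hp2 hW k.1 (hlt k)
    have h2 := key v' w' q hq0 hq2 hW' k.1 (hlt k)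
    exact h1.trans h2.symm

-- ##### label
theorem label_lt {N : ℕ} {ys : List ℕ} (hys : Adm N ys) {t : Bool} {v w : ℕ}
    (h : Shape N ys t v w) : v < N ∧ w < N := by
  cases t
  · obtain ⟨h1, h2⟩ := h
    exact ⟨by omega, h2⟩
  · have h' : ys[v]? = some w := h
    obtain ⟨hv, hw⟩ := List.getElem?_eq_some_iff.1 h'
    exact ⟨lt_of_lt_of_le hv hys.2.1, hys.2.2 w (hw ▸ List.getElem_mem hv)⟩

theorem label_folded {N : ℕ} {ys : List ℕ} (hys : Adm N ys) : Folded (Shape N ys) := by
  constructor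
  · intro t v w w' h h'
    cases t
    · exact h.1.trans h'.1.symm
    · have h1 : ys[v]? = some w := h
      have h2 : ys[v]? = some w' := h'
      rw [h1] at h2
      exact Option.some.inj h2
  · intro t v v' w h h'
    cases t
    · have h1 := h.1
      have h2 := h'.1
      omega
    · have h1 : ys[v]? = some w := h
      have h2 : ys[v']? = some w := h'
      obtain ⟨hv, hw⟩ := List.getElem?_eq_some_iff.1 h1
      obtain ⟨hv', hw'⟩ := List.getElem?_eq_some_iff.1 h2
      exact (hys.1.getElem_inj_iff).1 (hw.trans hw'.symm)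

theorem label_drop {n N : ℕ} {ys : List ℕ} {ξ : Bool → ℕ → Fin n}
    (U : List ((Bool × Fin n) × Bool)) : ∀ {v w : ℕ}, Walk (Lab N ys ξ) v U w →
      Walk (Shape N ys) v (U.map (fun a => (a.1.1, a.2))) w := by
  induction U with
  | nil => intro v w h; exact h
  | cons a U ih =>
    intro v w h
    obtain ⟨⟨t, i⟩, s⟩ := a
    cases s
    · obtain ⟨v', h1, h2⟩ := h
      exact ⟨v', h1.1, ih h2⟩
    · obtain ⟨v', h1, h2⟩ := h
      exact ⟨v', h1.1, ih h2⟩

theorem label_red {n N : ℕ} {ys : List ℕ} (hys : Adm N ys) {ξ : Bool → ℕ → Fin n}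
    (U : List ((Bool × Fin n) × Bool)) : ∀ {v w : ℕ}, FreeGroup.IsReduced U →
      Walk (Lab N ys ξ) v U w → FreeGroup.IsReduced (U.map (fun a => (a.1.1, a.2))) := by
  induction U with
  | nil => intro v w _ _; simp
  | cons a U ih =>
    intro v w hU h
    cases U with
    | nil => simp
    | cons b U =>
      have hU' := FreeGroup.isReduced_cons_cons.1 hU
      rw [List.map_cons, List.map_cons, FreeGroup.isReduced_cons_cons]
      obtain ⟨⟨t, i⟩, s⟩ := a
      obtain ⟨⟨t', i'⟩, s'⟩ := b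
      refine ⟨?_, ?_⟩
      · intro htt
        dsimp only at htt ⊢
        subst htt
        cases s <;> cases s'
        · rfl
        · obtain ⟨v1, h1, v2, h2, _⟩ := h
          have e1 : ξ t v1 = i := h1.2
          have e2 : ξ t v1 = i' := h2.2
          exact hU'.1 (by rw [← e1, ← e2])
        · obtain ⟨v1, h1, v2, h2, _⟩ := h
          have e1 : ξ t v = i := h1.2
          have e2 : ξ t v2 = i' := h2.2
          have e3 : v = v2 := (label_folded hys).2 t v v2 v1 h1.1 h2.1
          exact hU'.1 (by rw [← e1, ← e2, e3])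
        · rfl
      · cases s
        · obtain ⟨v1, _, h2⟩ := h
          exact ih hU'.2 h2
        · obtain ⟨v1, _, h2⟩ := h
          exact ih hU'.2 h2

theorem label_first {N : ℕ} {ys : List ℕ} (hys : Adm N ys) (u : List (Bool × Bool)) (hu : 1 ≤ u.length)
    {v w : ℕ} (h : Walk (Shape N ys) v u w) : v < N := by
  cases u with
  | nil => simp at hu
  | cons a u =>
    obtain ⟨t, s⟩ := a
    cases s
    · obtain ⟨v', h1, _⟩ := h
      exact (label_lt hys h1).2
    · obtain ⟨v', h1, _⟩ := h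
      exact (label_lt hys h1).1

/-- the good triples -/
def label_good (N : ℕ) (ys : List ℕ) (m : ℕ) (t : Fin N × Fin N × (Fin m → Bool × Bool)) : Prop :=
  t.1 ≠ t.2.1 ∧ FreeGroup.IsReduced (List.ofFn t.2.2) ∧
    ∃ w w', Walk (Shape N ys) t.1 (List.ofFn t.2.2) w ∧ Walk (Shape N ys) t.2.1 (List.ofFn t.2.2) w'

theorem label_bad (N : ℕ) (ys : List ℕ) (m n : ℕ) (hys : Adm N ys)
    (hg : Girth N ys (m + 1)) (t : Fin N × Fin N × (Fin m → Bool × Bool)) :
    ∃ B : Finset (Bool × Fin N → Fin n), B.card * n ^ (m / 3) ≤ n ^ Fintype.card (Bool × Fin N) ∧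
      (label_good N ys m t → ∀ (ξ : Bool → ℕ → Fin n) (U : List ((Bool × Fin n) × Bool)) (w w' : ℕ),
        U.map (fun a => (a.1.1, a.2)) = List.ofFn t.2.2 → Walk (Lab N ys ξ) t.1 U w →
        Walk (Lab N ys ξ) t.2.1 U w' → (fun p : Bool × Fin N => ξ p.1 p.2) ∈ B) := by
  classical
  by_cases hgood : label_good N ys m t
  · obtain ⟨hne, hred, w, w', hw, hw'⟩ := hgood
    obtain ⟨e, f, he, hf, hef, hh⟩ := walk_edges N ys m hys hg (List.ofFn t.2.2) hred (by simp)
      t.1 t.2.1 w w' (fun h => hne (Fin.ext h)) hw hw'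
    refine ⟨Finset.univ.filter (fun ξ : Bool × Fin N → Fin n => ∀ k, ξ (e k) = ξ (f k)),
      few_labels n m e f he hf hef, ?_⟩
    intro _ ξ U x x' hU h1 h2
    rw [Finset.mem_filter]
    refine ⟨Finset.mem_univ _, ?_⟩
    have d1 := label_drop U h1
    have d2 := label_drop U h2
    rw [hU] at d1 d2
    have e1 : x = w := walk_det (label_folded hys) d1 hw
    have e2 : x' = w' := walk_det (label_folded hys) d2 hw'
    subst e1 e2
    exact hh n ξ U hU h1 h2
  · exact ⟨∅, by simp, fun h => absurd h hgood⟩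

theorem exists_label (N : ℕ) (ys : List ℕ) (m n : ℕ) (hm : 1 ≤ m) (hn : 1 ≤ n) (hys : Adm N ys)
    (hg : Girth N ys (m + 1)) (hbig : N * N * 4 ^ m < n ^ (m / 3)) :
    ∃ ξ : Bool → ℕ → Fin n, Piece N ys ξ m := by
  classical
  choose B hB hB' using label_bad N ys m n hys hg
  have hcard : (Finset.univ.biUnion B).card < n ^ Fintype.card (Bool × Fin N) := by
    have hpos : 0 < n ^ (m / 3) := by positivity
    have h1 : (Finset.univ.biUnion B).card * n ^ (m / 3) ≤
        N * N * 4 ^ m * n ^ Fintype.card (Bool × Fin N) := by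
      calc (Finset.univ.biUnion B).card * n ^ (m / 3)
          ≤ (∑ t, (B t).card) * n ^ (m / 3) := Nat.mul_le_mul_right _ Finset.card_biUnion_le
        _ = ∑ t, (B t).card * n ^ (m / 3) := by rw [Finset.sum_mul]
        _ ≤ ∑ _t : Fin N × Fin N × (Fin m → Bool × Bool), n ^ Fintype.card (Bool × Fin N) :=
            Finset.sum_le_sum fun t _ => hB t
        _ = N * N * 4 ^ m * n ^ Fintype.card (Bool × Fin N) := by
            rw [Finset.sum_const, Finset.card_univ, smul_eq_mul]
            congr 1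
            simp only [Fintype.card_prod, Fintype.card_fin, Fintype.card_fun, Fintype.card_bool]
            norm_num
            ring
    have hpos2 : 0 < n ^ Fintype.card (Bool × Fin N) := by positivity
    have h2 : (Finset.univ.biUnion B).card * n ^ (m / 3) <
        n ^ Fintype.card (Bool × Fin N) * n ^ (m / 3) := by
      calc _ ≤ _ := h1
        _ < n ^ (m / 3) * n ^ Fintype.card (Bool × Fin N) := Nat.mul_lt_mul_of_pos_right hbig hpos2
        _ = _ := by ring
    exact lt_of_mul_lt_mul_right h2 (Nat.zero_le _)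
  have hex : ∃ ξ0 : Bool × Fin N → Fin n, ξ0 ∉ Finset.univ.biUnion B := by
    by_contra hall
    push Not at hall
    have : (Finset.univ.biUnion B) = Finset.univ := Finset.eq_univ_of_forall hall
    rw [this, Finset.card_univ, Fintype.card_fun, Fintype.card_fin] at hcard
    exact lt_irrefl _ hcard
  obtain ⟨ξ0, hξ0⟩ := hex
  refine ⟨fun b v => if h : v < N then ξ0 (b, ⟨v, h⟩) else ⟨0, hn⟩, ?_⟩
  set ξ : Bool → ℕ → Fin n := fun b v => if h : v < N then ξ0 (b, ⟨v, h⟩) else ⟨0, hn⟩ with hξ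
  intro v v' w w' U hne hU hlen h1 h2
  have d1 := label_drop U h1
  have d2 := label_drop U h2
  have hred := label_red hys U hU h1
  have hlen' : (U.map (fun a => (a.1.1, a.2))).length = m := by rw [List.length_map, hlen]
  have hv : v < N := label_first hys _ (by rw [hlen']; exact hm) d1
  have hv' : v' < N := label_first hys _ (by rw [hlen']; exact hm) d2
  generalize hu : U.map (fun a => (a.1.1, a.2)) = u at *
  subst hlen'
  have hofn : List.ofFn (fun k : Fin u.length => u[k]) = u := by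
    simpa using List.ofFn_getElem u
  have key := hB' (⟨v, hv⟩, ⟨v', hv'⟩, fun k : Fin u.length => u[k])
    ⟨fun h => hne (by simpa using congrArg Fin.val h), by simpa only [hofn] using hred,
      w, w', by simpa only [hofn] using d1, by simpa only [hofn] using d2⟩ ξ U w w'
      (by simpa only [hofn] using hu) h1 h2
  apply hξ0
  rw [Finset.mem_biUnion]
  refine ⟨(⟨v, hv⟩, ⟨v', hv'⟩, fun k : Fin u.length => u[k]), Finset.mem_univ _, ?_⟩
  have : (fun p : Bool × Fin N => ξ p.1 p.2) = ξ0 := by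
    funext p
    simp [hξ]
  rw [this] at key
  exact key

-- ##### pattern
theorem pattern_shape_det (N : ℕ) (ys : List ℕ) (c : Bool) (v w w' : ℕ)
    (h : Shape N ys c v w) (h' : Shape N ys c v w') : w = w' := by
  cases c
  · exact h.1.trans h'.1.symm
  · have h1 : ys[v]? = some w := h
    have h2 : ys[v]? = some w' := h'
    rw [h1] at h2
    exact Option.some.inj h2

theorem pattern_shape_codet (N : ℕ) (ys : List ℕ) (hys : ys.Nodup) (c : Bool) (v v' w : ℕ)
    (h : Shape N ys c v w) (h' : Shape N ys c v' w) : v = v' := by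
  cases c
  · have h1 := h.1
    have h2 := h'.1
    omega
  · have h1 : ys[v]? = some w := h
    have h2 : ys[v']? = some w := h'
    have hv : v < ys.length := by
      by_contra hc
      rw [List.getElem?_eq_none (by omega)] at h1
      cases h1
    exact (List.getElem?_inj hv hys).1 (h1.trans h2.symm)

theorem pattern_folded (N : ℕ) (ys : List ℕ) (hys : ys.Nodup) {n : ℕ} (ξ : Bool → ℕ → Fin n) :
    Folded (Lab N ys ξ) := by
  refine ⟨?_, ?_⟩
  · intro a v w w' h h'
    exact pattern_shape_det N ys a.1 v w w' h.1 h'.1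
  · intro a v v' w h h'
    exact pattern_shape_codet N ys hys a.1 v v' w h.1 h'.1

/-- forget the labels -/
def pattern_f {n : ℕ} (a : (Bool × Fin n) × Bool) : Bool × Bool := (a.1.1, a.2)

theorem pattern_walk (N : ℕ) (ys : List ℕ) {n : ℕ} (ξ : Bool → ℕ → Fin n) :
    ∀ (u : List ((Bool × Fin n) × Bool)) (v w : ℕ), Walk (Lab N ys ξ) v u w →
      Walk (Shape N ys) v (u.map pattern_f) w := by
  intro u
  induction u with
  | nil => intro v w h; exact h
  | cons a u ih =>
    intro v w h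
    obtain ⟨a, s⟩ := a
    cases s
    · obtain ⟨v', h1, h2⟩ := h
      exact ⟨v', h1.1, ih v' w h2⟩
    · obtain ⟨v', h1, h2⟩ := h
      exact ⟨v', h1.1, ih v' w h2⟩

theorem pattern_red (N : ℕ) (ys : List ℕ) (hys : ys.Nodup) {n : ℕ} (ξ : Bool → ℕ → Fin n) :
    ∀ (u : List ((Bool × Fin n) × Bool)) (v w : ℕ), Walk (Lab N ys ξ) v u w →
      FreeGroup.IsReduced u → FreeGroup.IsReduced (u.map pattern_f) := by
  intro u
  induction u with
  | nil => intro v w h hr; exact FreeGroup.IsReduced.nil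
  | cons a u ih =>
    intro v w h hr
    cases u with
    | nil => exact FreeGroup.IsReduced.singleton
    | cons b u =>
      rw [FreeGroup.isReduced_cons_cons] at hr
      rw [List.map_cons, List.map_cons, FreeGroup.isReduced_cons_cons]
      have hw' : ∃ v', Walk (Lab N ys ξ) v' (b :: u) w := by
        obtain ⟨a, s⟩ := a
        cases s
        · obtain ⟨v', h1, h2⟩ := h
          exact ⟨v', h2⟩
        · obtain ⟨v', h1, h2⟩ := h
          exact ⟨v', h2⟩
      refine ⟨?_, ?_⟩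
      · intro hab
        by_contra hne
        obtain ⟨⟨c, l⟩, s⟩ := a
        obtain ⟨⟨c', l'⟩, s'⟩ := b
        simp only [pattern_f] at hab hne
        subst hab
        cases s <;> cases s'
        · exact hne rfl
        · obtain ⟨v', h1, v'', h2, h3⟩ := h
          have e1 : ξ c v' = l := h1.2
          have e2 : ξ c v' = l' := h2.2
          have := hr.1 (by rw [← e1, ← e2])
          cases this
        · obtain ⟨v', h1, v'', h2, h3⟩ := h
          have e0 : v = v'' := pattern_shape_codet N ys hys c v v'' v' h1.1 h2.1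
          have e1 : ξ c v = l := h1.2
          have e2 : ξ c v'' = l' := h2.2
          rw [← e0] at e2
          have := hr.1 (by rw [← e1, ← e2])
          cases this
        · exact hne rfl
      · obtain ⟨v', hv'⟩ := hw'
        have := ih v' w hv' hr.2
        rwa [List.map_cons] at this

theorem pattern_girth (N : ℕ) (ys : List ℕ) (hys : ys.Nodup) {n : ℕ} (ξ : Bool → ℕ → Fin n)
    (ℓ : ℕ) (hg : Girth N ys ℓ) (v : ℕ) (f : FreeGroup (Bool × Fin n))
    (h : Rd (Lab N ys ξ) v f v) (hf : f ≠ 1) : ℓ ≤ f.norm := by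
  by_contra hc
  push Not at hc
  refine hg v (f.toWord.map pattern_f) (pattern_red N ys hys ξ _ v v h FreeGroup.isReduced_toWord)
    ?_ ?_ (pattern_walk N ys ξ _ v v h)
  · intro he
    rw [List.map_eq_nil_iff] at he
    exact hf (FreeGroup.toWord_eq_nil_iff.1 he)
  · rw [List.length_map]
    exact hc

theorem pattern_piece (N : ℕ) (ys : List ℕ) {n m : ℕ} (ξ : Bool → ℕ → Fin n) (hm : 1 ≤ m)
    (hp : Piece N ys ξ m) (v v' w w' : ℕ) (f : FreeGroup (Bool × Fin n)) (hv : v ≠ v')
    (h : Rd (Lab N ys ξ) v f w) (h' : Rd (Lab N ys ξ) v' f w') : f.norm ≤ m - 1 := by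
  by_contra hc
  have hlen : m ≤ f.toWord.length := by
    have : f.norm = f.toWord.length := rfl
    omega
  have e : f.toWord = f.toWord.take m ++ f.toWord.drop m := (List.take_append_drop m _).symm
  unfold Rd at h h'
  rw [e] at h h'
  obtain ⟨x, hx, _⟩ := (walk_append _ _ _ _ _).1 h
  obtain ⟨x', hx', _⟩ := (walk_append _ _ _ _ _).1 h'
  refine hp v v' x x' (f.toWord.take m) hv ?_ ?_ hx hx'
  · exact red_sub FreeGroup.isReduced_toWord (List.take_prefix m _).isInfix
  · rw [List.length_take]; omega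

/-- the words along the path -/
def pattern_q {n : ℕ} (ξ : Bool → ℕ → Fin n) : ℕ → FreeGroup (Bool × Fin n)
  | 0 => 1
  | i + 1 => pattern_q ξ i * FreeGroup.of (false, ξ false i)

theorem pattern_rd (N : ℕ) (ys : List ℕ) (hys : ys.Nodup) {n : ℕ} (ξ : Bool → ℕ → Fin n) :
    ∀ i, i < N → Rd (Lab N ys ξ) 0 (pattern_q ξ i) i := by
  intro i
  induction i with
  | zero => intro _; exact rd_one _ _
  | succ i ih =>
    intro hi
    refine rd_mul (pattern_folded N ys hys ξ) (ih (by omega)) ?_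
    unfold Rd
    rw [FreeGroup.toWord_of]
    exact ⟨i + 1, ⟨⟨rfl, hi⟩, rfl⟩, rfl⟩

theorem pattern_group (N : ℕ) (ys : List ℕ) (n m : ℕ) (ξ : Bool → ℕ → Fin n) (hm : 1 ≤ m)
    (hys : Adm N ys) (hg : Girth N ys (6 * m)) (hN : 1 ≤ N) (hp : Piece N ys ξ m) :
    ∃ (H : Type) (_ : Group H) (h : Bool × Fin n → H) (p : ℕ → H),
      Subgroup.closure (Set.range h) = ⊤ ∧ p 0 = 1 ∧
      (∀ i, i + 1 < N → (p i)⁻¹ * p (i + 1) = h (false, ξ false i)) ∧
      (∀ k y, ys[k]? = some y → (p k)⁻¹ * p y = h (true, ξ true k)) ∧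
      ∀ i j, i < N → j < N → p i = p j → i = j := by
  have hA := pattern_folded N ys hys.1 ξ
  let K : Subgroup (FreeGroup (Bool × Fin n)) :=
    Subgroup.normalClosure (loops hA 0 : Set (FreeGroup (Bool × Fin n)))
  refine ⟨FreeGroup (Bool × Fin n) ⧸ K, inferInstance,
    fun a => QuotientGroup.mk' K (FreeGroup.of a),
    fun i => QuotientGroup.mk' K (pattern_q ξ i), ?_, ?_, ?_, ?_, ?_⟩
  · have e : Set.range (fun a => QuotientGroup.mk' K (FreeGroup.of a)) =
        (QuotientGroup.mk' K) '' (Set.range (FreeGroup.of (α := Bool × Fin n))) := by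
      rw [← Set.range_comp]; rfl
    rw [e, ← MonoidHom.map_closure, FreeGroup.closure_range_of, ← MonoidHom.range_eq_map]
    exact QuotientGroup.range_mk' K
  · show QuotientGroup.mk' K (pattern_q ξ 0) = 1
    exact map_one _
  · intro i _
    show (QuotientGroup.mk' K (pattern_q ξ i))⁻¹ * QuotientGroup.mk' K (pattern_q ξ i *
      FreeGroup.of (false, ξ false i)) = _
    rw [map_mul, inv_mul_cancel_left]
  · intro k y hk
    have hkl : k < ys.length := by
      by_contra hc
      rw [List.getElem?_eq_none (by omega)] at hk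
      cases hk
    have hkN : k < N := lt_of_lt_of_le hkl hys.2.1
    have hyN : y < N := hys.2.2 y (List.mem_of_getElem? hk)
    have h1 : Rd (Lab N ys ξ) k (FreeGroup.of (true, ξ true k)) y := by
      unfold Rd
      rw [FreeGroup.toWord_of]
      exact ⟨y, ⟨hk, rfl⟩, rfl⟩
    have h2 := rd_mul hA (rd_mul hA (pattern_rd N ys hys.1 ξ k hkN) h1)
      (rd_inv (pattern_rd N ys hys.1 ξ y hyN))
    have h3 : pattern_q ξ k * FreeGroup.of (true, ξ true k) * (pattern_q ξ y)⁻¹ ∈ K :=
      Subgroup.subset_normalClosure h2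
    have h4 : QuotientGroup.mk' K (pattern_q ξ k * FreeGroup.of (true, ξ true k) *
        (pattern_q ξ y)⁻¹) = 1 := (QuotientGroup.eq_one_iff _).2 h3
    rw [map_mul, map_mul, map_inv, mul_inv_eq_one] at h4
    show (QuotientGroup.mk' K (pattern_q ξ k))⁻¹ * QuotientGroup.mk' K (pattern_q ξ y) =
      QuotientGroup.mk' K (FreeGroup.of (true, ξ true k))
    rw [← h4, inv_mul_cancel_left]
  · intro i j hi hj hij
    have h1 : (pattern_q ξ i)⁻¹ * pattern_q ξ j ∈ K := QuotientGroup.eq.1 hij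
    exact graph_inj hA 0 (m - 1) (6 * m) (by omega)
      (fun v f h hf => pattern_girth N ys hys.1 ξ (6 * m) hg v f h hf)
      (fun v v' w w' f hv h h' => pattern_piece N ys ξ hm hp v v' w w' f hv h h')
      (pattern_q ξ i) (pattern_q ξ j) i j (pattern_rd N ys hys.1 ξ i hi)
      (pattern_rd N ys hys.1 ξ j hj) h1

-- ##### scount
open scoped Pointwise in
theorem scount_cover {S : Type*} [Group S] [TopologicalSpace S] [IsTopologicalGroup S]
    [LocallyCompactSpace S] (K W : Set S) (hK : IsCompact K) (hW : W ∈ nhds (1 : S)) :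
    ∃ (U : Set S) (Φ : Finset S), (1 : S) ∈ U ∧ Φ.Nonempty ∧
      (∀ a ∈ U, ∀ b ∈ U, ∀ c ∈ U, ∀ d ∈ U, a⁻¹ * b * c⁻¹ * d ∈ W) ∧
      (∀ u ∈ U, ∀ κ ∈ K, ∃ f ∈ Φ, f⁻¹ * (u * κ) ∈ U) := by
  classical
  obtain ⟨V, hV, hV4⟩ := exists_nhds_one_split4 hW
  obtain ⟨D, hD, hD1⟩ := exists_compact_mem_nhds (1 : S)
  have hVi : V⁻¹ ∈ nhds (1 : S) := by
    have := inv_mem_nhds_one S hV
    exact this
  set U : Set S := V ∩ V⁻¹ ∩ D with hU
  have hUn : U ∈ nhds (1 : S) := Filter.inter_mem (Filter.inter_mem hV hVi) hD1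
  have hDK : IsCompact (D * K) := hD.mul hK
  obtain ⟨t, -, ht⟩ := hDK.elim_nhds_subcover (fun f => {s | f⁻¹ * s ∈ U}) (by
    intro x _
    have hc : ContinuousAt (fun s : S => x⁻¹ * s) x := by fun_prop
    apply hc
    simpa using hUn)
  refine ⟨U, insert 1 t, mem_of_mem_nhds hUn, Finset.insert_nonempty _ _, ?_, ?_⟩
  · intro a ha b hb c hc d hd
    exact hV4 ha.1.2 hb.1.1 hc.1.2 hd.1.1
  · intro u hu κ hκ
    have : u * κ ∈ D * K := Set.mul_mem_mul hu.2 hκ
    have h2 := ht this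
    simp only [Set.mem_iUnion, exists_prop] at h2
    obtain ⟨f, hf, hfu⟩ := h2
    exact ⟨f, Finset.mem_insert_of_mem hf, hfu⟩

/-- the partial products -/
def scount_x {S : Type*} [Group S] (φ : ℕ → S) : ℕ → S
  | 0 => 1
  | i + 1 => scount_x φ i * φ i

theorem scount_x_congr {S : Type*} [Group S] (φ φ' : ℕ → S) (N : ℕ) (h : ∀ i < N, φ i = φ' i) :
    ∀ i, i ≤ N → scount_x φ i = scount_x φ' i := by
  intro i
  induction i with
  | zero => intro _; rfl
  | succ i ih =>
    intro hi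
    simp only [scount_x]
    rw [ih (by omega), h i (by omega)]

theorem scount_code {S : Type*} [Group S] (K U : Set S) (Φ : Finset S) (h1 : (1 : S) ∈ U)
    (hΦ : Φ.Nonempty) (hcov : ∀ u ∈ U, ∀ κ ∈ K, ∃ f ∈ Φ, f⁻¹ * (u * κ) ∈ U)
    (N k : ℕ) (hk : k ≤ N) (ys : List ℕ) (hl : ys.length = k) (P : ℕ → S) (hP0 : P 0 = 1)
    (hP1 : ∀ i, i + 1 < N → (P i)⁻¹ * P (i + 1) ∈ K)
    (hP2 : ∀ i y, ys[i]? = some y → (P i)⁻¹ * P y ∈ K) :
    ∃ φ ψ : ℕ → S, (∀ i, φ i ∈ Φ) ∧ (∀ i, ψ i ∈ Φ) ∧
      (∀ i, i < N → (scount_x φ i)⁻¹ * P i ∈ U) ∧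
      (∀ i y, ys[i]? = some y → (ψ i)⁻¹ * ((scount_x φ i)⁻¹ * P y) ∈ U) := by
  classical
  obtain ⟨f0, hf0⟩ := hΦ
  have hsel : ∀ s : S, ∃ f ∈ Φ, (∃ u ∈ U, ∃ κ ∈ K, s = u * κ) → f⁻¹ * s ∈ U := by
    intro s
    by_cases hs : ∃ u ∈ U, ∃ κ ∈ K, s = u * κ
    · obtain ⟨u, hu, κ, hκ, rfl⟩ := hs
      obtain ⟨f, hf, hfu⟩ := hcov u hu κ hκ
      exact ⟨f, hf, fun _ => hfu⟩
    · exact ⟨f0, hf0, fun h => absurd h hs⟩
  choose sel hselΦ hselU using hsel
  -- the x-sequence
  let x : ℕ → S := fun i => Nat.rec (motive := fun _ => S) 1 (fun i xi => xi * sel (xi⁻¹ * P (i + 1))) i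
  have hx0 : x 0 = 1 := rfl
  have hxs : ∀ i, x (i + 1) = x i * sel ((x i)⁻¹ * P (i + 1)) := fun i => rfl
  let φ : ℕ → S := fun i => sel ((x i)⁻¹ * P (i + 1))
  have hxφ : ∀ i, scount_x φ i = x i := by
    intro i
    induction i with
    | zero => rfl
    | succ i ih => rw [scount_x, ih, hxs]
  have hxU : ∀ i, i < N → (x i)⁻¹ * P i ∈ U := by
    intro i
    induction i with
    | zero => intro _; rw [hx0, hP0]; simpa using h1
    | succ i ih =>
      intro hi
      have h2 := ih (by omega)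
      have h3 := hP1 i hi
      have h4 := hselU ((x i)⁻¹ * P (i + 1)) ⟨_, h2, _, h3, by group⟩
      rw [hxs]
      have : (x i * sel ((x i)⁻¹ * P (i + 1)))⁻¹ * P (i + 1)
          = (sel ((x i)⁻¹ * P (i + 1)))⁻¹ * ((x i)⁻¹ * P (i + 1)) := by
        rw [mul_inv_rev, mul_assoc]
      rw [this]; exact h4
  let ψ : ℕ → S := fun i => sel ((x i)⁻¹ * P (ys[i]?.getD 0))
  refine ⟨φ, ψ, fun i => hselΦ _, fun i => hselΦ _, ?_, ?_⟩
  · intro i hi
    rw [hxφ]; exact hxU i hi
  · intro i y hy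
    rw [hxφ]
    have hi : i < N := by
      have : i < ys.length := by
        by_contra hcon
        rw [List.getElem?_eq_none (by omega)] at hy
        exact absurd hy (by simp)
      omega
    have h5 : ψ i = sel ((x i)⁻¹ * P y) := by
      show sel ((x i)⁻¹ * P (ys[i]?.getD 0)) = _
      rw [hy]; rfl
    rw [h5]
    exact hselU ((x i)⁻¹ * P y) ⟨_, hxU i hi, _, hP2 i y hy, by group⟩

theorem scount {S : Type*} [Group S] [TopologicalSpace S] [IsTopologicalGroup S]
    [LocallyCompactSpace S] (K W : Set S) (hK : IsCompact K) (hW : W ∈ nhds (1 : S)) :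
    ∃ C : ℕ, ∀ (N k : ℕ) (T : Finset (List ℕ)), k ≤ N →
      (∀ ys ∈ T, ys.length = k ∧ (∀ y ∈ ys, y < N) ∧
        ∃ P : ℕ → S, P 0 = 1 ∧ (∀ i, i + 1 < N → (P i)⁻¹ * P (i + 1) ∈ K) ∧
          (∀ i y, ys[i]? = some y → (P i)⁻¹ * P y ∈ K) ∧
          ∀ i j, i < N → j < N → (P i)⁻¹ * P j ∈ W → i = j) →
      T.card ≤ C ^ N := by
  classical
  obtain ⟨U, Φ, h1, hΦ, hUW, hcov⟩ := scount_cover K W hK hW
  refine ⟨Φ.card ^ 2, ?_⟩
  intro N k T hk hT
  -- the code
  have hcode : ∀ ys : T, ∃ (P φ ψ : ℕ → S), (∀ i, φ i ∈ Φ) ∧ (∀ i, ψ i ∈ Φ) ∧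
      (∀ i, i < N → (scount_x φ i)⁻¹ * P i ∈ U) ∧
      (∀ i y, ys.1[i]? = some y → (ψ i)⁻¹ * ((scount_x φ i)⁻¹ * P y) ∈ U) ∧
      ∀ i j, i < N → j < N → (P i)⁻¹ * P j ∈ W → i = j := by
    intro ys
    obtain ⟨hl, hlt, P, hP0, hP1, hP2, hP3⟩ := hT ys.1 ys.2
    obtain ⟨φ, ψ, a, b, c, d⟩ := scount_code K U Φ h1 hΦ hcov N k hk ys.1 hl P hP0 hP1 hP2
    exact ⟨P, φ, ψ, a, b, c, d, hP3⟩
  choose P φ ψ hφ hψ hU1 hU2 hinj using hcode
  let code : T → (Fin N → Φ) × (Fin N → Φ) := fun ys =>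
    (fun i => ⟨φ ys i, hφ ys i⟩, fun i => ⟨ψ ys i, hψ ys i⟩)
  have hci : Function.Injective code := by
    intro ys ys' h
    have e1 : ∀ i < N, φ ys i = φ ys' i := by
      intro i hi
      have := congrFun (congrArg Prod.fst h) ⟨i, hi⟩
      exact congrArg Subtype.val this
    have e2 : ∀ i < N, ψ ys i = ψ ys' i := by
      intro i hi
      have := congrFun (congrArg Prod.snd h) ⟨i, hi⟩
      exact congrArg Subtype.val this
    have e3 := scount_x_congr (φ ys) (φ ys') N e1
    obtain ⟨l1, m1, -⟩ := hT ys.1 ys.2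
    obtain ⟨l2, m2, -⟩ := hT ys'.1 ys'.2
    apply Subtype.ext
    apply List.ext_getElem (by rw [l1, l2])
    intro i hi hi'
    set y := ys.1[i] with hy
    set y' := ys'.1[i] with hy'
    have hyN : y < N := m1 _ (List.getElem_mem _)
    have hyN' : y' < N := m2 _ (List.getElem_mem _)
    have hiN : i < N := by omega
    have hq1 := hU2 ys i y (List.getElem?_eq_getElem hi)
    have hq2 := hU2 ys' i y' (List.getElem?_eq_getElem hi')
    have hq3 := hU1 ys' y' hyN'
    have hq4 := hU1 ys y' hyN'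
    rw [← e2 i hiN, ← e3 i hiN.le] at hq2
    rw [← e3 y' hyN'.le] at hq3
    have key := hUW _ hq1 _ hq2 _ hq3 _ hq4
    apply hinj ys y y' hyN hyN'
    convert key using 1
    group
  have hcard := Fintype.card_le_of_injective code hci
  rw [Fintype.card_coe] at hcard
  calc T.card ≤ Fintype.card ((Fin N → Φ) × (Fin N → Φ)) := hcard
    _ = (Φ.card ^ 2) ^ N := by
      rw [Fintype.card_prod, Fintype.card_fun, Fintype.card_fin, Fintype.card_coe]
      rw [← pow_mul, ← pow_add]; congr 1; ring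

-- ##### box
/-- number of labels -/
def nlab : ℕ := 2048 * 5 ^ 36

theorem box_nlab : 1 ≤ nlab := by
  have h : 1 ≤ 5 ^ 36 := Nat.one_le_pow _ _ (by norm_num)
  show 1 ≤ 2048 * 5 ^ 36
  omega

theorem box_num (t q : ℕ) (ht : 1 ≤ t) (hq : 5 ^ (18 * t) = q) :
    (4 * q) * (4 * q) * 4 ^ (3 * t) < nlab ^ t := by
  have e1 : nlab ^ t = 32 ^ t * (64 ^ t * (q * q)) := by
    show (2048 * 5 ^ 36) ^ t = _
    have e2 : (2048 : ℕ) = 32 * 64 := by norm_num
    have e3 : q * q = (5 ^ 36) ^ t := by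
      rw [← hq, ← pow_add, ← pow_mul]
      congr 1
      ring
    rw [e2, mul_pow, mul_pow, e3, mul_assoc]
  have e4 : (4 * q) * (4 * q) * 4 ^ (3 * t) = 16 * (64 ^ t * (q * q)) := by
    have e5 : (4 : ℕ) ^ (3 * t) = 64 ^ t := by
      rw [pow_mul]
      norm_num
    rw [e5]
    ring
  have h7 : 16 < 32 ^ t := by
    calc 16 < 32 ^ 1 := by norm_num
      _ ≤ 32 ^ t := Nat.pow_le_pow_right (by norm_num) ht
  have hq1 : 0 < q := by
    rw [← hq]
    exact pow_pos (by norm_num) _
  have h8 : 0 < 64 ^ t * (q * q) := by positivity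
  rw [e1, e4]
  exact Nat.mul_lt_mul_of_pos_right h7 h8

theorem box {S : Type*} [Group S] [TopologicalSpace S] [IsTopologicalGroup S]
    [LocallyCompactSpace S] (K W : Set S) (hK : IsCompact K) (hW : W ∈ nhds (1 : S)) :
    ∃ (H : Type) (_ : Group H) (h : Bool × Fin nlab → H), Subgroup.closure (Set.range h) = ⊤ ∧
      ¬ ∃ φ : H →* S, (∀ a, φ (h a) ∈ K) ∧ ∀ x, φ x ∈ W → x = 1 := by
  by_contra hcon
  have hcon' : ∀ (H : Type) (_ : Group H) (h : Bool × Fin nlab → H),
      Subgroup.closure (Set.range h) = ⊤ →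
      ∃ φ : H →* S, (∀ a, φ (h a) ∈ K) ∧ ∀ x, φ x ∈ W → x = 1 := by
    intro H iH h hcl
    by_contra hno
    exact hcon ⟨H, iH, h, hcl, hno⟩
  obtain ⟨C, hC⟩ := scount K W hK hW
  obtain ⟨t, ht1, ht⟩ : ∃ t : ℕ, 1 ≤ t ∧ C ^ 4 < 2 * 5 ^ (18 * t) := by
    refine ⟨C ^ 4 + 1, Nat.le_add_left _ _, ?_⟩
    have h1 : C ^ 4 + 1 < 5 ^ (C ^ 4 + 1) := Nat.lt_pow_self (by norm_num)
    have h2 : 5 ^ (C ^ 4 + 1) ≤ 5 ^ (18 * (C ^ 4 + 1)) :=
      Nat.pow_le_pow_right (by norm_num) (by omega)
    omega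
  generalize hq : 5 ^ (18 * t) = q at ht
  have hq1 : 1 ≤ q := by
    rw [← hq]
    exact Nat.one_le_pow _ _ (by norm_num)
  obtain ⟨T, hT1, hT2⟩ := greedy (4 * q) (18 * t) q (le_refl _) (by rw [hq])
  have hbig : (4 * q) * (4 * q) * 4 ^ (3 * t) < nlab ^ (3 * t / 3) := by
    have h3 : 3 * t / 3 = t := by omega
    rw [h3]
    exact box_num t q ht1 hq
  have hcard : T.card ≤ C ^ (4 * q) := by
    refine hC (4 * q) q T (by omega) ?_
    intro ys hys
    obtain ⟨hlen, hadm, hgir⟩ := hT2 ys hys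
    refine ⟨hlen, hadm.2.2, ?_⟩
    have hm1 : 1 ≤ 3 * t := by omega
    have hg1 : Girth (4 * q) ys (3 * t + 1) := by
      intro v u hu hne hul
      exact hgir v u hu hne (by omega)
    have hg2 : Girth (4 * q) ys (6 * (3 * t)) := by
      intro v u hu hne hul
      exact hgir v u hu hne (by omega)
    obtain ⟨ξ, hξ⟩ := exists_label (4 * q) ys (3 * t) nlab hm1 box_nlab hadm hg1 hbig
    obtain ⟨H, iH, h, p, hcl, hp0, hp1, hp2, hp3⟩ :=
      pattern_group (4 * q) ys nlab (3 * t) ξ hm1 hadm hg2 (by omega) hξ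
    obtain ⟨φ, hφ1, hφ2⟩ := hcon' H iH h hcl
    refine ⟨fun i => φ (p i), ?_, ?_, ?_, ?_⟩
    · simp only [hp0, map_one]
    · intro i hi
      have e : (φ (p i))⁻¹ * φ (p (i + 1)) = φ ((p i)⁻¹ * p (i + 1)) := by
        rw [map_mul, map_inv]
      show (φ (p i))⁻¹ * φ (p (i + 1)) ∈ K
      rw [e, hp1 i hi]
      exact hφ1 _
    · intro i y hiy
      have e : (φ (p i))⁻¹ * φ (p y) = φ ((p i)⁻¹ * p y) := by
        rw [map_mul, map_inv]
      show (φ (p i))⁻¹ * φ (p y) ∈ K
      rw [e, hp2 i y hiy]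
      exact hφ1 _
    · intro i j hi hj hW'
      have e : (φ (p i))⁻¹ * φ (p j) = φ ((p i)⁻¹ * p j) := by
        rw [map_mul, map_inv]
      have hW'' : φ ((p i)⁻¹ * p j) ∈ W := by
        rw [← e]
        exact hW'
      have h1 := hφ2 _ hW''
      exact hp3 i j hi hj (inv_mul_eq_one.mp h1)
  have hhalf : 4 * q / 2 = 2 * q := by omega
  rw [hhalf] at hT1
  have h5 : (2 * q) ^ q ≤ (C ^ 4) ^ q := by
    calc (2 * q) ^ q ≤ T.card := hT1
      _ ≤ C ^ (4 * q) := hcard
      _ = (C ^ 4) ^ q := by rw [pow_mul]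
  have h6 : (C ^ 4) ^ q < (2 * q) ^ q := Nat.pow_lt_pow_left ht (by omega)
  omega

-- ##### embed
/-- multiplication by a cocycle -/
def embed_mulP {C : Type} [Group C] (s : ℤ → ℤ → C) : Equiv.Perm (C × ℤ × ℤ) where
  toFun p := (s p.2.1 p.2.2 * p.1, p.2.1, p.2.2)
  invFun p := ((s p.2.1 p.2.2)⁻¹ * p.1, p.2.1, p.2.2)
  left_inv := by rintro ⟨x, i, j⟩; simp
  right_inv := by rintro ⟨x, i, j⟩; simp

/-- the shift on layer `0` -/
def embed_a (C : Type) : Equiv.Perm (C × ℤ × ℤ) where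
  toFun p := (p.1, if p.2.2 = 0 then p.2.1 + 1 else p.2.1, p.2.2)
  invFun p := (p.1, if p.2.2 = 0 then p.2.1 - 1 else p.2.1, p.2.2)
  left_inv := by
    rintro ⟨x, i, j⟩
    by_cases h : j = 0 <;> simp [h]
  right_inv := by
    rintro ⟨x, i, j⟩
    by_cases h : j = 0 <;> simp [h]

/-- the shift of the layers -/
def embed_b (C : Type) : Equiv.Perm (C × ℤ × ℤ) where
  toFun p := (p.1, p.2.1, p.2.2 + 1)
  invFun p := (p.1, p.2.1, p.2.2 - 1)
  left_inv := by rintro ⟨x, i, j⟩; simp
  right_inv := by rintro ⟨x, i, j⟩; simp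

theorem embed_mulP_apply {C : Type} [Group C] (s : ℤ → ℤ → C) (x : C) (i j : ℤ) :
    embed_mulP s (x, i, j) = (s i j * x, i, j) := rfl

theorem embed_mulP_inv {C : Type} [Group C] (s : ℤ → ℤ → C) (x : C) (i j : ℤ) :
    (embed_mulP s)⁻¹ (x, i, j) = ((s i j)⁻¹ * x, i, j) := rfl

theorem embed_a_apply {C : Type} (x : C) (i j : ℤ) :
    embed_a C (x, i, j) = (x, if j = 0 then i + 1 else i, j) := rfl

theorem embed_a_inv {C : Type} (x : C) (i j : ℤ) :
    (embed_a C)⁻¹ (x, i, j) = (x, if j = 0 then i - 1 else i, j) := rfl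

theorem embed_b_pow {C : Type} (k : ℕ) (x : C) (i j : ℤ) :
    (embed_b C ^ (k : ℤ)) (x, i, j) = (x, i, j + k) := by
  rw [zpow_natCast]
  induction k with
  | zero => simp
  | succ k ih =>
    rw [pow_succ', Equiv.Perm.mul_apply, ih]
    show (x, i, j + k + 1) = _
    push_cast
    rw [add_assoc]

theorem embed_b_pow_inv {C : Type} (k : ℕ) (x : C) (i j : ℤ) :
    (embed_b C ^ (k : ℤ))⁻¹ (x, i, j) = (x, i, j - k) := by
  rw [Equiv.Perm.inv_eq_iff_eq, embed_b_pow, sub_add_cancel]

theorem embed_conj {C : Type} [Group C] (s : ℤ → ℤ → C) (k : ℕ) :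
    (embed_b C ^ (k : ℤ))⁻¹ * embed_mulP s * (embed_b C ^ (k : ℤ)) =
      embed_mulP (fun i j => s i (j + k)) := by
  refine Equiv.ext ?_
  rintro ⟨x, i, j⟩
  rw [Equiv.Perm.mul_apply, Equiv.Perm.mul_apply, embed_b_pow, embed_mulP_apply,
    embed_b_pow_inv, embed_mulP_apply, add_sub_cancel_right]

/-- every sequence of elements of a group is, in a bigger 3-generated group of permutations, given by words
of length `4 k + 4` -/
theorem embed3 {C : Type} [Group C] (c : ℕ → C) :
    ∃ (a b f : Equiv.Perm (C × ℤ × ℤ)) (ι : C →* Equiv.Perm (C × ℤ × ℤ)), Function.Injective ι ∧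
      ∀ k : ℕ, ι (c k) = (b ^ (k : ℤ))⁻¹ * f * (b ^ (k : ℤ)) * a * ((b ^ (k : ℤ))⁻¹ * f * (b ^ (k : ℤ)))⁻¹ * a⁻¹ := by
  refine ⟨embed_a C, embed_b C, embed_mulP (fun i j => if 0 ≤ i ∧ 0 ≤ j then c j.toNat else 1),
    { toFun := fun x => embed_mulP (fun i j => if i = 0 ∧ j = 0 then x else 1)
      map_one' := ?_
      map_mul' := ?_ }, ?_, ?_⟩
  · refine Equiv.ext ?_
    rintro ⟨x, i, j⟩
    simp [embed_mulP_apply]
  · intro x y
    refine Equiv.ext ?_
    rintro ⟨z, i, j⟩
    rw [Equiv.Perm.mul_apply, embed_mulP_apply, embed_mulP_apply, embed_mulP_apply]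
    by_cases h : i = 0 ∧ j = 0
    · simp [h, mul_assoc]
    · simp [h]
  · intro x y h
    have h1 : embed_mulP (fun i j => if i = 0 ∧ j = 0 then x else 1) ((1 : C), (0 : ℤ), (0 : ℤ)) =
        embed_mulP (fun i j => if i = 0 ∧ j = 0 then y else 1) ((1 : C), (0 : ℤ), (0 : ℤ)) :=
      DFunLike.congr_fun h _
    rw [embed_mulP_apply, embed_mulP_apply] at h1
    simpa using h1
  · intro k
    rw [embed_conj]
    refine Equiv.ext ?_
    rintro ⟨x, i, j⟩
    rw [Equiv.Perm.mul_apply, Equiv.Perm.mul_apply, Equiv.Perm.mul_apply, embed_a_inv,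
      embed_mulP_inv, embed_a_apply, embed_mulP_apply]
    show embed_mulP (fun i j => if i = 0 ∧ j = 0 then c k else 1) (x, i, j) = _
    rw [embed_mulP_apply]
    by_cases hj : j = 0
    · subst hj
      rcases lt_trichotomy i 0 with hi | hi | hi
      · have h1 : ¬ (0 ≤ i) := by omega
        have h2 : ¬ (1 ≤ i) := by omega
        have h3 : i ≠ 0 := by omega
        simp [h1, h2, h3]
      · subst hi
        simp
      · have h1 : 0 ≤ i := by omega
        have h2 : 1 ≤ i := by omega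
        have h3 : i ≠ 0 := by omega
        simp [h1, h2, h3]
    · simp [hj]

-- ##### wreath
/-- a group containing `G` in which `G` can be separated from 1 by one commutator inequality -/
theorem wreath (G : Type) [Group G] :
    ∃ (θ : G →* Equiv.Perm (G × Fin 3)) (x y : Equiv.Perm (G × Fin 3)), Function.Injective θ ∧
      x * y ≠ y * x ∧ ∀ g : G, g ≠ 1 → (θ g * x * (θ g)⁻¹) * y = y * (θ g * x * (θ g)⁻¹) := by
  classical
  let θ : G →* Equiv.Perm (G × Fin 3) :=
    { toFun := fun g => (Equiv.mulLeft g).prodCongr (Equiv.refl (Fin 3))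
      map_one' := by
        ext p
        · simp
        · simp
      map_mul' := fun a b => by
        ext p
        · simp [mul_assoc]
        · simp }
  have hθ : ∀ g h s, θ g (h, s) = (g * h, s) := fun g h s => rfl
  let x : Equiv.Perm (G × Fin 3) := Equiv.Perm.prodExtendRight 1 (Equiv.swap 0 1)
  let y : Equiv.Perm (G × Fin 3) := Equiv.Perm.prodExtendRight 1 (Equiv.swap 1 2)
  have hx1 : ∀ s, x (1, s) = (1, Equiv.swap 0 1 s) := fun s =>
    Equiv.Perm.prodExtendRight_apply_eq _ _ _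
  have hx2 : ∀ h s, h ≠ 1 → x (h, s) = (h, s) := fun h s hh =>
    Equiv.Perm.prodExtendRight_apply_ne _ hh s
  have hy1 : ∀ s, y (1, s) = (1, Equiv.swap 1 2 s) := fun s =>
    Equiv.Perm.prodExtendRight_apply_eq _ _ _
  have hy2 : ∀ h s, h ≠ 1 → y (h, s) = (h, s) := fun h s hh =>
    Equiv.Perm.prodExtendRight_apply_ne _ hh s
  refine ⟨θ, x, y, ?_, ?_, ?_⟩
  · intro a b hab
    have h1 := congrArg (fun e : Equiv.Perm (G × Fin 3) => (e (1, 0)).1) hab
    simpa [hθ] using h1
  · intro h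
    have h1 := congrArg (fun e : Equiv.Perm (G × Fin 3) => (e (1, 0)).2) h
    have h2 : ((x * y) (1, 0)).2 = 1 := by
      rw [Equiv.Perm.mul_apply, hy1, hx1]
      show (Equiv.swap (0 : Fin 3) 1) ((Equiv.swap (1 : Fin 3) 2) 0) = 1
      decide
    have h3 : ((y * x) (1, 0)).2 = 2 := by
      rw [Equiv.Perm.mul_apply, hx1, hy1]
      show (Equiv.swap (1 : Fin 3) 2) ((Equiv.swap (0 : Fin 3) 1) 0) = 2
      decide
    have h4 : (1 : Fin 3) = 2 := by rw [← h2, ← h3]; exact h1
    exact absurd h4 (by decide)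
  · intro g hg
    have hc1 : ∀ s, (θ g * x * (θ g)⁻¹) (g, s) = (g, Equiv.swap 0 1 s) := by
      intro s
      have h1 : (θ g)⁻¹ (g, s) = (1, s) := by
        rw [← map_inv, hθ, inv_mul_cancel]
      rw [Equiv.Perm.mul_apply, Equiv.Perm.mul_apply, h1, hx1, hθ, mul_one]
    have hc2 : ∀ h s, h ≠ g → (θ g * x * (θ g)⁻¹) (h, s) = (h, s) := by
      intro h s hh
      have h1 : (θ g)⁻¹ (h, s) = (g⁻¹ * h, s) := by
        rw [← map_inv, hθ]
      have h2 : g⁻¹ * h ≠ 1 := by
        intro h3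
        apply hh
        rw [inv_mul_eq_one] at h3
        exact h3.symm
      rw [Equiv.Perm.mul_apply, Equiv.Perm.mul_apply, h1, hx2 _ _ h2, hθ, mul_inv_cancel_left]
    have key : ∀ p : G × Fin 3, ((θ g * x * (θ g)⁻¹) * y) p = (y * (θ g * x * (θ g)⁻¹)) p := by
      rintro ⟨h, s⟩
      show (θ g * x * (θ g)⁻¹) (y (h, s)) = y ((θ g * x * (θ g)⁻¹) (h, s))
      by_cases hh : h = 1
      · subst hh
        rw [hc2 1 s (Ne.symm hg), hy1, hc2 1 _ (Ne.symm hg)]
      · rw [hy2 h s hh]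
        by_cases hhg : h = g
        · subst hhg
          rw [hc1, hy2 h _ hh]
        · rw [hc2 h s hhg, hy2 h s hh]
    exact Equiv.ext key

-- ##### final
open Pointwise in
theorem final_pow_mem {S : Type*} [Group S] (Q : Set S) (h1 : (1 : S) ∈ Q) {m n : ℕ} (hmn : m ≤ n)
    {x : S} (hx : x ∈ Q ^ m) : x ∈ Q ^ n :=
  Set.pow_subset_pow_right h1 hmn hx

open Pointwise in
theorem final_zpow_mem {S : Type*} [Group S] (Q : Set S) {x : S} (hx : x ∈ Q) (k : ℕ) :
    x ^ k ∈ Q ^ k := Set.pow_mem_pow hx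

open Pointwise in
theorem final_compact_pow {S : Type*} [Group S] [TopologicalSpace S] [IsTopologicalGroup S]
    (Q : Set S) (hQ : IsCompact Q) (n : ℕ) : IsCompact (Q ^ n) := by
  induction n with
  | zero => rw [pow_zero]; exact isCompact_singleton
  | succ n ih => rw [pow_succ]; exact ih.mul hQ

open Pointwise in
theorem main_thm {S : Type*} [Group S] [TopologicalSpace S] [IsTopologicalGroup S] [T2Space S]
    [LocallyCompactSpace S] [SecondCountableTopology S] :
    ∃ (G : Type) (_ : Group G), Group.FG G ∧ ∀ φ : G →* S, ¬ Function.Injective φ := by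
  classical
  let κ : CompactExhaustion S := default
  obtain ⟨U, hU⟩ := (nhds (1 : S)).exists_antitone_basis
  obtain ⟨n, ⟨e⟩⟩ : ∃ n : ℕ, Nonempty (Bool × Fin nlab ≃ Fin n) := ⟨_, ⟨Fintype.equivFin _⟩⟩
  have hn : 0 < n := by
    have : 0 < nlab := by unfold nlab; positivity
    have := (e (true, ⟨0, this⟩)).2
    omega
  let r : ℕ → ℕ := fun j => 4 * (n * (j + 1)) + 8
  have hbox : ∀ j : ℕ, ∃ (H : Type) (_ : Group H) (h : Bool × Fin nlab → H),
      Subgroup.closure (Set.range h) = ⊤ ∧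
      ¬ ∃ φ : H →* S, (∀ a, φ (h a) ∈ (insert 1 (κ j.unpair.1) : Set S) ^ (r j)) ∧
        ∀ x, φ x ∈ U j.unpair.2 → x = 1 := by
    intro j
    exact box _ _ (final_compact_pow _ ((κ.isCompact _).insert 1) _) (hU.mem _)
  choose H instH h hcl hno using hbox
  let C := (j : ℕ) → H j
  let g : (j : ℕ) → Fin n → C := fun j i => Pi.mulSingle j (h j (e.symm i))
  let c : ℕ → C := fun k => g (k / n) ⟨k % n, Nat.mod_lt _ hn⟩
  have hc : ∀ (j : ℕ) (i : Fin n), c (n * j + i) = g j i := by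
    intro j i
    have h1 : (n * j + i) / n = j := by
      rw [Nat.mul_add_div hn, Nat.div_eq_of_lt i.2, add_zero]
    have h2 : (⟨(n * j + i) % n, Nat.mod_lt _ hn⟩ : Fin n) = i := by
      apply Fin.ext
      show (n * j + (i : ℕ)) % n = i
      rw [Nat.mul_add_mod, Nat.mod_eq_of_lt i.2]
    show g ((n * j + i) / n) ⟨(n * j + i) % n, Nat.mod_lt _ hn⟩ = g j i
    rw [h1, h2]
  obtain ⟨a, b, f, ι, hι, hform⟩ := embed3 c
  let G₃ : Subgroup (Equiv.Perm (C × ℤ × ℤ)) := Subgroup.closure {a, b, f}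
  have ha : a ∈ G₃ := Subgroup.subset_closure (by simp)
  have hb : b ∈ G₃ := Subgroup.subset_closure (by simp)
  have hf : f ∈ G₃ := Subgroup.subset_closure (by simp)
  have hck : ∀ k : ℕ, ι (c k) ∈ G₃ := by
    intro k
    rw [hform]
    have h1 : (b ^ (k : ℤ))⁻¹ * f * b ^ (k : ℤ) ∈ G₃ :=
      G₃.mul_mem (G₃.mul_mem (G₃.inv_mem (G₃.zpow_mem hb _)) hf) (G₃.zpow_mem hb _)
    exact G₃.mul_mem (G₃.mul_mem (G₃.mul_mem h1 ha) (G₃.inv_mem h1)) (G₃.inv_mem ha)
  have hmem : ∀ (j : ℕ) (x : H j), ι (Pi.mulSingle j x) ∈ G₃ := by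
    intro j x
    have hx : x ∈ Subgroup.closure (Set.range (h j)) := by rw [hcl]; trivial
    induction hx using Subgroup.closure_induction with
    | mem x hx =>
      obtain ⟨a', rfl⟩ := hx
      have := hck (n * j + e a')
      rw [hc] at this
      simpa [g] using this
    | one => rw [Pi.mulSingle_one, map_one]; exact G₃.one_mem
    | mul x y _ _ hx hy => rw [Pi.mulSingle_mul, map_mul]; exact G₃.mul_mem hx hy
    | inv x _ hx => rw [Pi.mulSingle_inv, map_inv]; exact G₃.inv_mem hx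
  obtain ⟨θ, x, y, hθ, hxy, hcomm⟩ := wreath G₃
  let a3 : G₃ := ⟨a, ha⟩
  let b3 : G₃ := ⟨b, hb⟩
  let f3 : G₃ := ⟨f, hf⟩
  let gens : Set (Equiv.Perm (G₃ × Fin 3)) := {θ a3, θ b3, θ f3, x, y}
  let G : Subgroup (Equiv.Perm (G₃ × Fin 3)) := Subgroup.closure gens
  have hfin : Finite gens := Set.Finite.to_subtype (by simp [gens])
  have hx : x ∈ G := Subgroup.subset_closure (by simp [gens])
  have hy : y ∈ G := Subgroup.subset_closure (by simp [gens])
  have hθG : ∀ z : G₃, θ z ∈ G := by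
    rintro ⟨z, hz⟩
    induction hz using Subgroup.closure_induction with
    | mem w hw =>
      apply Subgroup.subset_closure
      simp only [Set.mem_insert_iff, Set.mem_singleton_iff] at hw
      rcases hw with rfl | rfl | rfl
      · simp [gens, a3]
      · simp [gens, b3]
      · simp [gens, f3]
    | one => 
      have : θ (⟨1, G₃.one_mem⟩ : G₃) = 1 := map_one θ
      rw [this]; exact G.one_mem
    | mul u v hu hv hu' hv' =>
      have : θ (⟨u * v, G₃.mul_mem hu hv⟩ : G₃) = θ ⟨u, hu⟩ * θ ⟨v, hv⟩ := by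
        rw [← map_mul]; rfl
      rw [this]; exact G.mul_mem hu' hv'
    | inv u hu hu' =>
      have : θ (⟨u⁻¹, G₃.inv_mem hu⟩ : G₃) = (θ ⟨u, hu⟩)⁻¹ := by
        rw [← map_inv]; rfl
      rw [this]; exact G.inv_mem hu'
  refine ⟨G, inferInstance, Group.closure_finite_fg gens, ?_⟩
  intro φ hφ
  let Θ : G₃ →* G := θ.codRestrict G hθG
  let X : S := φ ⟨x, hx⟩
  let Z : S := φ ⟨y, hy⟩
  let W' : Set S := {s | s * X * s⁻¹ * Z ≠ Z * (s * X * s⁻¹)}
  have hW'o : IsOpen W' := isOpen_ne_fun (by fun_prop) (by fun_prop)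
  have hW'1 : (1 : S) ∈ W' := by
    show (1 : S) * X * 1⁻¹ * Z ≠ Z * (1 * X * 1⁻¹)
    rw [one_mul, inv_one, mul_one]
    intro h0
    apply hxy
    have h1 : φ (⟨x, hx⟩ * ⟨y, hy⟩) = φ (⟨y, hy⟩ * ⟨x, hx⟩) := by
      rw [map_mul, map_mul]; exact h0
    exact congrArg Subtype.val (hφ h1)
  obtain ⟨m2, hm2⟩ := hU.mem_iff.1 (hW'o.mem_nhds hW'1)
  have hW'G : ∀ z : G₃, φ (Θ z) ∈ W' → z = 1 := by
    intro z hz
    by_contra hz1
    apply hz
    have h0 := hcomm z hz1
    have h1 : Θ z * ⟨x, hx⟩ * (Θ z)⁻¹ * ⟨y, hy⟩ = ⟨y, hy⟩ * (Θ z * ⟨x, hx⟩ * (Θ z)⁻¹) := by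
      apply Subtype.ext
      exact h0
    have h2 := congrArg φ h1
    simp only [map_mul, map_inv] at h2
    exact h2
  let sA : S := φ (Θ a3)
  let sB : S := φ (Θ b3)
  let sF : S := φ (Θ f3)
  obtain ⟨m1, hm1⟩ := κ.exists_superset_of_isCompact
    (s := ({sA, sB, sF, sA⁻¹, sB⁻¹, sF⁻¹} : Set S)) (Set.Finite.isCompact (by simp))
  let j : ℕ := Nat.pair m1 m2
  have hj1 : j.unpair.1 = m1 := by simp [j]
  have hj2 : j.unpair.2 = m2 := by simp [j]
  let ψ : H j →* S := φ.comp (Θ.comp ((ι.comp (MonoidHom.mulSingle (fun j => H j) j)).codRestrict G₃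
    (fun z => hmem j z)))
  apply hno j
  refine ⟨ψ, ?_, ?_⟩
  · intro a'
    rw [hj1]
    set Q : Set S := insert 1 (κ m1) with hQ
    have hQ1 : (1 : S) ∈ Q := by simp [hQ]
    have q : ∀ s ∈ ({sA, sB, sF, sA⁻¹, sB⁻¹, sF⁻¹} : Set S), s ∈ Q := fun s hs => by
      rw [hQ]; exact Set.mem_insert_of_mem _ (hm1 hs)
    have qA := q sA (by simp)
    have qB := q sB (by simp)
    have qF := q sF (by simp)
    have qA' := q sA⁻¹ (by simp)
    have qB' := q sB⁻¹ (by simp)
    have qF' := q sF⁻¹ (by simp)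
    let k : ℕ := n * j + e a'
    have hk : 4 * k + 4 ≤ r j := by
      have := (e a').2
      show 4 * (n * j + (e a' : ℕ)) + 4 ≤ 4 * (n * (j + 1)) + 8
      nlinarith
    have hval : ψ (h j a') = (sB ^ k)⁻¹ * sF * sB ^ k * sA * ((sB ^ k)⁻¹ * sF * sB ^ k)⁻¹ * sA⁻¹ := by
      have h1 : ((ι.comp (MonoidHom.mulSingle (fun j => H j) j)).codRestrict G₃
          (fun z => hmem j z)) (h j a') =
          (b3 ^ k)⁻¹ * f3 * b3 ^ k * a3 * ((b3 ^ k)⁻¹ * f3 * b3 ^ k)⁻¹ * a3⁻¹ := by
        apply Subtype.ext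
        have h2 := hform k
        have h3 : c k = Pi.mulSingle j (h j a') := by
          show c (n * j + e a') = _
          rw [hc]
          simp [g]
        rw [h3] at h2
        show ι (Pi.mulSingle j (h j a')) = _
        rw [h2]
        simp only [zpow_natCast]
        rfl
      show φ (Θ _) = _
      rw [h1]
      simp only [map_mul, map_inv, map_pow]
      rfl
    rw [hval]
    apply final_pow_mem Q hQ1 hk
    have e1 : (sB ^ k)⁻¹ ∈ Q ^ k := by rw [← inv_pow]; exact final_zpow_mem Q qB' k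
    have e2 : sB ^ k ∈ Q ^ k := final_zpow_mem Q qB k
    have p1 : ∀ s ∈ Q, s ∈ Q ^ 1 := fun s hs => by rw [pow_one]; exact hs
    have e3 : (sB ^ k)⁻¹ * sF * sB ^ k ∈ Q ^ (k + 1 + k) := by
      rw [pow_add, pow_add]
      exact Set.mul_mem_mul (Set.mul_mem_mul e1 (p1 _ qF)) e2
    have e4 : ((sB ^ k)⁻¹ * sF * sB ^ k)⁻¹ ∈ Q ^ (k + 1 + k) := by
      have : ((sB ^ k)⁻¹ * sF * sB ^ k)⁻¹ = (sB ^ k)⁻¹ * sF⁻¹ * sB ^ k := by group
      rw [this, pow_add, pow_add]
      exact Set.mul_mem_mul (Set.mul_mem_mul e1 (p1 _ qF')) e2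
    have e5 : 4 * k + 4 = (k + 1 + k) + 1 + (k + 1 + k) + 1 := by ring
    rw [e5, pow_add, pow_add, pow_add]
    exact Set.mul_mem_mul (Set.mul_mem_mul (Set.mul_mem_mul e3 (p1 _ qA)) e4) (p1 _ qA')
  · intro z hz
    rw [hj2] at hz
    have h1 := hW'G _ (hm2 hz)
    have h2 : ι (Pi.mulSingle j z) = 1 := congrArg Subtype.val h1
    have h3 : (Pi.mulSingle j z : C) = 1 := hι (by rw [h2, map_one])
    simpa using h3

end Pool.Agent.LCU
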